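import Mathlib

/-!
MP_1b5989_lc, module SMACH: finite multi-stack machines with undecidable halting on the inputs
`a1^n a2` (from Mathlib's `Turing.PartrecToTM2`).
-/

namespace Star60

/-- stack operations -/
inductive SOp (A : Type) where
  | stay : SOp A
  | pop : SOp A
  | push : A → SOp A

def SOp.app {A : Type} : SOp A → List A → List A
  | .stay, l => l
  | .pop, l => l.tail
  | .push a, l => a :: l

/-- finite multi-stack machines; each step changes one stack -/
structure SM where
  κ : Type
  A : Type
  C : Type
  fκ : Fintype κ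
  dκ : DecidableEq κ
  fA : Fintype A
  dA : DecidableEq A
  fC : Fintype C
  dC : DecidableEq C
  c0 : C
  main : κ
  a1 : A
  a2 : A
  step : C → (κ → Option A) → Option (C × κ × SOp A)

instance (M : SM) : DecidableEq M.κ := M.dκ
instance (M : SM) : Fintype M.κ := M.fκ
instance (M : SM) : DecidableEq M.A := M.dA
instance (M : SM) : Fintype M.A := M.fA
instance (M : SM) : DecidableEq M.C := M.dC
instance (M : SM) : Fintype M.C := M.fC

def SM.next (M : SM) (c : M.C × (M.κ → List M.A)) : Option (M.C × (M.κ → List M.A)) :=
  (M.step c.1 (fun k => (c.2 k).head?)).map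
    (fun r => (r.1, Function.update c.2 r.2.1 (r.2.2.app (c.2 r.2.1))))

def SM.start (M : SM) (n : ℕ) : M.C × (M.κ → List M.A) :=
  (M.c0, Function.update (fun _ => []) M.main (List.replicate n M.a1 ++ [M.a2]))

/-- the machine runs forever on input `n` -/
def SM.Forever (M : SM) (n : ℕ) : Prop :=
  ∃ f : ℕ → M.C × (M.κ → List M.A), f 0 = M.start n ∧ ∀ t, M.next (f t) = some (f (t + 1))


namespace SMAux

open Turing Turing.PartrecToTM2 StateTransition

/-- statements of the Mathlib machine -/
abbrev St := TM2.Stmt (fun _ : K' => Γ') Λ' (Option Γ')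

/-- the Mathlib machine, with the type of statements unfolded -/
def trA (l : Λ') : St := tr l

/-- micro steps of TM2 statements -/
def raw : Option St × Option Γ' → (K' → Option Γ') → Option ((Option St × Option Γ') × K' × SOp Γ')
  | (none, _), _ => none
  | (some (.push k f q), s), _ => some ((some q, s), k, .push (f s))
  | (some (.peek k f q), s), h => some ((some q, f s (h k)), k, .stay)
  | (some (.pop k f q), s), h => some ((some q, f s (h k)), k, .pop)
  | (some (.load a q), s), _ => some ((some q, a s), .main, .stay)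
  | (some (.branch p q1 q2), s), _ => some ((some (cond (p s) q1 q2), s), .main, .stay)
  | (some (.goto l), s), _ => some ((some (trA (l s)), s), .main, .stay)
  | (some .halt, s), _ => some ((none, s), .main, .stay)

abbrev RC := (Option St × Option Γ') × (K' → List Γ')

def rnext (c : RC) : Option RC :=
  (raw c.1 (fun k => (c.2 k).head?)).map
    (fun r => (r.1, Function.update c.2 r.2.1 (r.2.2.app (c.2 r.2.1))))

def conf (c : TM2.Cfg (fun _ : K' => Γ') Λ' (Option Γ')) : RC := ((c.l.map trA, c.var), c.stk)

theorem reaches_stmt (q : St) : ∀ (v : Option Γ') (S : K' → List Γ'),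
    Reaches₁ rnext ((some q, v), S) (conf (TM2.stepAux q v S)) := by
  induction q with
  | push k f q ih =>
    intro v S
    refine Relation.TransGen.head ?_ (ih v (Function.update S k (f v :: S k)))
    simp [rnext, raw, SOp.app]
  | peek k f q ih =>
    intro v S
    refine Relation.TransGen.head ?_ (ih (f v (S k).head?) S)
    simp [rnext, raw, SOp.app]
  | pop k f q ih =>
    intro v S
    refine Relation.TransGen.head ?_ (ih (f v (S k).head?) (Function.update S k (S k).tail))
    simp [rnext, raw, SOp.app]
  | load a q ih =>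
    intro v S
    refine Relation.TransGen.head ?_ (ih (a v) S)
    simp [rnext, raw, SOp.app]
  | branch p q1 q2 ih1 ih2 =>
    intro v S
    cases h : p v
    · have h2 := ih2 v S
      have : TM2.stepAux (TM2.Stmt.branch p q1 q2) v S = TM2.stepAux q2 v S := by
        simp [TM2.stepAux, h]
      rw [this]
      refine Relation.TransGen.head ?_ h2
      simp [rnext, raw, SOp.app, h]
    · have h1 := ih1 v S
      have : TM2.stepAux (TM2.Stmt.branch p q1 q2) v S = TM2.stepAux q1 v S := by
        simp [TM2.stepAux, h]
      rw [this]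
      refine Relation.TransGen.head ?_ h1
      simp [rnext, raw, SOp.app, h]
  | goto l =>
    intro v S
    refine Relation.TransGen.single ?_
    simp only [rnext, raw, SOp.app, conf, TM2.stepAux, Option.map_some, Function.update_eq_self,
      Option.mem_def]
  | halt =>
    intro v S
    refine Relation.TransGen.single ?_
    simp only [rnext, raw, SOp.app, conf, TM2.stepAux, Option.map_some, Option.map_none,
      Function.update_eq_self, Option.mem_def]

theorem respects1 : Respects (TM2.step trA) rnext (fun a b => conf a = b) := by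
  rw [fun_respects]
  rintro ⟨l, v, S⟩
  cases l with
  | none => simp only [TM2.step, FRespects, conf, rnext, Option.map_none]; rfl
  | some l =>
    simp only [TM2.step, FRespects]
    exact reaches_stmt (trA l) v S

theorem dom1 (a : TM2.Cfg (fun _ : K' => Γ') Λ' (Option Γ')) :
    (eval rnext (conf a)).Dom ↔ (eval (TM2.step trA) a).Dom :=
  tr_eval_dom respects1 rfl

instance : Fintype K' where
  elems := {.main, .rev, .aux, .stack}
  complete := by intro x; cases x <;> simp

/-- the set of statements -/
noncomputable def T (c : ToPartrec.Code) : Finset (Option St) :=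
  TM2.stmts trA (codeSupp c Cont'.halt)

theorem raw_mem (c : ToPartrec.Code) (x : Option St × Option Γ') (h : K' → Option Γ')
    (hx : x.1 ∈ T c) (y : (Option St × Option Γ') × K' × SOp Γ') (hy : raw x h = some y) :
    y.1.1 ∈ T c := by
  obtain ⟨q, s⟩ := x
  cases q with
  | none => simp [raw] at hy
  | some q =>
    cases q with
    | push k f q =>
      simp only [raw, Option.some.injEq] at hy
      subst hy
      refine TM2.stmts_trans ?_ hx
      simp [TM2.stmts₁, TM2.stmts₁_self]
    | peek k f q =>
      simp only [raw, Option.some.injEq] at hy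
      subst hy
      refine TM2.stmts_trans ?_ hx
      simp [TM2.stmts₁, TM2.stmts₁_self]
    | pop k f q =>
      simp only [raw, Option.some.injEq] at hy
      subst hy
      refine TM2.stmts_trans ?_ hx
      simp [TM2.stmts₁, TM2.stmts₁_self]
    | load a q =>
      simp only [raw, Option.some.injEq] at hy
      subst hy
      refine TM2.stmts_trans ?_ hx
      simp [TM2.stmts₁, TM2.stmts₁_self]
    | branch p q1 q2 =>
      simp only [raw, Option.some.injEq] at hy
      subst hy
      refine TM2.stmts_trans ?_ hx
      cases p s <;> simp [TM2.stmts₁, TM2.stmts₁_self]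
    | goto l =>
      simp only [raw, Option.some.injEq] at hy
      subst hy
      have hs : TM2.SupportsStmt (codeSupp c Cont'.halt) (TM2.Stmt.goto l : St) :=
        @TM2.stmts_supportsStmt _ _ _ _ ⟨trNormal c Cont'.halt⟩ trA _ _
          (tr_supports c Cont'.halt) hx
      have hl : l s ∈ codeSupp c Cont'.halt := hs s
      simp only [T, TM2.stmts, Finset.mem_insertNone, Finset.mem_biUnion, Option.mem_def]
      rintro a ha
      obtain rfl := Option.some.inj ha
      exact ⟨_, hl, TM2.stmts₁_self⟩
    | halt =>
      simp only [raw, Option.some.injEq] at hy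
      subst hy
      simp [T, TM2.stmts]

theorem start_mem (c : ToPartrec.Code) : (some (trA (trNormal c Cont'.halt)) : Option St) ∈ T c := by
  simp only [T, TM2.stmts, Finset.mem_insertNone, Finset.mem_biUnion, Option.mem_def]
  rintro a ha
  obtain rfl := Option.some.inj ha
  exact ⟨_, (tr_supports c Cont'.halt).1, TM2.stmts₁_self⟩

/-- finite control -/
abbrev FC (c : ToPartrec.Code) : Type := {x : Option St × Option Γ' // x.1 ∈ T c}

open Classical in
/-- the step function -/
noncomputable def mstep (c : ToPartrec.Code) (x : FC c) (h : K' → Option Γ') :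
    Option (FC c × K' × SOp Γ') :=
  match raw x.1 h with
  | none => none
  | some (y, k, o) => if hy : y.1 ∈ T c then some (⟨y, hy⟩, k, o) else none

theorem mstep_none (c : ToPartrec.Code) (x : FC c) (h : K' → Option Γ') (hr : raw x.1 h = none) :
    mstep c x h = none := by
  simp only [mstep, hr]

theorem mstep_some (c : ToPartrec.Code) (x : FC c) (h : K' → Option Γ')
    (y : Option St × Option Γ') (k : K') (o : SOp Γ') (hr : raw x.1 h = some (y, k, o)) :
    mstep c x h = some (⟨y, raw_mem c x.1 _ x.2 _ hr⟩, k, o) := by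
  simp only [mstep, hr]
  rw [dif_pos]

open Classical in
/-- the machine of a code -/
noncomputable def mach (c : ToPartrec.Code) : SM where
  κ := K'
  A := Γ'
  C := FC c
  fκ := inferInstance
  dκ := inferInstance
  fA := inferInstance
  dA := inferInstance
  fC := Fintype.ofInjective (fun x : FC c => ((⟨x.1.1, x.2⟩, x.1.2) : (T c) × Option Γ')) (by
      rintro ⟨⟨a, b⟩, h⟩ ⟨⟨a', b'⟩, h'⟩ hh
      simp only [Prod.mk.injEq, Subtype.mk.injEq] at hh
      obtain ⟨rfl, rfl⟩ := hh
      rfl)
  dC := inferInstance
  c0 := ⟨(some (trA (trNormal c Cont'.halt)), none), start_mem c⟩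
  main := K'.main
  a1 := Γ'.bit1
  a2 := Γ'.cons
  step := mstep c

/-- one step of the finite machine -/
noncomputable def mnext (c : ToPartrec.Code) (a : FC c × (K' → List Γ')) :
    Option (FC c × (K' → List Γ')) :=
  (mstep c a.1 (fun k => (a.2 k).head?)).map
    (fun r => (r.1, Function.update a.2 r.2.1 (r.2.2.app (a.2 r.2.1))))

theorem mnext_eq (c : ToPartrec.Code) : (mach c).next = mnext c := rfl

theorem respects2 (c : ToPartrec.Code) :
    Respects (mnext c) rnext (fun a b => ((a.1.1, a.2) : RC) = b) := by
  rw [fun_respects]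
  rintro ⟨x, S⟩
  cases hr : raw x.1 (fun k => (S k).head?) with
  | none =>
    have h1 : mnext c (x, S) = none := by
      simp only [mnext, mstep_none c x _ hr, Option.map_none]
    rw [h1]
    simp only [FRespects, rnext, hr, Option.map_none]
  | some y =>
    obtain ⟨y, k, o⟩ := y
    have h1 : mnext c (x, S) = some (⟨y, raw_mem c x.1 _ x.2 _ hr⟩,
        Function.update S k (o.app (S k))) := by
      simp only [mnext, mstep_some c x _ _ _ _ hr, Option.map_some]
    rw [h1]
    refine Relation.TransGen.single ?_
    simp only [rnext, hr, Option.map_some, Option.mem_def]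

theorem dom2 (c : ToPartrec.Code) (a : FC c × (K' → List Γ')) :
    (eval rnext ((a.1.1, a.2) : RC)).Dom ↔ (eval (mnext c) a).Dom :=
  tr_eval_dom (respects2 c) rfl

theorem forever_iff (M : SM) (n : ℕ) : M.Forever n ↔ ¬ (eval M.next (M.start n)).Dom := by
  constructor
  · rintro ⟨f, h0, hf⟩ hd
    obtain ⟨hr, hn⟩ := mem_eval.1 (Part.get_mem hd)
    have key : ∀ b, Reaches M.next (M.start n) b → ∃ t, b = f t := by
      intro b hb
      induction hb with
      | refl => exact ⟨0, h0.symm⟩
      | tail _ hbc ih =>
        obtain ⟨t, rfl⟩ := ih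
        refine ⟨t + 1, ?_⟩
        have := hf t
        rw [Option.mem_def, this] at hbc
        exact (Option.some.inj hbc).symm
    obtain ⟨t, ht⟩ := key _ hr
    rw [ht, hf t] at hn
    exact absurd hn (by simp)
  · intro hd
    have hne : ∀ b, Reaches M.next (M.start n) b → M.next b ≠ none := by
      intro b hb hn
      exact hd (Part.dom_iff_mem.2 ⟨b, mem_eval.2 ⟨hb, hn⟩⟩)
    let f : ℕ → M.C × (M.κ → List M.A) := fun t =>
      Nat.rec (M.start n) (fun _ b => (M.next b).getD b) t
    have hf : ∀ t, f (t + 1) = (M.next (f t)).getD (f t) := fun t => rfl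
    have hr : ∀ t, Reaches M.next (M.start n) (f t) ∧ M.next (f t) = some (f (t + 1)) := by
      intro t
      induction t with
      | zero =>
        refine ⟨Relation.ReflTransGen.refl, ?_⟩
        rw [hf]
        have := hne _ Relation.ReflTransGen.refl
        obtain ⟨y, hy⟩ := Option.ne_none_iff_exists'.1 this
        have h0 : f 0 = M.start n := rfl
        rw [h0, hy]
        rfl
      | succ t ih =>
        have h1 : Reaches M.next (M.start n) (f (t + 1)) := ih.1.tail ih.2
        refine ⟨h1, ?_⟩
        rw [hf (t + 1)]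
        obtain ⟨y, hy⟩ := Option.ne_none_iff_exists'.1 (hne _ h1)
        rw [hy]
        rfl
    exact ⟨f, rfl, fun t => (hr t).2⟩

/-- `2 ^ (n + 1) - 1` -/
def pn : ℕ → PosNum
  | 0 => .one
  | n + 1 => .bit1 (pn n)

theorem pn_val (n : ℕ) : ((pn n : PosNum) : ℕ) = 2 ^ (n + 1) - 1 := by
  induction n with
  | zero => rfl
  | succ n ih =>
    rw [pn, PosNum.cast_bit1, ih]
    have : 1 ≤ 2 ^ (n + 1) := Nat.one_le_two_pow
    rw [pow_succ 2 (n + 1)]
    omega

theorem pn_tr (n : ℕ) : trPosNum (pn n) = List.replicate (n + 1) Γ'.bit1 := by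
  induction n with
  | zero => rfl
  | succ n ih => rw [pn, trPosNum, ih]; rfl

theorem tr_input (n : ℕ) : trList [2 ^ n - 1] = List.replicate n Γ'.bit1 ++ [Γ'.cons] := by
  cases n with
  | zero => simp [trList]
  | succ n =>
    have h : ((2 ^ (n + 1) - 1 : ℕ) : Num) = Num.pos (pn n) := by
      rw [← pn_val n]
      exact Num.of_to_nat (Num.pos (pn n))
    simp only [trList, trNat, h, trNum, pn_tr]

/-- start configuration -/
noncomputable def mstart (c : ToPartrec.Code) (n : ℕ) : FC c × (K' → List Γ') :=
  (⟨(some (trA (trNormal c Cont'.halt)), none), start_mem c⟩,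
    Function.update (fun _ => []) K'.main (List.replicate n Γ'.bit1 ++ [Γ'.cons]))

theorem mstart_eq (c : ToPartrec.Code) (n : ℕ) : (mach c).start n = mstart c n := rfl

/-- start configuration of the Mathlib machine -/
def initA (c : ToPartrec.Code) (v : List ℕ) : TM2.Cfg (fun _ : K' => Γ') Λ' (Option Γ') :=
  ⟨some (trNormal c Cont'.halt), none, K'.elim (trList v) [] [] []⟩

theorem start_eq (c : ToPartrec.Code) (n : ℕ) :
    (((mstart c n).1.1, (mstart c n).2) : RC) = conf (initA c [2 ^ n - 1]) := by
  have h : (Function.update (fun _ => []) K'.main (List.replicate n Γ'.bit1 ++ [Γ'.cons]) :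
      K' → List Γ') = K'.elim (trList [2 ^ n - 1]) [] [] [] := by
    rw [tr_input]
    funext k
    cases k <;> simp [Function.update, K'.elim]
  simp only [mstart, conf, initA, h]
  rfl

theorem evalA (c : ToPartrec.Code) (v : List ℕ) :
    (eval (TM2.step trA) (initA c v)).Dom ↔ (c.eval v).Dom := by
  have h : eval (TM2.step trA) (initA c v) = halt <$> ToPartrec.Code.eval c v := tr_eval c v
  rw [h]
  rfl

theorem forever_mach (c : ToPartrec.Code) (n : ℕ) :
    (mach c).Forever n ↔ ¬ (c.eval [2 ^ n - 1]).Dom := by
  rw [forever_iff, mnext_eq, mstart_eq]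
  have h1 := dom2 c (mstart c n)
  rw [start_eq] at h1
  have h2 := dom1 (initA c [2 ^ n - 1])
  have h3 := evalA c [2 ^ n - 1]
  exact not_congr (h1.symm.trans (h2.trans h3))

/-- base 2 logarithm of `m + 1` -/
def lg (m : ℕ) : ℕ := (m + 1).findGreatest (fun k => 2 ^ k ≤ m + 1)

theorem lg_prim : Primrec lg := by
  have hpow : Primrec₂ (fun a b : ℕ => a ^ b) := Primrec₂.unpaired'.1 Nat.Primrec.pow
  refine Primrec.nat_findGreatest (p := fun m k => 2 ^ k ≤ m + 1) Primrec.succ ?_
  exact Primrec.nat_le.comp (hpow.comp (Primrec.const 2) Primrec.snd)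
    (Primrec.succ.comp Primrec.fst)

theorem lg_eq (n : ℕ) : lg (2 ^ n - 1) = n := by
  have h1 : 1 ≤ 2 ^ n := Nat.one_le_two_pow
  have h2 : 2 ^ n - 1 + 1 = 2 ^ n := by omega
  unfold lg
  rw [h2, Nat.findGreatest_eq_iff]
  refine ⟨Nat.lt_two_pow_self.le, fun _ => le_rfl, fun k hk _ hle => ?_⟩
  have := (Nat.pow_le_pow_iff_right (by norm_num : 1 < 2)).1 hle
  omega

theorem exists_code_log : ∃ c : ToPartrec.Code, ∀ n : ℕ,
    (c.eval [2 ^ n - 1]).Dom ↔
      (Nat.Partrec.Code.eval (Denumerable.ofNat Nat.Partrec.Code n) 0).Dom := by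
  let f : ℕ →. ℕ := fun m => Nat.Partrec.Code.eval (Denumerable.ofNat Nat.Partrec.Code (lg m)) 0
  have hf : Partrec f := by
    refine Nat.Partrec.Code.eval_part.comp ?_ (Computable.const 0)
    exact (Computable.ofNat Nat.Partrec.Code).comp lg_prim.to_comp
  have hf' : Nat.Partrec' (n := 1) (fun v => f v.head) := Nat.Partrec'.part_iff₁.2 hf
  obtain ⟨c, hc⟩ := ToPartrec.Code.exists_code hf'
  refine ⟨c, fun n => ?_⟩
  have h := hc ⟨[2 ^ n - 1], rfl⟩
  have h2 : c.eval [2 ^ n - 1] = pure <$> f (2 ^ n - 1) := h
  rw [h2]
  have h3 : f (2 ^ n - 1) =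
      Nat.Partrec.Code.eval (Denumerable.ofNat Nat.Partrec.Code n) 0 := by
    simp only [f, lg_eq]
  rw [h3]
  rfl

end SMAux

theorem exists_SM : ∃ M : SM, ¬ ComputablePred (fun n => M.Forever n) := by
  obtain ⟨c, hc⟩ := SMAux.exists_code_log
  refine ⟨SMAux.mach c, fun h => ?_⟩
  have h2 : ComputablePred (fun n : ℕ =>
      (Nat.Partrec.Code.eval (Denumerable.ofNat Nat.Partrec.Code n) 0).Dom) := by
    have h3 := h.not
    have : (fun n : ℕ => ¬ (SMAux.mach c).Forever n) = (fun n : ℕ =>
      (Nat.Partrec.Code.eval (Denumerable.ofNat Nat.Partrec.Code n) 0).Dom) := by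
      funext n
      rw [SMAux.forever_mach, hc, not_not]
    rw [this] at h3
    exact h3
  have h4 : ComputablePred (fun c : Nat.Partrec.Code => (Nat.Partrec.Code.eval c 0).Dom) := by
    obtain ⟨f, hf, hfe⟩ := ComputablePred.computable_iff.1 h2
    refine ComputablePred.computable_iff.2 ⟨fun c => f (Encodable.encode c),
      hf.comp Computable.encode, ?_⟩
    funext c
    have := congrFun hfe (Encodable.encode c)
    rw [Denumerable.ofNat_encode] at this
    exact this
  exact ComputablePred.halting_problem 0 h4

end Star60
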