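import Mathlib

/-!
MP_1b5989_lc, module REG: closure properties of regular languages that are not in Mathlib.
All languages over arbitrary types unless stated otherwise.
-/

namespace Star60

open Language

/-- if all left quotients are unions of members of a finite family then the language is regular -/
theorem isRegular_of_family {α : Type} (T : Language α) (F : Set (Language α)) (hF : F.Finite)
    (h : ∀ x : List α, ∃ G ⊆ F, ∀ y : List α, x ++ y ∈ T ↔ ∃ A ∈ G, y ∈ A) : T.IsRegular := by
  apply IsRegular.of_finite_range_leftQuotient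
  have h1 : (Set.powerset F).Finite := hF.finite_subsets
  refine (h1.image (fun G : Set (Language α) => ({y | ∃ A ∈ G, y ∈ A} : Language α))).subset ?_
  rintro _ ⟨x, rfl⟩
  obtain ⟨G, hG, hx⟩ := h x
  refine ⟨G, hG, ?_⟩
  ext y
  exact (hx y).symm

/-- all left quotients are in a finite family -/
theorem isRegular_of_index {α ι : Type} [Finite ι] (T : Language α) (A : ι → Language α)
    (h : ∀ x : List α, ∃ i, ∀ y : List α, x ++ y ∈ T ↔ y ∈ A i) : T.IsRegular := by
  refine isRegular_of_family T (Set.range A) (Set.finite_range A) ?_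
  intro x
  obtain ⟨i, hi⟩ := h x
  refine ⟨{A i}, by rintro _ rfl; exact ⟨i, rfl⟩, ?_⟩
  intro y
  rw [hi]
  constructor
  · intro hy
    exact ⟨A i, rfl, hy⟩
  · rintro ⟨B, hB, hy⟩
    rw [Set.mem_singleton_iff] at hB
    rwa [hB] at hy

theorem isRegular_leftQuotient {α : Type} {T : Language α} (h : T.IsRegular) (x : List α) :
    (T.leftQuotient x).IsRegular := by
  apply IsRegular.of_finite_range_leftQuotient
  refine h.finite_range_leftQuotient.subset ?_
  rintro _ ⟨y, rfl⟩
  exact ⟨x ++ y, leftQuotient_append _ _ _⟩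

theorem isRegular_mul {α : Type} {T U : Language α} (hT : T.IsRegular) (hU : U.IsRegular) :
    (T * U).IsRegular := by
  refine isRegular_of_family (T * U)
    ((fun T' => T' * U) '' (Set.range T.leftQuotient) ∪ Set.range U.leftQuotient)
    ((hT.finite_range_leftQuotient.image _).union hU.finite_range_leftQuotient) ?_
  intro x
  refine ⟨{T.leftQuotient x * U} ∪ {B | ∃ p c, x = p ++ c ∧ p ∈ T ∧ B = U.leftQuotient c}, ?_, ?_⟩
  · rintro B (hB | ⟨p, c, _, _, rfl⟩)
    · left
      rw [Set.mem_singleton_iff] at hB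
      exact ⟨_, ⟨x, rfl⟩, hB.symm⟩
    · right
      exact ⟨c, rfl⟩
  · intro y
    constructor
    · intro hxy
      rw [Language.mem_mul] at hxy
      obtain ⟨p, hp, q, hq, he⟩ := hxy
      rcases List.append_eq_append_iff.1 he with ⟨c, h1, h2⟩ | ⟨c, h1, h2⟩
      · -- x = p ++ c, q = c ++ y
        refine ⟨U.leftQuotient c, Or.inr ⟨p, c, h1, hp, rfl⟩, ?_⟩
        rw [mem_leftQuotient, ← h2]
        exact hq
      · refine ⟨T.leftQuotient x * U, Or.inl rfl, ?_⟩
        rw [Language.mem_mul]
        refine ⟨c, ?_, q, hq, h2.symm⟩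
        rw [mem_leftQuotient, ← h1]
        exact hp
    · rintro ⟨B, hB | ⟨p, c, rfl, hp, rfl⟩, hy⟩
      · rw [Set.mem_singleton_iff] at hB
        rw [hB, Language.mem_mul] at hy
        obtain ⟨c, hc, q, hq, rfl⟩ := hy
        rw [mem_leftQuotient] at hc
        rw [← List.append_assoc]
        exact Language.mem_mul.2 ⟨_, hc, q, hq, rfl⟩
      · rw [mem_leftQuotient] at hy
        rw [List.append_assoc]
        exact Language.mem_mul.2 ⟨p, hp, _, hy, rfl⟩

theorem isRegular_finite {α : Type} (T : Language α) (hT : (T : Set (List α)).Finite) :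
    T.IsRegular := by
  apply IsRegular.of_finite_range_leftQuotient
  have h1 : (⋃ w ∈ (T : Set (List α)), {y : List α | y <:+ w}).Finite := by
    refine hT.biUnion ?_
    intro w _
    refine (List.finite_toSet w.tails).subset ?_
    intro y hy
    exact (List.mem_tails _ _).2 hy
  refine (h1.finite_subsets).subset ?_
  rintro _ ⟨x, rfl⟩
  intro y hy
  have hy' : x ++ y ∈ T := hy
  simp only [Set.mem_iUnion]
  exact ⟨x ++ y, hy', List.suffix_append _ _⟩

theorem isRegular_iUnion {α ι : Type} [Finite ι] (T : ι → Language α) (h : ∀ i, (T i).IsRegular) :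
    Language.IsRegular ({w | ∃ i, w ∈ T i} : Language α) := by
  refine isRegular_of_family _ (⋃ i, Set.range (T i).leftQuotient)
    (Set.finite_iUnion fun i => (h i).finite_range_leftQuotient) ?_
  intro x
  refine ⟨{B | ∃ i, B = (T i).leftQuotient x}, ?_, ?_⟩
  · rintro B ⟨i, rfl⟩
    exact Set.mem_iUnion.2 ⟨i, x, rfl⟩
  · intro y
    constructor
    · rintro ⟨i, hi⟩
      exact ⟨_, ⟨i, rfl⟩, hi⟩
    · rintro ⟨_, ⟨i, rfl⟩, hi⟩
      exact ⟨i, hi⟩

/-- inverse image under a map compatible with concatenation -/
theorem isRegular_comap_hom {α β : Type} (φ : List α → List β)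
    (hφ : ∀ x y, φ (x ++ y) = φ x ++ φ y) {T : Language β} (h : T.IsRegular) :
    Language.IsRegular ({w | φ w ∈ T} : Language α) := by
  apply IsRegular.of_finite_range_leftQuotient
  refine (h.finite_range_leftQuotient.image
    (fun U : Language β => ({w | φ w ∈ U} : Language α))).subset ?_
  rintro _ ⟨x, rfl⟩
  refine ⟨T.leftQuotient (φ x), ⟨φ x, rfl⟩, ?_⟩
  ext y
  change φ x ++ φ y ∈ T ↔ φ (x ++ y) ∈ T
  rw [hφ]

/-- inverse image under a homomorphism of free monoids -/
theorem isRegular_comap {α β : Type} (f : α → List β) {T : Language β} (h : T.IsRegular) :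
    Language.IsRegular ({w | w.flatMap f ∈ T} : Language α) :=
  isRegular_comap_hom (fun w => w.flatMap f) (fun _ _ => List.flatMap_append) h

theorem isRegular_comap_map {α β : Type} (f : α → β) {T : Language β} (h : T.IsRegular) :
    Language.IsRegular ({w | w.map f ∈ T} : Language α) :=
  isRegular_comap_hom (fun w => w.map f) (fun _ _ => List.map_append) h

theorem isRegular_comap_filterMap {α β : Type} (f : α → Option β) {T : Language β} (h : T.IsRegular) :
    Language.IsRegular ({w | w.filterMap f ∈ T} : Language α) :=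
  isRegular_comap_hom (fun w => w.filterMap f) (fun _ _ => List.filterMap_append) h

theorem flatMap_split {α β : Type} (f : α → List β) (z : List α) :
    ∀ (x y : List β), z.flatMap f = x ++ y →
      ∃ u z' c, z = u ++ z' ∧ u.flatMap f = x ++ c ∧ (c = [] ∨ ∃ a, c <:+ f a) ∧
        y = c ++ z'.flatMap f := by
  induction z with
  | nil =>
    intro x y h
    simp only [List.flatMap_nil] at h
    have hx : x = [] ∧ y = [] := by
      simpa using h.symm
    exact ⟨[], [], [], rfl, by simp [hx.1], Or.inl rfl, by simp [hx.2]⟩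
  | cons a z ih =>
    intro x y h
    rw [List.flatMap_cons] at h
    rcases List.append_eq_append_iff.1 h with ⟨c, h1, h2⟩ | ⟨c, h1, h2⟩
    · -- x = f a ++ c, z.flatMap f = c ++ y
      obtain ⟨u, z', c', e1, e2, e3, e4⟩ := ih c y h2
      refine ⟨a :: u, z', c', by simp [e1], ?_, e3, e4⟩
      rw [List.flatMap_cons, e2, h1, List.append_assoc]
    · refine ⟨[a], z, c, rfl, by simpa using h1, Or.inr ⟨a, ?_⟩, h2⟩
      rw [h1]
      exact List.suffix_append _ _

/-- image under a homomorphism of free monoids, finite source alphabet -/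
theorem isRegular_image_flatMap {α β : Type} [Finite α] (f : α → List β) {T : Language α}
    (h : T.IsRegular) : Language.IsRegular ({w | ∃ z ∈ T, z.flatMap f = w} : Language β) := by
  set C : Set (List β) := {[]} ∪ ⋃ a, {c | c <:+ f a} with hC
  have hCf : C.Finite := by
    refine (Set.finite_singleton _).union (Set.finite_iUnion fun a => ?_)
    refine (List.finite_toSet (f a).tails).subset ?_
    intro y hy
    exact (List.mem_tails _ _).2 hy
  set A : List β → Language α → Language β := fun c U => ({w | ∃ z ∈ U, c ++ z.flatMap f = w} : Language β)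
    with hA
  refine isRegular_of_family _ (Set.image2 A C (Set.range T.leftQuotient))
    (hCf.image2 _ h.finite_range_leftQuotient) ?_
  intro x
  refine ⟨{B | ∃ u c, c ∈ C ∧ u.flatMap f = x ++ c ∧ B = A c (T.leftQuotient u)}, ?_, ?_⟩
  · rintro B ⟨u, c, hc, _, rfl⟩
    exact ⟨c, hc, _, ⟨u, rfl⟩, rfl⟩
  · intro y
    constructor
    · rintro ⟨z, hz, he⟩
      obtain ⟨u, z', c, e1, e2, e3, e4⟩ := flatMap_split f z x y he
      refine ⟨_, ⟨u, c, ?_, e2, rfl⟩, z', ?_, e4.symm⟩
      · rcases e3 with rfl | ⟨a, ha⟩
        · exact Or.inl rfl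
        · exact Or.inr (Set.mem_iUnion.2 ⟨a, ha⟩)
      · rw [mem_leftQuotient, ← e1]
        exact hz
    · rintro ⟨_, ⟨u, c, _, e2, rfl⟩, z', hz', e4⟩
      refine ⟨u ++ z', hz', ?_⟩
      rw [List.flatMap_append, e2, List.append_assoc, e4]

theorem isRegular_forall {α : Type} (P : α → Prop) :
    Language.IsRegular ({w | ∀ p ∈ w, P p} : Language α) := by
  classical
  refine isRegular_of_index (ι := Bool) _
    (fun i => if i then ({w | ∀ p ∈ w, P p} : Language α) else (∅ : Set (List α))) ?_
  intro x
  by_cases hx : ∀ p ∈ x, P p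
  · refine ⟨true, fun y => ?_⟩
    simp only [if_true]
    change (∀ p ∈ x ++ y, P p) ↔ ∀ p ∈ y, P p
    simp only [List.mem_append]
    constructor
    · intro h p hp; exact h p (Or.inr hp)
    · rintro h p (hp | hp)
      · exact hx p hp
      · exact h p hp
  · refine ⟨false, fun y => ?_⟩
    simp only [Bool.false_eq_true, if_false]
    change (∀ p ∈ x ++ y, P p) ↔ False
    simp only [iff_false]
    intro h
    exact hx fun p hp => h p (List.mem_append_left _ hp)

theorem isRegular_single {α : Type} (P : α → Prop) :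
    Language.IsRegular ({w | ∃ p, P p ∧ w = [p]} : Language α) := by
  classical
  refine isRegular_of_index (ι := Fin 3) _
    ![({w | ∃ p, P p ∧ w = [p]} : Language α), ({[]} : Set (List α)), (∅ : Set (List α))] ?_
  intro x
  rcases x with _ | ⟨p, _ | ⟨p', x⟩⟩
  · exact ⟨0, fun y => Iff.rfl⟩
  · by_cases hp : P p
    · refine ⟨1, fun y => ?_⟩
      change (∃ q, P q ∧ [p] ++ y = [q]) ↔ y = []
      constructor
      · rintro ⟨q, hq, h⟩
        simpa using congrArg List.tail h
      · rintro rfl
        exact ⟨p, hp, rfl⟩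
    · refine ⟨2, fun y => ?_⟩
      change (∃ q, P q ∧ [p] ++ y = [q]) ↔ False
      simp only [iff_false]
      rintro ⟨q, hq, h⟩
      apply hp
      have : p = q := by
        simp only [List.cons_append, List.nil_append, List.cons.injEq] at h
        exact h.1
      rwa [this]
  · refine ⟨2, fun y => ?_⟩
    change (∃ q, P q ∧ (p :: p' :: x) ++ y = [q]) ↔ False
    simp only [iff_false]
    rintro ⟨q, hq, h⟩
    simp at h

/-- all letters but the last satisfy `P` -/
theorem isRegular_dropLast {α : Type} {T : Language α} (h : T.IsRegular) [Finite α] :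
    Language.IsRegular ({w | w.dropLast ∈ T} : Language α) := by
  classical
  refine isRegular_of_family _
    (((fun U : Language α => ({y | y ≠ [] ∧ y.dropLast ∈ U} : Language α)) ''
      Set.range T.leftQuotient) ∪ {({[]} : Set (List α))})
    ((h.finite_range_leftQuotient.image _).union (Set.finite_singleton _)) ?_
  intro x
  refine ⟨{B | B = ({y | y ≠ [] ∧ y.dropLast ∈ T.leftQuotient x} : Set (List α)) ∨
    (B = ({[]} : Set (List α)) ∧ x.dropLast ∈ T)}, ?_, ?_⟩
  · rintro B (rfl | ⟨rfl, _⟩)
    · exact Or.inl ⟨_, ⟨x, rfl⟩, rfl⟩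
    · exact Or.inr rfl
  · intro y
    change (x ++ y).dropLast ∈ T ↔ _
    by_cases hy : y = []
    · subst hy
      rw [List.append_nil]
      constructor
      · intro h1
        exact ⟨_, Or.inr ⟨rfl, h1⟩, rfl⟩
      · rintro ⟨B, (rfl | ⟨rfl, h1⟩), h2⟩
        · exact absurd rfl h2.1
        · exact h1
    · rw [List.dropLast_append_of_ne_nil hy]
      constructor
      · intro h1
        exact ⟨_, Or.inl rfl, hy, h1⟩
      · rintro ⟨B, (rfl | ⟨rfl, h1⟩), h2⟩
        · exact h2.2
        · exact absurd h2 hy

theorem isRegular_tail {α : Type} {T : Language α} (h : T.IsRegular) [Finite α] :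
    Language.IsRegular ({w | w.tail ∈ T} : Language α) := by
  apply IsRegular.of_finite_range_leftQuotient
  refine ((Set.finite_singleton ({w | w.tail ∈ T} : Language α)).union
    h.finite_range_leftQuotient).subset ?_
  rintro _ ⟨x, rfl⟩
  rcases x with _ | ⟨a, x⟩
  · exact Or.inl rfl
  · refine Or.inr ⟨x, ?_⟩
    ext y
    rfl

theorem isRegular_head {α : Type} [Finite α] (P : α → Prop) :
    Language.IsRegular ({w | ∀ p ∈ w.head?, P p} : Language α) := by
  classical
  refine isRegular_of_index (ι := Fin 3) _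
    ![({w | ∀ p ∈ w.head?, P p} : Language α), (Set.univ : Set (List α)), (∅ : Set (List α))] ?_
  intro x
  rcases x with _ | ⟨p, x⟩
  · exact ⟨0, fun y => Iff.rfl⟩
  · by_cases hp : P p
    · refine ⟨1, fun y => ?_⟩
      change (∀ q ∈ (p :: x ++ y).head?, P q) ↔ True
      simp [hp]
    · refine ⟨2, fun y => ?_⟩
      change (∀ q ∈ (p :: x ++ y).head?, P q) ↔ False
      simp [hp]

theorem isRegular_getLast {α : Type} [Finite α] (P : α → Prop) :
    Language.IsRegular ({w | ∀ p ∈ w.getLast?, P p} : Language α) := by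
  classical
  refine isRegular_of_index (ι := Fin 2) _
    ![({w | ∀ p ∈ w.getLast?, P p} : Language α),
      ({w | w ≠ [] ∧ ∀ p ∈ w.getLast?, P p} : Set (List α))] ?_
  intro x
  by_cases hx : ∀ p ∈ x.getLast?, P p
  · refine ⟨0, fun y => ?_⟩
    change (∀ p ∈ (x ++ y).getLast?, P p) ↔ ∀ p ∈ y.getLast?, P p
    by_cases hy : y = []
    · subst hy
      simpa using hx
    · rw [List.getLast?_append_of_ne_nil _ hy]
  · refine ⟨1, fun y => ?_⟩
    change (∀ p ∈ (x ++ y).getLast?, P p) ↔ (y ≠ [] ∧ ∀ p ∈ y.getLast?, P p)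
    by_cases hy : y = []
    · subst hy
      simp only [List.append_nil, ne_eq, not_true_eq_false, false_and, iff_false]
      exact hx
    · rw [List.getLast?_append_of_ne_nil _ hy]
      simp [hy]

/-- local languages -/
theorem isRegular_isChain {α : Type} [Finite α] (R : α → α → Prop) :
    Language.IsRegular ({w | List.IsChain R w} : Language α) := by
  classical
  refine isRegular_of_index (ι := Option (Option α)) _
    (fun o => match o with
      | none => (∅ : Set (List α))
      | some o => ({y | List.IsChain R y ∧ ∀ a ∈ o, ∀ b ∈ y.head?, R a b} : Set (List α))) ?_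
  intro x
  by_cases hx : List.IsChain R x
  · refine ⟨some x.getLast?, fun y => ?_⟩
    change List.IsChain R (x ++ y) ↔ (List.IsChain R y ∧ ∀ a ∈ x.getLast?, ∀ b ∈ y.head?, R a b)
    rw [List.isChain_append]
    simp only [hx, true_and]
  · refine ⟨none, fun y => ?_⟩
    change List.IsChain R (x ++ y) ↔ False
    rw [List.isChain_append]
    simp [hx]

theorem isRegular_length_ge {α : Type} (n : ℕ) :
    Language.IsRegular ({w | n ≤ w.length} : Language α) := by
  refine isRegular_of_index (ι := Fin (n + 1)) _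
    (fun k => ({w | (k : ℕ) ≤ w.length} : Set (List α))) ?_
  intro x
  refine ⟨⟨n - x.length, by omega⟩, fun y => ?_⟩
  change n ≤ (x ++ y).length ↔ n - x.length ≤ y.length
  rw [List.length_append]
  omega

theorem isRegular_countP_mod {α : Type} (P : α → Bool) (k : ℕ) (hk : 0 < k) (h : ZMod k) :
    Language.IsRegular ({w | ((w.countP P : ℕ) : ZMod k) = h} : Language α) := by
  have : NeZero k := ⟨by omega⟩
  refine isRegular_of_index (ι := ZMod k) _
    (fun c => ({w | c + ((w.countP P : ℕ) : ZMod k) = h} : Set (List α))) ?_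
  intro x
  refine ⟨((x.countP P : ℕ) : ZMod k), fun y => ?_⟩
  change (((x ++ y).countP P : ℕ) : ZMod k) = h ↔ _
  rw [List.countP_append, Nat.cast_add]
  rfl

end Star60
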