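import Pool.Agent.Star60.Rec

/-!
MP_1b5989_lc, module ALG (definitions): from an edge automaton (a complete deterministic automaton
over pairs of letters) to a recognizable subset of `{a,c}* × {b,d}*`.  See blueprint 2.
Left letters: `true` = a, `false` = c.  Right letters: `true` = b, `false` = d.
-/

namespace Star60

/-- complete deterministic automaton over pairs of letters `Fin m × Fin m`, states `Fin Q` -/
structure EA (m : ℕ) where
  Q : ℕ
  δ : Fin Q → Fin m → Fin m → Fin Q
  s : Fin Q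
  F : Fin Q → Bool

variable {m : ℕ}

def EA.N (E : EA m) : ℕ := E.Q + 2

def EA.run (E : EA m) (z : List (Fin m × Fin m)) : Fin E.Q :=
  z.foldl (fun q p => E.δ q p.1 p.2) E.s

/-- `(u,v)` is illegitimate: some factors of equal length at least 2 form an accepted pair word -/
def EA.Ill (E : EA m) (u v : List (Fin m)) : Prop :=
  ∃ x y, x <:+: u ∧ y <:+: v ∧ x.length = y.length ∧ 2 ≤ x.length ∧
    E.F (E.run (x.zip y)) = true

/-- states of the transducer -/
inductive TS (Q : ℕ) where
  | s0 : TS Q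
  | f : TS Q
  | mid : Fin Q → TS Q

def TS.num {Q : ℕ} : TS Q → ℕ
  | .s0 => 0
  | .f => 1
  | .mid q => (q : ℕ) + 2

/-- one step of the transducer: reads the letter `i` of `u` and the factor `v` -/
def EA.Y (E : EA m) : TS E.Q → Fin m → TS E.Q → List (Fin m) → Prop
  | .s0, _, .s0, _ => True
  | .s0, _, .f, _ => False
  | .s0, i, .mid q, v => ∃ w j, v = w ++ [j] ∧ E.δ E.s i j = q
  | .f, _, _, _ => True
  | .mid _, _, .s0, _ => True
  | .mid p, i, .f, v => ∃ j w, v = j :: w ∧ E.F (E.δ p i j) = true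
  | .mid p, i, .mid q, v => ∃ j, v = [j] ∧ E.δ p i j = q

/-- nonempty paths of the transducer -/
inductive EA.Path (E : EA m) : TS E.Q → List (Fin m) → TS E.Q → List (Fin m) → Prop
  | single {p i q v} (h : E.Y p i q v) : EA.Path E p [i] q v
  | cons {p i r v u q w} (h : E.Y p i r v) (h' : EA.Path E r u q w) :
      EA.Path E p (i :: u) q (v ++ w)

def cw (k : ℕ) : List Bool := List.replicate k false
def aw (k : ℕ) : List Bool := List.replicate k true

/-- `c^N a^(j1+1) c^N a^(j2+1) ...` -/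
def gam (N : ℕ) (u : List (Fin m)) : List Bool := u.flatMap (fun j => cw N ++ aw ((j : ℕ) + 1))

/-- `c^(N-p) a^(i1+1) c^N a^(i2+1) ... c^N a^(ir+1) c^q` -/
def xw (N p : ℕ) (u : List (Fin m)) (q : ℕ) : List Bool :=
  match u with
  | [] => []
  | i :: u' => cw (N - p) ++ (aw ((i : ℕ) + 1) ++ (gam N u' ++ cw q))

/-- `b^(j1+1) d b^(j2+1) d ...` -/
def enc (v : List (Fin m)) : List Bool :=
  v.flatMap (fun j => List.replicate ((j : ℕ) + 1) true ++ [false])

/-- a factor `a c^k a` with `k ≥ 1`, `k ≠ N` -/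
def JJ (N : ℕ) (x : List Bool) : Prop :=
  ∃ k, 1 ≤ k ∧ k ≠ N ∧ (true :: (cw k ++ [true])) <:+: x

/-- the language -/
def EA.L (E : EA m) : Set (FreeMonoid Bool × FreeMonoid Bool) :=
  {w | JJ E.N w.1.toList ∨ ∃ p i q v, w.1.toList = xw E.N p.num [i] q.num ∧
    w.2.toList = enc v ∧ E.Y p i q v}

end Star60
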