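import Pool.Agent.Star60.Alg

/-!
MP_1b5989_lc, module ALGCLOSURE: the submonoid generated by the language, and unique decoding.
-/

namespace Star60

variable {m : ℕ}

theorem num_lt {Q : ℕ} (p : TS Q) : p.num < Q + 2 := by
  cases p <;> simp [TS.num]

theorem num_inj {Q : ℕ} {p q : TS Q} (h : p.num = q.num) : p = q := by
  cases p <;> cases q <;> simp_all [TS.num]
  all_goals omega

/-! ### elementary facts about `cw` and `aw` -/

theorem cw_succ (k : ℕ) : cw (k + 1) = false :: cw k := rfl
theorem aw_succ (k : ℕ) : aw (k + 1) = true :: aw k := rfl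
theorem cw_add (k l : ℕ) : cw (k + l) = cw k ++ cw l := List.replicate_add _ _ _
theorem aw_succ' (k : ℕ) : aw (k + 1) = aw k ++ [true] := by
  simp [aw, List.replicate_succ']

theorem true_notMem_cw (k : ℕ) : true ∉ cw k := by
  intro h
  have := List.eq_of_mem_replicate h
  exact Bool.noConfusion this

/-- empty or starting with `c` -/
def StC (t : List Bool) : Prop := t = [] ∨ ∃ t', t = false :: t'

theorem cw_true_inj : ∀ (k k' : ℕ) (t t' : List Bool),
    cw k ++ true :: t = cw k' ++ true :: t' → k = k' ∧ t = t'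
  | 0, 0, t, t', h => by simpa [cw] using h
  | 0, k' + 1, t, t', h => by simp [cw, List.replicate_succ] at h
  | k + 1, 0, t, t', h => by simp [cw, List.replicate_succ] at h
  | k + 1, k' + 1, t, t', h => by
      rw [cw_succ, cw_succ, List.cons_append, List.cons_append] at h
      obtain ⟨h1, h2⟩ := cw_true_inj k k' t t' (List.cons.inj h).2
      exact ⟨by omega, h2⟩

theorem aw_inj : ∀ (k k' : ℕ) (t t' : List Bool), StC t → StC t' →
    aw k ++ t = aw k' ++ t' → k = k' ∧ t = t'
  | 0, 0, t, t', _, _, h => ⟨rfl, by simpa [aw] using h⟩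
  | 0, k' + 1, t, t', ht, _, h => by
      rcases ht with rfl | ⟨s, rfl⟩ <;> simp [aw, List.replicate_succ] at h
  | k + 1, 0, t, t', _, ht', h => by
      rcases ht' with rfl | ⟨s, rfl⟩ <;> simp [aw, List.replicate_succ] at h
  | k + 1, k' + 1, t, t', ht, ht', h => by
      rw [aw_succ, aw_succ, List.cons_append, List.cons_append] at h
      obtain ⟨h1, h2⟩ := aw_inj k k' t t' ht ht' (List.cons.inj h).2
      exact ⟨by omega, h2⟩

theorem gam_cons (N : ℕ) (i : Fin m) (u : List (Fin m)) (t : List Bool) :
    gam N (i :: u) ++ t = cw N ++ (aw ((i : ℕ) + 1) ++ (gam N u ++ t)) := by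
  simp [gam]

theorem gam_append (N : ℕ) (u v : List (Fin m)) : gam N (u ++ v) = gam N u ++ gam N v := by
  simp [gam]

theorem gam_nil (N : ℕ) : gam N ([] : List (Fin m)) = [] := rfl

theorem stC_tail (N : ℕ) (hN : 1 ≤ N) (u : List (Fin m)) (q : ℕ) : StC (gam N u ++ cw q) := by
  cases u with
  | nil =>
    cases q with
    | zero => left; rfl
    | succ q => right; exact ⟨cw q, rfl⟩
  | cons i u =>
    right
    obtain ⟨M, rfl⟩ : ∃ M, N = M + 1 := ⟨N - 1, by omega⟩
    rw [gam_cons, cw_succ]
    exact ⟨_, rfl⟩

/-- a word `c^k a` at the beginning of a tail has `k = N` -/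
theorem prefix_tail (N k : ℕ) (u : List (Fin m)) (q : ℕ)
    (h : cw k ++ [true] <+: gam N u ++ cw q) : k = N := by
  obtain ⟨t, ht⟩ := h
  cases u with
  | nil =>
    exfalso
    apply true_notMem_cw q
    have : cw q = cw k ++ [true] ++ t := by rw [ht]; rfl
    rw [this]; simp
  | cons i u =>
    rw [gam_cons, aw_succ, List.cons_append, List.append_assoc, List.singleton_append] at ht
    exact (cw_true_inj _ _ _ _ ht).1

theorem infix_cw (k j : ℕ) (t : List Bool)
    (h : (true :: (cw k ++ [true])) <:+: cw j ++ t) : (true :: (cw k ++ [true])) <:+: t := by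
  induction j with
  | zero => simpa [cw] using h
  | succ j ih =>
    rw [cw_succ, List.cons_append, List.infix_cons_iff] at h
    rcases h with h | h
    · obtain ⟨s, hs⟩ := h
      simp at hs
    · exact ih h

theorem infix_aw (k j : ℕ) (hk : 1 ≤ k) (t : List Bool)
    (h : (true :: (cw k ++ [true])) <:+: aw j ++ t) :
    (true :: (cw k ++ [true])) <:+: t ∨ cw k ++ [true] <+: t := by
  induction j with
  | zero => left; simpa [aw] using h
  | succ j ih =>
    rw [aw_succ, List.cons_append, List.infix_cons_iff] at h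
    rcases h with h | h
    · rw [List.cons_prefix_cons] at h
      have h := h.2
      cases j with
      | zero => right; simpa [aw] using h
      | succ j =>
        exfalso
        obtain ⟨s, hs⟩ := h
        obtain ⟨l, rfl⟩ : ∃ l, k = l + 1 := ⟨k - 1, by omega⟩
        rw [cw_succ, aw_succ] at hs
        simp at hs
    · exact ih h

theorem infix_tail (N k : ℕ) (hk : 1 ≤ k) (u : List (Fin m)) (q : ℕ)
    (h : (true :: (cw k ++ [true])) <:+: gam N u ++ cw q) : k = N := by
  induction u with
  | nil =>
    exfalso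
    apply true_notMem_cw q
    have := h.subset (List.mem_cons_self)
    simpa [gam] using this
  | cons i u ih =>
    rw [gam_cons] at h
    rcases infix_aw k _ hk _ (infix_cw k _ _ h) with h | h
    · exact ih h
    · exact prefix_tail N k u q h

/-- the words `xw` with `p, q < N` do not contain a factor `a c^k a`, `k ≠ N`, `k ≥ 1` -/
theorem not_JJ_xw (N p q : ℕ) (u : List (Fin m)) (hN : 1 ≤ N) : ¬ JJ N (xw N p u q) := by
  rintro ⟨k, hk, hkN, h⟩
  cases u with
  | nil =>
    have := h.subset (List.mem_cons_self)
    simp [xw] at this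
  | cons i u =>
    simp only [xw] at h
    rcases infix_aw k _ hk _ (infix_cw k _ _ h) with h | h
    · exact hkN (infix_tail N k hk u q h)
    · exact hkN (prefix_tail N k u q h)

theorem tail_inj (N : ℕ) (hN : 1 ≤ N) : ∀ (u u' : List (Fin m)) (q q' : ℕ), q < N → q' < N →
    gam N u ++ cw q = gam N u' ++ cw q' → u = u' ∧ q = q'
  | [], [], q, q', _, _, h => by
      refine ⟨rfl, ?_⟩
      have := congrArg List.length h
      simpa [gam, cw] using this
  | [], j :: w, q, q', _, _, h => by
      exfalso
      rw [gam_cons, gam_nil, List.nil_append, aw_succ] at h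
      apply true_notMem_cw q
      rw [h]; simp
  | i :: u, [], q, q', _, _, h => by
      exfalso
      rw [gam_cons, gam_nil, List.nil_append, aw_succ] at h
      apply true_notMem_cw q'
      rw [← h]; simp
  | i :: u, j :: w, q, q', hq, hq', h => by
      rw [gam_cons, gam_cons] at h
      have h := List.append_cancel_left h
      obtain ⟨h1, h2⟩ := aw_inj _ _ _ _ (stC_tail N hN u q) (stC_tail N hN w q') h
      obtain ⟨h3, h4⟩ := tail_inj N hN u w q q' hq hq' h2
      refine ⟨?_, h4⟩
      rw [h3]
      congr 1
      exact Fin.ext (by omega)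

theorem xw_inj (N p q p' q' : ℕ) (u u' : List (Fin m)) (hp : p < N) (hq : q < N) (hp' : p' < N)
    (hq' : q' < N) (hu : u ≠ []) (hu' : u' ≠ []) (h : xw N p u q = xw N p' u' q') :
    p = p' ∧ u = u' ∧ q = q' := by
  cases u with
  | nil => exact absurd rfl hu
  | cons i u =>
    cases u' with
    | nil => exact absurd rfl hu'
    | cons j w =>
      simp only [xw] at h
      rw [aw_succ, aw_succ, List.cons_append, List.cons_append] at h
      obtain ⟨h1, h2⟩ := cw_true_inj _ _ _ _ h
      obtain ⟨h3, h4⟩ := aw_inj _ _ _ _ (stC_tail N (by omega) u q)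
        (stC_tail N (by omega) w q') h2
      obtain ⟨h5, h6⟩ := tail_inj N (by omega) u w q q' hq hq' h4
      refine ⟨by omega, ?_, h6⟩
      rw [h5, Fin.ext h3]

theorem enc_cons (j : Fin m) (v : List (Fin m)) :
    enc (j :: v) = aw ((j : ℕ) + 1) ++ false :: enc v := by
  simp [enc, aw]

theorem enc_inj (v v' : List (Fin m)) (h : enc v = enc v') : v = v' := by
  induction v generalizing v' with
  | nil =>
    cases v' with
    | nil => rfl
    | cons j w =>
      rw [enc_cons] at h
      simp [enc, aw, List.replicate_succ] at h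
  | cons i v ih =>
    cases v' with
    | nil =>
      rw [enc_cons] at h
      simp [enc, aw, List.replicate_succ] at h
    | cons j w =>
      rw [enc_cons, enc_cons] at h
      obtain ⟨h1, h2⟩ := aw_inj _ _ _ _ (Or.inr ⟨_, rfl⟩) (Or.inr ⟨_, rfl⟩) h
      rw [ih w (List.cons.inj h2).2]
      congr 1
      exact Fin.ext (by omega)

theorem enc_append (v w : List (Fin m)) : enc (v ++ w) = enc v ++ enc w := by
  simp [enc]

theorem EA.Path.trans {E : EA m} {p q r u v u' v'} (h : E.Path p u q v) (h' : E.Path q u' r v') :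
    E.Path p (u ++ u') r (v ++ v') := by
  induction h with
  | single h => exact EA.Path.cons h h'
  | cons h _ ih =>
    rw [List.cons_append, List.append_assoc]
    exact EA.Path.cons h (ih h')

theorem EA.Path.ne_nil {E : EA m} {p q u v} (h : E.Path p u q v) : u ≠ [] := by
  cases h <;> simp

/-- concatenation of matching words -/
theorem xw_append (N p q r : ℕ) (hq : q ≤ N) (u u' : List (Fin m)) (hu : u ≠ []) (hu' : u' ≠ []) :
    xw N p u q ++ xw N q u' r = xw N p (u ++ u') r := by
  cases u with
  | nil => exact absurd rfl hu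
  | cons i u =>
    cases u' with
    | nil => exact absurd rfl hu'
    | cons j w =>
      simp only [xw, List.cons_append]
      have : cw N = cw q ++ cw (N - q) := by rw [← cw_add]; congr 1; omega
      rw [gam_append]
      simp only [List.append_assoc]
      rw [gam_cons, this]
      simp only [List.append_assoc]

theorem xw_start (N p q : ℕ) (u : List (Fin m)) (hu : u ≠ []) :
    ∃ z, xw N p u q = cw (N - p) ++ true :: z := by
  cases u with
  | nil => exact absurd rfl hu
  | cons i u =>
    simp only [xw, aw_succ, List.cons_append]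
    exact ⟨_, rfl⟩

theorem gam_end (N q : ℕ) (u : List (Fin m)) (hu : u ≠ []) :
    ∃ z, gam N u ++ cw q = z ++ (true :: cw q) := by
  induction u with
  | nil => exact absurd rfl hu
  | cons i u ih =>
    rw [gam_cons]
    by_cases h : u = []
    · subst h
      rw [gam_nil, List.nil_append, aw_succ']
      exact ⟨cw N ++ aw i, by simp⟩
    · obtain ⟨z, hz⟩ := ih h
      rw [hz]
      exact ⟨cw N ++ (aw ((i : ℕ) + 1) ++ z), by simp⟩

theorem xw_end (N p q : ℕ) (u : List (Fin m)) (hu : u ≠ []) :
    ∃ z, xw N p u q = z ++ (true :: cw q) := by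
  cases u with
  | nil => exact absurd rfl hu
  | cons i u =>
    simp only [xw]
    by_cases h : u = []
    · subst h
      rw [gam_nil, List.nil_append, aw_succ']
      exact ⟨cw (N - p) ++ aw i, by simp⟩
    · obtain ⟨z, hz⟩ := gam_end N q u h
      rw [hz]
      exact ⟨cw (N - p) ++ (aw ((i : ℕ) + 1) ++ z), by simp⟩

theorem JJ.append_right {N : ℕ} {x : List Bool} (h : JJ N x) (y : List Bool) : JJ N (x ++ y) := by
  obtain ⟨k, hk, hkN, h⟩ := h
  exact ⟨k, hk, hkN, h.trans (List.prefix_append x y).isInfix⟩

theorem JJ.append_left {N : ℕ} {x : List Bool} (h : JJ N x) (y : List Bool) : JJ N (y ++ x) := by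
  obtain ⟨k, hk, hkN, h⟩ := h
  exact ⟨k, hk, hkN, h.trans (List.suffix_append y x).isInfix⟩

/-- concatenation of words which do not match -/
theorem JJ_of_ne (N p q q' r : ℕ) (hq : q' < N) (hne : q ≠ q') (u u' : List (Fin m))
    (hu : u ≠ []) (hu' : u' ≠ []) : JJ N (xw N p u q ++ xw N q' u' r) := by
  obtain ⟨z, hz⟩ := xw_end N p q u hu
  obtain ⟨z', hz'⟩ := xw_start N q' r u' hu'
  refine ⟨q + (N - q'), by omega, by omega, ?_⟩
  rw [hz, hz']
  refine ⟨z, z', ?_⟩
  rw [cw_add]
  simp

theorem EA.mem_closure (E : EA m) (w : FreeMonoid Bool × FreeMonoid Bool) :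
    w ∈ Submonoid.closure E.L ↔ w = 1 ∨ JJ E.N w.1.toList ∨
      ∃ p u q v, w.1.toList = xw E.N p.num u q.num ∧ w.2.toList = enc v ∧ E.Path p u q v := by
  constructor
  · intro h
    induction h using Submonoid.closure_induction with
    | mem x hx =>
      rcases hx with hx | ⟨p, i, q, v, h1, h2, h3⟩
      · exact Or.inr (Or.inl hx)
      · exact Or.inr (Or.inr ⟨p, [i], q, v, h1, h2, EA.Path.single h3⟩)
    | one => exact Or.inl rfl
    | mul x y _ _ ihx ihy =>
      rcases ihx with rfl | hx | ⟨p, u, q, v, h1, h2, h3⟩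
      · rw [one_mul]; exact ihy
      · refine Or.inr (Or.inl ?_)
        rw [Prod.fst_mul, FreeMonoid.toList_mul]
        exact hx.append_right _
      · rcases ihy with rfl | hy | ⟨p', u', q', v', h1', h2', h3'⟩
        · rw [mul_one]; exact Or.inr (Or.inr ⟨p, u, q, v, h1, h2, h3⟩)
        · refine Or.inr (Or.inl ?_)
          rw [Prod.fst_mul, FreeMonoid.toList_mul]
          exact hy.append_left _
        · by_cases hqp : q = p'
          · subst hqp
            refine Or.inr (Or.inr ⟨p, u ++ u', q', v ++ v', ?_, ?_, h3.trans h3'⟩)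
            · rw [Prod.fst_mul, FreeMonoid.toList_mul, h1, h1']
              exact xw_append _ _ _ _ (le_of_lt (num_lt q)) u u' h3.ne_nil h3'.ne_nil
            · rw [Prod.snd_mul, FreeMonoid.toList_mul, h2, h2', enc_append]
          · refine Or.inr (Or.inl ?_)
            rw [Prod.fst_mul, FreeMonoid.toList_mul, h1, h1']
            exact JJ_of_ne _ _ _ _ _ (num_lt p') (fun h => hqp (num_inj h)) u u'
              h3.ne_nil h3'.ne_nil
  · rintro (rfl | h | ⟨p, u, q, v, h1, h2, h3⟩)
    · exact one_mem _
    · exact Submonoid.subset_closure (Or.inl h)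
    · induction h3 generalizing w with
      | @single p i q v h =>
        exact Submonoid.subset_closure (Or.inr ⟨p, i, q, v, h1, h2, h⟩)
      | @cons p i r v u q w' h h' ih =>
        have hw : w = (FreeMonoid.ofList (xw E.N p.num [i] r.num), FreeMonoid.ofList (enc v)) *
            (FreeMonoid.ofList (xw E.N r.num u q.num), FreeMonoid.ofList (enc w')) := by
          refine Prod.ext ?_ ?_
          · apply FreeMonoid.toList.injective
            rw [Prod.fst_mul, FreeMonoid.toList_mul, h1]
            simp only [FreeMonoid.toList_ofList]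
            exact (xw_append E.N _ _ _ (le_of_lt (num_lt r)) [i] u (by simp) h'.ne_nil).symm
          · apply FreeMonoid.toList.injective
            rw [Prod.snd_mul, FreeMonoid.toList_mul, h2]
            simp only [FreeMonoid.toList_ofList]
            rw [enc_append]
        rw [hw]
        refine mul_mem ?_ ?_
        · exact Submonoid.subset_closure (Or.inr ⟨p, i, r, v, rfl, rfl, h⟩)
        · exact ih _ rfl rfl

theorem EA.mem_closure_xw (E : EA m) (p q : TS E.Q) (u v : List (Fin m)) (hu : u ≠ []) :
    (FreeMonoid.ofList (xw E.N p.num u q.num), FreeMonoid.ofList (enc v)) ∈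
      Submonoid.closure E.L ↔ E.Path p u q v := by
  rw [EA.mem_closure]
  simp only [FreeMonoid.toList_ofList]
  constructor
  · rintro (h | h | ⟨p', u', q', v', h1, h2, h3⟩)
    · exfalso
      obtain ⟨z, hz⟩ := xw_start E.N p.num q.num u hu
      have h1 : xw E.N p.num u q.num = [] := congrArg (fun w => w.1.toList) h
      rw [hz] at h1
      simp at h1
    · exact absurd h (not_JJ_xw _ _ _ _ (by simp [EA.N]))
    · obtain ⟨h4, h5, h6⟩ := xw_inj _ _ _ _ _ _ _ (num_lt p) (num_lt q) (num_lt p') (num_lt q') hu
        h3.ne_nil h1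
      have h7 := enc_inj _ _ h2
      rw [num_inj h4, num_inj h6, h5, h7]
      exact h3
  · intro h
    exact Or.inr (Or.inr ⟨p, u, q, v, rfl, rfl, h⟩)

end Star60
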