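import Pool.Agent.Star60.AlgClosure

/-!
MP_1b5989_lc, module ALGPATH: paths from `s0` to `f` are the illegitimate pairs.
-/

namespace Star60

variable {m : ℕ}

/-- what is left to read from a state -/
def EA.Rest (E : EA m) : TS E.Q → List (Fin m) → List (Fin m) → Prop
  | .s0, u, v => E.Ill u v
  | .f, _, _ => True
  | .mid p, u, v => E.Ill u v ∨ ∃ x y, x <+: u ∧ y <+: v ∧ x.length = y.length ∧ 1 ≤ x.length ∧
      E.F ((x.zip y).foldl (fun q p => E.δ q p.1 p.2) p) = true

theorem EA.Ill.mono {E : EA m} {u v u' v' : List (Fin m)} (h : E.Ill u v) (hu : u <:+: u')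
    (hv : v <:+: v') : E.Ill u' v' := by
  obtain ⟨x, y, hx, hy, h⟩ := h
  exact ⟨x, y, hx.trans hu, hy.trans hv, h⟩

theorem EA.rest_of_path {E : EA m} {p u q v} (h : E.Path p u q v) (hq : q = .f) :
    E.Rest p u v := by
  induction h with
  | @single p i q v h =>
    subst hq
    cases p with
    | s0 => exact h.elim
    | f => trivial
    | mid p =>
      obtain ⟨j, w, rfl, h⟩ := h
      exact Or.inr ⟨[i], [j], ⟨[], rfl⟩, ⟨w, rfl⟩, rfl, le_rfl, h⟩
  | @cons p i r v u q w h _ ih =>
    have ih := ih hq
    cases p with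
    | s0 =>
      cases r with
      | s0 => exact ih.mono (List.suffix_cons i u).isInfix (List.suffix_append v w).isInfix
      | f => exact h.elim
      | mid r =>
        obtain ⟨w', j, rfl, hr⟩ := h
        rcases ih with ih | ⟨x, y, hx, hy, hl, h1, h2⟩
        · exact ih.mono (List.suffix_cons i u).isInfix (List.suffix_append _ w).isInfix
        · refine ⟨i :: x, j :: y, (List.cons_prefix_cons.mpr ⟨rfl, hx⟩).isInfix, ?_, ?_, ?_, ?_⟩
          · obtain ⟨t, rfl⟩ := hy
            exact ⟨w', t, by simp⟩
          · simp [hl]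
          · simp; omega
          · simpa [EA.run, hr] using h2
    | f => trivial
    | mid p =>
      cases r with
      | s0 => exact Or.inl (EA.Ill.mono ih (List.suffix_cons i u).isInfix (List.suffix_append v w).isInfix)
      | f =>
        obtain ⟨j, w', rfl, h⟩ := h
        exact Or.inr ⟨[i], [j], ⟨u, rfl⟩, ⟨w' ++ w, by simp⟩, rfl, le_rfl, h⟩
      | mid r =>
        obtain ⟨j, rfl, hr⟩ := h
        rcases ih with ih | ⟨x, y, hx, hy, hl, h1, h2⟩
        · exact Or.inl (ih.mono (List.suffix_cons i u).isInfix (List.suffix_append _ w).isInfix)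
        · refine Or.inr ⟨i :: x, j :: y, List.cons_prefix_cons.mpr ⟨rfl, hx⟩, ?_, ?_, ?_, ?_⟩
          · exact List.cons_prefix_cons.mpr ⟨rfl, hy⟩
          · simp [hl]
          · simp
          · simpa [hr] using h2

theorem EA.path_f (E : EA m) (q : TS E.Q) : ∀ u : List (Fin m), u ≠ [] → E.Path .f u q []
  | [], h => absurd rfl h
  | [_], _ => EA.Path.single trivial
  | a :: b :: u, _ => by
      have h1 := EA.path_f E q (b :: u) (by simp)
      have h2 := EA.Path.cons (E := E) (p := .f) (r := .f) (v := []) (i := a) trivial h1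
      simpa using h2

theorem EA.path_mid (E : EA m) : ∀ (x y : List (Fin m)) (p : Fin E.Q) (u2 v2 : List (Fin m)),
    x.length = y.length → 1 ≤ x.length →
    E.F ((x.zip y).foldl (fun q p => E.δ q p.1 p.2) p) = true →
    E.Path (.mid p) (x ++ u2) .f (y ++ v2)
  | [], _, _, _, _, _, h1, _ => by simp at h1
  | _ :: _, [], _, _, _, hl, _, _ => by simp at hl
  | [i], [j], p, u2, v2, _, _, h => by
      have h : E.F (E.δ p i j) = true := h
      by_cases hu : u2 = []
      · subst hu
        exact EA.Path.single ⟨j, v2, rfl, h⟩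
      · have := EA.Path.cons (E := E) (p := .mid p) (i := i) (r := .f) (v := j :: v2)
          ⟨j, v2, rfl, h⟩ (EA.path_f E .f u2 hu)
        simpa using this
  | [_], _ :: _ :: _, _, _, _, hl, _, _ => by simp at hl
  | _ :: _ :: _, [_], _, _, _, hl, _, _ => by simp at hl
  | i :: i' :: x, j :: j' :: y, p, u2, v2, hl, _, h => by
      have h1 := EA.path_mid E (i' :: x) (j' :: y) (E.δ p i j) u2 v2 (by simpa using hl)
        (by simp) (by simpa using h)
      exact EA.Path.cons (E := E) (p := .mid p) (i := i) (r := .mid (E.δ p i j)) (v := [j])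
          ⟨j, rfl, rfl⟩ h1

theorem EA.path_s0 (E : EA m) (i j : Fin m) (x y u2 v1 v2 : List (Fin m))
    (hl : x.length = y.length) (h1 : 1 ≤ x.length)
    (h : E.F (((i :: x).zip (j :: y)).foldl (fun q p => E.δ q p.1 p.2) E.s) = true) :
    ∀ u1 : List (Fin m), E.Path .s0 (u1 ++ (i :: x ++ u2)) .f (v1 ++ (j :: y ++ v2))
  | [] => by
      have h2 := EA.path_mid E x y (E.δ E.s i j) u2 v2 hl h1 (by simpa using h)
      have := EA.Path.cons (E := E) (p := .s0) (i := i) (r := .mid (E.δ E.s i j))
        (v := v1 ++ [j]) ⟨v1, j, rfl, rfl⟩ h2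
      simpa using this
  | a :: u1 => by
      have h2 := EA.path_s0 E i j x y u2 v1 v2 hl h1 h u1
      have := EA.Path.cons (E := E) (p := .s0) (i := a) (r := .s0) (v := []) trivial h2
      simpa using this

theorem EA.path_iff_ill (E : EA m) (u v : List (Fin m)) :
    E.Path .s0 u .f v ↔ E.Ill u v := by
  constructor
  · intro h
    exact EA.rest_of_path h rfl
  · rintro ⟨x, y, ⟨u1, u2, hx⟩, ⟨v1, v2, hy⟩, hl, h2, h⟩
    cases x with
    | nil => simp at h2
    | cons i x =>
      cases y with
      | nil => simp at hl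
      | cons j y =>
        rw [← hx, ← hy]
        have := EA.path_s0 E i j x y u2 v1 v2 (by simpa using hl) (by simpa using h2) h u1
        simpa using this

theorem EA.path_of_long (E : EA m) (n0 : ℕ)
    (h : ∀ u v : List (Fin m), n0 ≤ u.length → n0 ≤ v.length → E.Ill u v) (p q : TS E.Q)
    (u v : List (Fin m)) (hu : n0 + 2 ≤ u.length) (hv : n0 ≤ v.length) : E.Path p u q v := by
  cases u with
  | nil => simp at hu
  | cons a u =>
    have hne : u ≠ [] := by
      rintro rfl
      simp at hu
    obtain ⟨u', b, rfl⟩ : ∃ u' b, u = u' ++ [b] :=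
      ⟨u.dropLast, u.getLast hne, (List.dropLast_append_getLast hne).symm⟩
    have h1 : E.Path .s0 u' .f v := by
      rw [EA.path_iff_ill]
      exact h u' v (by simp at hu; omega) hv
    have h2 : E.Path .f [b] q [] := EA.Path.single (by cases q <;> trivial)
    have h3 := h1.trans h2
    have h4 := EA.Path.cons (E := E) (p := p) (i := a) (r := .s0) (v := [])
      (by cases p <;> trivial) h3
    simpa using h4

end Star60
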