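import Pool.Agent.Star60.AlgClosure
import Pool.Agent.Star60.AlgPath

/-!
MP_1b5989_lc, module ALGMORTAL: all long pairs illegitimate: recognizable.
-/

namespace Star60

variable {m : ℕ}

instance TS.instFinite {Q : ℕ} : Finite (TS Q) :=
  Finite.of_injective (fun p : TS Q => (⟨p.num, num_lt p⟩ : Fin (Q + 2)))
    (fun _ _ h => num_inj (by simpa using h))

theorem EA.path_cons_iff (E : EA m) (p q : TS E.Q) (i : Fin m) (u : List (Fin m))
    (v : List (Fin m)) : E.Path p (i :: u) q v ↔ (u = [] ∧ E.Y p i q v) ∨
      ∃ r v1 v2, v = v1 ++ v2 ∧ E.Y p i r v1 ∧ E.Path r u q v2 := by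
  constructor
  · intro h
    cases h with
    | single h => exact Or.inl ⟨rfl, h⟩
    | cons h h' => exact Or.inr ⟨_, _, _, rfl, h, h'⟩
  · rintro (⟨rfl, h⟩ | ⟨r, v1, v2, rfl, h, h'⟩)
    · exact EA.Path.single h
    · exact EA.Path.cons h h'

theorem isReg_congr {α : Type} {T U : Language α} (h : T.IsRegular) (e : ∀ w, w ∈ U ↔ w ∈ T) :
    U.IsRegular := by
  have : U = T := Set.ext e
  rw [this]
  exact h

theorem isRegular_top' {α : Type} : Language.IsRegular ({_w | True} : Language α) := by
  have := isRegular_forall (fun _ : α => True)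
  simpa using this

theorem isRegular_bot' {α : Type} : Language.IsRegular ({_w | False} : Language α) := by
  have := isRegular_finite ({_w | False} : Language α) (by
    have : ({_w | False} : Set (List α)) = ∅ := by ext; simp
    exact this ▸ Set.finite_empty)
  exact this

theorem isRegular_or {α : Type} {T U : Language α} (hT : T.IsRegular) (hU : U.IsRegular) :
    Language.IsRegular ({w | w ∈ T ∨ w ∈ U} : Language α) := by
  exact hT.add hU

theorem isRegular_and {α : Type} {T U : Language α} (hT : T.IsRegular) (hU : U.IsRegular) :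
    Language.IsRegular ({w | w ∈ T ∧ w ∈ U} : Language α) := by
  exact hT.inf hU

theorem isRegular_const {α : Type} (P : Prop) : Language.IsRegular ({_w | P} : Language α) := by
  by_cases h : P
  · simpa [h] using isRegular_top' (α := α)
  · simpa [h] using isRegular_bot' (α := α)

theorem isRegular_singleton {α : Type} (w : List α) :
    Language.IsRegular ({x | x = w} : Language α) := by
  apply isRegular_finite
  exact Set.finite_singleton w

theorem isRegular_concat {α : Type} {T U : Language α} (hT : T.IsRegular) (hU : U.IsRegular) :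
    Language.IsRegular ({w | ∃ x y, w = x ++ y ∧ x ∈ T ∧ y ∈ U} : Language α) := by
  have h := isRegular_mul hT hU
  refine isReg_congr h (fun w => ?_)
  rw [Language.mem_mul]
  constructor
  · rintro ⟨x, y, rfl, h1, h2⟩
    exact ⟨x, h1, y, h2, rfl⟩
  · rintro ⟨x, h1, y, h2, rfl⟩
    exact ⟨x, y, rfl, h1, h2⟩

theorem EA.regular_Y (E : EA m) (p q : TS E.Q) (i : Fin m) :
    Language.IsRegular ({v | E.Y p i q v} : Language (Fin m)) := by
  cases p with
  | s0 =>
    cases q with
    | s0 => exact isRegular_const _
    | f => exact isRegular_const _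
    | mid q =>
      have h := isRegular_concat (isRegular_top' (α := Fin m))
        (isRegular_single (fun j : Fin m => E.δ E.s i j = q))
      refine isReg_congr h (fun v => ?_)
      constructor
      · rintro ⟨w, j, h1, h2⟩
        exact ⟨w, [j], h1, trivial, j, h2, rfl⟩
      · rintro ⟨w, y, h1, _, j, h2, h3⟩
        exact ⟨w, j, by rw [h1, h3], h2⟩
  | f => cases q <;> exact isRegular_const _
  | mid p =>
    cases q with
    | s0 => exact isRegular_const _
    | f =>
      have h := isRegular_concat (isRegular_single (fun j : Fin m => E.F (E.δ p i j) = true))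
        (isRegular_top' (α := Fin m))
      refine isReg_congr h (fun v => ?_)
      constructor
      · rintro ⟨j, w, h1, h2⟩
        exact ⟨[j], w, h1, ⟨j, h2, rfl⟩, trivial⟩
      · rintro ⟨y, w, h1, ⟨j, h2, h3⟩, _⟩
        exact ⟨j, w, by rw [h1, h3]; rfl, h2⟩
    | mid q =>
      have h := isRegular_single (fun j : Fin m => E.δ p i j = q)
      refine isReg_congr h (fun v => ?_)
      constructor
      · rintro ⟨j, h1, h2⟩
        exact ⟨j, h2, h1⟩
      · rintro ⟨j, h1, h2⟩
        exact ⟨j, h2, h1⟩

/-- for fixed `u` the set of `v` is regular -/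
theorem EA.regular_v (E : EA m) (p q : TS E.Q) (u : List (Fin m)) :
    Language.IsRegular ({v | E.Path p u q v} : Language (Fin m)) := by
  induction u generalizing p with
  | nil =>
    exact isReg_congr isRegular_bot' (fun v => ⟨fun h => h.ne_nil rfl, fun h => h.elim⟩)
  | cons i u ih =>
    have h1 := isRegular_and (isRegular_const (α := Fin m) (u = [])) (E.regular_Y p q i)
    have h2 := isRegular_iUnion (fun r : TS E.Q =>
      ({w | ∃ x y, w = x ++ y ∧ x ∈ ({v | E.Y p i r v} : Language (Fin m)) ∧
        y ∈ ({v | E.Path r u q v} : Language (Fin m))} : Language (Fin m)))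
      (fun r => isRegular_concat (E.regular_Y p r i) (ih r))
    exact isReg_congr (isRegular_or h1 h2) (fun v => E.path_cons_iff p q i u v)

/-- for fixed `v` the set of `u` is regular -/
theorem EA.regular_u (E : EA m) (p q : TS E.Q) (v : List (Fin m)) :
    Language.IsRegular ({u | E.Path p u q v} : Language (Fin m)) := by
  classical
  -- the family
  let L : TS E.Q × ℕ → Language (Fin m) := fun s => {u | E.Path s.1 u q (v.drop s.2)}
  let F : Set (Language (Fin m)) :=
    insert ({w | w = []} : Language (Fin m)) (L '' (Set.univ ×ˢ (Set.Iic v.length)))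
  have hF : F.Finite := by
    apply Set.Finite.insert
    apply Set.Finite.image
    exact Set.finite_univ.prod (Set.finite_Iic _)
  have key : ∀ x : List (Fin m), ∀ r : TS E.Q, ∀ k ≤ v.length, ∃ G ⊆ F, ∀ y : List (Fin m),
      x ++ y ∈ L (r, k) ↔ ∃ A ∈ G, y ∈ A := by
    intro x
    induction x with
    | nil =>
      intro r k hk
      refine ⟨{L (r, k)}, ?_, ?_⟩
      · rw [Set.singleton_subset_iff]
        exact Or.inr ⟨(r, k), ⟨trivial, hk⟩, rfl⟩
      · intro y; simp
    | cons i x ih =>
      intro r k hk
      choose! G hG1 hG2 using ih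
      refine ⟨{A | A = ({w | w = []} : Language (Fin m)) ∧ x = [] ∧ E.Y r i q (v.drop k)} ∪
        {A | ∃ s l, k ≤ l ∧ l ≤ v.length ∧ E.Y r i s ((v.drop k).take (l - k)) ∧ A ∈ G s l},
        ?_, ?_⟩
      · rintro A (⟨rfl, _⟩ | ⟨s, l, _, h2, _, h4⟩)
        · exact Or.inl rfl
        · exact hG1 s l h2 h4
      · intro y
        have h0 : (i :: x) ++ y ∈ L (r, k) ↔ E.Path r (i :: (x ++ y)) q (v.drop k) := Iff.rfl
        rw [h0, E.path_cons_iff]
        constructor
        · rintro (⟨h1, h2⟩ | ⟨s, v1, v2, h1, h2, h3⟩)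
          · rw [List.append_eq_nil_iff] at h1
            exact ⟨_, Or.inl ⟨rfl, h1.1, h2⟩, h1.2⟩
          · have hlen : (v.drop k).length = v1.length + v2.length := by rw [h1, List.length_append]
            rw [List.length_drop] at hlen
            have e1 : (v.drop k).take (k + v1.length - k) = v1 := by
              rw [Nat.add_sub_cancel_left, h1, List.take_left]
            have e2 : v.drop (k + v1.length) = v2 := by
              rw [← List.drop_drop, h1, List.drop_left]
            have h4 : x ++ y ∈ L (s, k + v1.length) := by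
              show E.Path s (x ++ y) q (v.drop (k + v1.length))
              rw [e2]; exact h3
            rw [hG2 s (k + v1.length) (by omega)] at h4
            obtain ⟨A, hA, hy⟩ := h4
            exact ⟨A, Or.inr ⟨s, k + v1.length, by omega, by omega, by rw [e1]; exact h2, hA⟩, hy⟩
        · rintro ⟨A, (⟨rfl, h1, h2⟩ | ⟨s, l, h1, h2, h3, h4⟩), hy⟩
          · left
            have hy' : y = [] := hy
            exact ⟨by rw [h1, hy']; rfl, h2⟩
          · right
            have h5 : x ++ y ∈ L (s, l) := (hG2 s l h2 y).mpr ⟨A, h4, hy⟩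
            refine ⟨s, (v.drop k).take (l - k), v.drop l, ?_, h3, h5⟩
            have : v.drop l = (v.drop k).drop (l - k) := by
              rw [List.drop_drop]; congr 1; omega
            rw [this, List.take_append_drop]
  have hT := isRegular_of_family (L (p, 0)) F hF (fun x => key x p 0 (Nat.zero_le _))
  exact hT

theorem regular_JJ (N : ℕ) : Language.IsRegular ({x | JJ N x} : Language Bool) := by
  -- the runs of `c`
  have hC : Language.IsRegular ({w | (∀ b ∈ w, b = false) ∧ 1 ≤ w.length ∧ ¬ w = cw N} :
      Language Bool) := by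
    have h1 := isRegular_forall (fun b : Bool => b = false)
    have h2 := isRegular_length_ge (α := Bool) 1
    have h3 := (isRegular_singleton (cw N)).compl
    exact isRegular_and h1 (isRegular_and h2 h3)
  have h1 := isRegular_concat (isRegular_top' (α := Bool)) (isRegular_concat
    (isRegular_singleton [true]) (isRegular_concat hC (isRegular_concat
    (isRegular_singleton [true]) (isRegular_top' (α := Bool)))))
  refine isReg_congr h1 (fun w => ?_)
  constructor
  · rintro ⟨k, hk1, hk2, s, t, h⟩
    refine ⟨s, _, ?_, trivial, [true], _, rfl, rfl, cw k, _, rfl, ⟨?_, ?_, ?_⟩, [true], t, rfl, rfl, trivial⟩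
    · rw [← h]; simp
    · intro b hb
      exact List.eq_of_mem_replicate hb
    · simpa [cw] using hk1
    · intro h'
      apply hk2
      have := congrArg List.length h'
      simpa [cw] using this
  · rintro ⟨s, w1, h1, _, t1, w2, h2, h2', c, w3, h3, ⟨h4, h5, h6⟩, t2, t, h7, h7', _⟩
    have hc : c = cw c.length := List.eq_replicate_of_mem h4
    refine ⟨c.length, h5, ?_, s, t, ?_⟩
    · intro h
      apply h6
      rw [hc, h]
    · change t1 = [true] at h2'
      change t2 = [true] at h7'
      rw [h1, h2, h3, h7, h2', h7', ← hc]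
      simp

theorem gam_eq' (N : ℕ) (u : List (Fin m)) :
    gam N u = u.flatMap (fun j : Fin m => cw N ++ aw ((j : ℕ) + 1)) := by
  unfold gam
  first
  | rfl
  | (induction u with
    | nil => rfl
    | cons a u ih =>
      simp only [List.flatMap_cons]
      rw [← ih]
      rfl)

theorem enc_eq' (v : List (Fin m)) :
    enc v = v.flatMap (fun j : Fin m => List.replicate ((j : ℕ) + 1) true ++ [false]) := by
  unfold enc
  first
  | rfl
  | (induction v with
    | nil => rfl
    | cons a u ih =>
      simp only [List.flatMap_cons]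
      rw [← ih]
      rfl)

/-- images under the codings are regular -/
theorem regular_xw (N p q : ℕ) (T : Language (Fin m)) (hT : T.IsRegular) :
    Language.IsRegular ({x | ∃ u ∈ T, u ≠ [] ∧ x = xw N p u q} : Language Bool) := by
  have h1 : ∀ i : Fin m, Language.IsRegular ({w | ∃ x y, w = x ++ y ∧
      x ∈ ({x | x = cw (N - p) ++ aw ((i : ℕ) + 1)} : Language Bool) ∧
      y ∈ ({w | ∃ x y, w = x ++ y ∧
        x ∈ ({w | ∃ z ∈ T.leftQuotient [i], z.flatMap (fun j : Fin m => cw N ++ aw ((j : ℕ) + 1)) = w} :
          Language Bool) ∧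
        y ∈ ({x | x = cw q} : Language Bool)} : Language Bool)} : Language Bool) := by
    intro i
    exact isRegular_concat (isRegular_singleton _) (isRegular_concat
      (isRegular_image_flatMap _ (isRegular_leftQuotient hT [i])) (isRegular_singleton _))
  refine isReg_congr (isRegular_iUnion _ h1) (fun x => ?_)
  constructor
  · rintro ⟨u, hu, hne, hx⟩
    cases u with
    | nil => exact absurd rfl hne
    | cons i u =>
      refine ⟨i, cw (N - p) ++ aw ((i : ℕ) + 1), gam N u ++ cw q, ?_, rfl, gam N u, cw q, rfl,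
        ⟨u, hu, (gam_eq' N u).symm⟩, rfl⟩
      rw [hx, List.append_assoc]
      rfl
  · rintro ⟨i, x1, y1, hx, hx1, x2, y2, hy, ⟨u, hu, hu'⟩, hy2⟩
    refine ⟨i :: u, hu, by simp, ?_⟩
    change x1 = _ at hx1
    change y2 = _ at hy2
    rw [hx, hx1, hy, ← hu', hy2, List.append_assoc, ← gam_eq']
    rfl

theorem regular_enc (T : Language (Fin m)) (hT : T.IsRegular) :
    Language.IsRegular ({y | ∃ v ∈ T, y = enc v} : Language Bool) := by
  have h := isRegular_image_flatMap
    (fun j : Fin m => List.replicate ((j : ℕ) + 1) true ++ [false]) hT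
  refine isReg_congr h (fun y => ?_)
  constructor
  · rintro ⟨v, hv, h⟩
    exact ⟨v, hv, by rw [h, enc_eq']⟩
  · rintro ⟨v, hv, h⟩
    exact ⟨v, hv, by rw [← h, enc_eq']⟩

theorem EA.recognizable (E : EA m) (n0 : ℕ)
    (h : ∀ u v : List (Fin m), n0 ≤ u.length → n0 ≤ v.length → E.Ill u v) :
    Recognizable (Submonoid.closure E.L : Set (FreeMonoid Bool × FreeMonoid Bool)) := by
  have hone : Recognizable {w : FreeMonoid Bool × FreeMonoid Bool |
      w.1.toList ∈ ({x | x = []} : Language Bool) ∧ w.2.toList ∈ ({x | x = []} : Language Bool)} :=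
    Recognizable.rectangle (isRegular_singleton _) (isRegular_singleton _)
  have hJJ : Recognizable {w : FreeMonoid Bool × FreeMonoid Bool |
      w.1.toList ∈ ({x | JJ E.N x} : Language Bool) ∧ w.2.toList ∈ ({_w | True} : Language Bool)} :=
    Recognizable.rectangle (regular_JJ _) isRegular_top'
  have hbig : ∀ s : TS E.Q × TS E.Q, Recognizable {w : FreeMonoid Bool × FreeMonoid Bool |
      w.1.toList ∈ ({x | ∃ u ∈ ({w | n0 + 2 ≤ w.length} : Language (Fin m)), u ≠ [] ∧
        x = xw E.N s.1.num u s.2.num} : Language Bool) ∧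
      w.2.toList ∈ ({y | ∃ v ∈ ({w | n0 ≤ w.length} : Language (Fin m)), y = enc v} :
        Language Bool)} :=
    fun s => Recognizable.rectangle (regular_xw _ _ _ _ (isRegular_length_ge _))
      (regular_enc _ (isRegular_length_ge _))
  have hfu : Finite {u : List (Fin m) // u.length < n0 + 2} :=
    (List.finite_length_lt (Fin m) (n0 + 2)).to_subtype
  have hfv : Finite {u : List (Fin m) // u.length < n0} :=
    (List.finite_length_lt (Fin m) n0).to_subtype
  have hu : ∀ s : (TS E.Q × TS E.Q) × {u : List (Fin m) // u.length < n0 + 2},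
      Recognizable {w : FreeMonoid Bool × FreeMonoid Bool |
      w.1.toList ∈ ({x | x = xw E.N s.1.1.num s.2.1 s.1.2.num} : Language Bool) ∧
      w.2.toList ∈ ({y | ∃ v ∈ ({v | E.Path s.1.1 s.2.1 s.1.2 v} : Language (Fin m)),
        y = enc v} : Language Bool)} :=
    fun s => Recognizable.rectangle (isRegular_singleton _) (regular_enc _ (E.regular_v _ _ _))
  have hv : ∀ s : (TS E.Q × TS E.Q) × {u : List (Fin m) // u.length < n0},
      Recognizable {w : FreeMonoid Bool × FreeMonoid Bool |
      w.1.toList ∈ ({x | ∃ u ∈ ({u | E.Path s.1.1 u s.1.2 s.2.1} : Language (Fin m)), u ≠ [] ∧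
        x = xw E.N s.1.1.num u s.1.2.num} : Language Bool) ∧
      w.2.toList ∈ ({x | x = enc s.2.1} : Language Bool)} :=
    fun s => Recognizable.rectangle (regular_xw _ _ _ _ (E.regular_u _ _ _)) (isRegular_singleton _)
  have hall := ((((hone.union hJJ).union (Recognizable.iUnion hbig)).union
    (Recognizable.iUnion hu)).union (Recognizable.iUnion hv))
  convert hall using 1
  ext w
  rw [SetLike.mem_coe, E.mem_closure]
  simp only [Set.mem_union, Set.mem_iUnion]
  constructor
  · rintro (rfl | hw | ⟨p, u, q, v, hx, hy, hP⟩)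
    · exact Or.inl (Or.inl (Or.inl (Or.inl ⟨rfl, rfl⟩)))
    · exact Or.inl (Or.inl (Or.inl (Or.inr ⟨hw, trivial⟩)))
    · by_cases hul : u.length < n0 + 2
      · left; right
        exact ⟨((p, q), ⟨u, hul⟩), hx, v, hP, hy⟩
      · by_cases hvl : v.length < n0
        · right
          exact ⟨((p, q), ⟨v, hvl⟩), ⟨u, hP, hP.ne_nil, hx⟩, hy⟩
        · left; left; right
          exact ⟨(p, q), ⟨u, not_lt.mp hul, hP.ne_nil, hx⟩, v, not_lt.mp hvl, hy⟩
  · rintro ((((⟨h1, h2⟩ | ⟨h1, _⟩) | ⟨s, ⟨u, hu1, hu2, hu3⟩, v, hv1, hv2⟩) |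
      ⟨s, hs1, v, hv1, hv2⟩) | ⟨s, ⟨u, hu1, hu2, hu3⟩, hs⟩)
    · left
      apply Prod.ext
      · exact FreeMonoid.toList.injective h1
      · exact FreeMonoid.toList.injective h2
    · exact Or.inr (Or.inl h1)
    · right; right
      exact ⟨s.1, u, s.2, v, hu3, hv2, E.path_of_long n0 h s.1 s.2 u v hu1 hv1⟩
    · right; right
      exact ⟨s.1.1, s.2.1, s.1.2, v, hs1, hv2, hv1⟩
    · right; right
      exact ⟨s.1.1, u, s.1.2, s.2.1, hu3, hs, hu1⟩

end Star60
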