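import Mathlib

/-!
MP_1b5989_lc (star problem in trace monoids containing C4): the two-word avoidance problem.
Definitions of the letters, of the bad patterns and of legitimate pairs.
Blueprint: /team-store/MP_1b5989_blueprint_helper60.md
-/

namespace Star60

/-- letters: base letter, base letter of the parent, content -/
abbrev Lt (Γ : Type) := ZMod 6 × ZMod 6 × Γ

/-- pair letters (tape 1, tape 2) -/
abbrev Pr (Γ : Type) := Lt Γ × Lt Γ

section patterns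
variable {Γ : Type}

/-- base letters equal -/
def BE (p : Pr Γ) : Prop := p.1.1 = p.2.1
def isE1 (h : ZMod 6) (p : Pr Γ) : Prop := p.1.1 = h ∧ p.2.1 = h + 1
def isE2 (h : ZMod 6) (p : Pr Γ) : Prop := p.1.1 = h + 1 ∧ p.2.1 = h + 2
def isF1 (h : ZMod 6) (p : Pr Γ) : Prop := p.1.1 = h + 2 ∧ p.2.1 ≠ h + 2
def isF2 (h : ZMod 6) (p : Pr Γ) : Prop := p.1.1 ≠ h ∧ p.2.1 = h

/-- all letters base-equal -/
def AllBE (z : List (Pr Γ)) : Prop := ∀ p ∈ z, BE p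

/-- four consecutive letters of tape 1 are not a rotation of `(any,0,1,2)` -/
def RLoc (z : List (Pr Γ)) : Prop :=
  ∃ f : Fin 4 → Pr Γ, z = List.ofFn f ∧
    ¬ ∃ a : ZMod 4, ∀ i : Fin 4, ((i : ℕ) : ZMod 4) + a ≠ 0 →
      (f i).1.1 = (((((i : ℕ) : ZMod 4) + a).val : ℕ) : ZMod 6) - 1

/-- the part of a cycle after an `e1`: base-equal letters, `e2`, and then no further `e1` -/
def CycSeg (h : ZMod 6) (w : List (Pr Γ)) : Prop :=
  ∃ y q y', w = y ++ q :: y' ∧ AllBE y ∧ isE2 h q ∧ ∀ p ∈ y', ¬ isE1 h p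

/-- the segment contains a pair with base letters `(h+2+a, h)` -/
def HasU (h : ZMod 6) (a : ℕ) (w : List (Pr Γ)) : Prop :=
  ∃ p ∈ w, p.1.1 = h + 2 + a ∧ p.2.1 = h

/-- four cycles whose `U`-letters are not a rotation of `(any,h+3,h+4,h+5)` -/
def RU (z : List (Pr Γ)) : Prop :=
  ∃ h : ZMod 6, (h = 0 ∨ h = 3) ∧ ∃ (p : Fin 5 → Pr Γ) (w : Fin 4 → List (Pr Γ)),
    z = p 0 :: (w 0 ++ p 1 :: (w 1 ++ p 2 :: (w 2 ++ p 3 :: (w 3 ++ [p 4])))) ∧
    (∀ i, isE1 h (p i)) ∧ (∀ i, CycSeg h (w i)) ∧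
    ¬ ∃ a : ZMod 4, ∀ i : Fin 4, ((i : ℕ) : ZMod 4) + a ≠ 0 →
      HasU h ((((i : ℕ) : ZMod 4) + a).val) (w i)

variable [DecidableEq Γ]

/-- number of mismatches -/
def mis (z : List (Pr Γ)) : ℕ := z.countP (fun p => decide (p.1 ≠ p.2))

/-- a block with start letter `s` is fine: every mismatch carries the base letters of the start
letters as parent letters, and the number of mismatches is `h` modulo 6 -/
def OkBlock (s : Pr Γ) (h : ZMod 6) (z : List (Pr Γ)) : Prop :=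
  (∀ p ∈ z, p.1 ≠ p.2 → p.1.2.1 = s.1.1 ∧ p.2.2.1 = s.2.1) ∧ ((mis z : ℕ) : ZMod 6) = h

/-- a full cycle `e1 z1 e2 z2 f1 z3 f2 z4` (without the final `e1`) -/
def FullCyc (h : ZMod 6) (p1 p2 p3 p4 : Pr Γ) (z1 z2 z3 z4 : List (Pr Γ)) : Prop :=
  isE1 h p1 ∧ isE2 h p2 ∧ isF1 h p3 ∧ isF2 h p4 ∧ AllBE z1 ∧ AllBE z2 ∧ AllBE z3 ∧ AllBE z4

/-- full cycle with a block that is not fine -/
def RT (z : List (Pr Γ)) : Prop :=
  ∃ h : ZMod 6, (h = 0 ∨ h = 3) ∧ ∃ p1 z1 p2 z2 p3 z3 p4 z4 p5,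
    z = p1 :: (z1 ++ p2 :: (z2 ++ p3 :: (z3 ++ p4 :: (z4 ++ [p5])))) ∧
    FullCyc h p1 p2 p3 p4 z1 z2 z3 z4 ∧ isE1 h p5 ∧
    ¬ (OkBlock p1 h z1 ∧ OkBlock p2 h z2 ∧ OkBlock p3 h z3 ∧ OkBlock p4 h z4)

/-- the contents of the mismatches with digit 1 -/
def contents (z : List (Pr Γ)) : List (Γ × Γ) :=
  z.filterMap (fun p => if p.1 ≠ p.2 ∧ (p.1.1 = 0 ∨ p.1.1 = 3) then some (p.1.2.2, p.2.2.2) else none)

/-- two full cycles, the first `f2` has tape 1 base letter `h+3`, the second one `h+4`, and the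
contents of the block after the first `f2` are not in `S` -/
def RC (S : Language (Γ × Γ)) (z : List (Pr Γ)) : Prop :=
  ∃ h : ZMod 6, (h = 0 ∨ h = 3) ∧ ∃ p1 z1 p2 z2 p3 z3 p4 z4 p5 z5 p6 z6 p7 z7 p8 z8 p9,
    z = p1 :: (z1 ++ p2 :: (z2 ++ p3 :: (z3 ++ p4 :: (z4 ++
        p5 :: (z5 ++ p6 :: (z6 ++ p7 :: (z7 ++ p8 :: (z8 ++ [p9])))))))) ∧
    FullCyc h p1 p2 p3 p4 z1 z2 z3 z4 ∧ FullCyc h p5 p6 p7 p8 z5 z6 z7 z8 ∧ isE1 h p9 ∧
    p4.1.1 = h + 3 ∧ p8.1.1 = h + 4 ∧ contents z4 ∉ S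

/-- the first mismatch of `z` exists and its tape 1 content is an `L`-letter -/
def firstL (isL : Γ → Bool) (z : List (Pr Γ)) : Prop :=
  ∃ y q y', z = y ++ q :: y' ∧ (∀ p ∈ y, p.1 = p.2) ∧ q.1 ≠ q.2 ∧ isL q.1.2.2 = true

/-- the mode conditions at columns `n` and `n+1` -/
def RI (isL : Γ → Bool) (n : ℕ) (z : List (Pr Γ)) : Prop :=
  ∃ h : ZMod 6, (h = 0 ∨ h = 3) ∧ ∃ p1 z1 p2, z = p1 :: (z1 ++ [p2]) ∧
    isE1 h p1 ∧ isE2 h p2 ∧ AllBE z1 ∧
    ((mis z1 = 3 * n ∧ ¬ firstL isL z1) ∨ (mis z1 = 3 * (n + 1) ∧ firstL isL z1))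

/-- the part of the bad patterns that does not depend on `n` -/
def RFix (S : Language (Γ × Γ)) (z : List (Pr Γ)) : Prop :=
  RLoc z ∨ RU z ∨ RT z ∨ RC S z

def swapL (z : List (Pr Γ)) : List (Pr Γ) := z.map Prod.swap

/-- the bad pair words -/
def Bad (S : Language (Γ × Γ)) (isL : Γ → Bool) (n : ℕ) (z : List (Pr Γ)) : Prop :=
  RFix S z ∨ RFix S (swapL z) ∨ RI isL n z ∨ RI isL n (swapL z)

/-- no factors of equal length of `u` and `v` form a bad pair word -/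
def Legit (S : Language (Γ × Γ)) (isL : Γ → Bool) (n : ℕ) (u v : List (Lt Γ)) : Prop :=
  ∀ x y, x <:+: u → y <:+: v → x.length = y.length → ¬ Bad S isL n (x.zip y)

/-- the aligned pair word of two bi-infinite words, starting at `i` and `j`, of length `l` -/
def seg (ξ η : ℤ → Lt Γ) (i j : ℤ) (l : ℕ) : List (Pr Γ) :=
  (List.range l).map (fun t : ℕ => (ξ (i + (t : ℤ)), η (j + (t : ℤ))))

/-- legitimate pairs of bi-infinite words -/
def LegitZ (S : Language (Γ × Γ)) (isL : Γ → Bool) (n : ℕ) (ξ η : ℤ → Lt Γ) : Prop :=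
  ∀ (i j : ℤ) (l : ℕ), ¬ Bad S isL n (seg ξ η i j l)

/-- sequences of columns `X K : {0,...,K-1} → Γ` with consecutive columns related by `S`,
in `L`-mode at `n` but not at `n+1` -/
def RunX (S : Language (Γ × Γ)) (isL : Γ → Bool) (n : ℕ) (X : ℕ → ℕ → Γ) : Prop :=
  (∀ K, 1 ≤ K → (List.range K).map (fun k => (X (K + 1) k, X K k)) ∈ S) ∧
    isL (X n 0) = true ∧ isL (X (n + 1) 0) = false

/-- coordinates: the base letters of `ξ` are those of the hierarchical word with residues `r` -/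
def Coord (r : ℕ → ℤ) (ξ : ℤ → Lt Γ) : Prop :=
  (∀ L, r (L + 1) ≡ r L [ZMOD (4 : ℤ) ^ L]) ∧
  ∀ (k u : ℕ) (t : ℤ), 1 ≤ u → u ≤ 3 → t ≡ r (k + 1) + u * 4 ^ k [ZMOD (4 : ℤ) ^ (k + 1)] →
    (ξ t).1 = 3 * k + u - 1

/-- `n`-th power of a word -/
def powL {α : Type} (x : List α) (n : ℕ) : List α := (List.replicate n x).flatten

/-- residues and parents: the parent letters are right as well -/
def ParentOK (r : ℕ → ℤ) (ξ : ℤ → Lt Γ) : Prop :=
  ∀ (k u : ℕ) (t : ℤ), 1 ≤ u → u ≤ 3 → t ≡ r (k + 1) + u * 4 ^ k [ZMOD (4 : ℤ) ^ (k + 1)] →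
    (ξ t).2.1 = (ξ (t - u * 4 ^ k)).1

omit [DecidableEq Γ] in
theorem swapL_swapL (z : List (Pr Γ)) : swapL (swapL z) = z := by
  simp [swapL, Function.comp_def]

theorem bad_swapL {S : Language (Γ × Γ)} {isL : Γ → Bool} {n : ℕ} {z : List (Pr Γ)} :
    Bad S isL n (swapL z) ↔ Bad S isL n z := by
  unfold Bad
  rw [swapL_swapL]
  tauto

omit [DecidableEq Γ] in
theorem swapL_seg (ξ η : ℤ → Lt Γ) (i j : ℤ) (l : ℕ) : swapL (seg ξ η i j l) = seg η ξ j i l := by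
  simp [swapL, seg, Function.comp_def]

theorem LegitZ.symm {S : Language (Γ × Γ)} {isL : Γ → Bool} {n : ℕ} {ξ η : ℤ → Lt Γ}
    (h : LegitZ S isL n ξ η) : LegitZ S isL n η ξ := by
  intro i j l hb
  apply h j i l
  rw [← swapL_seg, bad_swapL] at hb
  exact hb

omit [DecidableEq Γ] in
@[simp] theorem seg_length (ξ η : ℤ → Lt Γ) (i j : ℤ) (l : ℕ) : (seg ξ η i j l).length = l := by
  simp [seg]

omit [DecidableEq Γ] in
theorem seg_add (ξ η : ℤ → Lt Γ) (i j : ℤ) (l l' : ℕ) :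
    seg ξ η i j (l + l') = seg ξ η i j l ++ seg ξ η (i + l) (j + l) l' := by
  simp only [seg, List.range_add, List.map_append, List.map_map]
  congr 1
  apply List.map_congr_left
  intro t _
  simp [Function.comp_def, add_assoc]

omit [DecidableEq Γ] in
theorem seg_succ (ξ η : ℤ → Lt Γ) (i j : ℤ) (l : ℕ) :
    seg ξ η i j (l + 1) = (ξ i, η j) :: seg ξ η (i + 1) (j + 1) l := by
  rw [add_comm, seg_add]
  simp [seg]

end patterns

end Star60
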