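import Pool.Agent.Star60.AlgClosure
import Pool.Agent.Star60.AlgPath
import Pool.Agent.Star60.Words

/-!
MP_1b5989_lc, module ALGPUMP: arbitrarily long legitimate pairs but no periodic ones: not
recognizable.
-/

namespace Star60

variable {m : ℕ}

theorem pump_exists {A S : Type} [Monoid S] [Finite S] (φ : List A → S)
    (hφ : ∀ x y, φ (x ++ y) = φ x * φ y) (u : List A) (hu : Nat.card S ≤ u.length) :
    ∃ x0 x x2, u = x0 ++ (x ++ x2) ∧ x ≠ [] ∧ φ x0 * φ x = φ x0 := by
  classical
  have : Fintype S := Fintype.ofFinite S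
  obtain ⟨i, j, hne, hij⟩ := Fintype.exists_ne_map_eq_of_card_lt
    (fun i : Fin (u.length + 1) => φ (u.take i)) (by
      rw [Fintype.card_fin, ← Nat.card_eq_fintype_card]; omega)
  have key : ∀ i j : Fin (u.length + 1), i < j → φ (u.take i) = φ (u.take j) →
      ∃ x0 x x2, u = x0 ++ (x ++ x2) ∧ x ≠ [] ∧ φ x0 * φ x = φ x0 := by
    intro i j hlt h
    refine ⟨u.take i, (u.take j).drop i, u.drop j, ?_, ?_, ?_⟩
    · have h1 : u.take i = (u.take j).take i := by
        rw [List.take_take, min_eq_left (le_of_lt (Fin.lt_def.mp hlt))]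
      rw [h1, ← List.append_assoc, List.take_append_drop, List.take_append_drop]
    · intro h0
      have := congrArg List.length h0
      simp only [List.length_drop, List.length_take, List.length_nil] at this
      have h1 : (i : ℕ) < j := hlt
      have h2 := j.2
      omega
    · rw [← hφ]
      have h1 : u.take i = (u.take j).take i := by
        rw [List.take_take, min_eq_left (le_of_lt (Fin.lt_def.mp hlt))]
      conv_lhs => rw [h1]
      rw [List.take_append_drop]
      exact h.symm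
  rcases lt_or_gt_of_ne hne with h | h
  · exact key i j h hij
  · exact key j i h hij.symm

theorem pump_pow {A S : Type} [Monoid S] (φ : List A → S)
    (hφ : ∀ x y, φ (x ++ y) = φ x * φ y) (x0 x x2 : List A) (h : φ x0 * φ x = φ x0) (r : ℕ) :
    φ (x0 ++ (powL x r ++ x2)) = φ (x0 ++ x2) := by
  induction r with
  | zero => simp [powL]
  | succ r ih =>
    have h1 : powL x (r + 1) = x ++ powL x r := by
      simp [powL, List.replicate_succ]
    rw [h1, List.append_assoc, hφ, hφ x, ← mul_assoc, h, ← hφ]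
    exact ih

theorem EA.not_recognizable (E : EA m)
    (h1 : ∀ n : ℕ, ∃ u v : List (Fin m), n ≤ u.length ∧ n ≤ v.length ∧ ¬ E.Ill u v)
    (h2 : ∀ x y : List (Fin m), x ≠ [] → y ≠ [] → ∃ r, E.Ill (powL x r) (powL y r)) :
    ¬ Recognizable (Submonoid.closure E.L : Set (FreeMonoid Bool × FreeMonoid Bool)) := by
  rintro ⟨S, _, _, h, hL⟩
  let φ : List (Fin m) → S := fun u => h (FreeMonoid.ofList (gam E.N u), 1)
  let ψ : List (Fin m) → S := fun v => h (1, FreeMonoid.ofList (enc v))
  have hφ : ∀ x y, φ (x ++ y) = φ x * φ y := by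
    intro x y
    simp only [φ]
    rw [← map_mul, gam_append, FreeMonoid.ofList_append, Prod.mk_mul_mk, one_mul]
  have hψ : ∀ x y, ψ (x ++ y) = ψ x * ψ y := by
    intro x y
    simp only [ψ]
    rw [← map_mul, enc_append, FreeMonoid.ofList_append, Prod.mk_mul_mk, one_mul]
  -- membership only depends on `φ u`, `ψ v`
  have hmem : ∀ u v : List (Fin m), u ≠ [] →
      ((FreeMonoid.ofList (gam E.N u ++ cw 1), FreeMonoid.ofList (enc v)) ∈
        Submonoid.closure E.L ↔ E.Ill u v) := by
    intro u v hu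
    have h3 := EA.mem_closure_xw E .s0 .f u v hu
    rw [EA.path_iff_ill] at h3
    rw [← h3]
    cases u with
    | nil => exact absurd rfl hu
    | cons i u =>
      simp only [TS.num, xw, Nat.sub_zero]
      rw [gam_cons]
  have hval : ∀ u v : List (Fin m),
      h (FreeMonoid.ofList (gam E.N u ++ cw 1), FreeMonoid.ofList (enc v)) =
        φ u * h (FreeMonoid.ofList (cw 1), 1) * ψ v := by
    intro u v
    simp only [φ, ψ]
    rw [← map_mul, ← map_mul]
    congr 1
    rw [FreeMonoid.ofList_append, Prod.mk_mul_mk, Prod.mk_mul_mk, one_mul, one_mul, mul_one]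
  have hiff : ∀ u v u' v' : List (Fin m), u ≠ [] → u' ≠ [] → φ u = φ u' → ψ v = ψ v' →
      (E.Ill u v ↔ E.Ill u' v') := by
    intro u v u' v' hu hu' h3 h4
    rw [← hmem u v hu, ← hmem u' v' hu']
    have h5 : ∀ w w' : FreeMonoid Bool × FreeMonoid Bool, h w = h w' →
        w ∈ Submonoid.closure E.L → w' ∈ Submonoid.closure E.L := by
      intro w w' hw hw1
      have : w' ∈ (Submonoid.closure E.L : Set (FreeMonoid Bool × FreeMonoid Bool)) := by
        rw [hL]
        exact ⟨w, hw1, hw⟩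
      exact this
    have h6 : h (FreeMonoid.ofList (gam E.N u ++ cw 1), FreeMonoid.ofList (enc v)) =
        h (FreeMonoid.ofList (gam E.N u' ++ cw 1), FreeMonoid.ofList (enc v')) := by
      rw [hval, hval, h3, h4]
    exact ⟨h5 _ _ h6, h5 _ _ h6.symm⟩
  obtain ⟨u, v, hu, hv, hill⟩ := h1 (Nat.card S)
  obtain ⟨x0, x, x2, rfl, hx, hx1⟩ := pump_exists φ hφ u hu
  obtain ⟨y0, y, y2, rfl, hy, hy1⟩ := pump_exists ψ hψ v hv
  obtain ⟨r, hr⟩ := h2 x y hx hy
  have hr' : E.Ill (x0 ++ (powL x r ++ x2)) (y0 ++ (powL y r ++ y2)) :=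
    hr.mono ⟨x0, x2, by simp⟩ ⟨y0, y2, by simp⟩
  have hne : x0 ++ (powL x r ++ x2) ≠ [] := by
    have := ((EA.path_iff_ill E _ _).mpr hr')
    exact this.ne_nil
  apply hill
  have e1 : powL x 1 = x := by simp [powL]
  have e2 : powL y 1 = y := by simp [powL]
  have f1 : φ (x0 ++ (x ++ x2)) = φ (x0 ++ x2) := by
    have := pump_pow φ hφ x0 x x2 hx1 1
    rwa [e1] at this
  have f2 : ψ (y0 ++ (y ++ y2)) = ψ (y0 ++ y2) := by
    have := pump_pow ψ hψ y0 y y2 hy1 1
    rwa [e2] at this
  refine (hiff _ _ _ _ ?_ hne ?_ ?_).mpr hr'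
  · simp [hx]
  · rw [f1, pump_pow φ hφ x0 x x2 hx1 r]
  · rw [f2, pump_pow ψ hψ y0 y y2 hy1 r]

end Star60
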