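import Pool.Agent.Star60.Rec

/-!
MP_1b5989_lc, module TRACE: trace monoids, automaton presentations, embedding of
`{a,c}* × {b,d}*` into a trace monoid with an induced 4-cycle.
-/

namespace Star60

/-- the embedding of `{a,c}* × {b,d}*` -/
def emb {r : ℕ} (I : Fin r → Fin r → Prop) (a b c d : Fin r)
    (w : FreeMonoid Bool × FreeMonoid Bool) : Trace I :=
  tr I (w.1.toList.map (fun t => if t then a else c)) *
    tr I (w.2.toList.map (fun t => if t then b else d))

section Aux

variable {r : ℕ} (I : Fin r → Fin r → Prop)

theorem tr_nil : tr I [] = 1 := rfl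

theorem tr_cons (x : Fin r) (w : List (Fin r)) : tr I (x :: w) = tr I [x] * tr I w := rfl

theorem tr_append (v w : List (Fin r)) : tr I (v ++ w) = tr I v * tr I w := rfl

theorem tr_surj (t : Trace I) : ∃ w, tr I w = t := by
  obtain ⟨w, rfl⟩ := Quotient.exists_rep t
  exact ⟨w.toList, rfl⟩

theorem tr_comm {x y : Fin r} (h : I x y) : tr I [x] * tr I [y] = tr I [y] * tr I [x] := by
  have : (traceCon I) (FreeMonoid.of x * FreeMonoid.of y) (FreeMonoid.of y * FreeMonoid.of x) :=
    ConGen.Rel.of _ _ ⟨x, y, h, rfl, rfl⟩
  exact (Con.eq _).2 this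

theorem traceCon_le {P : Type} [Monoid P] (f : Fin r → P)
    (hf : ∀ x y, I x y → f x * f y = f y * f x) : traceCon I ≤ Con.ker (FreeMonoid.lift f) := by
  refine Con.conGen_le.2 ?_
  rintro u v ⟨x, y, hxy, rfl, rfl⟩
  show FreeMonoid.lift f _ = FreeMonoid.lift f _
  simp [hf x y hxy]

/-- lift of a letter map to the trace monoid -/
noncomputable def liftTr {P : Type} [Monoid P] (f : Fin r → P)
    (hf : ∀ x y, I x y → f x * f y = f y * f x) : Trace I →* P :=
  (traceCon I).lift (FreeMonoid.lift f) (traceCon_le I f hf)

theorem liftTr_tr {P : Type} [Monoid P] (f : Fin r → P)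
    (hf : ∀ x y, I x y → f x * f y = f y * f x) (w : List (Fin r)) :
    liftTr I f hf (tr I w) = (w.map f).prod := by
  show FreeMonoid.lift f (FreeMonoid.ofList w) = _
  rw [FreeMonoid.lift_apply]
  rfl

end Aux

theorem recognizable_closure_emb {r : ℕ} (I : Fin r → Fin r → Prop) (hirr : ∀ x, ¬ I x x)
    (hsymm : ∀ x y, I x y → I y x) (a b c d : Fin r) (hab : I a b) (hbc : I b c) (hcd : I c d)
    (hda : I d a) (hac : ¬ I a c) (hbd : ¬ I b d) (hne : a ≠ c) (hne' : b ≠ d)
    (L : Set (FreeMonoid Bool × FreeMonoid Bool)) :
    Recognizable (Submonoid.closure (emb I a b c d '' L) : Set (Trace I)) ↔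
      Recognizable (Submonoid.closure L : Set (FreeMonoid Bool × FreeMonoid Bool)) := by
  have hca : ¬ I c a := fun h => hac (hsymm _ _ h)
  have hdb : ¬ I d b := fun h => hbd (hsymm _ _ h)
  have hab' : a ≠ b := fun h => hirr a (by rw [← h] at hab; exact hab)
  have hbc' : b ≠ c := fun h => hirr b (by rw [← h] at hbc; exact hbc)
  have hcd' : c ≠ d := fun h => hirr c (by rw [← h] at hcd; exact hcd)
  have hda' : d ≠ a := fun h => hirr d (by rw [← h] at hda; exact hda)
  -- the two halves of the embedding
  let X : FreeMonoid Bool →* Trace I := FreeMonoid.lift (fun t => tr I [if t then a else c])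
  let Y : FreeMonoid Bool →* Trace I := FreeMonoid.lift (fun t => tr I [if t then b else d])
  have hX : ∀ w : List Bool, X (FreeMonoid.ofList w) = tr I (w.map (fun t => if t then a else c)) := by
    intro w
    induction w with
    | nil => rfl
    | cons t w ih => rw [FreeMonoid.ofList_cons, map_mul, ih]; rfl
  have hY : ∀ w : List Bool, Y (FreeMonoid.ofList w) = tr I (w.map (fun t => if t then b else d)) := by
    intro w
    induction w with
    | nil => rfl
    | cons t w ih => rw [FreeMonoid.ofList_cons, map_mul, ih]; rfl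
  have comm1 : ∀ s t : Bool, Commute (tr I [if s then a else c]) (tr I [if t then b else d]) := by
    intro s t
    apply tr_comm
    cases s <;> cases t <;> simp
    · exact hcd
    · exact hsymm _ _ hbc
    · exact hsymm _ _ hda
    · exact hab
  have comm2 : ∀ (s : Bool) (v : List Bool),
      Commute (tr I [if s then a else c]) (Y (FreeMonoid.ofList v)) := by
    intro s v
    induction v with
    | nil => exact Commute.one_right _
    | cons t v ih =>
      rw [FreeMonoid.ofList_cons, map_mul]
      exact Commute.mul_right (comm1 s t) ih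
  have comm3 : ∀ (u v : List Bool), Commute (X (FreeMonoid.ofList u)) (Y (FreeMonoid.ofList v)) := by
    intro u v
    induction u with
    | nil => exact Commute.one_left _
    | cons t u ih =>
      rw [FreeMonoid.ofList_cons, map_mul]
      exact Commute.mul_left (comm2 t v) ih
  have comm : ∀ u v, Commute (X u) (Y v) := fun u v => comm3 u.toList v.toList
  let e : FreeMonoid Bool × FreeMonoid Bool →* Trace I := X.noncommCoprod Y comm
  have he : ∀ w, e w = emb I a b c d w := by
    intro w
    show X w.1 * Y w.2 = _
    rw [← FreeMonoid.ofList_toList w.1, ← FreeMonoid.ofList_toList w.2, hX, hY]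
    rfl
  have hemb : emb I a b c d = e := by
    funext w; exact (he w).symm
  -- the retraction
  let f : Fin r → FreeMonoid Bool × FreeMonoid Bool := fun x =>
    if x = a then (FreeMonoid.of true, 1) else if x = c then (FreeMonoid.of false, 1) else
    if x = b then (1, FreeMonoid.of true) else if x = d then (1, FreeMonoid.of false) else 1
  have hf : ∀ x y, I x y → f x * f y = f y * f x := by
    intro x y hxy
    simp only [f]
    split_ifs <;> subst_vars <;> first
      | exact absurd hxy (hirr _)
      | exact absurd hxy hac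
      | exact absurd hxy hca
      | exact absurd hxy hbd
      | exact absurd hxy hdb
      | simp
  let π : Trace I →* FreeMonoid Bool × FreeMonoid Bool := liftTr I f hf
  let χ : Trace I →* ZMod 2 := liftTr I (fun x => if x = a ∨ x = b ∨ x = c ∨ x = d then 1 else 0)
    (fun x y _ => mul_comm _ _)
  have hπ1 : ∀ x, π (tr I [x]) = f x := by
    intro x
    show liftTr I f hf (tr I [x]) = _
    rw [liftTr_tr]; simp
  have hχ1 : ∀ x, χ (tr I [x]) = if x = a ∨ x = b ∨ x = c ∨ x = d then 1 else 0 := by
    intro x
    show liftTr I _ _ (tr I [x]) = _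
    rw [liftTr_tr]; simp
  have hXof : ∀ t, X (FreeMonoid.of t) = tr I [if t then a else c] := fun t => rfl
  have hYof : ∀ t, Y (FreeMonoid.of t) = tr I [if t then b else d] := fun t => rfl
  have hπX : π.comp X = MonoidHom.inl _ _ := by
    refine FreeMonoid.hom_eq (fun t => ?_)
    rw [MonoidHom.comp_apply, hXof, hπ1]
    cases t
    · simp [f, hne.symm]
    · simp [f]
  have hπY : π.comp Y = MonoidHom.inr _ _ := by
    refine FreeMonoid.hom_eq (fun t => ?_)
    rw [MonoidHom.comp_apply, hYof, hπ1]
    cases t
    · simp [f, hda', hcd'.symm, hne'.symm]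
    · simp [f, hab'.symm, hbc']
  have hχX : χ.comp X = 1 := by
    refine FreeMonoid.hom_eq (fun t => ?_)
    rw [MonoidHom.comp_apply, hXof, hχ1]
    cases t <;> simp
  have hχY : χ.comp Y = 1 := by
    refine FreeMonoid.hom_eq (fun t => ?_)
    rw [MonoidHom.comp_apply, hYof, hχ1]
    cases t <;> simp
  have hπe : ∀ w, π (e w) = w := by
    intro w
    show π (X w.1 * Y w.2) = w
    rw [map_mul, ← MonoidHom.comp_apply π X, ← MonoidHom.comp_apply π Y, hπX, hπY]
    ext <;> simp
  have hχe : ∀ w, χ (e w) = 1 := by
    intro w
    show χ (X w.1 * Y w.2) = 1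
    rw [map_mul, ← MonoidHom.comp_apply χ X, ← MonoidHom.comp_apply χ Y, hχX, hχY]
    simp
  have heχ : ∀ t, χ t = 1 → ∃ w, e w = t := by
    intro t ht
    obtain ⟨w, rfl⟩ := tr_surj I t
    have key : ∀ w : List (Fin r), χ (tr I w) = 1 → tr I w ∈ MonoidHom.mrange e := by
      intro w
      induction w with
      | nil => intro _; exact one_mem _
      | cons x w ih =>
        intro h
        rw [tr_cons, map_mul, hχ1] at h
        rw [tr_cons]
        by_cases hx : x = a ∨ x = b ∨ x = c ∨ x = d
        · rw [if_pos hx, one_mul] at h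
          refine mul_mem ?_ (ih h)
          rcases hx with rfl | rfl | rfl | rfl
          · exact ⟨(FreeMonoid.of true, 1), by
              show X _ * Y _ = _
              rw [hXof, map_one, mul_one]; rfl⟩
          · exact ⟨(1, FreeMonoid.of true), by
              show X _ * Y _ = _
              rw [hYof, map_one, one_mul]; rfl⟩
          · exact ⟨(FreeMonoid.of false, 1), by
              show X _ * Y _ = _
              rw [hXof, map_one, mul_one]; rfl⟩
          · exact ⟨(1, FreeMonoid.of false), by
              show X _ * Y _ = _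
              rw [hYof, map_one, one_mul]; rfl⟩
        · rw [if_neg hx, zero_mul] at h
          exact absurd h (by decide)
    exact key w ht
  rw [hemb]
  have hcl : (Submonoid.closure (e '' L) : Set (Trace I)) =
      e '' (Submonoid.closure L : Set (FreeMonoid Bool × FreeMonoid Bool)) := by
    rw [← MonoidHom.map_mclosure]; rfl
  rw [hcl]
  constructor
  · intro h
    have h2 := h.comap e
    have : e ⁻¹' (e '' (Submonoid.closure L : Set (FreeMonoid Bool × FreeMonoid Bool))) =
        (Submonoid.closure L : Set (FreeMonoid Bool × FreeMonoid Bool)) := by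
      apply Set.preimage_image_eq
      intro u v huv
      rw [← hπe u, ← hπe v, huv]
    rwa [this] at h2
  · intro h
    have h2 := h.comap π
    have h3 : Recognizable (χ ⁻¹' {1}) :=
      recognizable_iff.2 ⟨ZMod 2, inferInstance, inferInstance, χ, {1}, rfl⟩
    have : e '' (Submonoid.closure L : Set (FreeMonoid Bool × FreeMonoid Bool)) =
        π ⁻¹' (Submonoid.closure L : Set (FreeMonoid Bool × FreeMonoid Bool)) ∩ χ ⁻¹' {1} := by
      ext t
      constructor
      · rintro ⟨w, hw, rfl⟩
        exact ⟨by rw [Set.mem_preimage, hπe]; exact hw, hχe w⟩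
      · rintro ⟨ht, ht'⟩
        obtain ⟨w, rfl⟩ := heχ t ht'
        rw [Set.mem_preimage, hπe] at ht
        exact ⟨w, ht, rfl⟩
    rw [this]
    exact h2.inter h3

end Star60
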