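import Pool.Agent.Star60.Alg
import Pool.Agent.Star60.Trace

/-!
MP_1b5989_lc, module PFAM (definitions): primitive recursive families of edge automata.
-/

namespace Star60

/-- a family of edge automata given by primitive recursive functions -/
structure PFam (m : ℕ) where
  Q : ℕ → ℕ
  δ : ℕ → ℕ → Fin m → Fin m → ℕ
  s : ℕ → ℕ
  F : ℕ → ℕ → Bool
  hδ : ∀ n p i j, δ n p i j < Q n
  hs : ∀ n, s n < Q n
  Qp : Primrec Q
  δp : Primrec (fun x : (ℕ × ℕ) × (Fin m × Fin m) => δ x.1.1 x.1.2 x.2.1 x.2.2)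
  sp : Primrec s
  Fp : Primrec₂ F

def PFam.ea {m : ℕ} (A : PFam m) (n : ℕ) : EA m where
  Q := A.Q n
  δ p i j := ⟨A.δ n p i j, A.hδ _ _ _ _⟩
  s := ⟨A.s n, A.hs n⟩
  F p := A.F n p

end Star60
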