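import Pool.Agent.Star60.RegBad
import Pool.Agent.Star60.PFam

/-!
MP_1b5989_lc, module BADFAM: the bad patterns give a primitive recursive family of edge automata.
Automaton for `n`: control states are pairs (state of a fixed DFA for `RFix ∪ swap RFix`, state of
the chain automaton for `RI (n+1) ∪ swap RI (n+1)`), and there is a counter of mismatches which is
capped at `3n+7`.  State number = counter * (number of control states) + number of the control
state.
-/

namespace Star60

/-- control states of the chain automaton: nothing read; inside a block (orientation, height, first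
mismatch has an `L`-letter); the last letter was `e2`; failed -/
inductive CK where
  | start : CK
  | ins : Bool → Bool → Option Bool → CK
  | cand : Option Bool → CK
  | dead : CK
  deriving DecidableEq, Fintype

/-- the heights `0`, `3` -/
def hz (b : Bool) : ZMod 6 := if b then 3 else 0

/-- orientation -/
def ori {Γ : Type} (o : Bool) (p : Pr Γ) : Pr Γ := if o then p.swap else p

theorem ori_ori {Γ : Type} (o : Bool) (p : Pr Γ) : ori o (ori o p) = p := by
  cases o <;> simp [ori]

theorem map_ori_ori {Γ : Type} (o : Bool) (z : List (Pr Γ)) : (z.map (ori o)).map (ori o) = z := by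
  rw [List.map_map]
  conv_rhs => rw [← List.map_id z]
  apply List.map_congr_left
  intro p _
  simp [ori_ori]

theorem BE_ori {Γ : Type} (o : Bool) (p : Pr Γ) : BE (ori o p) ↔ BE p := by
  cases o
  · simp [ori]
  · simp only [ori, BE, if_true, Prod.fst_swap, Prod.snd_swap]
    exact eq_comm

theorem AllBE_ori {Γ : Type} (o : Bool) (z : List (Pr Γ)) : AllBE (z.map (ori o)) ↔ AllBE z := by
  simp only [AllBE, List.forall_mem_map, BE_ori]

theorem e1_unique {Γ : Type} (p : Pr Γ) (o o' h h' : Bool) (h1 : isE1 (hz h) (ori o p))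
    (h2 : isE1 (hz h') (ori o' p)) : o = o' ∧ h = h' := by
  have key : ∀ (x y : ZMod 6) (o o' h h' : Bool),
      (if o then (y = hz h ∧ x = hz h + 1) else (x = hz h ∧ y = hz h + 1)) →
      (if o' then (y = hz h' ∧ x = hz h' + 1) else (x = hz h' ∧ y = hz h' + 1)) →
      o = o' ∧ h = h' := by
    unfold hz
    decide
  apply key p.1.1 p.2.1 o o' h h'
  · cases o <;> simpa [isE1, ori] using h1
  · cases o' <;> simpa [isE1, ori] using h2

theorem not_BE_of_e2 {Γ : Type} {h : ZMod 6} {p : Pr Γ} (h2 : isE2 h p) : ¬ BE p := by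
  intro hb
  obtain ⟨h3, h4⟩ := h2
  unfold BE at hb
  rw [h3, h4] at hb
  have : (1 : ZMod 6) = 2 := by
    linear_combination hb
  revert this
  decide

section
variable {Γ : Type} [DecidableEq Γ]

theorem mis_ori (o : Bool) (z : List (Pr Γ)) : mis (z.map (ori o)) = mis z := by
  unfold mis
  rw [List.countP_map]
  congr 1
  funext p
  cases o
  · simp [ori]
  · simp [ori, eq_comm]

/-- update of the flag -/
def updF (isL : Γ → Bool) (o : Bool) (fl : Option Bool) (p : Pr Γ) : Option Bool :=
  match fl with
  | some b => some b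
  | none => if p.1 ≠ p.2 then some (isL (ori o p).1.2.2) else none

/-- the flag of a block -/
def flag (isL : Γ → Bool) (o : Bool) (z : List (Pr Γ)) : Option Bool :=
  z.foldl (updF isL o) none

theorem foldl_updF_some (isL : Γ → Bool) (o b : Bool) (z : List (Pr Γ)) :
    z.foldl (updF isL o) (some b) = some b := by
  induction z with
  | nil => rfl
  | cons p z ih => simpa [updF] using ih

theorem flag_iff (isL : Γ → Bool) (o : Bool) (z : List (Pr Γ)) :
    flag isL o z = some true ↔ firstL isL (z.map (ori o)) := by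
  induction z with
  | nil =>
    simp only [flag, List.foldl_nil, List.map_nil]
    constructor
    · intro h; cases h
    · rintro ⟨y, q, y', h, _⟩
      simp at h
  | cons p z ih =>
    have hne : (ori o p).1 = (ori o p).2 ↔ p.1 = p.2 := by
      cases o
      · simp [ori]
      · simp only [ori, if_true, Prod.fst_swap, Prod.snd_swap]; exact eq_comm
    by_cases hp : p.1 = p.2
    · have h1 : flag isL o (p :: z) = flag isL o z := by
        simp [flag, updF, hp]
      rw [h1, ih]
      constructor
      · rintro ⟨y, q, y', h, h2, h3, h4⟩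
        refine ⟨ori o p :: y, q, y', by simp [h], ?_, h3, h4⟩
        intro x hx
        rcases List.mem_cons.mp hx with rfl | hx
        · exact hne.mpr hp
        · exact h2 x hx
      · rintro ⟨y, q, y', h, h2, h3, h4⟩
        cases y with
        | nil =>
          simp only [List.map_cons, List.nil_append, List.cons.injEq] at h
          exact absurd (hne.mpr hp) (by rw [h.1]; exact h3)
        | cons x y =>
          simp only [List.map_cons, List.cons_append, List.cons.injEq] at h
          exact ⟨y, q, y', h.2, fun x hx => h2 x (List.mem_cons_of_mem _ hx), h3, h4⟩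
    · have h1 : flag isL o (p :: z) = some (isL (ori o p).1.2.2) := by
        simp only [flag, List.foldl_cons, updF, ne_eq, hp, not_false_eq_true, if_true]
        exact foldl_updF_some isL o _ z
      rw [h1]
      constructor
      · intro h
        refine ⟨[], ori o p, z.map (ori o), by simp, by simp, ?_, by simpa using h⟩
        exact fun h' => hp (hne.mp h')
      · rintro ⟨y, q, y', h, h2, h3, h4⟩
        cases y with
        | nil =>
          simp only [List.map_cons, List.nil_append, List.cons.injEq] at h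
          rw [h.1, h4]
        | cons x y =>
          simp only [List.map_cons, List.cons_append, List.cons.injEq] at h
          exact absurd (hne.mp (by rw [h.1]; exact h2 x (List.mem_cons_self ..))) hp

open Classical in
/-- step of the chain automaton -/
noncomputable def CK.step (isL : Γ → Bool) (k : CK) (p : Pr Γ) : CK :=
  match k with
  | .start =>
    if isE1 (hz false) (ori false p) then .ins false false none
    else if isE1 (hz true) (ori false p) then .ins false true none
    else if isE1 (hz false) (ori true p) then .ins true false none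
    else if isE1 (hz true) (ori true p) then .ins true true none
    else .dead
  | .ins o h fl =>
    if BE p then .ins o h (updF isL o fl p)
    else if isE2 (hz h) (ori o p) then .cand fl else .dead
  | _ => .dead

open Classical in
/-- increment of the counter -/
noncomputable def CK.inc (k : CK) (p : Pr Γ) : ℕ :=
  match k with
  | .ins _ _ _ => if BE p ∧ p.1 ≠ p.2 then 1 else 0
  | _ => 0

theorem CK.step_start (isL : Γ → Bool) (p : Pr Γ) (o h : Bool) (h1 : isE1 (hz h) (ori o p)) :
    CK.start.step isL p = .ins o h none := by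
  unfold CK.step
  simp only
  split_ifs with a1 a2 a3 a4
  · obtain ⟨rfl, rfl⟩ := e1_unique p _ _ _ _ h1 a1; rfl
  · obtain ⟨rfl, rfl⟩ := e1_unique p _ _ _ _ h1 a2; rfl
  · obtain ⟨rfl, rfl⟩ := e1_unique p _ _ _ _ h1 a3; rfl
  · obtain ⟨rfl, rfl⟩ := e1_unique p _ _ _ _ h1 a4; rfl
  · exfalso
    cases o <;> cases h
    · exact a1 h1
    · exact a2 h1
    · exact a3 h1
    · exact a4 h1

theorem CK.step_start_dead (isL : Γ → Bool) (p : Pr Γ) (h1 : ∀ o h, ¬ isE1 (hz h) (ori o p)) :
    CK.start.step isL p = .dead := by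
  unfold CK.step
  simp [h1]

/-- step with counter -/
noncomputable def st2 (isL : Γ → Bool) (x : CK × ℕ) (p : Pr Γ) : CK × ℕ :=
  (x.1.step isL p, x.2 + x.1.inc p)

/-- run -/
noncomputable def run2 (isL : Γ → Bool) (z : List (Pr Γ)) : CK × ℕ :=
  z.foldl (st2 isL) (CK.start, 0)

/-- `w` is a block followed by `e2` -/
def BlkE2 (o h : Bool) (w : List (Pr Γ)) : Prop :=
  ∃ z1 q, w = z1 ++ [q] ∧ AllBE z1 ∧ isE2 (hz h) (ori o q)

theorem char (isL : Γ → Bool) (o h : Bool) (w : List (Pr Γ)) :
    (AllBE w → w.foldl (st2 isL) (CK.ins o h none, 0) = (CK.ins o h (flag isL o w), mis w)) ∧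
    (∀ z1 q, w = z1 ++ [q] → AllBE z1 → isE2 (hz h) (ori o q) →
      w.foldl (st2 isL) (CK.ins o h none, 0) = (CK.cand (flag isL o z1), mis z1)) ∧
    (¬ AllBE w → ¬ BlkE2 o h w → (w.foldl (st2 isL) (CK.ins o h none, 0)).1 = CK.dead) := by
  induction w using List.reverseRecOn with
  | nil =>
    refine ⟨fun _ => by simp [flag, mis], ?_, ?_⟩
    · intro z1 q h1
      simp at h1
    · intro h1
      exact absurd (by simp [AllBE]) h1
  | append_singleton w p ih =>
    obtain ⟨ih1, ih2, ih3⟩ := ih
    have hall : AllBE (w ++ [p]) ↔ AllBE w ∧ BE p := by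
      simp only [AllBE, List.mem_append, List.mem_singleton]
      constructor
      · intro h; exact ⟨fun q hq => h q (Or.inl hq), h p (Or.inr rfl)⟩
      · rintro ⟨h1, h2⟩ q (hq | rfl)
        · exact h1 q hq
        · exact h2
    have hflag : flag isL o (w ++ [p]) = updF isL o (flag isL o w) p := by
      simp [flag]
    have hmis : mis (w ++ [p]) = mis w + if p.1 ≠ p.2 then 1 else 0 := by
      simp [mis, List.countP_append, List.countP_cons]
    rw [List.foldl_append, List.foldl_cons, List.foldl_nil]
    refine ⟨?_, ?_, ?_⟩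
    · intro h1
      obtain ⟨h2, h3⟩ := hall.mp h1
      rw [ih1 h2, hflag, hmis]
      simp only [st2, CK.step, CK.inc, h3, if_true, true_and]
    · intro z1 q h1 h2 h3
      obtain ⟨rfl, h4⟩ := List.append_inj' h1 rfl
      simp only [List.cons.injEq, and_true] at h4
      subst h4
      rw [ih1 h2]
      have hb : ¬ BE p := by rw [← BE_ori o]; exact not_BE_of_e2 h3
      simp only [st2, CK.step, CK.inc, hb, if_false, h3, if_true, false_and, add_zero]
    · intro h1 h2
      by_cases h3 : AllBE w
      · rw [ih1 h3]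
        have hb : ¬ BE p := fun hb => h1 (hall.mpr ⟨h3, hb⟩)
        have he : ¬ isE2 (hz h) (ori o p) := fun he => h2 ⟨w, p, rfl, h3, he⟩
        simp only [st2, CK.step, hb, if_false, he]
      · by_cases h4 : BlkE2 o h w
        · obtain ⟨z1, q, h5, h6, h7⟩ := h4
          rw [ih2 z1 q h5 h6 h7]
          simp [st2, CK.step]
        · have h5 := ih3 h3 h4
          simp only [st2]
          rw [h5]
          simp [CK.step]

/-- acceptance of the chain automaton -/
def accK (n : ℕ) (x : CK × ℕ) : Prop :=
  ∃ fl, x.1 = CK.cand fl ∧ ((x.2 = 3 * n ∧ fl ≠ some true) ∨ (x.2 = 3 * (n + 1) ∧ fl = some true))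

theorem RI_ori (isL : Γ → Bool) (n : ℕ) (o : Bool) (z : List (Pr Γ)) :
    RI isL n (z.map (ori o)) ↔ ∃ h p1 z1 p2, z = p1 :: (z1 ++ [p2]) ∧ isE1 (hz h) (ori o p1) ∧
      isE2 (hz h) (ori o p2) ∧ AllBE z1 ∧
      ((mis z1 = 3 * n ∧ ¬ flag isL o z1 = some true) ∨
        (mis z1 = 3 * (n + 1) ∧ flag isL o z1 = some true)) := by
  constructor
  · rintro ⟨h, hh, p1, z1, p2, h1, h2, h3, h4, h5⟩
    obtain ⟨b, rfl⟩ : ∃ b, h = hz b := by
      rcases hh with rfl | rfl
      · exact ⟨false, rfl⟩
      · exact ⟨true, rfl⟩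
    have h6 := congrArg (List.map (ori o)) h1
    rw [map_ori_ori] at h6
    simp only [List.map_cons, List.map_append, List.map_nil] at h6
    refine ⟨b, ori o p1, z1.map (ori o), ori o p2, h6, by rwa [ori_ori], by rwa [ori_ori],
      (AllBE_ori o z1).mpr h4, ?_⟩
    rw [mis_ori, flag_iff, map_ori_ori]
    exact h5
  · rintro ⟨b, p1, z1, p2, rfl, h2, h3, h4, h5⟩
    refine ⟨hz b, ?_, ori o p1, z1.map (ori o), ori o p2, by simp, h2, h3,
      (AllBE_ori o z1).mpr h4, ?_⟩
    · cases b
      · exact Or.inl rfl
      · exact Or.inr rfl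
    · rw [mis_ori, ← flag_iff]
      exact h5

theorem RI_iff (isL : Γ → Bool) (n : ℕ) (z : List (Pr Γ)) :
    (∃ o, RI isL n (z.map (ori o))) ↔ accK n (run2 isL z) := by
  simp_rw [RI_ori]
  cases z with
  | nil =>
    simp [run2, accK]
  | cons p w =>
    have hrun : run2 isL (p :: w) = w.foldl (st2 isL) (CK.start.step isL p, 0) := by
      simp [run2, st2, CK.inc]
    rw [hrun]
    by_cases hE : ∃ o h, isE1 (hz h) (ori o p)
    · obtain ⟨o, h, hE⟩ := hE
      rw [CK.step_start isL p o h hE]
      obtain ⟨c1, c2, c3⟩ := char isL o h w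
      by_cases hw : AllBE w
      · rw [c1 hw]
        constructor
        · rintro ⟨o', h', p1, z1, p2, h1, -, h3, -⟩
          simp only [List.cons.injEq] at h1
          exact absurd (hw p2 (by rw [h1.2]; simp)) (by rw [← BE_ori o']; exact not_BE_of_e2 h3)
        · rintro ⟨fl, h1, -⟩
          cases h1
      · by_cases hB : BlkE2 o h w
        · obtain ⟨z1, q, h5, h6, h7⟩ := hB
          rw [c2 z1 q h5 h6 h7]
          constructor
          · rintro ⟨o', h', p1, z1', p2, h1, h2, h3, h4, h8⟩
            simp only [List.cons.injEq] at h1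
            obtain ⟨rfl, h9⟩ := h1
            obtain ⟨rfl, rfl⟩ := e1_unique p _ _ _ _ hE h2
            rw [h5] at h9
            obtain ⟨rfl, -⟩ := List.append_inj' h9 rfl
            refine ⟨_, rfl, ?_⟩
            exact h8
          · rintro ⟨fl, h1, h2⟩
            simp only [CK.cand.injEq] at h1
            subst h1
            exact ⟨o, h, p, z1, q, by rw [h5], hE, h7, h6, h2⟩
        · have h5 := c3 hw hB
          constructor
          · rintro ⟨o', h', p1, z1', p2, h1, h2, h3, h4, h8⟩
            simp only [List.cons.injEq] at h1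
            obtain ⟨rfl, h9⟩ := h1
            obtain ⟨rfl, rfl⟩ := e1_unique p _ _ _ _ hE h2
            exact absurd ⟨z1', p2, h9, h4, h3⟩ hB
          · rintro ⟨fl, h1, -⟩
            rw [h5] at h1
            cases h1
    · push Not at hE
      rw [CK.step_start_dead isL p hE]
      have hdead : ∀ (w : List (Pr Γ)) (c : ℕ), (w.foldl (st2 isL) (CK.dead, c)).1 = CK.dead := by
        intro w
        induction w with
        | nil => intro c; rfl
        | cons q w ih => intro c; simpa [st2, CK.step] using ih _
      constructor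
      · rintro ⟨o', h', p1, z1', p2, h1, h2, -⟩
        simp only [List.cons.injEq] at h1
        obtain ⟨rfl, -⟩ := h1
        exact absurd h2 (hE o' h')
      · rintro ⟨fl, h1, -⟩
        rw [hdead] at h1
        cases h1

end

/-! ### the numerical automaton -/

section num
variable {Γ : Type} [DecidableEq Γ] {m : ℕ} {σ : Type}

/-- acceptance flags -/
def CK.f1 (k : CK) : Bool := match k with
  | .cand fl => fl != some true
  | _ => false
def CK.f2 (k : CK) : Bool := match k with
  | .cand fl => fl == some true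
  | _ => false

theorem accK_iff (n : ℕ) (x : CK × ℕ) :
    accK n x ↔ (x.2 = 3 * n ∧ x.1.f1 = true) ∨ (x.2 = 3 * (n + 1) ∧ x.1.f2 = true) := by
  obtain ⟨k, c⟩ := x
  cases k <;> simp [accK, CK.f1, CK.f2]

/-- control step -/
noncomputable def stC (isL : Γ → Bool) (M : DFA (Pr Γ) σ) (x : σ × CK) (p : Pr Γ) : σ × CK :=
  (M.step x.1 p, x.2.step isL p)

/-- run with capped counter -/
noncomputable def runC (isL : Γ → Bool) (M : DFA (Pr Γ) σ) (cap : ℕ) (z : List (Pr Γ)) :
    (σ × CK) × ℕ :=
  z.foldl (fun x p => (stC isL M x.1 p, min (x.2 + x.1.2.inc p) cap)) ((M.start, CK.start), 0)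

theorem runC_eq (isL : Γ → Bool) (M : DFA (Pr Γ) σ) (cap : ℕ) (z : List (Pr Γ)) :
    runC isL M cap z = ((M.eval z, (run2 isL z).1), min (run2 isL z).2 cap) := by
  induction z using List.reverseRecOn with
  | nil => simp [runC, run2]
  | append_singleton w p ih =>
    have h1 : runC isL M cap (w ++ [p]) = (stC isL M (runC isL M cap w).1 p,
        min ((runC isL M cap w).2 + (runC isL M cap w).1.2.inc p) cap) := by
      simp [runC]
    have h2 : run2 isL (w ++ [p]) = st2 isL (run2 isL w) p := by
      simp [run2]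
    rw [h1, ih, h2]
    simp only [stC, st2, DFA.eval_append_singleton]
    congr 1
    omega

variable (isL : Γ → Bool) (M : DFA (Pr Γ) σ) (N : ℕ) (f : σ × CK ≃ Fin N) (hN : 0 < N)
  (e : Lt Γ ≃ Fin m)

/-- decoding of the control state -/
def dc (p : ℕ) : σ × CK := f.symm ⟨p % N, Nat.mod_lt _ hN⟩

/-- numerical transition -/
noncomputable def dl (n p : ℕ) (i j : Fin m) : ℕ :=
  min (p / N + (dc N f hN p).2.inc (e.symm i, e.symm j)) (3 * n + 7) * N +
    (f (stC isL M (dc N f hN p) (e.symm i, e.symm j)) : ℕ)

open Classical in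
noncomputable def fin (n p : ℕ) : Bool :=
  decide ((dc N f hN p).1 ∈ M.accept) || (decide (p / N = 3 * (n + 1)) && (dc N f hN p).2.f1) ||
    (decide (p / N = 3 * (n + 2)) && (dc N f hN p).2.f2)

theorem code_lt {N c cap : ℕ} (hc : c ≤ cap) (a : Fin N) : c * N + a < (cap + 1) * N := by
  calc c * N + a < c * N + N := by have := a.2; omega
    _ = (c + 1) * N := by ring
    _ ≤ (cap + 1) * N := Nat.mul_le_mul_right _ (by omega)

theorem primrec_dcN : Primrec (fun p : ℕ => (⟨p % N, Nat.mod_lt _ hN⟩ : Fin N)) := by
  rw [← Primrec.fin_val_iff]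
  exact Primrec.nat_mod.comp Primrec.id (Primrec.const N)

/-- the family -/
noncomputable def fam : PFam m where
  Q n := (3 * n + 7 + 1) * N
  δ n p i j := dl isL M N f hN e n p i j
  s _ := f (M.start, CK.start)
  F n p := fin M N f hN n p
  hδ n p i j := code_lt (min_le_right _ _) _
  hs n := by
    have := (f (M.start, CK.start)).2
    calc ((f (M.start, CK.start) : Fin N) : ℕ) < N := this
      _ = 1 * N := by ring
      _ ≤ (3 * n + 7 + 1) * N := Nat.mul_le_mul_right _ (by omega)
  Qp := by
    refine Primrec.nat_mul.comp ?_ (Primrec.const N)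
    refine Primrec.succ.comp ?_
    exact Primrec.nat_add.comp (Primrec.nat_mul.comp (Primrec.const 3) Primrec.id) (Primrec.const 7)
  δp := by
    have hp : Primrec (fun x : (ℕ × ℕ) × (Fin m × Fin m) =>
        ((⟨x.1.2 % N, Nat.mod_lt _ hN⟩ : Fin N), x.2)) :=
      ((primrec_dcN N hN).comp (Primrec.snd.comp Primrec.fst)).pair Primrec.snd
    have h1 : Primrec (fun y : Fin N × (Fin m × Fin m) =>
        (f.symm y.1).2.inc (e.symm y.2.1, e.symm y.2.2)) := Primrec.dom_finite _
    have h2 : Primrec (fun y : Fin N × (Fin m × Fin m) =>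
        (f (stC isL M (f.symm y.1) (e.symm y.2.1, e.symm y.2.2)) : ℕ)) := Primrec.dom_finite _
    have h3 := h1.comp hp
    have h4 := h2.comp hp
    refine Primrec.nat_add.comp ?_ h4
    refine Primrec.nat_mul.comp ?_ (Primrec.const N)
    refine Primrec.nat_min.comp ?_ ?_
    · refine Primrec.nat_add.comp ?_ h3
      exact Primrec.nat_div.comp (Primrec.snd.comp Primrec.fst) (Primrec.const N)
    · exact Primrec.nat_add.comp (Primrec.nat_mul.comp (Primrec.const 3)
        (Primrec.fst.comp Primrec.fst)) (Primrec.const 7)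
  sp := Primrec.const _
  Fp := by
    have hp : Primrec (fun x : ℕ × ℕ => (⟨x.2 % N, Nat.mod_lt _ hN⟩ : Fin N)) :=
      (primrec_dcN N hN).comp Primrec.snd
    classical
    have h1 : Primrec (fun y : Fin N => decide ((f.symm y).1 ∈ M.accept)) := Primrec.dom_finite _
    have h2 : Primrec (fun y : Fin N => (f.symm y).2.f1) := Primrec.dom_finite _
    have h3 : Primrec (fun y : Fin N => (f.symm y).2.f2) := Primrec.dom_finite _
    have h4 := h1.comp hp
    have h5 := h2.comp hp
    have h6 := h3.comp hp
    have hd : ∀ k : ℕ, Primrec (fun x : ℕ × ℕ => decide (x.2 / N = 3 * (x.1 + k))) := by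
      intro k
      have h7 : Primrec (fun x : ℕ × ℕ => x.2 / N) :=
        Primrec.nat_div.comp Primrec.snd (Primrec.const N)
      have h8 : Primrec (fun x : ℕ × ℕ => 3 * (x.1 + k)) :=
        Primrec.nat_mul.comp (Primrec.const 3) (Primrec.nat_add.comp Primrec.fst (Primrec.const k))
      exact Primrec.beq.comp h7 h8
    unfold Primrec₂
    refine (Primrec.or.comp (Primrec.or.comp h4 (Primrec.and.comp (hd 1) h5))
      (Primrec.and.comp (hd 2) h6)).of_eq ?_
    intro x
    rfl

include hN in
theorem div_code (x : σ × CK) (c : ℕ) : (c * N + (f x : ℕ)) / N = c := by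
  rw [mul_comm, Nat.mul_add_div hN, Nat.div_eq_of_lt (f x).2, add_zero]

theorem dc_code (x : σ × CK) (c : ℕ) : dc N f hN (c * N + (f x : ℕ)) = x := by
  unfold dc
  have h : (⟨(c * N + (f x : ℕ)) % N, Nat.mod_lt _ hN⟩ : Fin N) = f x := by
    apply Fin.ext
    simp only
    rw [mul_comm, Nat.mul_add_mod, Nat.mod_eq_of_lt (f x).2]
  rw [h, Equiv.symm_apply_apply]

theorem fam_run (n : ℕ) (z : List (Pr Γ)) :
    ((((fam isL M N f hN e).ea n).run (z.map (fun p => (e p.1, e p.2))) :
      Fin (((fam isL M N f hN e).ea n).Q)) : ℕ) =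
      (runC isL M (3 * n + 7) z).2 * N + (f (runC isL M (3 * n + 7) z).1 : ℕ) := by
  induction z using List.reverseRecOn with
  | nil =>
    simp [EA.run, runC, PFam.ea, fam]
  | append_singleton w p ih =>
    have h1 : ((fam isL M N f hN e).ea n).run ((w ++ [p]).map (fun p => (e p.1, e p.2))) =
        ((fam isL M N f hN e).ea n).δ
          (((fam isL M N f hN e).ea n).run (w.map (fun p => (e p.1, e p.2)))) (e p.1) (e p.2) := by
      simp [EA.run]
    have h2 : runC isL M (3 * n + 7) (w ++ [p]) = (stC isL M (runC isL M (3 * n + 7) w).1 p,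
        min ((runC isL M (3 * n + 7) w).2 + (runC isL M (3 * n + 7) w).1.2.inc p) (3 * n + 7)) := by
      simp [runC]
    rw [h1, h2]
    change dl isL M N f hN e n _ (e p.1) (e p.2) = _
    rw [ih]
    unfold dl
    rw [div_code N f hN, dc_code N f hN]
    simp only [Equiv.symm_apply_apply]

theorem fam_acc (n : ℕ) (z : List (Pr Γ)) :
    ((fam isL M N f hN e).ea n).F
      (((fam isL M N f hN e).ea n).run (z.map (fun p => (e p.1, e p.2)))) = true ↔
      z ∈ M.accepts ∨ accK (n + 1) (run2 isL z) := by
  change fin M N f hN n _ = true ↔ _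
  rw [fam_run, runC_eq]
  unfold fin
  rw [div_code N f hN, dc_code N f hN, accK_iff, DFA.mem_accepts]
  simp only [Bool.or_eq_true, Bool.and_eq_true, decide_eq_true_eq]
  constructor
  · rintro ((h | ⟨h, h'⟩) | ⟨h, h'⟩)
    · exact Or.inl h
    · exact Or.inr (Or.inl ⟨by omega, h'⟩)
    · exact Or.inr (Or.inr ⟨by omega, h'⟩)
  · rintro (h | ⟨h, h'⟩ | ⟨h, h'⟩)
    · exact Or.inl (Or.inl h)
    · exact Or.inl (Or.inr ⟨by omega, h'⟩)
    · exact Or.inr ⟨by omega, h'⟩

end num

/-! ### bad words have length at least two -/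

theorem two_le_of_RFix {Γ : Type} [DecidableEq Γ] {S : Language (Γ × Γ)} {z : List (Pr Γ)}
    (h : RFix S z) : 2 ≤ z.length := by
  rcases h with h | h | h | h
  · obtain ⟨f, rfl, -⟩ := h
    simp
  · obtain ⟨h, -, p, w, rfl, -⟩ := h
    simp only [List.length_cons, List.length_append]
    omega
  · obtain ⟨h, -, p1, z1, p2, z2, p3, z3, p4, z4, p5, rfl, -⟩ := h
    simp only [List.length_cons, List.length_append]
    omega
  · obtain ⟨h, -, p1, z1, p2, z2, p3, z3, p4, z4, p5, z5, p6, z6, p7, z7, p8, z8, p9, rfl, -⟩ := h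
    simp only [List.length_cons, List.length_append]
    omega

theorem two_le_of_RI {Γ : Type} [DecidableEq Γ] {isL : Γ → Bool} {n : ℕ} {z : List (Pr Γ)}
    (h : RI isL n z) : 2 ≤ z.length := by
  obtain ⟨h, -, p1, z1, p2, rfl, -⟩ := h
  simp only [List.length_cons, List.length_append, List.length_nil]
  omega

theorem swapL_length {Γ : Type} (z : List (Pr Γ)) : (swapL z).length = z.length := by
  simp [swapL]

theorem two_le_of_Bad {Γ : Type} [DecidableEq Γ] {S : Language (Γ × Γ)} {isL : Γ → Bool} {n : ℕ}
    {z : List (Pr Γ)} (h : Bad S isL n z) : 2 ≤ z.length := by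
  rcases h with h | h | h | h
  · exact two_le_of_RFix h
  · rw [← swapL_length]; exact two_le_of_RFix h
  · exact two_le_of_RI h
  · rw [← swapL_length]; exact two_le_of_RI h

theorem exists_fam {Γ : Type} [Fintype Γ] [DecidableEq Γ] (S : Language (Γ × Γ))
    (hS : S.IsRegular) (isL : Γ → Bool) :
    ∃ (m : ℕ) (e : Lt Γ ≃ Fin m) (A : PFam m), ∀ (n : ℕ) (u v : List (Lt Γ)),
      (A.ea n).Ill (u.map e) (v.map e) ↔ ¬ Legit S isL (n + 1) u v := by
  obtain ⟨σ, hσ, M, hM⟩ := isRegular_RFix S hS
  classical
  have f : σ × CK ≃ Fin (Fintype.card (σ × CK)) := Fintype.equivFin _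
  have hN : 0 < Fintype.card (σ × CK) := Fintype.card_pos_iff.mpr ⟨(M.start, CK.start)⟩
  refine ⟨Fintype.card (Lt Γ), Fintype.equivFin _, fam isL M _ f hN (Fintype.equivFin _), ?_⟩
  generalize Fintype.equivFin (Lt Γ) = e
  intro n u v
  have hbad : ∀ z : List (Pr Γ), ((fam isL M _ f hN e).ea n).F
      (((fam isL M _ f hN e).ea n).run (z.map (fun p => (e p.1, e p.2)))) = true ↔
      Bad S isL (n + 1) z := by
    intro z
    rw [fam_acc, hM, ← RI_iff]
    unfold Bad
    have h1 : (∃ o, RI isL (n + 1) (z.map (ori o))) ↔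
        RI isL (n + 1) z ∨ RI isL (n + 1) (swapL z) := by
      have h2 : z.map (ori false) = z := by
        conv_rhs => rw [← List.map_id z]
        apply List.map_congr_left
        intro p _
        simp [ori]
      have h3 : z.map (ori true) = swapL z := by
        unfold swapL
        apply List.map_congr_left
        intro p _
        simp [ori]
      constructor
      · rintro ⟨o, h⟩
        cases o
        · rw [h2] at h; exact Or.inl h
        · rw [h3] at h; exact Or.inr h
      · rintro (h | h)
        · exact ⟨false, by rwa [h2]⟩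
        · exact ⟨true, by rwa [h3]⟩
    rw [h1]
    constructor
    · rintro ((h | h) | h | h)
      · exact Or.inl h
      · exact Or.inr (Or.inl h)
      · exact Or.inr (Or.inr (Or.inl h))
      · exact Or.inr (Or.inr (Or.inr h))
    · rintro (h | h | h | h)
      · exact Or.inl (Or.inl h)
      · exact Or.inl (Or.inr h)
      · exact Or.inr (Or.inl h)
      · exact Or.inr (Or.inr h)
  unfold EA.Ill Legit
  push Not
  constructor
  · rintro ⟨x, y, hx, hy, hl, h2, hF⟩
    obtain ⟨x', hx', rfl⟩ := List.infix_map_iff.mp hx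
    obtain ⟨y', hy', rfl⟩ := List.infix_map_iff.mp hy
    refine ⟨x', y', hx', hy', by simpa using hl, ?_⟩
    rw [← hbad, ← hF]
    congr 2
    rw [List.zip_map]
    rfl
  · rintro ⟨x, y, hx, hy, hl, hb⟩
    refine ⟨x.map e, y.map e, hx.map e, hy.map e, by simpa using hl, ?_, ?_⟩
    · have := two_le_of_Bad hb
      simp only [List.length_zip, List.length_map] at this ⊢
      omega
    · rw [← hbad] at hb
      rw [← hb]
      congr 2
      rw [List.zip_map]
      rfl

end Star60
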