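import Pool.Agent.Star60.Words

/-!
MP_1b5989_lc, module BASE: in a legitimate pair of bi-infinite words the base letters are those of
the hierarchical word.  See blueprint 1B (Base).
-/

namespace Star60

/-- rotation lemma: windows of length 4 that are rotations of `(any, g 1, g 2, g 3)` come from a
global phase -/
theorem rotation_lemma {β : Type} (U : ℤ → β) (g : ZMod 4 → β) (hg : ∀ a b, a ≠ 0 → b ≠ 0 → g a = g b → a = b)
    (h : ∀ n : ℤ, ∃ a : ZMod 4, ∀ i : Fin 4, ((i : ℕ) : ZMod 4) + a ≠ 0 →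
      U (n + (i : ℕ)) = g (((i : ℕ) : ZMod 4) + a)) :
    ∃ c : ℤ, ∀ n : ℤ, ((n - c : ℤ) : ZMod 4) ≠ 0 → U n = g ((n - c : ℤ) : ZMod 4) := by
  choose a ha using h
  have key : ∀ x y : ZMod 4, (1 + x ≠ 0 ∧ 0 + y ≠ 0) ∨ (2 + x ≠ 0 ∧ 1 + y ≠ 0) ∨
      (3 + x ≠ 0 ∧ 2 + y ≠ 0) := by decide
  have hstep : ∀ n, a (n + 1) = a n + 1 := by
    intro n
    have h1 := ha n 1
    have h2 := ha n 2
    have h3 := ha n 3
    have h0' := ha (n + 1) 0
    have h1' := ha (n + 1) 1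
    have h2' := ha (n + 1) 2
    have e1 : n + ((1 : Fin 4) : ℕ) = n + 1 + ((0 : Fin 4) : ℕ) := by
      simp
    have e2 : n + ((2 : Fin 4) : ℕ) = n + 1 + ((1 : Fin 4) : ℕ) := by
      have : ((2 : Fin 4) : ℕ) = 2 := rfl
      have : ((1 : Fin 4) : ℕ) = 1 := rfl
      push_cast [*]; ring
    have e3 : n + ((3 : Fin 4) : ℕ) = n + 1 + ((2 : Fin 4) : ℕ) := by
      have : ((2 : Fin 4) : ℕ) = 2 := rfl
      have : ((3 : Fin 4) : ℕ) = 3 := rfl
      push_cast [*]; ring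
    rw [e1] at h1
    rw [e2] at h2
    rw [e3] at h3
    have c0 : (((0 : Fin 4) : ℕ) : ZMod 4) = 0 := rfl
    have c1 : (((1 : Fin 4) : ℕ) : ZMod 4) = 1 := rfl
    have c2 : (((2 : Fin 4) : ℕ) : ZMod 4) = 2 := rfl
    have c3 : (((3 : Fin 4) : ℕ) : ZMod 4) = 3 := rfl
    rw [c1] at h1 h1'
    rw [c2] at h2 h2'
    rw [c3] at h3
    rw [c0] at h0'
    rcases key (a n) (a (n + 1)) with ⟨p, q⟩ | ⟨p, q⟩ | ⟨p, q⟩
    · have := hg _ _ p q ((h1 p).symm.trans (h0' q))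
      rw [zero_add] at this
      rw [← this]; ring
    · have := hg _ _ p q ((h2 p).symm.trans (h1' q))
      have h : a (n + 1) = 1 + a (n + 1) - 1 := by ring
      rw [h, ← this]; ring
    · have := hg _ _ p q ((h3 p).symm.trans (h2' q))
      have h : a (n + 1) = 2 + a (n + 1) - 2 := by ring
      rw [h, ← this]; ring
  have hall : ∀ n : ℤ, a n = a 0 + (n : ZMod 4) := by
    intro n
    induction n using Int.induction_on with
    | zero => simp
    | succ n ih => rw [hstep, ih]; push_cast; ring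
    | pred n ih =>
      have := hstep (-(n : ℤ) - 1)
      rw [sub_add_cancel, ih] at this
      have h2 : a (-(n : ℤ) - 1) = a (-(n : ℤ) - 1) + 1 - 1 := by ring
      rw [h2, ← this]; push_cast; ring
  refine ⟨-((a 0).val : ℤ), fun n hn => ?_⟩
  have h1 : ((n - -((a 0).val : ℤ) : ℤ) : ZMod 4) = a n := by
    rw [hall n]
    push_cast
    rw [ZMod.natCast_zmod_val]
    ring
  rw [h1] at hn ⊢
  have h2 := ha n 0
  have c0 : (((0 : Fin 4) : ℕ) : ZMod 4) = 0 := rfl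
  rw [c0, zero_add] at h2
  have h3 := h2 hn
  simpa using h3

section
variable {Γ : Type}

/-- base letters of the levels below `L` are known, with residue `c` modulo `4^L` -/
def PC (L : ℕ) (c : ℤ) (ξ : ℤ → Lt Γ) : Prop :=
  ∀ (k u : ℕ) (t : ℤ), k < L → 1 ≤ u → u ≤ 3 → t ≡ c + u * 4 ^ k [ZMOD (4 : ℤ) ^ (k + 1)] →
    (ξ t).1 = 3 * k + u - 1

theorem level_digit (L : ℕ) (s : ℤ) (hs : ¬ (4 : ℤ) ^ L ∣ s) :
    ∃ k u : ℕ, k < L ∧ 1 ≤ u ∧ u ≤ 3 ∧ s ≡ u * 4 ^ k [ZMOD (4 : ℤ) ^ (k + 1)] := by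
  induction L with
  | zero => simp at hs
  | succ L ih =>
    by_cases h : (4 : ℤ) ^ L ∣ s
    · obtain ⟨m, hm⟩ := h
      have hm4 : ¬ (4 : ℤ) ∣ m := by
        intro h4
        apply hs
        rw [hm, pow_succ]
        exact mul_dvd_mul_left _ h4
      have h1 : 0 ≤ m % 4 := Int.emod_nonneg _ (by norm_num)
      have h2 : m % 4 < 4 := Int.emod_lt_of_pos _ (by norm_num)
      have h3 : m % 4 ≠ 0 := fun h => hm4 (Int.dvd_of_emod_eq_zero h)
      refine ⟨L, (m % 4).toNat, Nat.lt_succ_self L, by omega, by omega, ?_⟩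
      have h4 : (((m % 4).toNat : ℕ) : ℤ) = m % 4 := Int.toNat_of_nonneg h1
      rw [h4, hm, pow_succ, mul_comm (m % 4)]
      exact Int.ModEq.mul_left' (Int.mod_modEq m 4).symm
    · obtain ⟨k, u, hk, hu, hu', hku⟩ := ih h
      exact ⟨k, u, Nat.lt_succ_of_lt hk, hu, hu', hku⟩

theorem PC.be {L : ℕ} {c c' : ℤ} {ξ η : ℤ → Lt Γ} (hξ : PC L c ξ) (hη : PC L c' η) {x y : ℤ}
    (hx : ¬ (4 : ℤ) ^ L ∣ x - c) (hxy : x - c ≡ y - c' [ZMOD (4 : ℤ) ^ L]) :
    (ξ x).1 = (η y).1 := by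
  obtain ⟨k, u, hk, hu, hu', hku⟩ := level_digit L _ hx
  have h1 : x ≡ c + u * 4 ^ k [ZMOD (4 : ℤ) ^ (k + 1)] := by
    have := hku.add_left c
    rwa [add_sub_cancel] at this
  have h2 : x - c ≡ y - c' [ZMOD (4 : ℤ) ^ (k + 1)] :=
    hxy.of_dvd (pow_dvd_pow 4 (by omega))
  have h3 : y ≡ c' + u * 4 ^ k [ZMOD (4 : ℤ) ^ (k + 1)] := by
    have := (h2.symm.trans hku).add_left c'
    rwa [add_sub_cancel] at this
  rw [hξ k u x hk hu hu' h1, hη k u y hk hu hu' h3]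

theorem mem_seg {ξ η : ℤ → Lt Γ} {i j : ℤ} {l : ℕ} {p : Pr Γ} :
    p ∈ seg ξ η i j l ↔ ∃ t : ℕ, t < l ∧ p = (ξ (i + t), η (j + t)) := by
  unfold seg
  rw [List.mem_map]
  constructor
  · rintro ⟨t, ht, rfl⟩
    exact ⟨t, List.mem_range.1 ht, rfl⟩
  · rintro ⟨t, ht, rfl⟩
    exact ⟨t, List.mem_range.2 ht, rfl⟩

theorem seg_block (ξ η : ℤ → Lt Γ) (i j : ℤ) (N l : ℕ) (hN : 1 ≤ N) :
    seg ξ η i j (N + l) = (ξ i, η j) :: (seg ξ η (i + 1) (j + 1) (N - 1) ++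
      seg ξ η (i + N) (j + N) l) := by
  rw [seg_add]
  obtain ⟨M, rfl⟩ : ∃ M, N = M + 1 := ⟨N - 1, by omega⟩
  rw [seg_succ, Nat.add_sub_cancel]
  rfl

theorem seg_one (ξ η : ℤ → Lt Γ) (i j : ℤ) : seg ξ η i j 1 = [(ξ i, η j)] := by
  simp [seg]

theorem three_mul_cases (L : ℕ) : (3 * (L : ZMod 6) = 0 ∨ 3 * (L : ZMod 6) = 3) := by
  have : ∀ x : ZMod 6, 3 * x = 0 ∨ 3 * x = 3 := by decide
  exact this _

end

section
variable {Γ : Type} [DecidableEq Γ] {S : Language (Γ × Γ)} {isL : Γ → Bool} {n : ℕ}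
  {ξ η : ℤ → Lt Γ}

/-- level 0 -/
theorem PC_one (h : LegitZ S isL n ξ η) : ∃ c, PC 1 c ξ := by
  have h1 : ∀ m : ℤ, ∃ a : ZMod 4, ∀ i : Fin 4, ((i : ℕ) : ZMod 4) + a ≠ 0 →
      (fun m => (ξ m).1) (m + (i : ℕ)) =
        (fun b : ZMod 4 => ((b.val : ℕ) : ZMod 6) - 1) (((i : ℕ) : ZMod 4) + a) := by
    intro m
    by_contra hc
    apply h m 0 4
    left; left
    refine ⟨fun i => (ξ (m + (i : ℕ)), η (0 + (i : ℕ))), ?_, hc⟩
    simp [seg, List.ofFn_succ, List.range_succ]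
  obtain ⟨c, hc⟩ := rotation_lemma (fun m => (ξ m).1)
    (fun b : ZMod 4 => ((b.val : ℕ) : ZMod 6) - 1) (by decide) h1
  refine ⟨c, fun k u t hk hu hu' ht => ?_⟩
  have hk0 : k = 0 := by omega
  subst hk0
  have h2 : ((t - c : ℤ) : ZMod 4) = (u : ZMod 4) := by
    have h3 : t - c ≡ u [ZMOD 4] := by
      have := ht.sub_right c
      simpa using this
    have := (ZMod.intCast_eq_intCast_iff _ _ 4).2 (by simpa using h3)
    simpa using this
  have h3 := hc t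
  rw [h2] at h3
  have h4 : (u : ZMod 4) ≠ 0 := by
    intro h0
    rw [ZMod.natCast_eq_zero_iff] at h0
    omega
  have h5 : (ξ t).1 = (((u : ZMod 4).val : ℕ) : ZMod 6) - 1 := h3 h4
  rw [h5, ZMod.val_natCast_of_lt (by omega)]
  simp

omit [DecidableEq Γ] in
/-- base letters at the positions of a cycle (tape 1 digit 1, tape 2 digit 2) -/
theorem PC.cycle {L : ℕ} {c c' : ℤ} (hξ : PC (L + 1) c ξ) (hη : PC (L + 1) c' η) {i j : ℤ}
    (hi : i ≡ c + 4 ^ L [ZMOD (4 : ℤ) ^ (L + 1)]) (hj : j ≡ c' + 2 * 4 ^ L [ZMOD (4 : ℤ) ^ (L + 1)]) :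
    (ξ i).1 = 3 * L ∧ (η j).1 = 3 * L + 1 ∧
    (ξ (i + 4 ^ L)).1 = 3 * L + 1 ∧ (η (j + 4 ^ L)).1 = 3 * L + 2 ∧
    (ξ (i + 2 * 4 ^ L)).1 = 3 * L + 2 ∧ (η (j + 3 * 4 ^ L)).1 = 3 * L ∧
    (∀ t : ℕ, ¬ 4 ^ L ∣ t → (ξ (i + t)).1 = (η (j + t)).1) := by
  have h4 : (4 : ℤ) ^ (L + 1) = 4 * 4 ^ L := by rw [pow_succ]; ring
  have hi' := Int.ModEq.dvd hi.symm
  have hj' := Int.ModEq.dvd hj.symm
  obtain ⟨a, ha⟩ := hi'
  obtain ⟨b, hb⟩ := hj'
  have hia : i = c + 4 ^ L + 4 * 4 ^ L * a := by rw [h4] at ha; linarith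
  have hjb : j = c' + 2 * 4 ^ L + 4 * 4 ^ L * b := by rw [h4] at hb; linarith
  have gen : ∀ (x : ℤ) (c : ℤ) (u : ℕ) (a : ℤ), x = c + u * 4 ^ L + 4 * 4 ^ L * a →
      x ≡ c + u * 4 ^ L [ZMOD (4 : ℤ) ^ (L + 1)] := by
    intro x c u a hx
    rw [hx, h4]
    exact (Int.modEq_iff_dvd.2 ⟨a, by ring⟩ : c + u * 4 ^ L ≡ c + u * 4 ^ L + 4 * 4 ^ L * a
      [ZMOD 4 * 4 ^ L]).symm
  refine ⟨?_, ?_, ?_, ?_, ?_, ?_, ?_⟩
  · have := hξ L 1 i (Nat.lt_succ_self L) le_rfl (by norm_num)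
      (gen _ _ _ a (by rw [hia]; push_cast; ring))
    rw [this]; push_cast; ring
  · have := hη L 2 j (Nat.lt_succ_self L) (by norm_num) (by norm_num)
      (gen _ _ _ b (by rw [hjb]; push_cast; ring))
    rw [this]; push_cast; ring
  · have := hξ L 2 (i + 4 ^ L) (Nat.lt_succ_self L) (by norm_num) (by norm_num)
      (gen _ _ _ a (by rw [hia]; push_cast; ring))
    rw [this]; push_cast; ring
  · have := hη L 3 (j + 4 ^ L) (Nat.lt_succ_self L) (by norm_num) (by norm_num)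
      (gen _ _ _ b (by rw [hjb]; push_cast; ring))
    rw [this]; push_cast; ring
  · have := hξ L 3 (i + 2 * 4 ^ L) (Nat.lt_succ_self L) (by norm_num) (by norm_num)
      (gen _ _ _ a (by rw [hia]; push_cast; ring))
    rw [this]; push_cast; ring
  · have := hη L 1 (j + 3 * 4 ^ L) (Nat.lt_succ_self L) (by norm_num) (by norm_num)
      (gen _ _ _ (b + 1) (by rw [hjb]; push_cast; ring))
    rw [this]; push_cast; ring
  · intro t ht
    have hξ' : PC L c ξ := fun k u t hk => hξ k u t (Nat.lt_succ_of_lt hk)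
    have hη' : PC L c' η := fun k u t hk => hη k u t (Nat.lt_succ_of_lt hk)
    refine PC.be hξ' hη' ?_ ?_
    · rw [hia]
      intro hd
      apply ht
      have : (4 : ℤ) ^ L ∣ (t : ℤ) := by
        have h2 : (t : ℤ) = c + 4 ^ L + 4 * 4 ^ L * a + t - c - 4 ^ L * (1 + 4 * a) := by ring
        rw [h2]
        exact dvd_sub hd (Dvd.intro _ rfl)
      exact_mod_cast this
    · rw [hia, hjb]
      refine Int.modEq_iff_dvd.2 ⟨1 + 4 * b - 4 * a, ?_⟩
      ring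

/-- induction step -/
theorem PC_step (h : LegitZ S isL n ξ η) (L : ℕ) (c c' : ℤ) (hξ : PC (L + 1) c ξ)
    (hη : PC (L + 1) c' η) : ∃ d : ℤ, PC (L + 2) (c + d * 4 ^ (L + 1)) ξ := by
  have h4 : (4 : ℤ) ^ (L + 1) = 4 * 4 ^ L := by rw [pow_succ]; ring
  have h4n : (4 : ℕ) ^ (L + 1) = 4 * 4 ^ L := by rw [pow_succ]; ring
  have hpos : 0 < (4 : ℕ) ^ L := pow_pos (by norm_num) L
  have h1 : ∀ m : ℤ, ∃ a : ZMod 4, ∀ i : Fin 4, ((i : ℕ) : ZMod 4) + a ≠ 0 →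
      (fun m => (ξ (c + m * 4 ^ (L + 1))).1) (m + (i : ℕ)) =
        (fun b : ZMod 4 => 3 * (L : ZMod 6) + 2 + ((b.val : ℕ) : ZMod 6))
          (((i : ℕ) : ZMod 4) + a) := by
    intro m
    set i0 : ℤ := c + 4 ^ L + (m - 1) * 4 ^ (L + 1) with hi0
    set j0 : ℤ := c' + 2 * 4 ^ L with hj0
    have hcyc : ∀ q : ℕ, _ := fun q : ℕ => PC.cycle (i := i0 + q * 4 ^ (L + 1))
      (j := j0 + q * 4 ^ (L + 1)) hξ hη
      (by
        rw [hi0]
        exact (Int.modEq_iff_dvd.2 ⟨(m - 1) + q, by ring⟩).symm)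
      (by
        rw [hj0]
        exact (Int.modEq_iff_dvd.2 ⟨q, by ring⟩).symm)
    by_contra hc
    apply h i0 j0 (4 ^ (L + 1) + (4 ^ (L + 1) + (4 ^ (L + 1) + (4 ^ (L + 1) + 1))))
    left; right; left
    refine ⟨3 * (L : ZMod 6), three_mul_cases L,
      fun a => (ξ (i0 + (a : ℕ) * 4 ^ (L + 1)), η (j0 + (a : ℕ) * 4 ^ (L + 1))),
      fun a => seg ξ η (i0 + (a : ℕ) * 4 ^ (L + 1) + 1) (j0 + (a : ℕ) * 4 ^ (L + 1) + 1)
        (4 ^ (L + 1) - 1), ?_, ?_, ?_, ?_⟩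
    · rw [seg_block _ _ _ _ _ _ (Nat.one_le_pow _ _ (by norm_num)),
        seg_block _ _ _ _ _ _ (Nat.one_le_pow _ _ (by norm_num)),
        seg_block _ _ _ _ _ _ (Nat.one_le_pow _ _ (by norm_num)),
        seg_block _ _ _ _ _ _ (Nat.one_le_pow _ _ (by norm_num)), seg_one]
      have e0 : ((0 : Fin 5) : ℕ) = 0 := rfl
      have e1 : ((1 : Fin 5) : ℕ) = 1 := rfl
      have e2 : ((2 : Fin 5) : ℕ) = 2 := rfl
      have e3 : ((3 : Fin 5) : ℕ) = 3 := rfl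
      have e4 : ((4 : Fin 5) : ℕ) = 4 := rfl
      have f0 : ((0 : Fin 4) : ℕ) = 0 := rfl
      have f1 : ((1 : Fin 4) : ℕ) = 1 := rfl
      have f2 : ((2 : Fin 4) : ℕ) = 2 := rfl
      have f3 : ((3 : Fin 4) : ℕ) = 3 := rfl
      simp only [e0, e1, e2, e3, e4, f0, f1, f2, f3]
      push_cast
      have g : ∀ x : ℤ, x + 0 * 4 ^ (L + 1) = x ∧ x + 1 * 4 ^ (L + 1) = x + 4 ^ (L + 1) ∧
        x + 2 * 4 ^ (L + 1) = x + 4 ^ (L + 1) + 4 ^ (L + 1) ∧
        x + 3 * 4 ^ (L + 1) = x + 4 ^ (L + 1) + 4 ^ (L + 1) + 4 ^ (L + 1) ∧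
        x + 4 * 4 ^ (L + 1) = x + 4 ^ (L + 1) + 4 ^ (L + 1) + 4 ^ (L + 1) + 4 ^ (L + 1) := by
        intro x
        refine ⟨by ring, by ring, by ring, by ring, by ring⟩
      obtain ⟨g0, g1, g2, g3, g4⟩ := g i0
      obtain ⟨g0', g1', g2', g3', g4'⟩ := g j0
      rw [g0, g1, g2, g3, g4, g0', g1', g2', g3', g4']
    · intro a
      obtain ⟨q1, q2, -⟩ := hcyc a
      exact ⟨q1, q2⟩
    · intro a
      obtain ⟨q1, q2, q3, q4, q5, q6, q7⟩ := hcyc a
      set I : ℤ := i0 + (a : ℕ) * 4 ^ (L + 1) with hI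
      set J : ℤ := j0 + (a : ℕ) * 4 ^ (L + 1) with hJ
      refine ⟨seg ξ η (I + 1) (J + 1) (4 ^ L - 1), (ξ (I + 4 ^ L), η (J + 4 ^ L)),
        seg ξ η (I + 4 ^ L + 1) (J + 4 ^ L + 1) (3 * 4 ^ L - 1), ?_, ?_, ⟨q3, q4⟩, ?_⟩
      · have e1 : 4 ^ (L + 1) - 1 = (4 ^ L - 1) + ((3 * 4 ^ L - 1) + 1) := by omega
        have e2 : (((4 ^ L - 1 : ℕ)) : ℤ) = 4 ^ L - 1 := by
          rw [Nat.cast_sub hpos]; push_cast; ring
        change seg ξ η (I + 1) (J + 1) (4 ^ (L + 1) - 1) = _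
        rw [e1, seg_add, seg_succ, e2]
        have e3 : I + 1 + (4 ^ L - 1) = I + 4 ^ L := by ring
        have e4 : J + 1 + (4 ^ L - 1) = J + 4 ^ L := by ring
        rw [e3, e4]
      · intro p hp
        obtain ⟨t, ht, rfl⟩ := mem_seg.1 hp
        have := q7 (t + 1) (fun hd => by
          have := Nat.le_of_dvd (by omega) hd
          omega)
        push_cast at this
        unfold BE
        simp only
        have e3 : I + 1 + t = I + (t + 1) := by ring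
        have e4 : J + 1 + t = J + (t + 1) := by ring
        rw [e3, e4]
        exact this
      · intro p hp
        obtain ⟨t, ht, rfl⟩ := mem_seg.1 hp
        rintro ⟨r1, r2⟩
        simp only at r1 r2
        have e3 : I + 4 ^ L + 1 + t = I + ((4 ^ L + 1 + t : ℕ) : ℤ) := by push_cast; ring
        have e4 : J + 4 ^ L + 1 + t = J + ((4 ^ L + 1 + t : ℕ) : ℤ) := by push_cast; ring
        by_cases hd : 4 ^ L ∣ 4 ^ L + 1 + t
        · obtain ⟨w, hw⟩ := hd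
          have hw4 : w < 4 := by
            by_contra hcon
            have : 4 ^ L * 4 ≤ 4 ^ L * w := Nat.mul_le_mul_left _ (by omega)
            omega
          have hw1 : 1 < w := by
            by_contra hcon
            have : 4 ^ L * w ≤ 4 ^ L * 1 := Nat.mul_le_mul_left _ (by omega)
            omega
          have hw23 : w = 2 ∨ w = 3 := by omega
          rcases hw23 with rfl | rfl
          · rw [e3, hw] at r1
            have e5 : I + ((4 ^ L * 2 : ℕ) : ℤ) = I + 2 * 4 ^ L := by push_cast; ring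
            rw [e5, q5] at r1
            have : ∀ x : ZMod 6, 3 * x + 2 ≠ 3 * x := by decide
            exact this _ r1
          · rw [e4, hw] at r2
            have e5 : J + ((4 ^ L * 3 : ℕ) : ℤ) = J + 3 * 4 ^ L := by push_cast; ring
            rw [e5, q6] at r2
            have : ∀ x : ZMod 6, 3 * x ≠ 3 * x + 1 := by decide
            exact this _ r2
        · have := q7 _ hd
          rw [e3] at r1
          rw [e4] at r2
          rw [this, r2] at r1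
          have : ∀ x : ZMod 6, 3 * x + 1 ≠ 3 * x := by decide
          exact this _ r1
    · rintro ⟨a, ha⟩
      apply hc
      refine ⟨a, fun i hi => ?_⟩
      obtain ⟨p, hp, hp1, hp2⟩ := ha i hi
      obtain ⟨q1, q2, q3, q4, q5, q6, q7⟩ := hcyc i
      set I : ℤ := i0 + (i : ℕ) * 4 ^ (L + 1) with hI
      set J : ℤ := j0 + (i : ℕ) * 4 ^ (L + 1) with hJ
      obtain ⟨t, ht, rfl⟩ := mem_seg.1 hp
      simp only at hp1 hp2
      have e3 : I + 1 + t = I + ((1 + t : ℕ) : ℤ) := by push_cast; ring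
      have e4 : J + 1 + t = J + ((1 + t : ℕ) : ℤ) := by push_cast; ring
      set b : ZMod 4 := ((i : ℕ) : ZMod 4) + a with hb
      have hbne : ∀ (x : ZMod 6) (b : ZMod 4), b ≠ 0 →
          3 * x + 2 + ((b.val : ℕ) : ZMod 6) ≠ 3 * x ∧
          3 * x + 2 + ((b.val : ℕ) : ZMod 6) ≠ 3 * x + 2 := by decide
      obtain ⟨hb1, hb2⟩ := hbne (L : ZMod 6) b hi
      by_cases hd : 4 ^ L ∣ 1 + t
      · obtain ⟨w, hw⟩ := hd
        have hw4 : w < 4 := by
          by_contra hcon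
          have : 4 ^ L * 4 ≤ 4 ^ L * w := Nat.mul_le_mul_left _ (by omega)
          omega
        have hw0 : 0 < w := by
          by_contra hcon
          have : w = 0 := by omega
          subst this
          omega
        have hw23 : w = 1 ∨ w = 2 ∨ w = 3 := by omega
        rw [e3, hw] at hp1
        rw [e4, hw] at hp2
        rcases hw23 with rfl | rfl | rfl
        · exfalso
          have e5 : J + ((4 ^ L * 1 : ℕ) : ℤ) = J + 4 ^ L := by push_cast; ring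
          rw [e5, q4] at hp2
          have : ∀ x : ZMod 6, 3 * x + 2 ≠ 3 * x := by decide
          exact this _ hp2
        · exfalso
          have e5 : I + ((4 ^ L * 2 : ℕ) : ℤ) = I + 2 * 4 ^ L := by push_cast; ring
          rw [e5, q5] at hp1
          exact hb2 hp1.symm
        · have e5 : I + ((4 ^ L * 3 : ℕ) : ℤ) = c + (m + (i : ℕ)) * 4 ^ (L + 1) := by
            rw [hI, hi0, h4]; push_cast; ring
          rw [e5] at hp1
          exact hp1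
      · exfalso
        have := q7 _ hd
        rw [e3] at hp1
        rw [e4] at hp2
        rw [this, hp2] at hp1
        exact hb1 hp1.symm
  obtain ⟨d, hd⟩ := rotation_lemma (fun m => (ξ (c + m * 4 ^ (L + 1))).1)
    (fun b : ZMod 4 => 3 * (L : ZMod 6) + 2 + ((b.val : ℕ) : ZMod 6)) (by
      have : ∀ (x : ZMod 6) (a b : ZMod 4), a ≠ 0 → b ≠ 0 →
        3 * x + 2 + ((a.val : ℕ) : ZMod 6) = 3 * x + 2 + ((b.val : ℕ) : ZMod 6) → a = b := by
        decide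
      exact this (L : ZMod 6)) h1
  refine ⟨d, fun k u t hk hu hu' ht => ?_⟩
  by_cases hkL : k < L + 1
  · refine hξ k u t hkL hu hu' (ht.trans ?_)
    have : (4 : ℤ) ^ (k + 1) ∣ 4 ^ (L + 1) := pow_dvd_pow 4 (by omega)
    obtain ⟨w, hw⟩ := this
    refine (Int.modEq_iff_dvd.2 ⟨d * w, ?_⟩).symm
    rw [hw]; ring
  · have hkL' : k = L + 1 := by omega
    subst hkL'
    obtain ⟨w, hw⟩ := ht.symm.dvd
    have ht' : t = c + (d + u + 4 * w) * 4 ^ (L + 1) := by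
      have : (4 : ℤ) ^ (L + 1 + 1) = 4 * 4 ^ (L + 1) := by rw [pow_succ]; ring
      rw [this] at hw
      linarith
    have h5 := hd (d + u + 4 * w)
    have h6 : ((d + u + 4 * w - d : ℤ) : ZMod 4) = (u : ZMod 4) := by
      push_cast
      have : (4 : ZMod 4) = 0 := rfl
      rw [this]; ring
    rw [h6] at h5
    have h7 : (u : ZMod 4) ≠ 0 := by
      intro h0
      rw [ZMod.natCast_eq_zero_iff] at h0
      omega
    have h8 : (ξ (c + (d + u + 4 * w) * 4 ^ (L + 1))).1 =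
        3 * (L : ZMod 6) + 2 + (((u : ZMod 4).val : ℕ) : ZMod 6) := h5 h7
    rw [ht', h8, ZMod.val_natCast_of_lt (by omega)]
    push_cast; ring

end

theorem exists_coord {Γ : Type} [DecidableEq Γ] {S : Language (Γ × Γ)} {isL : Γ → Bool} {n : ℕ}
    {ξ η : ℤ → Lt Γ} (h : LegitZ S isL n ξ η) : ∃ r, Coord r ξ := by
  obtain ⟨c0, hc0⟩ := PC_one h
  obtain ⟨c0', hc0'⟩ := PC_one h.symm
  have step : ∀ (L : ℕ) (s : {p : ℤ × ℤ // PC (L + 1) p.1 ξ ∧ PC (L + 1) p.2 η}),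
      ∃ s' : {p : ℤ × ℤ // PC (L + 2) p.1 ξ ∧ PC (L + 2) p.2 η},
        s'.1.1 ≡ s.1.1 [ZMOD (4 : ℤ) ^ (L + 1)] := by
    rintro L ⟨⟨c, c'⟩, h1, h2⟩
    obtain ⟨d, hd⟩ := PC_step h L c c' h1 h2
    obtain ⟨d', hd'⟩ := PC_step h.symm L c' c h2 h1
    refine ⟨⟨(c + d * 4 ^ (L + 1), c' + d' * 4 ^ (L + 1)), hd, hd'⟩, ?_⟩
    exact (Int.modEq_iff_dvd.2 ⟨d, by ring⟩).symm
  choose f hf using step
  let s : (L : ℕ) → {p : ℤ × ℤ // PC (L + 1) p.1 ξ ∧ PC (L + 1) p.2 η} := fun L =>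
    Nat.rec (motive := fun L => {p : ℤ × ℤ // PC (L + 1) p.1 ξ ∧ PC (L + 1) p.2 η})
      ⟨(c0, c0'), hc0, hc0'⟩ (fun L s => f L s) L
  refine ⟨fun L => Nat.casesOn L 0 (fun L => (s L).1.1), ?_, ?_⟩
  · intro L
    rcases L with _ | L
    · simp [Int.modEq_one]
    · exact hf L (s L)
  · intro k u t hu hu' ht
    exact (s k).2.1 k u t (Nat.lt_succ_self k) hu hu' ht

end Star60
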