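import Pool.Agent.Star60.Cycle

/-!
MP_1b5989_lc, module CHAIN: a legitimate pair of bi-infinite words gives a sequence of columns.
See blueprint 1B (Chain).
-/

namespace Star60

namespace Chain

section lists

/-- base 4 level, digit and rest of a positive number -/
theorem digit_exists (K s : ℕ) (h0 : 0 < s) (hs : s < 4 ^ K) :
    ∃ k u q : ℕ, k < K ∧ 1 ≤ u ∧ u ≤ 3 ∧ s = u * 4 ^ k + q * 4 ^ (k + 1) := by
  induction K generalizing s with
  | zero => simp at hs; omega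
  | succ K ih =>
    by_cases hm : s % 4 = 0
    · obtain ⟨k, u, q, hk, hu, hu', he⟩ := ih (s / 4) (by omega) (by rw [pow_succ] at hs; omega)
      refine ⟨k + 1, u, q, by omega, hu, hu', ?_⟩
      have : s = 4 * (s / 4) := by omega
      rw [this, he]; ring
    · refine ⟨0, s % 4, s / 4, by omega, by omega, by omega, ?_⟩
      simp; omega

theorem filterMap_pow {β : Type} (F : ℕ → Option β) (C : ℕ → β) (K : ℕ)
    (h1 : ∀ k < K, F (4 ^ k) = some (C k))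
    (h2 : ∀ s, 0 < s → s < 4 ^ K → (∀ k, s ≠ 4 ^ k) → F s = none) :
    (List.range' 1 (4 ^ K - 1)).filterMap F = (List.range K).map C := by
  induction K with
  | zero => simp
  | succ K ih =>
    have hp : 1 ≤ 4 ^ K := Nat.one_le_pow _ _ (by norm_num)
    have e1 : 4 ^ (K + 1) - 1 = (4 ^ K - 1) + ((3 * 4 ^ K - 1) + 1) := by
      rw [pow_succ]; omega
    have e2 : 1 + (4 ^ K - 1) = 4 ^ K := by omega
    rw [e1, ← List.range'_append_1, e2, List.range'_succ, List.filterMap_append,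
      List.filterMap_cons, h1 K (by omega), List.range_succ, List.map_append,
      ih (fun k hk => h1 k (by omega)) (fun s h0 hs hk => h2 s h0 (by rw [pow_succ]; omega) hk)]
    have : (List.range' (4 ^ K + 1) (3 * 4 ^ K - 1)).filterMap F = [] := by
      rw [List.filterMap_eq_nil_iff]
      intro s hs
      rw [List.mem_range'_1] at hs
      apply h2 s (by omega) (by rw [pow_succ]; omega)
      intro k hk
      rcases Nat.lt_or_ge K k with h | h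
      · have : 4 ^ (K + 1) ≤ 4 ^ k := Nat.pow_le_pow_right (by norm_num) h
        rw [pow_succ] at this; omega
      · have : 4 ^ k ≤ 4 ^ K := Nat.pow_le_pow_right (by norm_num) h
        omega
    rw [this]; simp

theorem countP_dig (G : ℕ → Bool) (K : ℕ)
    (h1 : ∀ k < K, ∀ u, 1 ≤ u → u ≤ 3 → G (u * 4 ^ k) = true)
    (h2 : ∀ s, 0 < s → s < 4 ^ K → (∀ k u, 1 ≤ u → u ≤ 3 → s ≠ u * 4 ^ k) → G s = false) :
    (List.range' 1 (4 ^ K - 1)).countP G = 3 * K := by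
  induction K with
  | zero => simp
  | succ K ih =>
    have hp : 1 ≤ 4 ^ K := Nat.one_le_pow _ _ (by norm_num)
    have e1 : 4 ^ (K + 1) - 1 = (4 ^ K - 1) + (4 ^ K + (4 ^ K + 4 ^ K)) := by
      rw [pow_succ]; omega
    have rg : ∀ c, List.range' c (4 ^ K) = c :: List.range' (c + 1) (4 ^ K - 1) := by
      intro c
      conv_lhs => rw [show 4 ^ K = (4 ^ K - 1) + 1 by omega]
      rw [List.range'_succ]
    have key : ∀ u, 1 ≤ u → u ≤ 3 → (List.range' (u * 4 ^ K + 1) (4 ^ K - 1)).countP G = 0 := by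
      intro u hu hu'
      rw [List.countP_eq_zero]
      intro s hs
      rw [List.mem_range'_1] at hs
      have hle : u * 4 ^ K ≤ 3 * 4 ^ K := Nat.mul_le_mul_right _ hu'
      have : G s = false := by
        apply h2 s (by omega) (by rw [pow_succ]; omega)
        intro k v hv hv' hk
        rcases Nat.lt_trichotomy K k with h | h | h
        · have h3 : 4 ^ (K + 1) ≤ 4 ^ k := Nat.pow_le_pow_right (by norm_num) h
          have h4 : 1 * 4 ^ k ≤ v * 4 ^ k := Nat.mul_le_mul_right _ hv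
          rw [pow_succ] at h3; omega
        · subst h
          interval_cases u <;> interval_cases v <;> omega
        · have h3 : 4 ^ (k + 1) ≤ 4 ^ K := Nat.pow_le_pow_right (by norm_num) h
          have h4 : v * 4 ^ k ≤ 3 * 4 ^ k := Nat.mul_le_mul_right _ hv'
          have h5 : 1 * 4 ^ K ≤ u * 4 ^ K := Nat.mul_le_mul_right _ hu
          rw [pow_succ] at h3; omega
      simp [this]
    rw [e1, ← List.range'_append_1, ← List.range'_append_1, ← List.range'_append_1]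
    have e2 : 1 + (4 ^ K - 1) = 1 * 4 ^ K := by omega
    have e3 : 1 * 4 ^ K + 4 ^ K = 2 * 4 ^ K := by omega
    have e4 : 2 * 4 ^ K + 4 ^ K = 3 * 4 ^ K := by omega
    rw [e2, e3, e4, rg, rg, rg]
    rw [List.countP_append, List.countP_append, List.countP_append, List.countP_cons,
      List.countP_cons, List.countP_cons, key 1 (by norm_num) (by norm_num),
      key 2 (by norm_num) (by norm_num), key 3 (by norm_num) (by norm_num),
      h1 K (by omega) 1 (by norm_num) (by norm_num),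
      h1 K (by omega) 2 (by norm_num) (by norm_num),
      h1 K (by omega) 3 (by norm_num) (by norm_num),
      ih (fun k hk => h1 k (by omega)) (fun s h0 hs hk => h2 s h0 (by rw [pow_succ]; omega) hk)]
    simp; omega

end lists

section words

variable {Γ : Type} {ξ η : ℤ → Lt Γ} {r r' : ℕ → ℤ}

theorem seg_block (i j : ℤ) (N m : ℕ) (hN : 1 ≤ N) :
    seg ξ η i j (N + m) =
      (ξ i, η j) :: (seg ξ η (i + 1) (j + 1) (N - 1) ++ seg ξ η (i + N) (j + N) m) := by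
  obtain ⟨M, rfl⟩ : ∃ M, N = M + 1 := ⟨N - 1, by omega⟩
  have e : M + 1 + m = (M + m) + 1 := by ring
  rw [e, seg_succ, seg_add]
  have e1 : i + 1 + (M : ℤ) = i + ((M + 1 : ℕ) : ℤ) := by push_cast; ring
  have e2 : j + 1 + (M : ℤ) = j + ((M + 1 : ℕ) : ℤ) := by push_cast; ring
  rw [e1, e2]
  simp

theorem seg_range' (a b : ℤ) (l : ℕ) :
    seg ξ η (a + 1) (b + 1) l =
      (List.range' 1 l).map (fun s : ℕ => (ξ (a + (s : ℤ)), η (b + (s : ℤ)))) := by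
  rw [List.range'_eq_map_range, List.map_map]
  unfold seg
  apply List.map_congr_left
  intro t _
  simp [add_assoc]

theorem coord_le (hξ : Coord r ξ) {k K : ℕ} (hk : k ≤ K) : r K ≡ r k [ZMOD (4 : ℤ) ^ k] := by
  induction K, hk using Nat.le_induction with
  | base => exact Int.ModEq.refl _
  | succ K hK ih =>
    exact ((hξ.1 K).of_dvd (pow_dvd_pow _ hK)).trans ih

/-- letters inside a block -/
theorem beta_block (hξ : Coord r ξ) {K : ℕ} {a : ℤ} (ha : a ≡ r K [ZMOD (4 : ℤ) ^ K])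
    {k u q : ℕ} (hk : k < K) (hu : 1 ≤ u) (hu' : u ≤ 3) :
    (ξ (a + ((u * 4 ^ k + q * 4 ^ (k + 1) : ℕ) : ℤ))).1 = 3 * k + u - 1 ∧
    (a + ((u * 4 ^ k + q * 4 ^ (k + 1) : ℕ) : ℤ)) ≡ r (k + 1) + u * 4 ^ k [ZMOD (4 : ℤ) ^ (k + 1)] := by
  have h : (a + ((u * 4 ^ k + q * 4 ^ (k + 1) : ℕ) : ℤ)) ≡
      r (k + 1) + u * 4 ^ k [ZMOD (4 : ℤ) ^ (k + 1)] := by
    have h1 : a ≡ r (k + 1) [ZMOD (4 : ℤ) ^ (k + 1)] :=
      (ha.of_dvd (pow_dvd_pow _ hk)).trans (coord_le hξ hk)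
    have h2 : ((q : ℤ) * 4 ^ (k + 1)) ≡ 0 [ZMOD (4 : ℤ) ^ (k + 1)] :=
      (Int.modEq_zero_iff_dvd).2 (Dvd.intro_left _ rfl)
    have h3 := h1.add ((Int.ModEq.refl ((u : ℤ) * 4 ^ k)).add h2)
    push_cast
    simpa using h3
  exact ⟨hξ.2 k u _ hu hu' h, h⟩

/-- base letters inside a block are the same -/
theorem beta_eq (hξ : Coord r ξ) (hη : Coord r' η) {K : ℕ} {a b : ℤ}
    (ha : a ≡ r K [ZMOD (4 : ℤ) ^ K]) (hb : b ≡ r' K [ZMOD (4 : ℤ) ^ K]) {s : ℕ} (h0 : 0 < s)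
    (hs : s < 4 ^ K) : (ξ (a + (s : ℤ))).1 = (η (b + (s : ℤ))).1 := by
  obtain ⟨k, u, q, hk, hu, hu', rfl⟩ := digit_exists K s h0 hs
  rw [(beta_block hξ ha hk hu hu').1, (beta_block hη hb hk hu hu').1]

/-- parents inside a block -/
theorem rho_block (hξ : Coord r ξ) (pξ : ParentOK r ξ) {K : ℕ} {a : ℤ}
    (ha : a ≡ r K [ZMOD (4 : ℤ) ^ K]) {k u q : ℕ} (hk : k < K) (hu : 1 ≤ u) (hu' : u ≤ 3) :
    (ξ (a + ((u * 4 ^ k + q * 4 ^ (k + 1) : ℕ) : ℤ))).2.1 =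
      (ξ (a + ((q * 4 ^ (k + 1) : ℕ) : ℤ))).1 := by
  rw [pξ k u _ hu hu' (beta_block hξ ha hk hu hu').2]
  congr 2
  push_cast; ring

/-- mismatches inside a block -/
theorem mis_iff (hξ : Coord r ξ) (hη : Coord r' η) (pξ : ParentOK r ξ) (pη : ParentOK r' η)
    {K : ℕ} {a b : ℤ} (ha : a ≡ r K [ZMOD (4 : ℤ) ^ K]) (hb : b ≡ r' K [ZMOD (4 : ℤ) ^ K])
    (hab : (ξ a).1 ≠ (η b).1)
    (ok : ∀ p ∈ seg ξ η (a + 1) (b + 1) (4 ^ K - 1), p.1 ≠ p.2 →
      p.1.2.1 = (ξ a).1 ∧ p.2.2.1 = (η b).1)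
    {k u q : ℕ} (hk : k < K) (hu : 1 ≤ u) (hu' : u ≤ 3)
    (hs : u * 4 ^ k + q * 4 ^ (k + 1) < 4 ^ K) :
    ξ (a + ((u * 4 ^ k + q * 4 ^ (k + 1) : ℕ) : ℤ)) ≠ η (b + ((u * 4 ^ k + q * 4 ^ (k + 1) : ℕ) : ℤ))
      ↔ q = 0 := by
  have e1 := rho_block (q := q) hξ pξ ha hk hu hu'
  have e2 := rho_block (q := q) hη pη hb hk hu hu'
  constructor
  · intro hne
    by_contra hq
    have hpos : 0 < q * 4 ^ (k + 1) := by positivity
    have e3 := beta_eq hξ hη ha hb hpos (by omega)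
    have hupos : 0 < u * 4 ^ k := by positivity
    have hm : (ξ (a + ((u * 4 ^ k + q * 4 ^ (k + 1) : ℕ) : ℤ)),
        η (b + ((u * 4 ^ k + q * 4 ^ (k + 1) : ℕ) : ℤ))) ∈ seg ξ η (a + 1) (b + 1) (4 ^ K - 1) := by
      rw [seg_range', List.mem_map]
      refine ⟨u * 4 ^ k + q * 4 ^ (k + 1), ?_, rfl⟩
      rw [List.mem_range'_1]
      omega
    obtain ⟨o1, o2⟩ := ok _ hm hne
    simp only at o1 o2
    apply hab
    rw [← o1, ← o2, e1, e2, e3]
  · rintro rfl heq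
    apply hab
    rw [heq] at e1
    rw [e1] at e2
    simpa using e2

theorem start_of (hξ : Coord r ξ) {k u : ℕ} {m : ℕ} (hm : k + 1 ≤ m) (hu : 1 ≤ u) (hu' : u ≤ 3)
    {t : ℤ} {c : ℤ} (ht : t ≡ r m + c [ZMOD (4 : ℤ) ^ m])
    (hc : c ≡ u * 4 ^ k [ZMOD (4 : ℤ) ^ (k + 1)]) : (ξ t).1 = 3 * k + u - 1 := by
  apply hξ.2 k u t hu hu'
  exact (ht.of_dvd (pow_dvd_pow _ hm)).trans ((coord_le hξ hm).add hc)

theorem zmod6_three (K : ℕ) : (3 * (K : ZMod 6)) = 0 ∨ (3 * (K : ZMod 6)) = 3 := by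
  rcases Nat.even_or_odd' K with ⟨c, rfl | rfl⟩
  · left
    push_cast
    have : (6 : ZMod 6) = 0 := by decide
    linear_combination (c : ZMod 6) * this
  · right
    push_cast
    have : (6 : ZMod 6) = 0 := by decide
    linear_combination (c : ZMod 6) * this

theorem modEq_of_eq_add {a b m : ℤ} (q : ℤ) (h : a = b + m * q) : a ≡ b [ZMOD m] := by
  rw [h]
  exact (Int.modEq_iff_add_fac.2 ⟨q, rfl⟩).symm

end words

section main

variable {Γ : Type} [DecidableEq Γ] {S : Language (Γ × Γ)} {isL : Γ → Bool} {n : ℕ}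
  {ξ η : ℤ → Lt Γ} {r r' : ℕ → ℤ}

omit [DecidableEq Γ] in
theorem fullCyc (hξ : Coord r ξ) (hη : Coord r' η) (K : ℕ) (i j : ℤ)
    (hi : i ≡ r (K + 1) + 4 ^ K [ZMOD (4 : ℤ) ^ (K + 1)])
    (hj : j ≡ r' (K + 1) + 2 * 4 ^ K [ZMOD (4 : ℤ) ^ (K + 1)])
    (hU : (ξ (i + 4 ^ K + 4 ^ K + 4 ^ K)).1 ≠ 3 * K) (hV : (η (j + 4 ^ K + 4 ^ K)).1 ≠ 3 * K + 2) :
    FullCyc (3 * K) (ξ i, η j) (ξ (i + 4 ^ K), η (j + 4 ^ K))
      (ξ (i + 4 ^ K + 4 ^ K), η (j + 4 ^ K + 4 ^ K))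
      (ξ (i + 4 ^ K + 4 ^ K + 4 ^ K), η (j + 4 ^ K + 4 ^ K + 4 ^ K))
      (seg ξ η (i + 1) (j + 1) (4 ^ K - 1))
      (seg ξ η (i + 4 ^ K + 1) (j + 4 ^ K + 1) (4 ^ K - 1))
      (seg ξ η (i + 4 ^ K + 4 ^ K + 1) (j + 4 ^ K + 4 ^ K + 1) (4 ^ K - 1))
      (seg ξ η (i + 4 ^ K + 4 ^ K + 4 ^ K + 1) (j + 4 ^ K + 4 ^ K + 4 ^ K + 1) (4 ^ K - 1)) := by
  have hdvd : ((4 : ℤ) ^ K) ∣ (4 : ℤ) ^ (K + 1) := pow_dvd_pow _ (by omega)
  have hi' : i ≡ r K [ZMOD (4 : ℤ) ^ K] := by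
    refine (hi.of_dvd hdvd).trans (((hξ.1 K).add_right _).trans ?_)
    exact modEq_of_eq_add 1 (by ring)
  have hj' : j ≡ r' K [ZMOD (4 : ℤ) ^ K] := by
    refine (hj.of_dvd hdvd).trans (((hη.1 K).add_right _).trans ?_)
    exact modEq_of_eq_add 2 (by ring)
  have up : ∀ {t c : ℤ}, t ≡ c [ZMOD (4 : ℤ) ^ K] → t + 4 ^ K ≡ c [ZMOD (4 : ℤ) ^ K] := by
    intro t c h
    exact (modEq_of_eq_add (m := (4 : ℤ) ^ K) 1 (by ring)).trans h
  refine ⟨⟨?_, ?_⟩, ⟨?_, ?_⟩, ⟨?_, hV⟩, ⟨hU, ?_⟩, ?_, ?_, ?_, ?_⟩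
  · have := start_of hξ (k := K) (u := 1) le_rfl le_rfl (by norm_num) hi (by simp)
    simp only [this]; push_cast; ring
  · have := start_of hη (k := K) (u := 2) le_rfl (by norm_num) (by norm_num) hj (by simp)
    simp only [this]; push_cast; ring
  · have h1 : i + 4 ^ K ≡ r (K + 1) + 2 * 4 ^ K [ZMOD (4 : ℤ) ^ (K + 1)] := by
      refine (hi.add_right (4 ^ K)).trans ?_
      exact modEq_of_eq_add 0 (by ring)
    have := start_of hξ (k := K) (u := 2) le_rfl (by norm_num) (by norm_num) h1 (by simp)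
    simp only [this]; push_cast; ring
  · have h1 : j + 4 ^ K ≡ r' (K + 1) + 3 * 4 ^ K [ZMOD (4 : ℤ) ^ (K + 1)] := by
      refine (hj.add_right (4 ^ K)).trans ?_
      exact modEq_of_eq_add 0 (by ring)
    have := start_of hη (k := K) (u := 3) le_rfl (by norm_num) (by norm_num) h1 (by simp)
    simp only [this]; push_cast; ring
  · have h1 : i + 4 ^ K + 4 ^ K ≡ r (K + 1) + 3 * 4 ^ K [ZMOD (4 : ℤ) ^ (K + 1)] := by
      refine ((hi.add_right (4 ^ K)).add_right (4 ^ K)).trans ?_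
      exact modEq_of_eq_add 0 (by ring)
    have := start_of hξ (k := K) (u := 3) le_rfl (by norm_num) (by norm_num) h1 (by simp)
    simp only [this]; push_cast; ring
  · have h1 : j + 4 ^ K + 4 ^ K + 4 ^ K ≡ r' (K + 1) + 4 ^ K [ZMOD (4 : ℤ) ^ (K + 1)] := by
      refine (((hj.add_right (4 ^ K)).add_right (4 ^ K)).add_right (4 ^ K)).trans ?_
      exact modEq_of_eq_add 1 (by ring)
    have := start_of hη (k := K) (u := 1) le_rfl (by norm_num) (by norm_num) h1 (by simp)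
    simp only [this]; push_cast; ring
  · exact block_BE hξ hη K _ _ hi' hj'
  · exact block_BE hξ hη K _ _ (up hi') (up hj')
  · exact block_BE hξ hη K _ _ (up (up hi')) (up (up hj'))
  · exact block_BE hξ hη K _ _ (up (up (up hi'))) (up (up (up hj')))

omit [DecidableEq Γ] in
theorem seg_block4 (i j : ℤ) (K m : ℕ) :
    seg ξ η i j (4 ^ K + m) =
      (ξ i, η j) :: (seg ξ η (i + 1) (j + 1) (4 ^ K - 1) ++ seg ξ η (i + 4 ^ K) (j + 4 ^ K) m) := by
  rw [seg_block i j (4 ^ K) m (Nat.one_le_pow _ _ (by norm_num))]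
  simp

theorem contents_eq (hξ : Coord r ξ) (hη : Coord r' η) (pξ : ParentOK r ξ) (pη : ParentOK r' η)
    {K : ℕ} {a b : ℤ} (ha : a ≡ r K [ZMOD (4 : ℤ) ^ K]) (hb : b ≡ r' K [ZMOD (4 : ℤ) ^ K])
    (hab : (ξ a).1 ≠ (η b).1) {h : ZMod 6}
    (ok : OkBlock (ξ a, η b) h (seg ξ η (a + 1) (b + 1) (4 ^ K - 1))) :
    contents (seg ξ η (a + 1) (b + 1) (4 ^ K - 1)) =
      (List.range K).map (fun k => ((ξ (a + 4 ^ k)).2.2, (η (b + 4 ^ k)).2.2)) := by
  unfold contents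
  rw [seg_range' a b (4 ^ K - 1), List.filterMap_map]
  have mi := fun {k u q : ℕ} => mis_iff (k := k) (u := u) (q := q) hξ hη pξ pη ha hb hab ok.1
  apply filterMap_pow
  · intro k hk
    have hlt : 1 * 4 ^ k + 0 * 4 ^ (k + 1) < 4 ^ K := by
      have : 4 ^ (k + 1) ≤ 4 ^ K := Nat.pow_le_pow_right (by norm_num) hk
      have h0 : 0 < 4 ^ k := by positivity
      rw [pow_succ] at this; omega
    have h1 := (mi hk le_rfl (by norm_num) hlt).2 rfl
    have h2 := (beta_block (q := 0) hξ ha hk le_rfl (by norm_num : 1 ≤ 3)).1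
    have e : (1 * 4 ^ k + 0 * 4 ^ (k + 1) : ℕ) = 4 ^ k := by ring
    rw [e] at h1 h2
    have h3 : (ξ (a + ((4 ^ k : ℕ) : ℤ))).1 = 0 ∨ (ξ (a + ((4 ^ k : ℕ) : ℤ))).1 = 3 := by
      rw [h2]
      have := zmod6_three k
      simpa using this
    simp only [Function.comp_apply]
    rw [if_pos ⟨h1, h3⟩]
    simp
  · intro s h0 hs hne
    obtain ⟨k, u, q, hk, hu, hu', rfl⟩ := digit_exists K s h0 hs
    have h2 := (beta_block (q := q) hξ ha hk hu hu').1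
    simp only [Function.comp_apply]
    apply if_neg
    rintro ⟨h3, h4⟩
    have hq := (mi hk hu hu' hs).1 h3
    rw [h2] at h4
    subst hq
    have hu1 : u ≠ 1 := by
      rintro rfl
      exact hne k (by ring)
    have h6 := zmod6_three k
    have : u = 2 ∨ u = 3 := by omega
    rcases this with rfl | rfl <;> rcases h6 with h6 | h6 <;> rw [h6] at h4 <;> revert h4 <;> decide

theorem mis_eq (hξ : Coord r ξ) (hη : Coord r' η) (pξ : ParentOK r ξ) (pη : ParentOK r' η)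
    {K : ℕ} {a b : ℤ} (ha : a ≡ r K [ZMOD (4 : ℤ) ^ K]) (hb : b ≡ r' K [ZMOD (4 : ℤ) ^ K])
    (hab : (ξ a).1 ≠ (η b).1) {h : ZMod 6}
    (ok : OkBlock (ξ a, η b) h (seg ξ η (a + 1) (b + 1) (4 ^ K - 1))) :
    mis (seg ξ η (a + 1) (b + 1) (4 ^ K - 1)) = 3 * K := by
  unfold mis
  rw [seg_range' a b (4 ^ K - 1), List.countP_map]
  have mi := fun {k u q : ℕ} => mis_iff (k := k) (u := u) (q := q) hξ hη pξ pη ha hb hab ok.1
  apply countP_dig
  · intro k hk u hu hu'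
    have hlt : u * 4 ^ k + 0 * 4 ^ (k + 1) < 4 ^ K := by
      have : 4 ^ (k + 1) ≤ 4 ^ K := Nat.pow_le_pow_right (by norm_num) hk
      have h0 : 0 < 4 ^ k := by positivity
      have h1 : u * 4 ^ k ≤ 3 * 4 ^ k := Nat.mul_le_mul_right _ hu'
      rw [pow_succ] at this; omega
    have h1 := (mi hk hu hu' hlt).2 rfl
    have e : (u * 4 ^ k + 0 * 4 ^ (k + 1) : ℕ) = u * 4 ^ k := by ring
    rw [e] at h1
    simpa using h1
  · intro s h0 hs hne
    obtain ⟨k, u, q, hk, hu, hu', rfl⟩ := digit_exists K s h0 hs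
    have hq : q ≠ 0 := by
      rintro rfl
      exact hne k u hu hu' (by ring)
    have h3 : ¬ _ := fun h3 => hq ((mi hk hu hu' hs).1 h3)
    simp only [Function.comp_apply]
    rw [not_not] at h3
    simp only [ne_eq, decide_eq_false_iff_not, not_not]
    exact h3

omit [DecidableEq Γ] in
theorem ne3 (K : ℕ) : (3 * ((K + 1 : ℕ) : ZMod 6) + ((1 : ℕ) : ZMod 6) - 1) ≠ 3 * K := by
  intro h
  push_cast at h
  have : (3 : ZMod 6) = 0 := by linear_combination h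
  revert this; decide

theorem ne3' (K : ℕ) : (3 * ((K + 1 : ℕ) : ZMod 6) + ((2 : ℕ) : ZMod 6) - 1) ≠ 3 * K := by
  intro h
  push_cast at h
  have : (4 : ZMod 6) = 0 := by linear_combination h
  revert this; decide

theorem ne32 (K : ℕ) : (3 * ((K + 1 : ℕ) : ZMod 6) + ((1 : ℕ) : ZMod 6) - 1) ≠ 3 * K + 2 := by
  intro h
  push_cast at h
  have : (3 : ZMod 6) = 2 := by linear_combination h
  revert this; decide

theorem ne32' (K : ℕ) : (3 * ((K + 1 : ℕ) : ZMod 6) + ((2 : ℕ) : ZMod 6) - 1) ≠ 3 * K + 2 := by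
  intro h
  push_cast at h
  have : (4 : ZMod 6) = 2 := by linear_combination h
  revert this; decide

theorem stepS (h : LegitZ S isL n ξ η) (hξ : Coord r ξ) (hη : Coord r' η) (pξ : ParentOK r ξ)
    (pη : ParentOK r' η) (K : ℕ) (a b : ℤ)
    (ha : a ≡ r (K + 3) + (4 ^ (K + 1) + 4 ^ (K + 2)) [ZMOD (4 : ℤ) ^ (K + 3)])
    (hb : b ≡ r' (K + 2) + (4 ^ K + 4 ^ (K + 1)) [ZMOD (4 : ℤ) ^ (K + 2)]) :
    (List.range K).map (fun k => ((ξ (a + 4 ^ k)).2.2, (η (b + 4 ^ k)).2.2)) ∈ S := by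
  obtain ⟨i, rfl⟩ : ∃ i, a = i + 4 ^ K + 4 ^ K + 4 ^ K := ⟨a - 3 * 4 ^ K, by ring⟩
  obtain ⟨j, rfl⟩ : ∃ j, b = j + 4 ^ K + 4 ^ K + 4 ^ K := ⟨b - 3 * 4 ^ K, by ring⟩
  have hiA : i ≡ r (K + 3) + (4 ^ K + 2 * 4 ^ (K + 2)) - 4 ^ (K + 2) [ZMOD (4 : ℤ) ^ (K + 3)] := by
    have := ha.add_right (-(3 * 4 ^ K))
    refine Int.ModEq.trans ?_ (this.trans ?_)
    · exact modEq_of_eq_add 0 (by ring)
    · exact modEq_of_eq_add 0 (by ring)
  have hjA : j ≡ r' (K + 2) + 2 * 4 ^ K [ZMOD (4 : ℤ) ^ (K + 2)] := by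
    have := hb.add_right (-(3 * 4 ^ K))
    refine Int.ModEq.trans ?_ (this.trans ?_)
    · exact modEq_of_eq_add 0 (by ring)
    · exact modEq_of_eq_add 0 (by ring)
  have hd1 : (4 : ℤ) ^ (K + 1) ∣ (4 : ℤ) ^ (K + 3) := pow_dvd_pow _ (by omega)
  have hd2 : (4 : ℤ) ^ (K + 1) ∣ (4 : ℤ) ^ (K + 2) := pow_dvd_pow _ (by omega)
  have hi : i ≡ r (K + 1) + 4 ^ K [ZMOD (4 : ℤ) ^ (K + 1)] := by
    refine (hiA.of_dvd hd1).trans ?_
    refine Int.ModEq.trans ?_ ((coord_le hξ (show K + 1 ≤ K + 3 by omega)).add_right (4 ^ K))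
    exact modEq_of_eq_add 4 (by ring)
  have hj : j ≡ r' (K + 1) + 2 * 4 ^ K [ZMOD (4 : ℤ) ^ (K + 1)] := by
    refine (hjA.of_dvd hd2).trans ?_
    exact (coord_le hη (show K + 1 ≤ K + 2 by omega)).add_right _
  -- base letters at the relevant places
  have bU1 : (ξ (i + 4 ^ K + 4 ^ K + 4 ^ K)).1 = 3 * ((K + 1 : ℕ) : ZMod 6) + ((1 : ℕ) : ZMod 6) - 1 :=
    start_of hξ (k := K + 1) (u := 1) (by omega) le_rfl (by norm_num) ha
      (modEq_of_eq_add 1 (by push_cast; ring))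
  have bV1 : (η (j + 4 ^ K + 4 ^ K)).1 = 3 * ((K + 1 : ℕ) : ZMod 6) + ((1 : ℕ) : ZMod 6) - 1 :=
    start_of hη (k := K + 1) (u := 1) (m := K + 2) (c := 4 ^ (K + 1)) (by omega) le_rfl
      (by norm_num)
      (((hjA.add_right (4 ^ K)).add_right (4 ^ K)).trans (modEq_of_eq_add 0 (by ring)))
      (modEq_of_eq_add 0 (by push_cast; ring))
  have bU2 : (ξ (i + 4 ^ K + 4 ^ K + 4 ^ K + 4 ^ K + 4 ^ K + 4 ^ K + 4 ^ K)).1 =
      3 * ((K + 1 : ℕ) : ZMod 6) + ((2 : ℕ) : ZMod 6) - 1 :=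
    start_of hξ (k := K + 1) (u := 2) (m := K + 3) (c := 2 * 4 ^ (K + 1) + 4 ^ (K + 2))
      (by omega) (by norm_num) (by norm_num)
      (((((ha.add_right (4 ^ K)).add_right (4 ^ K)).add_right (4 ^ K)).add_right (4 ^ K)).trans
        (modEq_of_eq_add 0 (by ring)))
      (modEq_of_eq_add 1 (by push_cast; ring))
  have bV2 : (η (j + 4 ^ K + 4 ^ K + 4 ^ K + 4 ^ K + 4 ^ K + 4 ^ K)).1 =
      3 * ((K + 1 : ℕ) : ZMod 6) + ((2 : ℕ) : ZMod 6) - 1 :=
    start_of hη (k := K + 1) (u := 2) (m := K + 2) (c := 2 * 4 ^ (K + 1)) (by omega)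
      (by norm_num) (by norm_num)
      ((((hb.add_right (4 ^ K)).add_right (4 ^ K)).add_right (4 ^ K)).trans
        (modEq_of_eq_add 0 (by ring)))
      (modEq_of_eq_add 0 (by push_cast; ring))
  have hi2 : i + 4 ^ K + 4 ^ K + 4 ^ K + 4 ^ K ≡ r (K + 1) + 4 ^ K [ZMOD (4 : ℤ) ^ (K + 1)] :=
    (modEq_of_eq_add 1 (by ring)).trans hi
  have hj2 : j + 4 ^ K + 4 ^ K + 4 ^ K + 4 ^ K ≡ r' (K + 1) + 2 * 4 ^ K
      [ZMOD (4 : ℤ) ^ (K + 1)] :=
    (modEq_of_eq_add 1 (by ring)).trans hj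
  have c1 := fullCyc hξ hη K i j hi hj (by rw [bU1]; exact ne3 K) (by rw [bV1]; exact ne32 K)
  have c2 := fullCyc hξ hη K _ _ hi2 hj2 (by rw [bU2]; exact ne3' K) (by rw [bV2]; exact ne32' K)
  have e3 : ∀ t : ℤ, t + ((3 : ℕ) : ℤ) * 4 ^ K = t + 4 ^ K + 4 ^ K + 4 ^ K := by
    intro t; push_cast; ring
  have ok := full_cycle h hξ hη K i j hi hj
    (by rw [show i + 3 * 4 ^ K = i + 4 ^ K + 4 ^ K + 4 ^ K by ring, bU1]; exact ne3 K)
    (by rw [show j + 2 * 4 ^ K = j + 4 ^ K + 4 ^ K by ring, bV1]; exact ne32 K) 3 (by norm_num)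
  rw [e3, e3] at ok
  have hdvd : ((4 : ℤ) ^ K) ∣ (4 : ℤ) ^ (K + 1) := pow_dvd_pow _ (by omega)
  have hak : i + 4 ^ K + 4 ^ K + 4 ^ K ≡ r K [ZMOD (4 : ℤ) ^ K] := by
    refine Int.ModEq.trans ?_ ((hi.of_dvd hdvd).trans
      (((hξ.1 K).add_right _).trans (modEq_of_eq_add 1 (by ring))))
    exact modEq_of_eq_add 3 (by ring)
  have hbk : j + 4 ^ K + 4 ^ K + 4 ^ K ≡ r' K [ZMOD (4 : ℤ) ^ K] := by
    refine Int.ModEq.trans ?_ ((hj.of_dvd hdvd).trans
      (((hη.1 K).add_right _).trans (modEq_of_eq_add 2 (by ring))))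
    exact modEq_of_eq_add 3 (by ring)
  have hab : (ξ (i + 4 ^ K + 4 ^ K + 4 ^ K)).1 ≠ (η (j + 4 ^ K + 4 ^ K + 4 ^ K)).1 := by
    have h2 : (η (j + 4 ^ K + 4 ^ K + 4 ^ K)).1 = 3 * K := c1.2.2.2.1.2
    rw [h2, bU1]
    exact ne3 K
  rw [← contents_eq hξ hη pξ pη hak hbk hab ok]
  by_contra hS
  apply h i j (4 ^ K + (4 ^ K + (4 ^ K + (4 ^ K + (4 ^ K + (4 ^ K + (4 ^ K + (4 ^ K + 1))))))))
  left; right; right; right
  refine ⟨3 * K, zmod6_three K, _, _, _, _, _, _, _, _, _, _, _, _, _, _, _, _,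
    (ξ (i + 4 ^ K + 4 ^ K + 4 ^ K + 4 ^ K + 4 ^ K + 4 ^ K + 4 ^ K + 4 ^ K),
      η (j + 4 ^ K + 4 ^ K + 4 ^ K + 4 ^ K + 4 ^ K + 4 ^ K + 4 ^ K + 4 ^ K)), ?_, c1, c2,
    ?_, ?_, ?_, hS⟩
  · rw [seg_block4, seg_block4, seg_block4, seg_block4, seg_block4, seg_block4, seg_block4,
      seg_block4, seg_succ]
    rfl
  · constructor
    · have := start_of hξ (k := K) (u := 1) (m := K + 1) (c := 4 ^ K)
        (t := i + 4 ^ K + 4 ^ K + 4 ^ K + 4 ^ K + 4 ^ K + 4 ^ K + 4 ^ K + 4 ^ K)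
        (by omega) (by norm_num) (by norm_num)
        ((modEq_of_eq_add 2 (by ring)).trans hi) (modEq_of_eq_add 0 (by push_cast; ring))
      simp only [this]; push_cast; ring
    · have := start_of hη (k := K) (u := 2) (m := K + 1) (c := 2 * 4 ^ K)
        (t := j + 4 ^ K + 4 ^ K + 4 ^ K + 4 ^ K + 4 ^ K + 4 ^ K + 4 ^ K + 4 ^ K)
        (by omega) (by norm_num) (by norm_num)
        ((modEq_of_eq_add 2 (by ring)).trans hj) (modEq_of_eq_add 0 (by push_cast; ring))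
      simp only [this]; push_cast; ring
  · simp only [bU1]; push_cast; ring
  · simp only [bU2]; push_cast; ring

theorem stepI (h : LegitZ S isL n ξ η) (hξ : Coord r ξ) (hη : Coord r' η) (pξ : ParentOK r ξ)
    (pη : ParentOK r' η) (K : ℕ) (hK : 1 ≤ K) (a : ℤ)
    (ha : a ≡ r (K + 2) + (4 ^ K + 4 ^ (K + 1)) [ZMOD (4 : ℤ) ^ (K + 2)]) :
    (K = n → isL (ξ (a + 4 ^ 0)).2.2 = true) ∧ (K = n + 1 → isL (ξ (a + 4 ^ 0)).2.2 = false) := by
  obtain ⟨b, hb⟩ : ∃ b, b ≡ r' (K + 2) + 2 * 4 ^ K [ZMOD (4 : ℤ) ^ (K + 2)] :=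
    ⟨_, Int.ModEq.refl _⟩
  have hd2 : (4 : ℤ) ^ (K + 1) ∣ (4 : ℤ) ^ (K + 2) := pow_dvd_pow _ (by omega)
  have hi : a ≡ r (K + 1) + 4 ^ K [ZMOD (4 : ℤ) ^ (K + 1)] := by
    refine (ha.of_dvd hd2).trans ?_
    refine Int.ModEq.trans ?_ ((coord_le hξ (show K + 1 ≤ K + 2 by omega)).add_right (4 ^ K))
    exact modEq_of_eq_add 1 (by ring)
  have hj : b ≡ r' (K + 1) + 2 * 4 ^ K [ZMOD (4 : ℤ) ^ (K + 1)] :=
    (hb.of_dvd hd2).trans ((coord_le hη (show K + 1 ≤ K + 2 by omega)).add_right _)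
  have bU1 : (ξ (a + 4 ^ K + 4 ^ K + 4 ^ K)).1 = 3 * ((K + 1 : ℕ) : ZMod 6) + ((2 : ℕ) : ZMod 6) - 1 :=
    start_of hξ (k := K + 1) (u := 2) (m := K + 2) (c := 2 * 4 ^ (K + 1)) (by omega)
      (by norm_num) (by norm_num)
      ((((ha.add_right (4 ^ K)).add_right (4 ^ K)).add_right (4 ^ K)).trans
        (modEq_of_eq_add 0 (by ring)))
      (modEq_of_eq_add 0 (by push_cast; ring))
  have bV1 : (η (b + 4 ^ K + 4 ^ K)).1 = 3 * ((K + 1 : ℕ) : ZMod 6) + ((1 : ℕ) : ZMod 6) - 1 :=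
    start_of hη (k := K + 1) (u := 1) (m := K + 2) (c := 4 ^ (K + 1)) (by omega) le_rfl
      (by norm_num)
      (((hb.add_right (4 ^ K)).add_right (4 ^ K)).trans (modEq_of_eq_add 0 (by ring)))
      (modEq_of_eq_add 0 (by push_cast; ring))
  have c1 := fullCyc hξ hη K a b hi hj (by rw [bU1]; exact ne3' K) (by rw [bV1]; exact ne32 K)
  have ok := full_cycle h hξ hη K a b hi hj
    (by rw [show a + 3 * 4 ^ K = a + 4 ^ K + 4 ^ K + 4 ^ K by ring, bU1]; exact ne3' K)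
    (by rw [show b + 2 * 4 ^ K = b + 4 ^ K + 4 ^ K by ring, bV1]; exact ne32 K) 0 (by norm_num)
  have e0 : ∀ t : ℤ, t + ((0 : ℕ) : ℤ) * 4 ^ K = t := by intro t; simp
  rw [e0, e0] at ok
  have hdvd : ((4 : ℤ) ^ K) ∣ (4 : ℤ) ^ (K + 1) := pow_dvd_pow _ (by omega)
  have hak : a ≡ r K [ZMOD (4 : ℤ) ^ K] :=
    (hi.of_dvd hdvd).trans (((hξ.1 K).add_right _).trans (modEq_of_eq_add 1 (by ring)))
  have hbk : b ≡ r' K [ZMOD (4 : ℤ) ^ K] :=
    (hj.of_dvd hdvd).trans (((hη.1 K).add_right _).trans (modEq_of_eq_add 2 (by ring)))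
  have hab : (ξ a).1 ≠ (η b).1 := by
    have h1 : (ξ a).1 = 3 * K := c1.1.1
    have h2 : (η b).1 = 3 * K + 1 := c1.1.2
    rw [h1, h2]
    intro h3
    have : (0 : ZMod 6) = 1 := by linear_combination h3
    revert this; decide
  have hmis := mis_eq hξ hη pξ pη hak hbk hab ok
  have hfirst : firstL isL (seg ξ η (a + 1) (b + 1) (4 ^ K - 1)) ↔
      isL (ξ (a + 4 ^ 0)).2.2 = true := by
    have h4 : 4 ≤ 4 ^ K := by
      calc 4 = 4 ^ 1 := by norm_num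
        _ ≤ 4 ^ K := Nat.pow_le_pow_right (by norm_num) hK
    have hne := (mis_iff (k := 0) (u := 1) (q := 0) hξ hη pξ pη hak hbk hab ok.1 (by omega)
      le_rfl (by norm_num) (by simp; omega)).2 rfl
    simp only [pow_zero, mul_one, zero_mul, add_zero, Nat.cast_one] at hne
    have es : 4 ^ K - 1 = (4 ^ K - 2) + 1 := by omega
    rw [es, seg_succ]
    simp only [pow_zero]
    constructor
    · rintro ⟨y, q, y', he, hy, hq, hl⟩
      cases y with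
      | nil =>
        simp only [List.nil_append, List.cons.injEq] at he
        rw [← he.1] at hl
        exact hl
      | cons y0 ys =>
        simp only [List.cons_append, List.cons.injEq] at he
        have := hy y0 (by simp)
        rw [← he.1] at this
        exact absurd this hne
    · intro hl
      exact ⟨[], _, _, rfl, by simp, hne, hl⟩
  have hbad : ¬ RI isL n (seg ξ η a b (4 ^ K + 1)) := fun hb => h a b _ (Or.inr (Or.inr (Or.inl hb)))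
  have hRI : ((mis (seg ξ η (a + 1) (b + 1) (4 ^ K - 1)) = 3 * n ∧
      ¬ firstL isL (seg ξ η (a + 1) (b + 1) (4 ^ K - 1))) ∨
      (mis (seg ξ η (a + 1) (b + 1) (4 ^ K - 1)) = 3 * (n + 1) ∧
      firstL isL (seg ξ η (a + 1) (b + 1) (4 ^ K - 1)))) → False := by
    intro hor
    apply hbad
    refine ⟨3 * K, zmod6_three K, (ξ a, η b), _, (ξ (a + 4 ^ K), η (b + 4 ^ K)), ?_, c1.1,
      c1.2.1, c1.2.2.2.2.1, hor⟩
    rw [seg_block4, seg_succ]
    rfl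
  rw [hmis, hfirst] at hRI
  constructor
  · rintro rfl
    by_contra hc
    exact hRI (Or.inl ⟨rfl, hc⟩)
  · rintro rfl
    by_contra hc
    exact hRI (Or.inr ⟨rfl, by simpa using hc⟩)

end main

end Chain

open Chain in
theorem exists_runX {Γ : Type} [DecidableEq Γ] {S : Language (Γ × Γ)} {isL : Γ → Bool} {n : ℕ}
    (hn : 1 ≤ n) {ξ η : ℤ → Lt Γ} {r r' : ℕ → ℤ} (h : LegitZ S isL n ξ η)
    (hξ : Coord r ξ) (hη : Coord r' η) (pξ : ParentOK r ξ) (pη : ParentOK r' η) :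
    ∃ X, RunX S isL n X := by
  classical
  refine ⟨fun K k => if Even K then (η (r' (K + 2) + (4 ^ K + 4 ^ (K + 1)) + 4 ^ k)).2.2
    else (ξ (r (K + 2) + (4 ^ K + 4 ^ (K + 1)) + 4 ^ k)).2.2, ?_, ?_, ?_⟩
  · intro K hK
    by_cases he : Even K
    · have ho : ¬ Even (K + 1) := by rw [Nat.even_add_one]; simpa using he
      simp only [he, ho, if_true, if_false]
      exact stepS h hξ hη pξ pη K _ _ (Int.ModEq.refl _) (Int.ModEq.refl _)
    · have ho : Even (K + 1) := by rw [Nat.even_add_one]; exact he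
      simp only [he, ho, if_true, if_false]
      exact stepS h.symm hη hξ pη pξ K _ _ (Int.ModEq.refl _) (Int.ModEq.refl _)
  · by_cases he : Even n
    · simp only [he, if_true]
      exact (stepI h.symm hη hξ pη pξ n hn _ (Int.ModEq.refl _)).1 rfl
    · simp only [he, if_false]
      exact (stepI h hξ hη pξ pη n hn _ (Int.ModEq.refl _)).1 rfl
  · by_cases he : Even (n + 1)
    · simp only [he, if_true]
      exact (stepI h.symm hη hξ pη pξ (n + 1) (by omega) _ (Int.ModEq.refl _)).2 rfl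
    · simp only [he, if_false]
      exact (stepI h hξ hη pξ pη (n + 1) (by omega) _ (Int.ModEq.refl _)).2 rfl

end Star60
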