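import Pool.Agent.Star60.Words
import Pool.Agent.Star60.RegTools
import Pool.Agent.Star60.SMach

/-!
MP_1b5989_lc, module COLS: computations of stack machines as sequences of columns.
`Γ = Option (Option C × (κ → Option A))`, `none` is the `L`-letter.  `S` consists of the words of
pairs (upper letter, lower letter) = `(X (K+1) k, X K k)` of the following kinds:
 (LL) all letters are `none`;
 (LS) all lower letters `none`, upper: control `c0` at cell 0, main stack `a1,...,a1,a2` (the last
      cell of the word carries `a2`), everything else blank;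
 (NN) the upper column is the successor of the lower one, and the last cell of the lower column is
      blank on all stacks (stack tops at cell 0).
-/

namespace Star60

namespace Cols

section cols
variable (M : SM)

/-- column letters -/
abbrev Gm : Type := Option (Option M.C × (M.κ → Option M.A))

variable {M}

/-- control component of a letter -/
def ctl (g : Gm M) : Option M.C := g.bind (fun x => x.1)

/-- stack component of a letter -/
def stk (g : Gm M) (k : M.κ) : Option M.A := g.bind (fun x => x.2 k)

/-- the letter of cell `i` of the column of a configuration -/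
def cell (c : M.C × (M.κ → List M.A)) (i : ℕ) : Gm M :=
  some (if i = 0 then some c.1 else none, fun k => (c.2 k)[i]?)

theorem ctl_cell_zero (c : M.C × (M.κ → List M.A)) : ctl (cell c 0) = some c.1 := rfl

theorem stk_cell (c : M.C × (M.κ → List M.A)) (i : ℕ) (k : M.κ) :
    stk (cell c i) k = (c.2 k)[i]? := rfl

theorem cell_ne (c : M.C × (M.κ → List M.A)) (i : ℕ) : cell c i ≠ none := by simp [cell]

variable (M)

/-- kind (LS) -/
def LSw (w : List (Gm M × Gm M)) : Prop :=
  (∀ p ∈ w, p.2 = none ∧ p.1 ≠ none ∧ ∀ k, k ≠ M.main → stk p.1 k = none) ∧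
  (∀ p ∈ w.head?, ctl p.1 = some M.c0) ∧
  (∀ p ∈ w.dropLast, stk p.1 M.main = some M.a1) ∧
  (∀ p ∈ w.getLast?, stk p.1 M.main = some M.a2)

variable {M}

/-- kind (NN) for one instruction -/
def NNw (c : M.C) (τ : M.κ → Option M.A) (c' : M.C) (k : M.κ) (op : SOp M.A)
    (w : List (Gm M × Gm M)) : Prop :=
  (∀ p ∈ w, p.1 ≠ none ∧ p.2 ≠ none ∧ (∀ j, j ≠ k → stk p.1 j = stk p.2 j) ∧
    (op = SOp.stay → stk p.1 k = stk p.2 k)) ∧
  (∀ p ∈ w.head?, ctl p.2 = some c ∧ (∀ j, stk p.2 j = τ j) ∧ ctl p.1 = some c' ∧
    ∀ a, op = SOp.push a → stk p.1 k = some a) ∧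
  List.IsChain (fun p q => (op = SOp.pop → stk p.1 k = stk q.2 k) ∧
    (∀ a, op = SOp.push a → stk q.1 k = stk p.2 k)) w ∧
  (∀ p ∈ w.getLast?, (∀ j, stk p.2 j = none) ∧ (op = SOp.pop → stk p.1 k = none))

variable (M)

/-- kind (NN) -/
def NNs (w : List (Gm M × Gm M)) : Prop :=
  ∃ r : M.C × (M.κ → Option M.A), ∃ c' k op, M.step r.1 r.2 = some (c', k, op) ∧
    NNw r.1 r.2 c' k op w

/-- the language `S` -/
def SS : Language (Gm M × Gm M) :=
  {w | (∀ p ∈ w, p.1 = none ∧ p.2 = none) ∨ LSw M w ∨ NNs M w}

theorem mem_SS (w : List (Gm M × Gm M)) :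
    w ∈ SS M ↔ (∀ p ∈ w, p.1 = none ∧ p.2 = none) ∨ LSw M w ∨ NNs M w := Iff.rfl

end cols

section reg

theorem isRegular_and {α : Type} {P Q : List α → Prop}
    (hP : Language.IsRegular ({w | P w} : Language α))
    (hQ : Language.IsRegular ({w | Q w} : Language α)) :
    Language.IsRegular ({w | P w ∧ Q w} : Language α) := hP.inf hQ

theorem isRegular_or {α : Type} {P Q : List α → Prop}
    (hP : Language.IsRegular ({w | P w} : Language α))
    (hQ : Language.IsRegular ({w | Q w} : Language α)) :
    Language.IsRegular ({w | P w ∨ Q w} : Language α) := hP.add hQ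

theorem isRegular_congr {α : Type} {P Q : List α → Prop}
    (hP : Language.IsRegular ({w | P w} : Language α)) (h : ∀ w, Q w ↔ P w) :
    Language.IsRegular ({w | Q w} : Language α) := by
  have : Q = P := funext fun w => propext (h w)
  rw [this]; exact hP

theorem isRegular_false {α : Type} :
    Language.IsRegular ({_w | False} : Language α) := by
  have h := isRegular_and (isRegular_length_ge (α := α) 1) (isRegular_forall (fun _ : α => False))
  refine isRegular_congr h fun w => ?_
  constructor
  · intro h; exact h.elim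
  · rintro ⟨h1, h2⟩
    rcases w with _ | ⟨a, w⟩
    · simp at h1
    · exact h2 a (by simp)

theorem regular_SS (M : SM) : (SS M).IsRegular := by
  unfold SS
  refine isRegular_or (isRegular_forall _) (isRegular_or ?_ ?_)
  · refine isRegular_and (isRegular_forall _) (isRegular_and (isRegular_head _)
      (isRegular_and ?_ (isRegular_getLast _)))
    exact isRegular_dropLast (isRegular_forall (fun p : Gm M × Gm M => stk p.1 M.main = some M.a1))
  · refine isRegular_iUnion (fun r : M.C × (M.κ → Option M.A) =>
      ({w | ∃ c' k op, M.step r.1 r.2 = some (c', k, op) ∧ NNw r.1 r.2 c' k op w} :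
        Language (Gm M × Gm M))) ?_
    intro r
    rcases hr : M.step r.1 r.2 with _ | ⟨c', k, op⟩
    · refine isRegular_congr (isRegular_false (α := Gm M × Gm M)) fun w => ?_
      simp
    · have h : Language.IsRegular ({w | NNw r.1 r.2 c' k op w} : Language (Gm M × Gm M)) :=
        isRegular_and (isRegular_forall _) (isRegular_and (isRegular_head _)
          (isRegular_and (isRegular_isChain _) (isRegular_getLast _)))
      refine isRegular_congr h fun w => ?_
      constructor
      · rintro ⟨c1, k1, op1, h1, h2⟩
        simp only [Option.some.injEq, Prod.mk.injEq] at h1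
        obtain ⟨rfl, rfl, rfl⟩ := h1
        exact h2
      · intro h1
        exact ⟨c', k, op, rfl, h1⟩

end reg

section words
variable {α : Type} (f : ℕ → α)

theorem wd_forall (K : ℕ) (P : α → Prop) :
    (∀ p ∈ (List.range K).map f, P p) ↔ ∀ i < K, P (f i) := by
  simp

theorem wd_head (K : ℕ) (hK : 1 ≤ K) (P : α → Prop) :
    (∀ p ∈ ((List.range K).map f).head?, P p) ↔ P (f 0) := by
  obtain ⟨K, rfl⟩ : ∃ L, K = L + 1 := ⟨K - 1, by omega⟩
  rw [List.range_succ_eq_map]
  simp

theorem wd_last (K : ℕ) (P : α → Prop) :
    (∀ p ∈ ((List.range (K + 1)).map f).getLast?, P p) ↔ P (f K) := by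
  rw [List.range_succ]
  simp

theorem wd_drop (K : ℕ) (P : α → Prop) :
    (∀ p ∈ ((List.range (K + 1)).map f).dropLast, P p) ↔ ∀ i < K, P (f i) := by
  rw [List.range_succ, List.map_append, List.map_singleton, List.dropLast_concat]
  simp

theorem wd_chain (K : ℕ) (R : α → α → Prop) :
    List.IsChain R ((List.range (K + 1)).map f) ↔ ∀ i < K, R (f i) (f (i + 1)) := by
  rw [List.isChain_map, List.isChain_range]
  simp

end words

section main
variable {M : SM}

theorem next_eq {c d : M.C × (M.κ → List M.A)} (h : M.next c = some d) :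
    ∃ c' k op, M.step c.1 (fun k => (c.2 k).head?) = some (c', k, op) ∧
      d = (c', Function.update c.2 k (op.app (c.2 k))) := by
  unfold SM.next at h
  rw [Option.map_eq_some_iff] at h
  obtain ⟨⟨c', k, op⟩, h1, h2⟩ := h
  exact ⟨c', k, op, h1, h2.symm⟩

theorem app_length (op : SOp M.A) (l : List M.A) : (op.app l).length ≤ l.length + 1 := by
  cases op with
  | stay => simp [SOp.app]
  | pop => simp only [SOp.app, List.length_tail]; omega
  | push a => simp [SOp.app]

theorem next_length {c d : M.C × (M.κ → List M.A)} (h : M.next c = some d) (L : ℕ)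
    (hc : ∀ k, (c.2 k).length ≤ L) (k : M.κ) : (d.2 k).length ≤ L + 1 := by
  obtain ⟨c', j, op, -, rfl⟩ := next_eq h
  by_cases hk : k = j
  · subst hk
    simp only [Function.update_self]
    exact (app_length op _).trans (by have := hc k; omega)
  · simp only [Function.update_of_ne hk]
    exact (hc k).trans (by omega)

theorem start_length (n : ℕ) (k : M.κ) : ((M.start n).2 k).length ≤ n + 1 := by
  unfold SM.start
  by_cases hk : k = M.main
  · subst hk; simp
  · simp [Function.update_of_ne hk]

/-- the successor column -/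
theorem nn_of_next {c d : M.C × (M.κ → List M.A)} (h : M.next c = some d) (K : ℕ)
    (hc : ∀ k, (c.2 k).length ≤ K) :
    NNs M ((List.range (K + 1)).map (fun i => (cell d i, cell c i))) := by
  obtain ⟨c', k, op, hs, rfl⟩ := next_eq h
  refine ⟨(c.1, fun k => (c.2 k).head?), c', k, op, hs, ?_, ?_, ?_, ?_⟩
  · rw [wd_forall]
    intro i _
    refine ⟨cell_ne _ _, cell_ne _ _, ?_, ?_⟩
    · intro j hj
      simp only [stk_cell, Function.update_of_ne hj]
    · rintro rfl
      simp only [stk_cell, Function.update_self, SOp.app]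
  · rw [wd_head _ _ (by omega)]
    refine ⟨rfl, ?_, rfl, ?_⟩
    · intro j
      simp only [stk_cell, List.head?_eq_getElem?]
    · rintro a rfl
      simp only [stk_cell, Function.update_self, SOp.app, List.getElem?_cons_zero]
  · rw [wd_chain]
    intro i _
    refine ⟨?_, ?_⟩
    · rintro rfl
      simp only [stk_cell, Function.update_self, SOp.app, List.getElem?_tail]
    · rintro a rfl
      simp only [stk_cell, Function.update_self, SOp.app, List.getElem?_cons_succ]
  · rw [wd_last]
    refine ⟨?_, ?_⟩
    · intro j
      simp only [stk_cell]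
      exact List.getElem?_eq_none (hc j)
    · rintro rfl
      simp only [stk_cell, Function.update_self, SOp.app, List.getElem?_tail]
      exact List.getElem?_eq_none (by have := hc k; omega)

theorem ls_start (n : ℕ) :
    LSw M ((List.range (n + 1)).map (fun i => (cell (M.start n) i, (none : Gm M)))) := by
  refine ⟨?_, ?_, ?_, ?_⟩
  · rw [wd_forall]
    intro i _
    refine ⟨rfl, cell_ne _ _, ?_⟩
    intro k hk
    simp only [stk_cell, SM.start, Function.update_of_ne hk, List.getElem?_nil]
  · rw [wd_head _ _ (by omega)]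
    rfl
  · rw [wd_drop]
    intro i hi
    simp only [stk_cell, SM.start, Function.update_self]
    rw [List.getElem?_append_left (by simpa using hi), List.getElem?_replicate, if_pos hi]
  · rw [wd_last]
    simp only [stk_cell, SM.start, Function.update_self]
    rw [List.getElem?_append_right (by simp)]
    simp

/-- the column `X` shows the configuration `c` on its first `K` cells -/
def Shows (X : ℕ → Gm M) (c : M.C × (M.κ → List M.A)) (K : ℕ) : Prop :=
  X 0 ≠ none ∧ ctl (X 0) = some c.1 ∧ ∀ i < K, ∀ k, stk (X i) k = (c.2 k)[i]?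

theorem shows_start (X Y : ℕ → Gm M) (n : ℕ)
    (h : LSw M ((List.range (n + 1)).map (fun i => (Y i, X i)))) : Shows Y (M.start n) (n + 1) := by
  obtain ⟨h1, h2, h3, h4⟩ := h
  rw [wd_forall] at h1
  rw [wd_head _ _ (by omega)] at h2
  rw [wd_drop] at h3
  rw [wd_last] at h4
  refine ⟨(h1 0 (by omega)).2.1, h2, ?_⟩
  intro i hi k
  by_cases hk : k = M.main
  · subst hk
    simp only [SM.start, Function.update_self]
    rcases Nat.lt_or_ge i n with h5 | h5
    · rw [h3 i h5, List.getElem?_append_left (by simpa using h5), List.getElem?_replicate, if_pos h5]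
    · have : i = n := by omega
      subst this
      rw [h4, List.getElem?_append_right (by simp)]
      simp
  · rw [(h1 i hi).2.2 k hk]
    simp only [SM.start, Function.update_of_ne hk, List.getElem?_nil]

/-- extending by the blank cell -/
theorem shows_last (X Y : ℕ → Gm M) (c : M.C × (M.κ → List M.A)) (K : ℕ) (hs : Shows X c K)
    (hc : ∀ k, (c.2 k).length ≤ K)
    (h : NNs M ((List.range (K + 1)).map (fun i => (Y i, X i)))) : Shows X c (K + 1) := by
  obtain ⟨r, c', k, op, hr, h1, h2, h3, h4⟩ := h
  rw [wd_last] at h4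
  refine ⟨hs.1, hs.2.1, ?_⟩
  intro i hi j
  rcases Nat.lt_or_ge i K with h5 | h5
  · exact hs.2.2 i h5 j
  · have : i = K := by omega
    subst this
    rw [List.getElem?_eq_none (hc j)]
    exact h4.1 j

theorem shows_next (X Y : ℕ → Gm M) (c : M.C × (M.κ → List M.A)) (K : ℕ)
    (hs : Shows X c (K + 1)) (hc : ∀ k, (c.2 k).length ≤ K)
    (h : NNs M ((List.range (K + 1)).map (fun i => (Y i, X i)))) :
    ∃ d, M.next c = some d ∧ Shows Y d (K + 1) := by
  obtain ⟨⟨c1, τ⟩, c', k, op, hr, h1, h2, h3, h4⟩ := h
  rw [wd_forall] at h1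
  rw [wd_head _ _ (by omega)] at h2
  rw [wd_chain] at h3
  rw [wd_last] at h4
  obtain ⟨h2a, h2b, h2c, h2d⟩ := h2
  simp only at h2a h2b h2c h2d hr
  have e1 : c1 = c.1 := by
    rw [hs.2.1] at h2a; exact (Option.some.inj h2a).symm
  have e2 : τ = fun k => (c.2 k).head? := by
    funext j
    rw [← h2b j, hs.2.2 0 (by omega) j, List.head?_eq_getElem?]
  subst e1 e2
  refine ⟨(c', Function.update c.2 k (op.app (c.2 k))), ?_, (h1 0 (by omega)).1, h2c, ?_⟩
  · unfold SM.next
    rw [hr]
    rfl
  · intro i hi j
    by_cases hj : j = k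
    · subst hj
      simp only [Function.update_self]
      cases op with
      | stay =>
        rw [(h1 i hi).2.2.2 rfl, hs.2.2 i hi j]; rfl
      | pop =>
        simp only [SOp.app, List.getElem?_tail]
        rcases Nat.lt_or_ge i K with h5 | h5
        · rw [(h3 i h5).1 rfl, hs.2.2 (i + 1) (by omega) j]
        · have : i = K := by omega
          subst this
          rw [h4.2 rfl, List.getElem?_eq_none (by have := hc j; omega)]
      | push a =>
        simp only [SOp.app]
        rcases i with _ | i
        · rw [h2d a rfl, List.getElem?_cons_zero]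
        · rw [List.getElem?_cons_succ, (h3 i (by omega)).2 a rfl, hs.2.2 i (by omega) j]
    · rw [(h1 i hi).2.2.1 j hj, hs.2.2 i hi j]
      simp only [Function.update_of_ne hj]

theorem nn_of_shows (X Y : ℕ → Gm M) (K : ℕ) (hX : X 0 ≠ none)
    (h : (List.range (K + 1)).map (fun i => (Y i, X i)) ∈ SS M) :
    NNs M ((List.range (K + 1)).map (fun i => (Y i, X i))) := by
  rw [mem_SS] at h
  rcases h with h | h | h
  · rw [wd_forall] at h
    exact absurd (h 0 (by omega)).2 hX
  · have h1 := h.1
    rw [wd_forall] at h1
    exact absurd (h1 0 (by omega)).1 hX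
  · exact h

end main

end Cols

open Cols in
theorem exists_cols (M : SM) : ∃ (Γ : Type) (_ : Fintype Γ) (_ : DecidableEq Γ)
    (S : Language (Γ × Γ)) (isL : Γ → Bool), S.IsRegular ∧ [] ∈ S ∧
      ∀ n, (∃ X, RunX S isL (n + 1) X) ↔ M.Forever n := by
  classical
  refine ⟨Gm M, inferInstance, inferInstance, SS M, Option.isNone, regular_SS M, ?_, ?_⟩
  · rw [mem_SS]; left; simp
  intro n
  constructor
  · rintro ⟨X, hw, hL, hN⟩
    have hL' : X (n + 1) 0 = none := by simpa using hL
    have hN' : X (n + 2) 0 ≠ none := by
      intro h; rw [show n + 1 + 1 = n + 2 from rfl, h] at hN; simp at hN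
    -- the start column
    have h1 := hw (n + 1) (by omega)
    rw [mem_SS] at h1
    have h2 : LSw M ((List.range (n + 1)).map (fun i => (X (n + 2) i, X (n + 1) i))) := by
      rcases h1 with h1 | h1 | h1
      · rw [wd_forall] at h1
        exact absurd (h1 0 (by omega)).1 hN'
      · exact h1
      · obtain ⟨r, c', k, op, hr, h1, -⟩ := h1
        rw [wd_forall] at h1
        exact absurd hL' (h1 0 (by omega)).2.1
    have hs := shows_start _ _ n h2
    set g : M.C × (M.κ → List M.A) → M.C × (M.κ → List M.A) := fun c => (M.next c).getD c with hg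
    have key : ∀ t, Shows (X (n + 2 + t)) (g^[t] (M.start n)) (n + 1 + t) ∧
        ∀ k, (((g^[t]) (M.start n)).2 k).length ≤ n + 1 + t := by
      intro t
      induction t with
      | zero => exact ⟨hs, fun k => start_length n k⟩
      | succ t ih =>
        obtain ⟨i1, i2⟩ := ih
        have h3 := nn_of_shows (X (n + 2 + t)) (X (n + 2 + t + 1)) (n + 1 + t) i1.1
          (by have := hw (n + 2 + t) (by omega)
              rwa [show n + 2 + t = n + 1 + t + 1 by omega] at this ⊢)
        have h4 := shows_last _ _ _ _ i1 i2 h3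
        obtain ⟨d, h5, h6⟩ := shows_next _ _ _ _ h4 i2 h3
        have h7 : g^[t + 1] (M.start n) = d := by
          rw [Function.iterate_succ_apply', hg]
          simp only
          rw [← hg, h5]; rfl
        rw [h7]
        exact ⟨h6, fun k => next_length h5 _ i2 k⟩
    refine ⟨fun t => g^[t] (M.start n), rfl, ?_⟩
    intro t
    obtain ⟨i1, i2⟩ := key t
    have h3 := nn_of_shows (X (n + 2 + t)) (X (n + 2 + t + 1)) (n + 1 + t) i1.1
      (by have := hw (n + 2 + t) (by omega)
          rwa [show n + 2 + t = n + 1 + t + 1 by omega] at this ⊢)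
    have h4 := shows_last _ _ _ _ i1 i2 h3
    obtain ⟨d, h5, h6⟩ := shows_next _ _ _ _ h4 i2 h3
    have h7 : g^[t + 1] (M.start n) = d := by
      rw [Function.iterate_succ_apply', hg]
      simp only
      rw [← hg, h5]; rfl
    show M.next (g^[t] (M.start n)) = some (g^[t + 1] (M.start n))
    rw [h7, h5]
  · rintro ⟨f, hf0, hf⟩
    have hlen : ∀ t k, ((f t).2 k).length ≤ n + 1 + t := by
      intro t
      induction t with
      | zero => intro k; rw [hf0]; exact start_length n k
      | succ t ih => exact fun k => next_length (hf t) _ ih k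
    refine ⟨fun K i => if K ≤ n + 1 then none else cell (f (K - (n + 2))) i, ?_, ?_, ?_⟩
    · intro K hK
      rw [mem_SS]
      rcases Nat.lt_trichotomy K (n + 1) with h | h | h
      · left
        rw [wd_forall]
        intro i _
        simp only
        rw [if_pos (by omega), if_pos (by omega)]
        exact ⟨rfl, rfl⟩
      · right; left
        subst h
        have := ls_start (M := M) n
        convert this using 3 with i
        simp only
        rw [if_neg (by omega), if_pos (by omega), show n + 1 + 1 - (n + 2) = 0 by omega, hf0]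
      · right; right
        obtain ⟨t, rfl⟩ : ∃ t, K = n + 2 + t := ⟨K - (n + 2), by omega⟩
        have := nn_of_next (hf t) (n + 1 + t) (hlen t)
        rw [show n + 1 + t + 1 = n + 2 + t by omega] at this
        convert this using 3 with i
        simp only
        rw [if_neg (by omega), if_neg (by omega), show n + 2 + t + 1 - (n + 2) = t + 1 by omega,
          show n + 2 + t - (n + 2) = t by omega]
    · simp
    · have : ¬ (n + 1 + 1 ≤ n + 1) := by omega
      simp [cell]

end Star60
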