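import Pool.Agent.Star60.Words

/-!
MP_1b5989_lc, module COMPACT: arbitrarily long legitimate pairs give a bi-infinite one
(ultrafilter limit of `i ↦ (u_m).getD (i + m/2)`, or diagonal argument).
-/

namespace Star60

open Filter

theorem exists_limit {α : Type} [Finite α] (u : ℕ → List α) (hu : ∀ m, m ≤ (u m).length) :
    ∃ ξ : ℤ → α, ∀ t : ℤ, ∀ᶠ m in (hyperfilter ℕ : Filter ℕ),
      0 ≤ t + ((m / 2 : ℕ) : ℤ) ∧ (u m)[(t + ((m / 2 : ℕ) : ℤ)).toNat]? = some (ξ t) := by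
  have key : ∀ t : ℤ, ∃ a : α, ∀ᶠ m in (hyperfilter ℕ : Filter ℕ),
      0 ≤ t + ((m / 2 : ℕ) : ℤ) ∧ (u m)[(t + ((m / 2 : ℕ) : ℤ)).toNat]? = some a := by
    intro t
    have hlarge : ∀ᶠ m in (hyperfilter ℕ : Filter ℕ), 2 * t.natAbs + 2 ≤ m := by
      have h : ∀ᶠ m in (atTop : Filter ℕ), 2 * t.natAbs + 2 ≤ m := eventually_ge_atTop _
      rw [← Nat.cofinite_eq_atTop] at h
      exact h.filter_mono hyperfilter_le_cofinite
    obtain ⟨a, ha⟩ := Ultrafilter.eq_pure_of_finite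
      ((hyperfilter ℕ).map (fun m => (u m)[(t + ((m / 2 : ℕ) : ℤ)).toNat]?))
    have h1 : ∀ᶠ m in (hyperfilter ℕ : Filter ℕ),
        (u m)[(t + ((m / 2 : ℕ) : ℤ)).toNat]? = a := by
      have : {a} ∈ ((hyperfilter ℕ).map (fun m => (u m)[(t + ((m / 2 : ℕ) : ℤ)).toNat]?)) := by
        rw [ha]; exact Ultrafilter.mem_pure.2 rfl
      exact this
    obtain ⟨m, hm, hm'⟩ := (hlarge.and h1).exists
    cases a with
    | none =>
      exfalso
      rw [List.getElem?_eq_none_iff] at hm'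
      have := hu m
      omega
    | some b =>
      refine ⟨b, (hlarge.and h1).mono fun m hm => ⟨?_, hm.2⟩⟩
      have := hm.1
      omega
  choose ξ hξ using key
  exact ⟨ξ, hξ⟩

theorem factor_eq {α : Type} (u : List α) (ξ : ℤ → α) (i : ℤ) (c l : ℕ) (h0 : 0 ≤ i + (c : ℤ))
    (h : ∀ t < l, u[(i + (t : ℤ) + (c : ℤ)).toNat]? = some (ξ (i + (t : ℤ)))) :
    (u.drop (i + (c : ℤ)).toNat).take l = (List.range l).map (fun t : ℕ => ξ (i + (t : ℤ))) := by
  apply List.ext_getElem?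
  intro t
  by_cases ht : t < l
  · rw [List.getElem?_take_of_lt ht, List.getElem?_drop]
    have e : (i + (c : ℤ)).toNat + t = (i + (t : ℤ) + (c : ℤ)).toNat := by omega
    rw [e, h t ht]
    simp [ht]
  · rw [List.getElem?_eq_none_iff.2, List.getElem?_eq_none_iff.2]
    · simp; omega
    · simp; omega

theorem exists_legitZ {Γ : Type} [Fintype Γ] [DecidableEq Γ] (S : Language (Γ × Γ))
    (isL : Γ → Bool) (n : ℕ)
    (H : ∀ m : ℕ, ∃ u v : List (Lt Γ), m ≤ u.length ∧ m ≤ v.length ∧ Legit S isL n u v) :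
    ∃ ξ η : ℤ → Lt Γ, LegitZ S isL n ξ η := by
  choose u v hu hv hl using H
  obtain ⟨ξ, hξ⟩ := exists_limit u hu
  obtain ⟨η, hη⟩ := exists_limit v hv
  refine ⟨ξ, η, fun i j l hb => ?_⟩
  have h1 : ∀ᶠ m in (hyperfilter ℕ : Filter ℕ), ∀ t ∈ Finset.range l,
      (0 ≤ i + (t : ℤ) + ((m / 2 : ℕ) : ℤ) ∧
        (u m)[(i + (t : ℤ) + ((m / 2 : ℕ) : ℤ)).toNat]? = some (ξ (i + t))) ∧
      (0 ≤ j + (t : ℤ) + ((m / 2 : ℕ) : ℤ) ∧
        (v m)[(j + (t : ℤ) + ((m / 2 : ℕ) : ℤ)).toNat]? = some (η (j + t))) := by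
    rw [eventually_all_finset]
    intro t _
    exact (hξ (i + t)).and (hη (j + t))
  obtain ⟨m, hm, hm1, hm2⟩ := (h1.and ((hξ i).and (hη j))).exists
  have e1 := factor_eq (u m) ξ i (m / 2) l hm1.1 (fun t ht => (hm t (Finset.mem_range.2 ht)).1.2)
  have e2 := factor_eq (v m) η j (m / 2) l hm2.1 (fun t ht => (hm t (Finset.mem_range.2 ht)).2.2)
  apply hl m ((List.range l).map (fun t : ℕ => ξ (i + (t : ℤ))))
    ((List.range l).map (fun t : ℕ => η (j + (t : ℤ))))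
  · rw [← e1]
    exact ((List.take_prefix _ _).isInfix).trans (List.drop_suffix _ _).isInfix
  · rw [← e2]
    exact ((List.take_prefix _ _).isInfix).trans (List.drop_suffix _ _).isInfix
  · simp
  · have e : ((List.range l).map (fun t : ℕ => ξ (i + (t : ℤ)))).zip
        ((List.range l).map (fun t : ℕ => η (j + (t : ℤ)))) = seg ξ η i j l := by
      rw [List.zip_map', seg]
    rw [e]; exact hb

end Star60
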