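import Pool.Agent.Star60.Words

/-!
MP_1b5989_lc, module CYCLE: the blocks of a full cycle.  `ξ` on tape 1, `η` on tape 2.
-/

namespace Star60

theorem exists_form' (x : ℕ) (hx : 0 < x) :
    ∃ k u q, 1 ≤ u ∧ u ≤ 3 ∧ x = 4 ^ k * (4 * q + u) := by
  induction x using Nat.strong_induction_on with
  | _ x ih =>
    by_cases h : x % 4 = 0
    · obtain ⟨k, u, q, hu, hu', hq⟩ := ih (x / 4) (by omega) (by omega)
      refine ⟨k + 1, u, q, hu, hu', ?_⟩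
      have : x = 4 * (x / 4) := by omega
      rw [this, hq]; ring
    · exact ⟨0, x % 4, x / 4, by omega, by omega, by rw [pow_zero]; omega⟩

variable {Γ : Type} [DecidableEq Γ] {S : Language (Γ × Γ)} {isL : Γ → Bool} {n : ℕ}
  {ξ η : ℤ → Lt Γ} {r r' : ℕ → ℤ}

omit [DecidableEq Γ] in
theorem Coord.compat (hξ : Coord r ξ) {L K : ℕ} (h : L ≤ K) : r K ≡ r L [ZMOD (4 : ℤ) ^ L] := by
  induction K, h using Nat.le_induction with
  | base => exact Int.ModEq.refl _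
  | succ K hK ih =>
    exact ((hξ.1 K).of_dvd (pow_dvd_pow 4 hK)).trans ih


omit [DecidableEq Γ] in
theorem Coord.inner {ξ : ℤ → Lt Γ} {r : ℕ → ℤ} (hξ : Coord r ξ) {K k u q : ℕ} {i : ℤ}
    (hi : i ≡ r K [ZMOD (4 : ℤ) ^ K]) (hk : k < K) (hu : 1 ≤ u) (hu' : u ≤ 3) :
    (ξ (i + (4 ^ k * (4 * q + u) : ℕ))).1 = 3 * (k : ZMod 6) + u - 1 := by
  apply hξ.2 k u _ hu hu'
  have h1 : i ≡ r (k + 1) [ZMOD (4 : ℤ) ^ (k + 1)] :=
    (hi.of_dvd (pow_dvd_pow 4 hk)).trans (hξ.compat hk)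
  refine Int.ModEq.add h1 ?_
  rw [Int.modEq_iff_dvd]
  refine ⟨-q, ?_⟩
  push_cast
  ring

omit [DecidableEq Γ] in
/-- inside a block all base letters are equal -/
theorem block_BE (hξ : Coord r ξ) (hη : Coord r' η) (K : ℕ) (i j : ℤ)
    (hi : i ≡ r K [ZMOD (4 : ℤ) ^ K]) (hj : j ≡ r' K [ZMOD (4 : ℤ) ^ K]) :
    AllBE (seg ξ η (i + 1) (j + 1) (4 ^ K - 1)) := by
  classical
  intro p hp
  simp only [seg, List.mem_map, List.mem_range] at hp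
  obtain ⟨t, ht, rfl⟩ := hp
  obtain ⟨k, u, q, hu, hu', hs⟩ := exists_form' (t + 1) (by omega)
  have hk : k < K := by
    by_contra hcon
    push Not at hcon
    have h1 : 4 ^ K ≤ 4 ^ k := Nat.pow_le_pow_right (by norm_num) hcon
    have h2 : 4 ^ k ≤ 4 ^ k * (4 * q + u) := Nat.le_mul_of_pos_right _ (by omega)
    omega
  have e1 : i + 1 + (t : ℤ) = i + ((4 ^ k * (4 * q + u) : ℕ) : ℤ) := by
    rw [← hs]; push_cast; ring
  have e2 : j + 1 + (t : ℤ) = j + ((4 ^ k * (4 * q + u) : ℕ) : ℤ) := by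
    rw [← hs]; push_cast; ring
  simp only [BE]
  rw [e1, e2, hξ.inner hi hk hu hu', hη.inner hj hk hu hu']

omit [DecidableEq Γ] in
/-- base letters at block starts -/
theorem start_letter (hξ : Coord r ξ) (K u : ℕ) (i : ℤ) (hu : 1 ≤ u) (hu' : u ≤ 3)
    (hi : i ≡ r (K + 1) + u * 4 ^ K [ZMOD (4 : ℤ) ^ (K + 1)]) : (ξ i).1 = 3 * K + u - 1 :=
  hξ.2 K u i hu hu' hi

theorem three_mul_cast (K : ℕ) : 3 * (K : ZMod 6) = 0 ∨ 3 * (K : ZMod 6) = 3 := by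
  rcases Nat.even_or_odd' K with ⟨j, rfl | rfl⟩
  · left
    push_cast
    have : (3 : ZMod 6) * (2 * j) = (3 * 2 : ZMod 6) * j := by ring
    rw [this, show (3 * 2 : ZMod 6) = 0 from rfl, zero_mul]
  · right
    push_cast
    have : (3 : ZMod 6) * (2 * j + 1) = (3 * 2 : ZMod 6) * j + 3 := by ring
    rw [this, show (3 * 2 : ZMod 6) = 0 from rfl, zero_mul, zero_add]

omit [DecidableEq Γ] in
theorem seg_block_c (ξ η : ℤ → Lt Γ) (K : ℕ) (i j : ℤ) (l : ℕ) :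
    seg ξ η i j (4 ^ K + l) = (ξ i, η j) :: (seg ξ η (i + 1) (j + 1) (4 ^ K - 1) ++
      seg ξ η (i + 4 ^ K) (j + 4 ^ K) l) := by
  have h1 : 4 ^ K = (4 ^ K - 1) + 1 := by
    have : 0 < 4 ^ K := by positivity
    omega
  rw [seg_add]
  conv_lhs => rw [h1, seg_succ]
  simp only [List.cons_append, Nat.add_sub_cancel]
  have h2 : (((4 ^ K - 1) + 1 : ℕ) : ℤ) = 4 ^ K := by
    rw [← h1]; push_cast; rfl
  rw [h2]

/-- the four blocks of a full cycle are fine: `i` is the position of `e1` on tape 1 (digit 1),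
`j` on tape 2 (digit 2) -/
theorem full_cycle (h : LegitZ S isL n ξ η) (hξ : Coord r ξ) (hη : Coord r' η) (K : ℕ) (i j : ℤ)
    (hi : i ≡ r (K + 1) + 4 ^ K [ZMOD (4 : ℤ) ^ (K + 1)])
    (hj : j ≡ r' (K + 1) + 2 * 4 ^ K [ZMOD (4 : ℤ) ^ (K + 1)])
    (hU : (ξ (i + 3 * 4 ^ K)).1 ≠ 3 * K) (hV : (η (j + 2 * 4 ^ K)).1 ≠ 3 * K + 2) :
    ∀ q : ℕ, q < 4 → OkBlock (ξ (i + q * 4 ^ K), η (j + q * 4 ^ K)) (3 * K)
      (seg ξ η (i + q * 4 ^ K + 1) (j + q * 4 ^ K + 1) (4 ^ K - 1)) := by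
  have hi0 : i ≡ r K [ZMOD (4 : ℤ) ^ K] := by
    have h1 := (hi.of_dvd (pow_dvd_pow 4 (Nat.le_succ K))).trans
      (Int.ModEq.add_right _ (hξ.1 K))
    refine h1.trans ?_
    rw [Int.modEq_iff_dvd]
    exact ⟨-1, by ring⟩
  have hj0 : j ≡ r' K [ZMOD (4 : ℤ) ^ K] := by
    have h1 := (hj.of_dvd (pow_dvd_pow 4 (Nat.le_succ K))).trans
      (Int.ModEq.add_right _ (hη.1 K))
    refine h1.trans ?_
    rw [Int.modEq_iff_dvd]
    exact ⟨-2, by ring⟩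
  have hiq : ∀ q : ℤ, i + q * 4 ^ K ≡ r K [ZMOD (4 : ℤ) ^ K] := by
    intro q
    refine Int.ModEq.trans ?_ hi0
    rw [Int.modEq_iff_dvd]
    exact ⟨-q, by ring⟩
  have hjq : ∀ q : ℤ, j + q * 4 ^ K ≡ r' K [ZMOD (4 : ℤ) ^ K] := by
    intro q
    refine Int.ModEq.trans ?_ hj0
    rw [Int.modEq_iff_dvd]
    exact ⟨-q, by ring⟩
  -- start letters
  have sξ : ∀ (a : ℤ) (u : ℕ), 1 ≤ u → u ≤ 3 → (4 : ℤ) ∣ (u : ℤ) - (a + 1) →
      (ξ (i + a * 4 ^ K)).1 = 3 * (K : ZMod 6) + u - 1 := by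
    intro a u hu hu' hd
    apply hξ.2 K u _ hu hu'
    refine (Int.ModEq.add_right (a * 4 ^ K) hi).trans ?_
    rw [Int.modEq_iff_dvd]
    obtain ⟨c, hc⟩ := hd
    refine ⟨c, ?_⟩
    have : (u : ℤ) = a + 1 + 4 * c := by linarith
    rw [this]; ring
  have sη : ∀ (a : ℤ) (u : ℕ), 1 ≤ u → u ≤ 3 → (4 : ℤ) ∣ (u : ℤ) - (a + 2) →
      (η (j + a * 4 ^ K)).1 = 3 * (K : ZMod 6) + u - 1 := by
    intro a u hu hu' hd
    apply hη.2 K u _ hu hu'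
    refine (Int.ModEq.add_right (a * 4 ^ K) hj).trans ?_
    rw [Int.modEq_iff_dvd]
    obtain ⟨c, hc⟩ := hd
    refine ⟨c, ?_⟩
    have : (u : ℤ) = a + 2 + 4 * c := by linarith
    rw [this]; ring
  by_contra hcon
  have hne : ¬ (OkBlock (ξ (i + 0 * 4 ^ K), η (j + 0 * 4 ^ K)) (3 * K)
        (seg ξ η (i + 0 * 4 ^ K + 1) (j + 0 * 4 ^ K + 1) (4 ^ K - 1)) ∧
      OkBlock (ξ (i + 1 * 4 ^ K), η (j + 1 * 4 ^ K)) (3 * K)
        (seg ξ η (i + 1 * 4 ^ K + 1) (j + 1 * 4 ^ K + 1) (4 ^ K - 1)) ∧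
      OkBlock (ξ (i + 2 * 4 ^ K), η (j + 2 * 4 ^ K)) (3 * K)
        (seg ξ η (i + 2 * 4 ^ K + 1) (j + 2 * 4 ^ K + 1) (4 ^ K - 1)) ∧
      OkBlock (ξ (i + 3 * 4 ^ K), η (j + 3 * 4 ^ K)) (3 * K)
        (seg ξ η (i + 3 * 4 ^ K + 1) (j + 3 * 4 ^ K + 1) (4 ^ K - 1))) := by
    rintro ⟨h0, h1, h2, h3⟩
    apply hcon
    intro q hq
    interval_cases q
    · exact_mod_cast h0
    · exact_mod_cast h1
    · exact_mod_cast h2
    · exact_mod_cast h3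
  have hseg : seg ξ η i j (4 ^ K + (4 ^ K + (4 ^ K + (4 ^ K + 1)))) =
      (ξ (i + 0 * 4 ^ K), η (j + 0 * 4 ^ K)) ::
        (seg ξ η (i + 0 * 4 ^ K + 1) (j + 0 * 4 ^ K + 1) (4 ^ K - 1) ++
      (ξ (i + 1 * 4 ^ K), η (j + 1 * 4 ^ K)) ::
        (seg ξ η (i + 1 * 4 ^ K + 1) (j + 1 * 4 ^ K + 1) (4 ^ K - 1) ++
      (ξ (i + 2 * 4 ^ K), η (j + 2 * 4 ^ K)) ::
        (seg ξ η (i + 2 * 4 ^ K + 1) (j + 2 * 4 ^ K + 1) (4 ^ K - 1) ++
      (ξ (i + 3 * 4 ^ K), η (j + 3 * 4 ^ K)) ::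
        (seg ξ η (i + 3 * 4 ^ K + 1) (j + 3 * 4 ^ K + 1) (4 ^ K - 1) ++
      [(ξ (i + 4 * 4 ^ K), η (j + 4 * 4 ^ K))])))) := by
    rw [seg_block_c, seg_block_c, seg_block_c, seg_block_c, seg_succ]
    have e0 : ∀ x : ℤ, x + 0 * 4 ^ K = x := by intro x; ring
    have e1 : ∀ x : ℤ, x + 1 * 4 ^ K = x + 4 ^ K := by intro x; ring
    have e2 : ∀ x : ℤ, x + 2 * 4 ^ K = x + 4 ^ K + 4 ^ K := by intro x; ring
    have e3 : ∀ x : ℤ, x + 3 * 4 ^ K = x + 4 ^ K + 4 ^ K + 4 ^ K := by intro x; ring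
    have e4 : ∀ x : ℤ, x + 4 * 4 ^ K = x + 4 ^ K + 4 ^ K + 4 ^ K + 4 ^ K := by intro x; ring
    simp only [e0, e1, e2, e3, e4]
    rfl
  apply h i j (4 ^ K + (4 ^ K + (4 ^ K + (4 ^ K + 1))))
  left
  right; right; left
  refine ⟨3 * (K : ZMod 6), three_mul_cast K, _, _, _, _, _, _, _, _, _, hseg,
    ⟨⟨?_, ?_⟩, ⟨?_, ?_⟩, ⟨?_, ?_⟩, ⟨?_, ?_⟩, ?_, ?_, ?_, ?_⟩, ⟨?_, ?_⟩, hne⟩
  · have := sξ 0 1 (by norm_num) (by norm_num) (by norm_num)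
    rw [this]; push_cast; ring
  · have := sη 0 2 (by norm_num) (by norm_num) (by norm_num)
    rw [this]; push_cast; ring
  · have := sξ 1 2 (by norm_num) (by norm_num) (by norm_num)
    rw [this]; push_cast; ring
  · have := sη 1 3 (by norm_num) (by norm_num) (by norm_num)
    rw [this]; push_cast; ring
  · have := sξ 2 3 (by norm_num) (by norm_num) (by norm_num)
    rw [this]; push_cast; ring
  · exact hV
  · exact hU
  · have := sη 3 1 (by norm_num) (by norm_num) (by norm_num)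
    rw [this]; push_cast; ring
  · exact block_BE hξ hη K _ _ (hiq 0) (hjq 0)
  · exact block_BE hξ hη K _ _ (hiq 1) (hjq 1)
  · exact block_BE hξ hη K _ _ (hiq 2) (hjq 2)
  · exact block_BE hξ hη K _ _ (hiq 3) (hjq 3)
  · have := sξ 4 1 (by norm_num) (by norm_num) (by norm_num)
    rw [this]; push_cast; ring
  · have := sη 4 2 (by norm_num) (by norm_num) (by norm_num)
    rw [this]; push_cast; ring

end Star60
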