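import Pool.Agent.Star60.MonLang

/-!
MP_1b5989_lc, module FAITH: the valid presentations present exactly the recognizable languages.
-/

namespace Star60

theorem recognizable_lang {r : ℕ} (I : Fin r → Fin r → Prop) (hsymm : ∀ x y, I x y → I y x)
    (P : Pres r) (h : P.Valid I) : Recognizable (P.lang I) := by
  obtain ⟨S, h1, h2, h3, _, _, _, _, _, h4⟩ := MConv.presents I hsymm P h
  exact ⟨S, h1, h2, h3, h4⟩

theorem faith_tr_cons {r : ℕ} (I : Fin r → Fin r → Prop) (a : Fin r) (w : List (Fin r)) :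
    tr I (a :: w) = tr I [a] * tr I w := rfl

theorem faith_tr_comm {r : ℕ} (I : Fin r → Fin r → Prop) {a b : Fin r} (h : I a b) :
    tr I [a] * tr I [b] = tr I [b] * tr I [a] := by
  change ((FreeMonoid.of a * FreeMonoid.of b : FreeMonoid (Fin r)) : (traceCon I).Quotient) =
    ((FreeMonoid.of b * FreeMonoid.of a : FreeMonoid (Fin r)) : (traceCon I).Quotient)
  rw [Con.eq]
  exact ConGen.Rel.of _ _ ⟨a, b, h, rfl, rfl⟩

theorem exists_presentation {r : ℕ} (I : Fin r → Fin r → Prop) (L : Set (Trace I))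
    (h : Recognizable L) : ∃ P : Pres r, P.Valid I ∧ P.lang I = L := by
  classical
  obtain ⟨S, hS, hfin, f, hL⟩ := h
  obtain ⟨n, ⟨e⟩⟩ := Finite.exists_equiv_fin S
  let T : List (ℕ × Fin r × ℕ) := (List.finRange n).flatMap fun (i : Fin n) =>
    (List.finRange r).map fun (a : Fin r) => ((i : ℕ), a, ((e (e.symm i * f (tr I [a])) : Fin n) : ℕ))
  let F : List ℕ := ((List.finRange n).filter (fun (i : Fin n) => decide (e.symm i ∈ f '' L))).map
    (fun (i : Fin n) => (i : ℕ))
  have hT : ∀ p a q, (p, a, q) ∈ T ↔ ∃ s : S, p = (e s : ℕ) ∧ q = (e (s * f (tr I [a])) : ℕ) := by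
    intro p a q
    simp only [T, List.mem_flatMap, List.mem_map, List.mem_finRange, true_and, Prod.mk.injEq]
    constructor
    · rintro ⟨i, b, rfl, rfl, rfl⟩
      exact ⟨e.symm i, by simp, rfl⟩
    · rintro ⟨s, rfl, rfl⟩
      exact ⟨e s, a, rfl, rfl, by simp⟩
  have hF : ∀ s : S, (e s : ℕ) ∈ F ↔ s ∈ f '' L := by
    intro s
    simp only [F, List.mem_map, List.mem_filter, List.mem_finRange, true_and, decide_eq_true_eq]
    constructor
    · rintro ⟨i, hi, he⟩
      have : i = e s := Fin.ext he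
      rw [this, e.symm_apply_apply] at hi
      exact hi
    · intro hs
      exact ⟨e s, by rwa [e.symm_apply_apply], rfl⟩
  have hF' : ∀ q ∈ F, ∃ s : S, q = (e s : ℕ) := by
    intro q hq
    simp only [F, List.mem_map] at hq
    obtain ⟨i, _, rfl⟩ := hq
    exact ⟨e.symm i, by simp⟩
  have hrun : ∀ (w : List (Fin r)) (s : S) (q : ℕ),
      RunL T (e s : ℕ) w q ↔ q = (e (s * f (tr I w)) : ℕ) := by
    intro w
    induction w with
    | nil =>
      intro s q
      have : tr I ([] : List (Fin r)) = 1 := rfl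
      simp only [RunL, this, map_one, mul_one]
      exact eq_comm
    | cons a w ih =>
      intro s q
      simp only [RunL]
      rw [faith_tr_cons, map_mul f, ← mul_assoc]
      constructor
      · rintro ⟨p', hp, hr⟩
        rw [hT] at hp
        obtain ⟨s', h1, rfl⟩ := hp
        have : s = s' := e.injective (Fin.ext h1)
        subst this
        exact (ih _ _).1 hr
      · intro hq
        exact ⟨_, (hT _ _ _).2 ⟨s, rfl, rfl⟩, (ih _ _).2 hq⟩
  refine ⟨(T, (e 1 : ℕ), F), ⟨?_, ?_⟩, ?_⟩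
  · intro p a q q' h1 h2
    change (p, a, q) ∈ T at h1
    change (p, a, q') ∈ T at h2
    rw [hT] at h1 h2
    obtain ⟨s, rfl, rfl⟩ := h1
    obtain ⟨s', h3, rfl⟩ := h2
    have : s = s' := e.injective (Fin.ext h3)
    rw [this]
  · intro p a b q s hab h1 h2
    change (p, a, q) ∈ T at h1
    change (q, b, s) ∈ T at h2
    rw [hT] at h1 h2
    obtain ⟨u, rfl, rfl⟩ := h1
    obtain ⟨v, h3, rfl⟩ := h2
    have h4 : u * f (tr I [a]) = v := e.injective (Fin.ext h3)
    subst h4
    refine ⟨_, (hT _ _ _).2 ⟨u, rfl, rfl⟩, ?_⟩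
    refine (hT _ _ _).2 ⟨u * f (tr I [b]), rfl, ?_⟩
    rw [mul_assoc, mul_assoc, ← map_mul f, ← map_mul f, faith_tr_comm I hab]
  · ext t
    constructor
    · rintro ⟨w, q, hq, hr, rfl⟩
      change q ∈ F at hq
      change RunL T (e 1 : ℕ) w q at hr
      rw [hrun, one_mul] at hr
      subst hr
      rw [hF] at hq
      rw [hL]
      exact hq
    · intro ht
      obtain ⟨w, rfl⟩ := MConv.tr_surj t
      refine ⟨w, (e (1 * f (tr I w)) : ℕ), ?_, (hrun _ _ _).2 rfl, rfl⟩
      change _ ∈ F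
      rw [hF, one_mul]
      exact ⟨_, ht, rfl⟩

end Star60
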