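import Pool.Agent.Star60.MonDef

/-!
MP_1b5989_lc, module MONCOMP: the translation is computable.
-/

namespace Star60

namespace MConv

open Primrec

variable {α β : Type} [Primcodable α] [Primcodable β]

theorem primrec_find {f : α → List β} {p : α → β → Bool} (hf : Primrec f) (hp : Primrec₂ p) :
    Primrec (fun a => (f a).find? (p a)) := by
  have h : Primrec (fun a => ((f a).filterMap
      (fun b => bif p a b then some b else none)).head?) := by
    refine Primrec.list_head?.comp (Primrec.listFilterMap hf ?_)
    exact Primrec.cond hp (Primrec.option_some.comp Primrec.snd) (Primrec.const none)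
  refine h.of_eq (fun a => ?_)
  induction f a with
  | nil => rfl
  | cons b l ih =>
    cases hb : p a b
    · rw [List.filterMap_cons_none (by simp [hb]), List.find?_cons_of_neg (by simp [hb])]
      exact ih
    · rw [List.filterMap_cons_some (b := b) (by simp [hb]), List.find?_cons_of_pos hb]
      rfl

theorem filterMap_bif {γ δ : Type} (p : γ → Bool) (e : γ → δ) (l : List γ) :
    l.filterMap (fun f => bif p f then some (e f) else none) = (l.filter p).map e := by
  induction l with
  | nil => rfl
  | cons f l ih =>
    cases hb : p f
    · rw [List.filterMap_cons_none (by simp [hb]), List.filter_cons_of_neg (by simp [hb])]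
      exact ih
    · rw [List.filterMap_cons_some (b := e f) (by simp [hb]),
        List.filter_cons_of_pos hb, List.map_cons, ih]

theorem primrec_pow : Primrec₂ (fun a b : ℕ => a ^ b) := by
  have h : Primrec (fun x : ℕ × ℕ => (Nat.rec 1 (fun _ IH => IH * x.1) x.2 : ℕ)) := by
    refine Primrec.nat_rec' (f := fun x : ℕ × ℕ => x.2) (g := fun _ => 1)
      (h := fun x y => y.2 * x.1) Primrec.snd (Primrec.const 1) ?_
    exact Primrec.nat_mul.comp (Primrec.snd.comp Primrec.snd) (Primrec.fst.comp Primrec.fst)
  refine h.of_eq (fun x => ?_)
  obtain ⟨a, b⟩ := x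
  show (Nat.rec 1 (fun _ IH => IH * a) b : ℕ) = a ^ b
  induction b with
  | zero => rfl
  | succ b ih => rw [pow_succ, ← ih]

theorem primrec_elem {f : α → List β} {g : α → β} [DecidableEq β] (hf : Primrec f)
    (hg : Primrec g) : Primrec (fun a => (f a).elem (g a)) := by
  have h : Primrec (fun a => decide ((f a).idxOf (g a) < (f a).length)) := by
    refine PrimrecPred.decide ?_
    exact Primrec.nat_lt.comp (Primrec.list_idxOf.comp hg hf) (Primrec.list_length.comp hf)
  refine h.of_eq (fun a => ?_)
  rw [List.elem_eq_mem]
  congr 1
  exact propext List.idxOf_lt_length_iff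

/-- a formula for `val` -/
theorem val_eq (Q : List ℕ) (f : List (Option ℕ)) (q : ℕ) :
    val Q f q = if Q.idxOf q < Q.length then (f[Q.idxOf q]?).bind id else none := by
  unfold val
  induction Q generalizing f with
  | nil => simp
  | cons a Q ih =>
    cases f with
    | nil => simp
    | cons b f =>
      by_cases h : a = q
      · subst h
        simp
      · have ih := ih f
        rw [List.zip_cons_cons, List.find?_cons_of_neg (by simp [h]), ih,
          List.idxOf_cons_ne _ h]
        simp

theorem primrec_val {Q : α → List ℕ} {f : α → List (Option ℕ)} {q : α → ℕ} (hQ : Primrec Q)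
    (hf : Primrec f) (hq : Primrec q) : Primrec (fun a => val (Q a) (f a) (q a)) := by
  have h : Primrec (fun a => if (Q a).idxOf (q a) < (Q a).length then
      ((f a)[(Q a).idxOf (q a)]?).bind id else none) := by
    refine Primrec.ite ?_ ?_ (Primrec.const none)
    · exact Primrec.nat_lt.comp (Primrec.list_idxOf.comp hq hQ) (Primrec.list_length.comp hQ)
    · refine Primrec.option_bind ?_ ?_
      · exact Primrec.list_getElem?.comp hf (Primrec.list_idxOf.comp hq hQ)
      · exact Primrec.snd
  exact h.of_eq (fun a => (val_eq _ _ _).symm)

theorem primrec_comp {Q : α → List ℕ} {f g : α → List (Option ℕ)} (hQ : Primrec Q)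
    (hf : Primrec f) (hg : Primrec g) : Primrec (fun a => comp (Q a) (f a) (g a)) := by
  refine Primrec.list_map hf ?_
  refine Primrec.option_bind Primrec.snd ?_
  exact primrec_val (hQ.comp (Primrec.fst.comp Primrec.fst))
    (hg.comp (Primrec.fst.comp Primrec.fst)) Primrec.snd

theorem primrec_states {r : ℕ} : Primrec (fun P : Pres r => states P) := by
  refine Primrec.list_cons.comp (Primrec.fst.comp Primrec.snd) ?_
  refine Primrec.list_append.comp ?_ ?_
  · exact Primrec.list_map Primrec.fst (Primrec.fst.comp Primrec.snd)
  · exact Primrec.list_map Primrec.fst (Primrec.snd.comp (Primrec.snd.comp Primrec.snd))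

theorem primrec_img {r : ℕ} : Primrec₂ (fun (P : Pres r) (a : Fin r) => img P a) := by
  refine Primrec.list_map (primrec_states.comp Primrec.fst) ?_
  refine Primrec.option_map ?_ (Primrec.snd.comp (Primrec.snd.comp Primrec.snd))
  refine primrec_find (Primrec.fst.comp (Primrec.fst.comp Primrec.fst)) ?_
  refine Primrec.and.comp ?_ ?_
  · refine PrimrecPred.decide ?_
    exact Primrec.eq.comp (Primrec.fst.comp Primrec.snd) (Primrec.snd.comp Primrec.fst)
  · refine PrimrecPred.decide ?_
    exact Primrec.eq.comp (Primrec.fst.comp (Primrec.snd.comp Primrec.snd))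
      (Primrec.snd.comp (Primrec.fst.comp Primrec.fst))

theorem elems_eq {r : ℕ} (P : Pres r) (k : ℕ) :
    elems P k = Nat.rec [(states P).map some] (fun _ IH => IH ++ IH.flatMap
      (fun f => (List.finRange r).map (fun a => comp (states P) f (img P a)))) k := by
  induction k with
  | zero => rfl
  | succ k ih => rw [elems, ih]

theorem primrec_elems {r : ℕ} : Primrec₂ (fun (P : Pres r) (k : ℕ) => elems P k) := by
  have h : Primrec (fun x : Pres r × ℕ => (Nat.rec [(states x.1).map some]
      (fun _ IH => IH ++ IH.flatMap
      (fun f => (List.finRange r).map (fun a => comp (states x.1) f (img x.1 a)))) x.2 :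
        List (List (Option ℕ)))) := by
    refine Primrec.nat_rec' (f := fun x : Pres r × ℕ => x.2)
      (g := fun x => [(states x.1).map some])
      (h := fun x y => y.2 ++ y.2.flatMap
        (fun f => (List.finRange r).map (fun a => comp (states x.1) f (img x.1 a))))
      Primrec.snd ?_ ?_
    · refine Primrec.list_cons.comp ?_ (Primrec.const [])
      exact Primrec.list_map (primrec_states.comp Primrec.fst)
        (Primrec.option_some.comp Primrec.snd)
    · refine Primrec.list_append.comp (Primrec.snd.comp Primrec.snd) ?_
      refine Primrec.list_flatMap (Primrec.snd.comp Primrec.snd) ?_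
      refine Primrec.list_map (Primrec.const _) ?_
      refine primrec_comp ?_ ?_ ?_
      · exact primrec_states.comp (Primrec.fst.comp (Primrec.fst.comp
          (Primrec.fst.comp Primrec.fst)))
      · exact Primrec.snd.comp Primrec.fst
      · exact primrec_img.comp (Primrec.fst.comp (Primrec.fst.comp
          (Primrec.fst.comp Primrec.fst))) Primrec.snd
  exact h.of_eq (fun x => (elems_eq x.1 x.2).symm)

theorem primrec_allE {r : ℕ} : Primrec (fun P : Pres r => allE P) := by
  have hl : Primrec (fun P : Pres r => (states P).length) :=
    Primrec.list_length.comp primrec_states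
  exact primrec_elems.comp Primrec.id (primrec_pow.comp (Primrec.succ.comp hl) hl)

theorem primrec_conv {r : ℕ} : Primrec (fun P : Pres r => conv P) := by
  unfold conv
  refine Primrec.pair ?_ (Primrec.pair ?_ ?_)
  · refine Primrec.list_flatMap primrec_allE ?_
    refine Primrec.list_map (primrec_allE.comp Primrec.fst) ?_
    refine Primrec.pair (Primrec.encode.comp (Primrec.snd.comp Primrec.fst))
      (Primrec.pair (Primrec.encode.comp Primrec.snd) (Primrec.encode.comp ?_))
    exact primrec_comp (primrec_states.comp (Primrec.fst.comp Primrec.fst))
      (Primrec.snd.comp Primrec.fst) Primrec.snd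
  · refine Primrec.list_map (Primrec.const _) ?_
    exact Primrec.pair Primrec.snd (Primrec.encode.comp primrec_img)
  · have h : Primrec (fun P : Pres r => (allE P).filterMap (fun f =>
        bif (match val (states P) f P.2.1 with
          | none => false
          | some q => P.2.2.elem q) then some (Encodable.encode f) else none)) := by
      refine Primrec.listFilterMap primrec_allE ?_
      refine Primrec.cond ?_ (Primrec.option_some.comp (Primrec.encode.comp Primrec.snd))
        (Primrec.const none)
      have h1 : Primrec (fun x : Pres r × List (Option ℕ) =>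
          (Option.casesOn (val (states x.1) x.2 x.1.2.1) false
            (fun q => x.1.2.2.elem q) : Bool)) := by
        refine Primrec.option_casesOn ?_ (Primrec.const false) ?_
        · exact primrec_val (primrec_states.comp Primrec.fst) Primrec.snd
            (Primrec.fst.comp (Primrec.snd.comp Primrec.fst))
        · exact primrec_elem (Primrec.snd.comp (Primrec.snd.comp (Primrec.fst.comp Primrec.fst)))
            Primrec.snd
      refine h1.of_eq (fun x => ?_)
      cases val (states x.1) x.2 x.1.2.1 <;> rfl
    exact h.of_eq (fun P => filterMap_bif _ _ _)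

end MConv

theorem MConv.computable_conv {r : ℕ} : Computable (MConv.conv (r := r)) :=
  MConv.primrec_conv.to_comp

end Star60
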