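import Pool.Agent.Star60.MonDef

/-!
MP_1b5989_lc, module MONLANG: the translated presentation is correct.
Let `S` be the range of the homomorphism from the trace monoid to the partial functions on the
states; `ν s` = code of the list of values along `states P`.
-/

namespace Star60

namespace MConv

variable {r : ℕ}

/-- one step of the partial transition function -/
def stp (P : Pres r) (q : ℕ) (a : Fin r) : Option ℕ :=
  (P.1.find? (fun e => decide (e.1 = q) && decide (e.2.1 = a))).map (fun e => e.2.2)

/-- the partial function of a word -/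
def rn (P : Pres r) : ℕ → List (Fin r) → Option ℕ
  | q, [] => some q
  | q, a :: w => (stp P q a).bind (fun q' => rn P q' w)

/-- the list of values of the partial function of a word -/
def act (P : Pres r) (w : List (Fin r)) : List (Option ℕ) := (states P).map (fun q => rn P q w)

theorem rn_append (P : Pres r) (u v : List (Fin r)) (q : ℕ) :
    rn P q (u ++ v) = (rn P q u).bind (fun q' => rn P q' v) := by
  induction u generalizing q with
  | nil => simp [rn]
  | cons a u ih =>
    simp only [List.cons_append, rn]
    cases h : stp P q a with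
    | none => simp
    | some q' => simp [ih]

theorem stp_mem {P : Pres r} {q q' : ℕ} {a : Fin r} (h : stp P q a = some q') :
    (q, a, q') ∈ P.1 := by
  unfold stp at h
  rw [Option.map_eq_some_iff] at h
  obtain ⟨e, he, rfl⟩ := h
  have h1 := List.find?_some he
  have h2 := List.mem_of_find?_eq_some he
  simp only [Bool.and_eq_true, decide_eq_true_eq] at h1
  obtain ⟨rfl, rfl⟩ := h1
  exact h2

theorem stp_eq {P : Pres r} {I : Fin r → Fin r → Prop} (hV : P.Valid I) {q q' : ℕ} {a : Fin r} :
    stp P q a = some q' ↔ (q, a, q') ∈ P.1 := by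
  refine ⟨stp_mem, fun h => ?_⟩
  cases h1 : stp P q a with
  | none =>
    exfalso
    unfold stp at h1
    rw [Option.map_eq_none_iff, List.find?_eq_none] at h1
    exact h1 _ h (by simp)
  | some s => rw [hV.det _ _ _ _ (stp_mem h1) h]

theorem rn_eq {P : Pres r} {I : Fin r → Fin r → Prop} (hV : P.Valid I) {q q' : ℕ}
    {w : List (Fin r)} : rn P q w = some q' ↔ RunL P.1 q w q' := by
  induction w generalizing q with
  | nil => simp [rn, RunL]
  | cons a w ih =>
    simp only [rn, RunL, Option.bind_eq_some_iff]
    constructor
    · rintro ⟨s, hs, h⟩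
      exact ⟨s, stp_mem hs, ih.1 h⟩
    · rintro ⟨s, hs, h⟩
      exact ⟨s, (stp_eq hV).2 hs, ih.2 h⟩

theorem stp_states {P : Pres r} {q q' : ℕ} {a : Fin r} (h : stp P q a = some q') :
    q' ∈ states P := by
  have := stp_mem h
  unfold states
  simp only [List.mem_cons, List.mem_append, List.mem_map]
  exact Or.inr (Or.inr ⟨_, this, rfl⟩)

theorem rn_states {P : Pres r} {q q' : ℕ} {w : List (Fin r)} (hq : q ∈ states P)
    (h : rn P q w = some q') : q' ∈ states P := by
  induction w generalizing q with
  | nil =>
    simp only [rn, Option.some.injEq] at h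
    exact h ▸ hq
  | cons a w ih =>
    simp only [rn, Option.bind_eq_some_iff] at h
    obtain ⟨s, hs, h⟩ := h
    exact ih (stp_states hs) h

theorem val_map (Q : List ℕ) (f : ℕ → Option ℕ) {q : ℕ} (hq : q ∈ Q) :
    val Q (Q.map f) q = f q := by
  unfold val
  induction Q with
  | nil => simp at hq
  | cons a Q ih =>
    simp only [List.map_cons, List.zip_cons_cons, List.find?_cons]
    by_cases h : a = q
    · subst h
      simp
    · simp only [h, decide_false]
      exact ih (by
        rcases List.mem_cons.1 hq with h' | h'
        · exact absurd h'.symm h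
        · exact h')

theorem act_append (P : Pres r) (u v : List (Fin r)) :
    comp (states P) (act P u) (act P v) = act P (u ++ v) := by
  change ((states P).map (fun q => rn P q u)).map
    (fun o => o.bind fun q => val (states P) (act P v) q) =
    (states P).map (fun q => rn P q (u ++ v))
  rw [List.map_map]
  apply List.map_congr_left
  intro q hq
  simp only [Function.comp]
  rw [rn_append]
  cases h : rn P q u with
  | none => simp
  | some s =>
    simp only [Option.bind_some]
    exact val_map _ _ (rn_states hq h)

theorem act_single (P : Pres r) (a : Fin r) : img P a = act P [a] := by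
  unfold img act
  apply List.map_congr_left
  intro q _
  simp only [rn]
  change stp P q a = _
  cases stp P q a <;> simp

theorem act_nil (P : Pres r) : (states P).map some = act P [] := by
  unfold act
  simp [rn]

theorem elems_sub (P : Pres r) (k : ℕ) {f : List (Option ℕ)} (h : f ∈ elems P k) :
    ∃ w, f = act P w := by
  induction k generalizing f with
  | zero =>
    simp only [elems, List.mem_singleton] at h
    exact ⟨[], by rw [h, act_nil]⟩
  | succ k ih =>
    simp only [elems, List.mem_append, List.mem_flatMap, List.mem_map] at h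
    rcases h with h | ⟨g, hg, a, _, rfl⟩
    · exact ih h
    · obtain ⟨w, rfl⟩ := ih hg
      exact ⟨w ++ [a], by rw [act_single, act_append]⟩

theorem elems_mono (P : Pres r) {k l : ℕ} (h : k ≤ l) {f : List (Option ℕ)}
    (hf : f ∈ elems P k) : f ∈ elems P l := by
  induction h with
  | refl => exact hf
  | step _ ih =>
    simp only [elems, List.mem_append]
    exact Or.inl ih

theorem elems_len (P : Pres r) (w : List (Fin r)) : act P w ∈ elems P w.length := by
  induction w using List.reverseRecOn with
  | nil => simp [elems, act_nil]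
  | append_singleton w a ih =>
    rw [List.length_append, List.length_singleton]
    simp only [elems, List.mem_append, List.mem_flatMap, List.mem_map]
    exact Or.inr ⟨_, ih, a, List.mem_finRange a, by rw [act_single, act_append]⟩

/-- finite code of the partial function of a word -/
def fin (P : Pres r) (w : List (Fin r)) (i : Fin (states P).length) :
    Option (Fin (states P).length) :=
  match h : rn P ((states P).get i) w with
  | none => none
  | some q => some ⟨(states P).idxOf q, List.idxOf_lt_length_iff.2
      (rn_states (List.get_mem _ _) h)⟩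

theorem fin_get (P : Pres r) (w : List (Fin r)) (i : Fin (states P).length) :
    (fin P w i).map (states P).get = rn P ((states P).get i) w := by
  unfold fin
  split
  · next h => exact h.symm
  · next q h =>
    refine Eq.trans ?_ h.symm
    simp

theorem act_of_fin {P : Pres r} {u v : List (Fin r)} (h : fin P u = fin P v) :
    act P u = act P v := by
  unfold act
  apply List.map_congr_left
  intro q hq
  obtain ⟨i, hi⟩ := List.get_of_mem hq
  rw [← hi, ← fin_get, ← fin_get, h]

theorem exists_short (P : Pres r) (w : List (Fin r)) :
    ∃ v : List (Fin r), v.length ≤ ((states P).length + 1) ^ (states P).length ∧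
      act P v = act P w := by
  induction hn : w.length using Nat.strong_induction_on generalizing w with
  | _ n ih =>
    by_cases hle : w.length ≤ ((states P).length + 1) ^ (states P).length
    · exact ⟨w, hle, rfl⟩
    · rw [not_le] at hle
      let f : Fin (((states P).length + 1) ^ (states P).length + 1) →
        (Fin (states P).length → Option (Fin (states P).length)) := fun i => fin P (w.take i)
      obtain ⟨i, j, hij, hfe⟩ := Fintype.exists_ne_map_eq_of_card_lt f (by simp)
      wlog hlt : (i : ℕ) < j generalizing i j with H
      · exact H j i hij.symm hfe.symm (by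
          have : (i : ℕ) ≠ j := fun h => hij (Fin.ext h)
          omega)
      have hj : (j : ℕ) ≤ w.length := by omega
      have h1 : act P (w.take i ++ w.drop j) = act P w := by
        rw [← act_append, act_of_fin hfe, act_append, List.take_append_drop]
      obtain ⟨v, hv, hv'⟩ := ih (w.take i ++ w.drop j).length (by
        simp only [List.length_append, List.length_take, List.length_drop]
        omega) _ rfl
      exact ⟨v, hv, hv'.trans h1⟩

theorem mem_allE (P : Pres r) {f : List (Option ℕ)} : f ∈ allE P ↔ ∃ w, f = act P w := by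
  constructor
  · exact elems_sub P _
  · rintro ⟨w, rfl⟩
    obtain ⟨v, hv, he⟩ := exists_short P w
    rw [← he]
    exact elems_mono P hv (elems_len P v)

/-- the transition monoid, as a type of lists of values -/
def TM (P : Pres r) : Type := {f : List (Option ℕ) // ∃ w, f = act P w}

theorem comp_mem {P : Pres r} {f g : List (Option ℕ)} (hf : ∃ w, f = act P w)
    (hg : ∃ w, g = act P w) : ∃ w, comp (states P) f g = act P w := by
  obtain ⟨u, rfl⟩ := hf
  obtain ⟨v, rfl⟩ := hg
  exact ⟨u ++ v, act_append P u v⟩

instance (P : Pres r) : Monoid (TM P) where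
  mul f g := ⟨comp (states P) f.1 g.1, comp_mem f.2 g.2⟩
  one := ⟨(states P).map some, [], act_nil P⟩
  mul_assoc := by
    rintro ⟨f, u, rfl⟩ ⟨g, v, rfl⟩ ⟨k, w, rfl⟩
    apply Subtype.ext
    change comp _ (comp _ _ _) _ = comp _ _ (comp _ _ _)
    rw [act_append, act_append, act_append, act_append, List.append_assoc]
  one_mul := by
    rintro ⟨f, u, rfl⟩
    apply Subtype.ext
    change comp _ ((states P).map some) _ = _
    rw [act_nil, act_append, List.nil_append]
  mul_one := by
    rintro ⟨f, u, rfl⟩
    apply Subtype.ext
    change comp _ _ ((states P).map some) = _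
    rw [act_nil, act_append, List.append_nil]

instance (P : Pres r) : Finite (TM P) := by
  have : {f : List (Option ℕ) | ∃ w, f = act P w}.Finite := by
    apply (List.finite_toSet (allE P)).subset
    intro f hf
    exact (mem_allE P).2 hf
  exact this.to_subtype

/-- the homomorphism on words -/
def hw (P : Pres r) : FreeMonoid (Fin r) →* TM P where
  toFun w := ⟨act P w.toList, _, rfl⟩
  map_one' := by
    apply Subtype.ext
    exact (act_nil P).symm
  map_mul' u v := by
    apply Subtype.ext
    exact (act_append P _ _).symm

theorem hw_le {I : Fin r → Fin r → Prop} (hsymm : ∀ x y, I x y → I y x) {P : Pres r}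
    (hV : P.Valid I) : traceCon I ≤ Con.ker (hw P) := by
  unfold traceCon
  rw [Con.conGen_le]
  rintro _ _ ⟨a, b, hab, rfl, rfl⟩
  change hw P _ = hw P _
  apply Subtype.ext
  change act P [a, b] = act P [b, a]
  unfold act
  apply List.map_congr_left
  intro q _
  have key : ∀ x y : Fin r, I x y → ∀ s, rn P q [x, y] = some s → rn P q [y, x] = some s := by
    intro x y hxy s hs
    rw [rn_eq hV] at hs ⊢
    obtain ⟨q1, h1, s', h2, rfl⟩ := hs
    obtain ⟨q', h3, h4⟩ := hV.diamond _ _ _ _ _ hxy h1 h2
    exact ⟨q', h3, s', h4, rfl⟩
  cases h1 : rn P q [a, b] with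
  | none =>
    cases h2 : rn P q [b, a] with
    | none => rfl
    | some s => rw [key b a (hsymm _ _ hab) s h2] at h1; exact absurd h1 (by simp)
  | some s => rw [key a b hab s h1]

/-- the homomorphism on traces -/
def ht {I : Fin r → Fin r → Prop} (hsymm : ∀ x y, I x y → I y x) {P : Pres r}
    (hV : P.Valid I) : Trace I →* TM P := (traceCon I).lift (hw P) (hw_le hsymm hV)

theorem ht_tr {I : Fin r → Fin r → Prop} (hsymm : ∀ x y, I x y → I y x) {P : Pres r}
    (hV : P.Valid I) (w : List (Fin r)) : (ht hsymm hV (tr I w)).1 = act P w := by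
  unfold ht tr
  rw [Con.lift_coe]
  rfl

theorem tr_surj {I : Fin r → Fin r → Prop} (t : Trace I) : ∃ w, t = tr I w := by
  obtain ⟨w, rfl⟩ := Con.mk'_surjective (c := traceCon I) t
  exact ⟨w.toList, rfl⟩

theorem start_mem (P : Pres r) : P.2.1 ∈ states P := by
  unfold states
  exact List.mem_cons_self

theorem mem_lang {I : Fin r → Fin r → Prop} (hsymm : ∀ x y, I x y → I y x) {P : Pres r}
    (hV : P.Valid I) (w : List (Fin r)) :
    tr I w ∈ P.lang I ↔ ∃ q ∈ P.2.2, rn P P.2.1 w = some q := by
  constructor
  · rintro ⟨w', q, hq, hr, he⟩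
    refine ⟨q, hq, ?_⟩
    rw [← rn_eq hV] at hr
    have h1 : act P w = act P w' := by
      rw [← ht_tr hsymm hV w, ← ht_tr hsymm hV w', he]
    have h2 := val_map (states P) (fun q => rn P q w) (start_mem P)
    have h3 := val_map (states P) (fun q => rn P q w') (start_mem P)
    change val (states P) (act P w) _ = _ at h2
    change val (states P) (act P w') _ = _ at h3
    rw [← h2, h1, h3, hr]
  · rintro ⟨q, hq, hr⟩
    exact ⟨w, q, hq, (rn_eq hV).1 hr, rfl⟩

end MConv

theorem MConv.presents {r : ℕ} (I : Fin r → Fin r → Prop) (hsymm : ∀ x y, I x y → I y x)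
    (P : Pres r) (h : P.Valid I) : (MConv.conv P).Presents I (P.lang I) := by
  refine ⟨MConv.TM P, inferInstance, inferInstance, MConv.ht hsymm h,
    fun s => Encodable.encode s.1, ?_, ?_, ?_, ?_, ?_⟩
  · intro s t hst
    exact Subtype.ext (Encodable.encode_injective hst)
  · intro x y z
    simp only [MConv.conv, List.mem_flatMap, List.mem_map, Prod.mk.injEq]
    constructor
    · rintro ⟨f, hf, g, hg, rfl, rfl, rfl⟩
      exact ⟨⟨f, (MConv.mem_allE P).1 hf⟩, ⟨g, (MConv.mem_allE P).1 hg⟩, rfl, rfl, rfl⟩
    · rintro ⟨s, t, rfl, rfl, rfl⟩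
      exact ⟨s.1, (MConv.mem_allE P).2 s.2, t.1, (MConv.mem_allE P).2 t.2, rfl, rfl, rfl⟩
  · intro a x
    simp only [MConv.conv, List.mem_map, Prod.mk.injEq]
    rw [MConv.ht_tr, ← MConv.act_single]
    constructor
    · rintro ⟨b, _, rfl, rfl⟩
      rfl
    · rintro rfl
      exact ⟨a, List.mem_finRange a, rfl, rfl⟩
  · intro x
    simp only [MConv.conv, List.mem_map, List.mem_filter]
    have key : ∀ w, (match MConv.val (MConv.states P) (MConv.act P w) P.2.1 with
      | none => false
      | some q => P.2.2.elem q) = true ↔ tr I w ∈ P.lang I := by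
      intro w
      rw [MConv.mem_lang hsymm h]
      have h2 := MConv.val_map (MConv.states P) (fun q => MConv.rn P q w) (MConv.start_mem P)
      change MConv.val (MConv.states P) (MConv.act P w) _ = _ at h2
      rw [h2]
      cases hr : MConv.rn P P.2.1 w with
      | none => simp
      | some q => simp
    constructor
    · rintro ⟨f, ⟨hf, hf'⟩, rfl⟩
      obtain ⟨w, rfl⟩ := (MConv.mem_allE P).1 hf
      refine ⟨tr I w, (key w).1 hf', ?_⟩
      rw [MConv.ht_tr]
    · rintro ⟨t, ht, rfl⟩
      obtain ⟨w, rfl⟩ := MConv.tr_surj t
      refine ⟨_, ⟨(MConv.mem_allE P).2 (MConv.ht hsymm h (tr I w)).2, ?_⟩, rfl⟩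
      rw [MConv.ht_tr]
      exact (key w).2 ht
  · ext t
    constructor
    · intro ht
      exact ⟨t, ht, rfl⟩
    · rintro ⟨t', ht', he⟩
      obtain ⟨w, rfl⟩ := MConv.tr_surj t
      obtain ⟨w', rfl⟩ := MConv.tr_surj t'
      rw [MConv.mem_lang hsymm h] at ht' ⊢
      have h1 : MConv.act P w' = MConv.act P w := by
        rw [← MConv.ht_tr hsymm h, ← MConv.ht_tr hsymm h, he]
      obtain ⟨q, hq, hr⟩ := ht'
      refine ⟨q, hq, ?_⟩
      have h2 := MConv.val_map (MConv.states P) (fun q => MConv.rn P q w) (MConv.start_mem P)
      have h3 := MConv.val_map (MConv.states P) (fun q => MConv.rn P q w') (MConv.start_mem P)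
      change MConv.val (MConv.states P) (MConv.act P w) _ = _ at h2
      change MConv.val (MConv.states P) (MConv.act P w') _ = _ at h3
      rw [← h2, ← h1, h3, hr]

end Star60
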