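import Pool.Agent.Star60.Cycle
import Pool.Agent.Star60.Base

/-!
MP_1b5989_lc, module PARENT: the parent letters are right.  See blueprint 1B (Parent).
Induction on `k`, for both words simultaneously.
-/

namespace Star60

section
variable {Γ : Type} {ξ η : ℤ → Lt Γ} {r r' : ℕ → ℤ}

theorem Coord.pc (hξ : Coord r ξ) (L : ℕ) : PC L (r L) ξ := by
  intro k u t hk hu hu' ht
  exact hξ.2 k u t hu hu' (ht.trans ((hξ.compat (by omega)).add_right _))

/-- parent property at one level -/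
def POK (k : ℕ) (r : ℕ → ℤ) (ξ : ℤ → Lt Γ) : Prop :=
  ∀ (u : ℕ) (t : ℤ), 1 ≤ u → u ≤ 3 → t ≡ r (k + 1) + u * 4 ^ k [ZMOD (4 : ℤ) ^ (k + 1)] →
    (ξ t).2.1 = (ξ (t - u * 4 ^ k)).1

variable [DecidableEq Γ]

theorem mis_seg (P P' : ℤ) (l : ℕ) :
    mis (seg ξ η (P + 1) (P' + 1) l) =
      ((Finset.Ico 1 (l + 1)).filter (fun s : ℕ => ξ (P + s) ≠ η (P' + s))).card := by
  induction l with
  | zero => simp [seg, mis]
  | succ l ih =>
    rw [seg_add, seg_one]
    have h1 : mis (seg ξ η (P + 1) (P' + 1) l ++ [(ξ (P + 1 + l), η (P' + 1 + l))]) =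
        mis (seg ξ η (P + 1) (P' + 1) l) +
          if ξ (P + 1 + l) ≠ η (P' + 1 + l) then 1 else 0 := by
      unfold mis
      rw [List.countP_append]
      congr 1
      simp [List.countP_cons]
    rw [h1, ih]
    have h2 : Finset.Ico 1 (l + 1 + 1) = insert (l + 1) (Finset.Ico 1 (l + 1)) := by
      ext x
      simp only [Finset.mem_Ico, Finset.mem_insert]
      omega
    rw [h2, Finset.filter_insert]
    have e1 : P + ((l + 1 : ℕ) : ℤ) = P + 1 + l := by push_cast; ring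
    have e2 : P' + ((l + 1 : ℕ) : ℤ) = P' + 1 + l := by push_cast; ring
    rw [e1, e2]
    split_ifs with h3
    · rw [Finset.card_insert_of_notMem]
      simp
    · rfl

end

theorem cnt (D : ℕ → Prop) [DecidablePred D] (k : ℕ)
    (ha : ∀ k' u : ℕ, k' < k → 1 ≤ u → u ≤ 3 → D (u * 4 ^ k'))
    (hb : ∀ s, 0 < s → s < 4 ^ k → D s → ∃ k' u : ℕ, k' < k ∧ 1 ≤ u ∧ u ≤ 3 ∧ s = u * 4 ^ k') :
    ((Finset.Ico 1 (4 ^ k)).filter D).card = 3 * k := by
  induction k with
  | zero => simp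
  | succ k ih =>
    have hpos : 0 < 4 ^ k := pow_pos (by norm_num) k
    have h4 : (4 : ℕ) ^ (k + 1) = 4 * 4 ^ k := by rw [pow_succ]; ring
    have ih' := ih (fun k' u hk => ha k' u (Nat.lt_succ_of_lt hk)) (by
      intro s hs hs' hD
      obtain ⟨k', u, hk, hu, hu', rfl⟩ := hb s hs (by omega) hD
      refine ⟨k', u, ?_, hu, hu', rfl⟩
      by_contra hcon
      have : k' = k := by omega
      subst this
      have := Nat.mul_le_mul_right (4 ^ k') hu
      omega)
    have h1 : (Finset.Ico 1 (4 ^ (k + 1))).filter D = (Finset.Ico 1 (4 ^ k)).filter D ∪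
        {4 ^ k, 2 * 4 ^ k, 3 * 4 ^ k} := by
      ext s
      simp only [Finset.mem_filter, Finset.mem_Ico, Finset.mem_union, Finset.mem_insert,
        Finset.mem_singleton]
      constructor
      · rintro ⟨⟨h1, h2⟩, hD⟩
        by_cases hs : s < 4 ^ k
        · exact Or.inl ⟨⟨h1, hs⟩, hD⟩
        · right
          obtain ⟨k', u, hk, hu, hu', rfl⟩ := hb s h1 h2 hD
          have hkk : k' = k := by
            by_contra hcon
            have hlt : k' + 1 ≤ k := by omega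
            have h5 := Nat.pow_le_pow_right (show 0 < 4 by norm_num) hlt
            have h6 : 4 ^ (k' + 1) = 4 * 4 ^ k' := by rw [pow_succ]; ring
            have h7 := Nat.mul_le_mul_right (4 ^ k') hu'
            have h8 : 0 < 4 ^ k' := pow_pos (by norm_num) k'
            omega
          subst hkk
          have : u = 1 ∨ u = 2 ∨ u = 3 := by omega
          rcases this with rfl | rfl | rfl
          · left; ring
          · right; left; rfl
          · right; right; rfl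
      · rintro (⟨⟨h1, h2⟩, hD⟩ | h | h | h)
        · exact ⟨⟨h1, by omega⟩, hD⟩
        · have := ha k 1 (Nat.lt_succ_self k) le_rfl (by norm_num)
          rw [one_mul] at this
          rw [h]
          exact ⟨⟨by omega, by omega⟩, this⟩
        · have := ha k 2 (Nat.lt_succ_self k) (by norm_num) (by norm_num)
          rw [h]
          exact ⟨⟨by omega, by omega⟩, this⟩
        · have := ha k 3 (Nat.lt_succ_self k) (by norm_num) (by norm_num)
          rw [h]
          exact ⟨⟨by omega, by omega⟩, this⟩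
    rw [h1, Finset.card_union_of_disjoint, ih']
    · have : ({4 ^ k, 2 * 4 ^ k, 3 * 4 ^ k} : Finset ℕ).card = 3 := by
        rw [Finset.card_insert_of_notMem, Finset.card_insert_of_notMem, Finset.card_singleton]
        · simp only [Finset.mem_singleton]; omega
        · simp only [Finset.mem_insert, Finset.mem_singleton]; omega
      rw [this]; ring
    · rw [Finset.disjoint_left]
      intro s hs hs'
      simp only [Finset.mem_filter, Finset.mem_Ico, Finset.mem_insert,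
        Finset.mem_singleton] at hs hs'
      omega

section
variable {Γ : Type} [DecidableEq Γ] {ξ η : ℤ → Lt Γ} {r r' : ℕ → ℤ}

/-- analysis of one block -/
theorem block_parents (hξ : Coord r ξ) (hη : Coord r' η) (k : ℕ)
    (ihξ : ∀ k' < k, POK k' r ξ) (ihη : ∀ k' < k, POK k' r' η) (P P' : ℤ)
    (hP : P ≡ r (k + 1) [ZMOD (4 : ℤ) ^ (k + 1)]) (hP' : P' ≡ r' (k + 1) [ZMOD (4 : ℤ) ^ (k + 1)])
    (hne : (ξ P).1 ≠ (η P').1)
    (hok : OkBlock (ξ P, η P') (3 * ((k + 1 : ℕ) : ZMod 6))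
      (seg ξ η (P + 1) (P' + 1) (4 ^ (k + 1) - 1))) (u : ℕ) (hu : 1 ≤ u) (hu' : u ≤ 3) :
    (ξ (P + u * 4 ^ k)).2.1 = (ξ P).1 ∧ (η (P' + u * 4 ^ k)).2.1 = (η P').1 := by
  have hpos : 0 < 4 ^ k := pow_pos (by norm_num) k
  have h4 : (4 : ℕ) ^ (k + 1) = 4 * 4 ^ k := by rw [pow_succ]; ring
  have hblock : ∀ s : ℕ, 0 < s → s < 4 ^ (k + 1) → ξ (P + s) ≠ η (P' + s) →
      (ξ (P + s)).2.1 = (ξ P).1 ∧ (η (P' + s)).2.1 = (η P').1 := by
    intro s hs hs' hD
    refine hok.1 (ξ (P + s), η (P' + s)) ?_ hD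
    rw [mem_seg]
    refine ⟨s - 1, by omega, ?_⟩
    have e : ((s - 1 : ℕ) : ℤ) = s - 1 := by rw [Nat.cast_sub hs]; simp
    rw [e]
    congr 2 <;> ring
  -- positions inside the block
  have hpos_level : ∀ (k' u : ℕ) (s : ℕ), k' ≤ k →
      (s : ℤ) ≡ u * 4 ^ k' [ZMOD (4 : ℤ) ^ (k' + 1)] →
      P + s ≡ r (k' + 1) + u * 4 ^ k' [ZMOD (4 : ℤ) ^ (k' + 1)] ∧
      P' + s ≡ r' (k' + 1) + u * 4 ^ k' [ZMOD (4 : ℤ) ^ (k' + 1)] := by
    intro k' u s hk' hs
    have hd : (4 : ℤ) ^ (k' + 1) ∣ 4 ^ (k + 1) := pow_dvd_pow 4 (by omega)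
    exact ⟨((hP.of_dvd hd).trans (hξ.compat (by omega))).add hs,
      ((hP'.of_dvd hd).trans (hη.compat (by omega))).add hs⟩
  have ha : ∀ k' u : ℕ, k' < k → 1 ≤ u → u ≤ 3 →
      ξ (P + ((u * 4 ^ k' : ℕ) : ℤ)) ≠ η (P' + ((u * 4 ^ k' : ℕ) : ℤ)) := by
    intro k' u hk' hu hu' heq
    obtain ⟨h1, h2⟩ := hpos_level k' u (u * 4 ^ k') hk'.le (by push_cast; exact Int.ModEq.refl _)
    have h3 := ihξ k' hk' u _ hu hu' h1
    have h4 := ihη k' hk' u _ hu hu' h2
    have e1 : P + ((u * 4 ^ k' : ℕ) : ℤ) - u * 4 ^ k' = P := by push_cast; ring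
    have e2 : P' + ((u * 4 ^ k' : ℕ) : ℤ) - u * 4 ^ k' = P' := by push_cast; ring
    rw [e1] at h3
    rw [e2] at h4
    rw [heq, h4] at h3
    exact hne h3.symm
  have hb : ∀ s : ℕ, 0 < s → s < 4 ^ (k + 1) → ξ (P + s) ≠ η (P' + s) →
      ∃ k' u : ℕ, k' < k + 1 ∧ 1 ≤ u ∧ u ≤ 3 ∧ s = u * 4 ^ k' := by
    intro s hs hs' hD
    have hnd : ¬ (4 : ℤ) ^ (k + 1) ∣ (s : ℤ) := by
      intro hd
      have : 4 ^ (k + 1) ∣ s := by exact_mod_cast hd
      have := Nat.le_of_dvd hs this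
      omega
    obtain ⟨k', v, hk', hv, hv', hsv⟩ := level_digit (k + 1) _ hnd
    obtain ⟨w, hw⟩ := hsv.symm.dvd
    have hpk : (0 : ℤ) < 4 ^ k' := pow_pos (by norm_num) k'
    have hsz : (s : ℤ) = v * 4 ^ k' + 4 * 4 ^ k' * w := by
      have : (4 : ℤ) ^ (k' + 1) = 4 * 4 ^ k' := by rw [pow_succ]; ring
      rw [this] at hw; linarith
    have hw0 : 0 ≤ w := by
      by_contra hcon
      have h1 : w ≤ -1 := by omega
      have h2 : 4 * 4 ^ k' * w ≤ 4 * 4 ^ k' * (-1) := mul_le_mul_of_nonneg_left h1 (by positivity)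
      have h3 : (v : ℤ) * 4 ^ k' ≤ 3 * 4 ^ k' :=
        mul_le_mul_of_nonneg_right (by exact_mod_cast hv') hpk.le
      have h5 : (0 : ℤ) < s := by exact_mod_cast hs
      linarith
    by_cases hw1 : w = 0
    · refine ⟨k', v, hk', hv, hv', ?_⟩
      rw [hw1] at hsz
      have : (s : ℤ) = ((v * 4 ^ k' : ℕ) : ℤ) := by push_cast; linarith
      exact_mod_cast this
    · exfalso
      have hwpos : 1 ≤ w := by omega
      have hkk : k' < k := by
        by_contra hcon
        have hkk : k' = k := by omega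
        subst hkk
        have h1 : 4 * 4 ^ k' * 1 ≤ 4 * 4 ^ k' * w := mul_le_mul_of_nonneg_left hwpos (by positivity)
        have h2 : (s : ℤ) < 4 * 4 ^ k' := by
          have : (s : ℤ) < ((4 * 4 ^ k' : ℕ) : ℤ) := by exact_mod_cast (by omega)
          push_cast at this; exact this
        have h3 : (1 : ℤ) * 4 ^ k' ≤ (v : ℤ) * 4 ^ k' :=
          mul_le_mul_of_nonneg_right (by exact_mod_cast hv) hpk.le
        linarith
      obtain ⟨h1, h2⟩ := hpos_level k' v s hkk.le hsv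
      have h3 := ihξ k' hkk v _ hv hv' h1
      have h5 := ihη k' hkk v _ hv hv' h2
      obtain ⟨h6, h7⟩ := hblock s hs hs' hD
      have hbe : (ξ (P + s - v * 4 ^ k')).1 = (η (P' + s - v * 4 ^ k')).1 := by
        refine PC.be (hξ.pc (k + 1)) (hη.pc (k + 1)) ?_ ?_
        · intro hd
          have hd2 : (4 : ℤ) ^ (k + 1) ∣ (s : ℤ) - v * 4 ^ k' := by
            have h8 := hP.dvd
            have e : (s : ℤ) - v * 4 ^ k' = (P + s - v * 4 ^ k' - r (k + 1)) + (r (k + 1) - P) := by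
              ring
            rw [e]
            exact dvd_add hd h8
          have h9 : 0 < (s : ℤ) - v * 4 ^ k' := by
            rw [hsz]
            have : 0 < 4 * 4 ^ k' * w := by positivity
            linarith
          have h10 := Int.le_of_dvd h9 hd2
          have h11 : (s : ℤ) < 4 ^ (k + 1) := by exact_mod_cast hs'
          have h12 : (0 : ℤ) ≤ v * 4 ^ k' := by positivity
          linarith
        · have h8 := (hP.sub_right (r (k + 1))).add_right ((s : ℤ) - v * 4 ^ k')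
          have h9 := (hP'.sub_right (r' (k + 1))).add_right ((s : ℤ) - v * 4 ^ k')
          have e1 : P + s - v * 4 ^ k' - r (k + 1) = P - r (k + 1) + ((s : ℤ) - v * 4 ^ k') := by
            ring
          have e2 : P' + s - v * 4 ^ k' - r' (k + 1) = P' - r' (k + 1) + ((s : ℤ) - v * 4 ^ k') := by
            ring
          rw [e1, e2]
          refine h8.trans ?_
          rw [sub_self, ← sub_self (r' (k + 1))]
          exact h9.symm
      rw [h6] at h3
      rw [h7] at h5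
      rw [h3, h5] at hne
      exact hne hbe
  classical
  -- count
  set D : ℕ → Prop := fun s => ξ (P + s) ≠ η (P' + s) with hDdef
  have hlow : ((Finset.Ico 1 (4 ^ k)).filter D).card = 3 * k := by
    refine cnt D k (fun k' u hk' hu hu' => ha k' u hk' hu hu') ?_
    intro s hs hs' hD
    obtain ⟨k', v, hk', hv, hv', rfl⟩ := hb s hs (by omega) hD
    refine ⟨k', v, ?_, hv, hv', rfl⟩
    by_contra hcon
    have : k' = k := by omega
    subst this
    have := Nat.mul_le_mul_right (4 ^ k') hv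
    omega
  have hsub : (Finset.Ico (4 ^ k) (4 ^ (k + 1))).filter D ⊆ {4 ^ k, 2 * 4 ^ k, 3 * 4 ^ k} := by
    intro s hs
    simp only [Finset.mem_filter, Finset.mem_Ico] at hs
    obtain ⟨⟨h1, h2⟩, hD⟩ := hs
    obtain ⟨k', u, hk, hu, hu', rfl⟩ := hb s (by omega) h2 hD
    have hkk : k' = k := by
      by_contra hcon
      have hlt : k' + 1 ≤ k := by omega
      have h5 := Nat.pow_le_pow_right (show 0 < 4 by norm_num) hlt
      have h6 : 4 ^ (k' + 1) = 4 * 4 ^ k' := by rw [pow_succ]; ring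
      have h7 := Nat.mul_le_mul_right (4 ^ k') hu'
      have h8 : 0 < 4 ^ k' := pow_pos (by norm_num) k'
      omega
    subst hkk
    have : u = 1 ∨ u = 2 ∨ u = 3 := by omega
    simp only [Finset.mem_insert, Finset.mem_singleton]
    rcases this with rfl | rfl | rfl
    · left; ring
    · right; left; rfl
    · right; right; rfl
  have hcard3 : ({4 ^ k, 2 * 4 ^ k, 3 * 4 ^ k} : Finset ℕ).card = 3 := by
    rw [Finset.card_insert_of_notMem, Finset.card_insert_of_notMem, Finset.card_singleton]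
    · simp only [Finset.mem_singleton]; omega
    · simp only [Finset.mem_insert, Finset.mem_singleton]; omega
  have hle : ((Finset.Ico (4 ^ k) (4 ^ (k + 1))).filter D).card ≤ 3 := by
    rw [← hcard3]
    exact Finset.card_le_card hsub
  have htot : mis (seg ξ η (P + 1) (P' + 1) (4 ^ (k + 1) - 1)) =
      3 * k + ((Finset.Ico (4 ^ k) (4 ^ (k + 1))).filter D).card := by
    rw [mis_seg, Nat.sub_add_cancel (Nat.one_le_pow _ _ (by norm_num)), ← hlow]
    rw [← Finset.card_union_of_disjoint, ← Finset.filter_union,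
      Finset.Ico_union_Ico_eq_Ico hpos (by omega)]
    rw [Finset.disjoint_left]
    intro s hs hs'
    simp only [Finset.mem_filter, Finset.mem_Ico] at hs hs'
    omega
  have hmod := hok.2
  rw [htot] at hmod
  have hx : (((Finset.Ico (4 ^ k) (4 ^ (k + 1))).filter D).card : ZMod 6) = 3 := by
    push_cast at hmod
    linear_combination hmod
  have hcard : ((Finset.Ico (4 ^ k) (4 ^ (k + 1))).filter D).card = 3 := by
    set x := ((Finset.Ico (4 ^ k) (4 ^ (k + 1))).filter D).card with hxdef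
    clear_value x
    interval_cases x
    · exact absurd hx (by decide)
    · exact absurd hx (by decide)
    · exact absurd hx (by decide)
    · rfl
  have heq := Finset.eq_of_subset_of_card_le hsub (by rw [hcard3, hcard])
  have hmem : u * 4 ^ k ∈ (Finset.Ico (4 ^ k) (4 ^ (k + 1))).filter D := by
    rw [heq]
    have : u = 1 ∨ u = 2 ∨ u = 3 := by omega
    simp only [Finset.mem_insert, Finset.mem_singleton]
    rcases this with rfl | rfl | rfl
    · left; ring
    · right; left; rfl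
    · right; right; rfl
  simp only [Finset.mem_filter, Finset.mem_Ico] at hmem
  have hfin := hblock (u * 4 ^ k) (by omega) hmem.1.2 hmem.2
  push_cast at hfin
  exact hfin

end

section
variable {Γ : Type} [DecidableEq Γ] {S : Language (Γ × Γ)} {isL : Γ → Bool} {n : ℕ}
  {ξ η : ℤ → Lt Γ} {r r' : ℕ → ℤ}

omit [DecidableEq Γ] in
/-- in a full cycle all block starts are base-unequal -/
theorem cyc_ne (hξ : Coord r ξ) (hη : Coord r' η) (K : ℕ) (i j : ℤ)
    (hi : i ≡ r (K + 1) + 4 ^ K [ZMOD (4 : ℤ) ^ (K + 1)])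
    (hj : j ≡ r' (K + 1) + 2 * 4 ^ K [ZMOD (4 : ℤ) ^ (K + 1)])
    (hU : (ξ (i + 3 * 4 ^ K)).1 ≠ 3 * K) (hV : (η (j + 2 * 4 ^ K)).1 ≠ 3 * K + 2)
    (q : ℕ) (hq : q < 4) : (ξ (i + q * 4 ^ K)).1 ≠ (η (j + q * 4 ^ K)).1 := by
  obtain ⟨h1, h2, h3, h4, h5, h6, -⟩ := PC.cycle (hξ.pc (K + 1)) (hη.pc (K + 1)) hi hj
  have : q = 0 ∨ q = 1 ∨ q = 2 ∨ q = 3 := by omega
  rcases this with rfl | rfl | rfl | rfl
  · simp only [Nat.cast_zero, zero_mul, add_zero]
    rw [h1, h2]
    have : ∀ x : ZMod 6, 3 * x ≠ 3 * x + 1 := by decide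
    exact this _
  · simp only [Nat.cast_one, one_mul]
    rw [h3, h4]
    have : ∀ x : ZMod 6, 3 * x + 1 ≠ 3 * x + 2 := by decide
    exact this _
  · push_cast
    rw [h5]
    exact hV.symm
  · push_cast
    rw [h6]
    exact hU

/-- the conclusion of the choice of the partner block -/
def Partner (r' : ℕ → ℤ) (ξ η : ℤ → Lt Γ) (K : ℕ) (P : ℤ) : Prop :=
  ∃ P' : ℤ, P' ≡ r' K [ZMOD (4 : ℤ) ^ K] ∧ (ξ P).1 ≠ (η P').1 ∧
    (OkBlock (ξ P, η P') (3 * (K : ZMod 6)) (seg ξ η (P + 1) (P' + 1) (4 ^ K - 1)) ∨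
     OkBlock (η P', ξ P) (3 * (K : ZMod 6)) (seg η ξ (P' + 1) (P + 1) (4 ^ K - 1)))

theorem orient1 (h : LegitZ S isL n ξ η) (hξ : Coord r ξ) (hη : Coord r' η) (K : ℕ) (i : ℤ)
    (hi : i ≡ r (K + 1) + 4 ^ K [ZMOD (4 : ℤ) ^ (K + 1)])
    (hU : (ξ (i + 3 * 4 ^ K)).1 ≠ 3 * K) (q : ℕ) (hq : q < 4) :
    Partner r' ξ η K (i + q * 4 ^ K) := by
  have h4 : (4 : ℤ) ^ (K + 1) = 4 * 4 ^ K := by rw [pow_succ]; ring
  have hj : r' (K + 2) + 2 * 4 ^ K ≡ r' (K + 1) + 2 * 4 ^ K [ZMOD (4 : ℤ) ^ (K + 1)] :=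
    (hη.1 (K + 1)).add_right _
  have hV : (η (r' (K + 2) + 2 * 4 ^ K + 2 * 4 ^ K)).1 ≠ 3 * K + 2 := by
    have h5 := hη.2 (K + 1) 1 (r' (K + 2) + 2 * 4 ^ K + 2 * 4 ^ K) le_rfl (by norm_num) (by
      have e : r' (K + 2) + 2 * 4 ^ K + 2 * 4 ^ K = r' (K + 1 + 1) + (1 : ℕ) * 4 ^ (K + 1) := by
        rw [h4]; push_cast; ring_nf
      rw [e])
    rw [h5]
    push_cast
    have : ∀ x : ZMod 6, 3 * (x + 1) + 1 - 1 ≠ 3 * x + 2 := by decide
    exact this _
  refine ⟨r' (K + 2) + 2 * 4 ^ K + q * 4 ^ K, ?_, cyc_ne hξ hη K _ _ hi hj hU hV q hq, Or.inl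
    (full_cycle h hξ hη K _ _ hi hj hU hV q hq)⟩
  have h6 := hη.compat (show K ≤ K + 2 by omega)
  refine Int.ModEq.trans ?_ h6
  exact (Int.modEq_iff_dvd.2 ⟨2 + q, by ring⟩).symm

theorem orient2 (h : LegitZ S isL n ξ η) (hξ : Coord r ξ) (hη : Coord r' η) (K : ℕ) (j : ℤ)
    (hj : j ≡ r (K + 1) + 2 * 4 ^ K [ZMOD (4 : ℤ) ^ (K + 1)])
    (hV : (ξ (j + 2 * 4 ^ K)).1 ≠ 3 * K + 2) (q : ℕ) (hq : q < 4) :
    Partner r' ξ η K (j + q * 4 ^ K) := by
  have h4 : (4 : ℤ) ^ (K + 1) = 4 * 4 ^ K := by rw [pow_succ]; ring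
  have hi : r' (K + 2) + 4 ^ K ≡ r' (K + 1) + 4 ^ K [ZMOD (4 : ℤ) ^ (K + 1)] :=
    (hη.1 (K + 1)).add_right _
  have hU : (η (r' (K + 2) + 4 ^ K + 3 * 4 ^ K)).1 ≠ 3 * K := by
    have h5 := hη.2 (K + 1) 1 (r' (K + 2) + 4 ^ K + 3 * 4 ^ K) le_rfl (by norm_num) (by
      have e : r' (K + 2) + 4 ^ K + 3 * 4 ^ K = r' (K + 1 + 1) + (1 : ℕ) * 4 ^ (K + 1) := by
        rw [h4]; push_cast; ring_nf
      rw [e])
    rw [h5]
    push_cast
    have : ∀ x : ZMod 6, 3 * (x + 1) + 1 - 1 ≠ 3 * x := by decide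
    exact this _
  refine ⟨r' (K + 2) + 4 ^ K + q * 4 ^ K, ?_, (cyc_ne hη hξ K _ _ hi hj hU hV q hq).symm, Or.inr
    (full_cycle h.symm hη hξ K _ _ hi hj hU hV q hq)⟩
  have h6 := hη.compat (show K ≤ K + 2 by omega)
  refine Int.ModEq.trans ?_ h6
  exact (Int.modEq_iff_dvd.2 ⟨1 + q, by ring⟩).symm

theorem exists_partner (h : LegitZ S isL n ξ η) (hξ : Coord r ξ) (hη : Coord r' η) (K : ℕ)
    (P : ℤ) (hP : P ≡ r K [ZMOD (4 : ℤ) ^ K]) : Partner r' ξ η K P := by
  have h4 : (4 : ℤ) ^ (K + 1) = 4 * 4 ^ K := by rw [pow_succ]; ring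
  obtain ⟨m, hm⟩ := ((hξ.1 K).trans hP.symm).dvd
  have hPm : P = r (K + 1) + 4 ^ K * m := by linarith
  have gen : ∀ (x : ℤ) (c : ℤ), (∃ a : ℤ, x = r (K + 1) + c * 4 ^ K + 4 * 4 ^ K * a) →
      x ≡ r (K + 1) + c * 4 ^ K [ZMOD (4 : ℤ) ^ (K + 1)] := by
    rintro x c ⟨a, ha⟩
    rw [ha, h4]
    exact (Int.modEq_iff_dvd.2 ⟨a, by ring⟩).symm
  have hm0 : m % 4 = 0 ∨ m % 4 = 1 ∨ m % 4 = 2 ∨ m % 4 = 3 := by omega
  have hne : ∀ x : ZMod 6, 3 * x ≠ 3 * x + 2 := by decide
  rcases hm0 with h0 | h0 | h0 | h0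
  · obtain ⟨w, hw⟩ : ∃ w, m = 4 * w := ⟨m / 4, by omega⟩
    by_cases hc : (ξ P).1 = 3 * K
    · have := orient2 h hξ hη K (P - 2 * 4 ^ K)
        (gen _ 2 ⟨w - 1, by rw [hPm, hw]; ring⟩)
        (by rw [sub_add_cancel, hc]; exact hne _) 2 (by norm_num)
      push_cast at this
      rwa [sub_add_cancel] at this
    · have := orient1 h hξ hη K (P - 3 * 4 ^ K)
        (by
          have := gen (P - 3 * 4 ^ K) 1 ⟨w - 1, by rw [hPm, hw]; ring⟩
          rwa [one_mul] at this)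
        (by rw [sub_add_cancel]; exact hc) 3 (by norm_num)
      push_cast at this
      rwa [sub_add_cancel] at this
  · obtain ⟨w, hw⟩ : ∃ w, m = 4 * w + 1 := ⟨m / 4, by omega⟩
    -- the next multiple and the previous one
    have hP1 := gen P 1 ⟨w, by rw [hPm, hw]; ring⟩
    rw [one_mul] at hP1
    have h44 : (4 : ℤ) ^ (K + 2) = 16 * 4 ^ K := by rw [pow_add]; ring
    obtain ⟨v, hv⟩ := (hξ.1 (K + 1)).dvd
    have hv' : r (K + 1) = r (K + 2) + 4 * 4 ^ K * v := by
      rw [h4] at hv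
      have : r (K + 1 + 1) = r (K + 2) := rfl
      linarith
    by_cases hc : (w + 1 + v) % 4 = 0
    · obtain ⟨z, hz⟩ : ∃ z, w + 1 + v = 4 * z := ⟨(w + 1 + v) / 4, by omega⟩
      have hx : (ξ (P - 4 ^ K)).1 ≠ 3 * K + 2 := by
        have h5 := hξ.2 (K + 1) 3 (P - 4 ^ K) (by norm_num) le_rfl (by
          refine (Int.modEq_iff_dvd.2 ⟨z - 1, ?_⟩).symm
          have e : r (K + 1 + 1) = r (K + 2) := rfl
          have e2 : (4 : ℤ) ^ (K + 1 + 1) = 16 * 4 ^ K := h44
          rw [e, e2, h4, hPm, hw, hv']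
          have e3 : w = 4 * z - 1 - v := by linarith
          rw [e3]; push_cast; ring)
        rw [h5]
        push_cast
        have : ∀ x : ZMod 6, 3 * (x + 1) + 3 - 1 ≠ 3 * x + 2 := by decide
        exact this _
      have := orient2 h hξ hη K (P - 3 * 4 ^ K)
        (gen _ 2 ⟨w - 1, by rw [hPm, hw]; ring⟩)
        (by
          have e : P - 3 * 4 ^ K + 2 * 4 ^ K = P - 4 ^ K := by ring
          rw [e]; exact hx) 3 (by norm_num)
      push_cast at this
      rwa [sub_add_cancel] at this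
    · have hx : (ξ (P + 3 * 4 ^ K)).1 ≠ 3 * K := by
        have hu0 : 0 ≤ (w + 1 + v) % 4 := Int.emod_nonneg _ (by norm_num)
        have hu4 : (w + 1 + v) % 4 < 4 := Int.emod_lt_of_pos _ (by norm_num)
        obtain ⟨u, hu⟩ : ∃ u : ℕ, (u : ℤ) = (w + 1 + v) % 4 := ⟨((w + 1 + v) % 4).toNat,
          Int.toNat_of_nonneg hu0⟩
        have h5 := hξ.2 (K + 1) u (P + 3 * 4 ^ K) (by omega) (by omega) (by
          refine (Int.modEq_iff_dvd.2 ⟨(w + 1 + v) / 4, ?_⟩).symm
          have e : r (K + 1 + 1) = r (K + 2) := rfl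
          have e2 : (4 : ℤ) ^ (K + 1 + 1) = 16 * 4 ^ K := h44
          have e3 : w = 4 * ((w + 1 + v) / 4) + u - 1 - v := by
            rw [hu]
            have := Int.emod_add_mul_ediv (w + 1 + v) 4
            linarith
          rw [e, e2, h4, hPm, hw, hv']
          generalize (w + 1 + v) / 4 = Z at e3 ⊢
          rw [e3]; ring)
        rw [h5]
        push_cast
        have hu3 : u = 1 ∨ u = 2 ∨ u = 3 := by omega
        have : ∀ x : ZMod 6, 3 * (x + 1) + 1 - 1 ≠ 3 * x ∧ 3 * (x + 1) + 2 - 1 ≠ 3 * x ∧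
          3 * (x + 1) + 3 - 1 ≠ 3 * x := by decide
        obtain ⟨t1, t2, t3⟩ := this (K : ZMod 6)
        rcases hu3 with rfl | rfl | rfl
        · push_cast; exact t1
        · push_cast; exact t2
        · push_cast; exact t3
      have := orient1 h hξ hη K P hP1 hx 0 (by norm_num)
      simpa using this
  · obtain ⟨w, hw⟩ : ∃ w, m = 4 * w + 2 := ⟨m / 4, by omega⟩
    by_cases hc : (ξ (P + 2 * 4 ^ K)).1 = 3 * K
    · have := orient2 h hξ hη K P
        (gen _ 2 ⟨w, by rw [hPm, hw]; ring⟩)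
        (by rw [hc]; exact hne _) 0 (by norm_num)
      simpa using this
    · have := orient1 h hξ hη K (P - 4 ^ K)
        (by
          have := gen (P - 4 ^ K) 1 ⟨w, by rw [hPm, hw]; ring⟩
          rwa [one_mul] at this)
        (by
          have e : P - 4 ^ K + 3 * 4 ^ K = P + 2 * 4 ^ K := by ring
          rw [e]; exact hc) 1 (by norm_num)
      push_cast at this
      rwa [one_mul, sub_add_cancel] at this
  · obtain ⟨w, hw⟩ : ∃ w, m = 4 * w + 3 := ⟨m / 4, by omega⟩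
    by_cases hc : (ξ (P + 4 ^ K)).1 = 3 * K
    · have := orient2 h hξ hη K (P - 4 ^ K)
        (gen _ 2 ⟨w, by rw [hPm, hw]; ring⟩)
        (by
          have e : P - 4 ^ K + 2 * 4 ^ K = P + 4 ^ K := by ring
          rw [e, hc]; exact hne _) 1 (by norm_num)
      push_cast at this
      rwa [one_mul, sub_add_cancel] at this
    · have := orient1 h hξ hη K (P - 2 * 4 ^ K)
        (by
          have := gen (P - 2 * 4 ^ K) 1 ⟨w, by rw [hPm, hw]; ring⟩
          rwa [one_mul] at this)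
        (by
          have e : P - 2 * 4 ^ K + 3 * 4 ^ K = P + 4 ^ K := by ring
          rw [e]; exact hc) 2 (by norm_num)
      push_cast at this
      rwa [sub_add_cancel] at this

theorem pok_step (h : LegitZ S isL n ξ η) (hξ : Coord r ξ) (hη : Coord r' η) (k : ℕ)
    (ihξ : ∀ k' < k, POK k' r ξ) (ihη : ∀ k' < k, POK k' r' η) : POK k r ξ := by
  intro u t hu hu' ht
  have hP : t - u * 4 ^ k ≡ r (k + 1) [ZMOD (4 : ℤ) ^ (k + 1)] := by
    have := ht.sub_right (u * 4 ^ k)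
    rwa [add_sub_cancel_right] at this
  obtain ⟨P', hP', hne, hok | hok⟩ := exists_partner h hξ hη (k + 1) _ hP
  · have := (block_parents hξ hη k ihξ ihη _ P' hP hP' hne hok u hu hu').1
    rwa [sub_add_cancel] at this
  · have := (block_parents hη hξ k ihη ihξ P' _ hP' hP hne.symm hok u hu hu').2
    rwa [sub_add_cancel] at this

end

theorem parentOK {Γ : Type} [DecidableEq Γ] {S : Language (Γ × Γ)} {isL : Γ → Bool} {n : ℕ}
    {ξ η : ℤ → Lt Γ} {r r' : ℕ → ℤ} (h : LegitZ S isL n ξ η) (hξ : Coord r ξ) (hη : Coord r' η) :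
    ParentOK r ξ := by
  have key : ∀ k, POK k r ξ ∧ POK k r' η := by
    intro k
    induction k using Nat.strong_induction_on with
    | _ k ih =>
      exact ⟨pok_step h hξ hη k (fun k' hk => (ih k' hk).1) (fun k' hk => (ih k' hk).2),
        pok_step h.symm hη hξ k (fun k' hk => (ih k' hk).2) (fun k' hk => (ih k' hk).1)⟩
  intro k u t hu hu' ht
  exact (key k).1 u t hu hu' ht

end Star60
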