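import Pool.Agent.Star60.Base

/-!
MP_1b5989_lc, module PERIODIC: legitimate pairs cannot be periodic.
Extend `x`, `y` periodically to `ℤ`; the pair is legitimate, so `exists_coord` applies; contradiction
with the period `p = 4^e p'` (choose a digit `a` with `a ≠ 0`, `a + p'_0 ≠ 0` mod 4, and a `t` of level `e`, digit `a`).
-/

namespace Star60

/-- periodic extension to the integers -/
def perExt {α : Type} (x : List α) (d : α) (t : ℤ) : α := x.getD (t % (x.length : ℤ)).toNat d

theorem perExt_add {α : Type} (x : List α) (d : α) (t : ℤ) :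
    perExt x d (t + x.length) = perExt x d t := by
  unfold perExt
  rw [Int.add_emod_right]

theorem powL_getElem? {α : Type} (x : List α) (m k : ℕ) (hk : k < m * x.length) :
    (powL x m)[k]? = x[k % x.length]? := by
  induction m generalizing k with
  | zero => simp at hk
  | succ m ih =>
    have h1 : powL x (m + 1) = x ++ powL x m := by
      simp [powL, List.replicate_succ]
    rw [h1]
    by_cases h : k < x.length
    · rw [List.getElem?_append_left h, Nat.mod_eq_of_lt h]
    · have h' : x.length ≤ k := by omega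
      rw [List.getElem?_append_right h', ih (k - x.length) (by rw [Nat.add_mul] at hk; omega)]
      rw [← Nat.mod_eq_sub_mod h']

theorem perExt_factor {α : Type} (x : List α) (hx : x ≠ []) (d : α) (i : ℤ) (l : ℕ) :
    ∃ m0 : ℕ, ∀ m, m0 ≤ m →
      (List.range l).map (fun t : ℕ => perExt x d (i + t)) <:+: powL x m := by
  have hpos : 0 < x.length := List.length_pos_of_ne_nil hx
  have hposz : (0 : ℤ) < x.length := by exact_mod_cast hpos
  obtain ⟨i', hi'⟩ : ∃ i' : ℕ, (i' : ℤ) = i % (x.length : ℤ) :=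
    ⟨(i % (x.length : ℤ)).toNat, Int.toNat_of_nonneg (Int.emod_nonneg _ hposz.ne')⟩
  refine ⟨i' + l, fun m hm => ?_⟩
  have h1 : (List.range l).map (fun t : ℕ => perExt x d (i + t)) =
      ((powL x m).drop i').take l := by
    apply List.ext_getElem?
    intro k
    rw [List.getElem?_take, List.getElem?_drop, List.getElem?_map]
    by_cases hk : k < l
    · rw [if_pos hk, List.getElem?_range hk]
      rw [powL_getElem? x m (i' + k) (by
        calc i' + k < m := by omega
          _ = m * 1 := by ring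
          _ ≤ m * x.length := Nat.mul_le_mul_left _ hpos)]
      simp only [Option.map_some]
      unfold perExt
      have h2 : ((i + (k : ℤ)) % (x.length : ℤ)).toNat = (i' + k) % x.length := by
        have : (i + (k : ℤ)) % (x.length : ℤ) = (((i' + k) % x.length : ℕ) : ℤ) := by
          push_cast
          rw [hi', Int.emod_add_emod]
        rw [this, Int.toNat_natCast]
      rw [h2, List.getD_eq_getElem?_getD]
      have h3 : (i' + k) % x.length < x.length := Nat.mod_lt _ hpos
      rw [List.getElem?_eq_getElem h3]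
      rfl
    · rw [if_neg hk]
      rw [List.getElem?_eq_none (by simpa using hk)]
      rfl
  rw [h1]
  exact (List.take_prefix _ _).isInfix.trans (List.drop_suffix _ _).isInfix

theorem not_periodic {Γ : Type} [DecidableEq Γ] {S : Language (Γ × Γ)} {isL : Γ → Bool} {n : ℕ}
    (x y : List (Lt Γ)) (hx : x ≠ []) (hy : y ≠ []) :
    ¬ ∀ m : ℕ, Legit S isL n (powL x m) (powL y m) := by
  intro H
  set ξ : ℤ → Lt Γ := perExt x (x.head hx) with hξdef
  set η : ℤ → Lt Γ := perExt y (y.head hy) with hηdef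
  have hleg : LegitZ S isL n ξ η := by
    intro i j l hbad
    obtain ⟨m1, h1⟩ := perExt_factor x hx (x.head hx) i l
    obtain ⟨m2, h2⟩ := perExt_factor y hy (y.head hy) j l
    refine H (max m1 m2) _ _ (h1 _ (le_max_left _ _)) (h2 _ (le_max_right _ _)) (by simp) ?_
    rw [List.zip_map']
    exact hbad
  obtain ⟨r, hr⟩ := exists_coord hleg
  have hpos : 0 < x.length := List.length_pos_of_ne_nil hx
  -- the period
  have hdvd : ∃ e p' : ℕ, x.length = 4 ^ e * p' ∧ ¬ 4 ∣ p' := by
    obtain ⟨e, p', h1, h2⟩ := Nat.exists_eq_pow_mul_and_not_dvd hpos.ne' 4 (by norm_num)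
    exact ⟨e, p', h2, h1⟩
  obtain ⟨e, p', hp, hnd⟩ := hdvd
  obtain ⟨a, ha1, ha3, hap⟩ : ∃ a : ℕ, 1 ≤ a ∧ a ≤ 3 ∧ (a + p') % 4 ≠ 0 := by
    by_cases h : p' % 4 = 3
    · exact ⟨2, by norm_num, by norm_num, by omega⟩
    · exact ⟨1, by norm_num, by norm_num, by omega⟩
  set t : ℤ := r (e + 1) + a * 4 ^ e with ht
  have h1 : (ξ t).1 = 3 * e + a - 1 := hr.2 e a t ha1 ha3 (Int.ModEq.refl _)
  have h2 : (ξ (t + x.length)).1 = 3 * e + (((a + p') % 4 : ℕ) : ZMod 6) - 1 := by
    refine hr.2 e ((a + p') % 4) _ (by omega) (by omega) ?_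
    have h4 : (4 : ℤ) ^ (e + 1) = 4 * 4 ^ e := by rw [pow_succ]; ring
    refine (Int.modEq_iff_dvd.2 ⟨((a + p') / 4 : ℕ), ?_⟩).symm
    rw [ht, hp, h4]
    have h5 : ((a + p' : ℕ) : ℤ) = (((a + p') % 4 : ℕ) : ℤ) + 4 * (((a + p') / 4 : ℕ) : ℤ) := by
      exact_mod_cast (Nat.mod_add_div (a + p') 4).symm
    push_cast at h5 ⊢
    have h6 : (p' : ℤ) = ((a : ℤ) + p') % 4 + 4 * (((a : ℤ) + p') / 4) - a := by linarith
    generalize ((a : ℤ) + p') % 4 = A at h6 ⊢
    generalize ((a : ℤ) + p') / 4 = B at h6 ⊢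
    rw [h6]; ring
  have h3 : ξ (t + x.length) = ξ t := perExt_add x _ t
  rw [h3, h1] at h2
  have h5 : ((a : ℕ) : ZMod 6) = (((a + p') % 4 : ℕ) : ZMod 6) := by
    linear_combination h2
  have h6 := (ZMod.natCast_eq_natCast_iff' _ _ _).1 h5
  omega

end Star60
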