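import Pool.Agent.Star60.PresDef

/-!
MP_1b5989_lc, module PRESCOMP: the instance map is computable (even primitive recursive).
-/

namespace Star60

section gen
variable {α : Type} [Primcodable α] {m : ℕ}

theorem PFam.δc (A : PFam m) {fn fp : α → ℕ} {fi fj : α → Fin m} (hn : Primrec fn)
    (hp : Primrec fp) (hi : Primrec fi) (hj : Primrec fj) :
    Primrec (fun x => A.δ (fn x) (fp x) (fi x) (fj x)) :=
  A.δp.comp ((hn.pair hp).pair (hi.pair hj))

theorem PFam.g1 (A : PFam m) {fn fq : α → ℕ} {fi : α → Fin m} {finf : α → Inf m}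
    (hn : Primrec fn) (hq : Primrec fq) (hi : Primrec fi) (hinf : Primrec finf) :
    Primrec (fun x : α => (Option.casesOn (finf x) false
      (fun t : Fin m × Fin m × Bool =>
        decide (A.δ (fn x) (A.s (fn x)) (fi x) t.2.1 = fq x - 2)) : Bool)) := by
  refine Primrec.option_casesOn hinf (Primrec.const false) ?_
  refine PrimrecPred.decide (p := fun y : α × (Fin m × Fin m × Bool) =>
      A.δ (fn y.1) (A.s (fn y.1)) (fi y.1) y.2.2.1 = fq y.1 - 2) ?_
  refine Primrec.eq.comp ?_ ?_
  · exact A.δc (hn.comp Primrec.fst) (A.sp.comp (hn.comp Primrec.fst)) (hi.comp Primrec.fst)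
      (Primrec.fst.comp (Primrec.snd.comp Primrec.snd))
  · exact Primrec.nat_sub.comp (hq.comp Primrec.fst) (Primrec.const 2)

theorem PFam.g2 (A : PFam m) {fn fp : α → ℕ} {fi : α → Fin m} {finf : α → Inf m}
    (hn : Primrec fn) (hp : Primrec fp) (hi : Primrec fi) (hinf : Primrec finf) :
    Primrec (fun x : α => (Option.casesOn (finf x) false
      (fun t : Fin m × Fin m × Bool => A.F (fn x) (A.δ (fn x) (fp x - 2) (fi x) t.1)) : Bool)) := by
  refine Primrec.option_casesOn hinf (Primrec.const false) ?_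
  exact A.Fp.comp (hn.comp Primrec.fst) (A.δc (hn.comp Primrec.fst)
    (Primrec.nat_sub.comp (hp.comp Primrec.fst) (Primrec.const 2)) (hi.comp Primrec.fst)
    (Primrec.fst.comp Primrec.snd))

theorem PFam.g3 (A : PFam m) {fn fp fq : α → ℕ} {fi : α → Fin m} {finf : α → Inf m}
    (hn : Primrec fn) (hp : Primrec fp) (hq : Primrec fq) (hi : Primrec fi)
    (hinf : Primrec finf) :
    Primrec (fun x : α => (Option.casesOn (finf x) false
      (fun t : Fin m × Fin m × Bool => (t.2.2 &&
        decide (A.δ (fn x) (fp x - 2) (fi x) t.1 = fq x - 2))) : Bool)) := by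
  refine Primrec.option_casesOn hinf (Primrec.const false) ?_
  have h1 : Primrec (fun y : α × (Fin m × Fin m × Bool) =>
      decide (A.δ (fn y.1) (fp y.1 - 2) (fi y.1) y.2.1 = fq y.1 - 2)) := by
    refine PrimrecPred.decide ?_
    refine Primrec.eq.comp ?_ ?_
    · exact A.δc (hn.comp Primrec.fst)
        (Primrec.nat_sub.comp (hp.comp Primrec.fst) (Primrec.const 2)) (hi.comp Primrec.fst)
        (Primrec.fst.comp Primrec.snd)
    · exact Primrec.nat_sub.comp (hq.comp Primrec.fst) (Primrec.const 2)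
  exact Primrec.and.comp (Primrec.snd.comp (Primrec.snd.comp Primrec.snd)) h1

theorem PFam.yNc (A : PFam m) {fn fp fq : α → ℕ} {fi : α → Fin m} {finf : α → Inf m}
    (hn : Primrec fn) (hp : Primrec fp) (hq : Primrec fq) (hi : Primrec fi)
    (hinf : Primrec finf) :
    Primrec (fun x : α => A.yN (fn x) (fp x) (fi x) (fq x) (finf x)) := by
  have hmain : Primrec (fun x : α =>
      if fp x = 1 then true
      else if fq x = 0 then true
      else if fp x = 0 then
        (if fq x = 1 then false else (Option.casesOn (finf x) false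
          (fun t : Fin m × Fin m × Bool =>
            decide (A.δ (fn x) (A.s (fn x)) (fi x) t.2.1 = fq x - 2)) : Bool))
      else
        (if fq x = 1 then (Option.casesOn (finf x) false
          (fun t : Fin m × Fin m × Bool => A.F (fn x) (A.δ (fn x) (fp x - 2) (fi x) t.1)) : Bool)
        else (Option.casesOn (finf x) false
          (fun t : Fin m × Fin m × Bool => (t.2.2 &&
            decide (A.δ (fn x) (fp x - 2) (fi x) t.1 = fq x - 2))) : Bool))) := by
    refine Primrec.ite (Primrec.eq.comp hp (Primrec.const 1)) (Primrec.const true) ?_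
    refine Primrec.ite (Primrec.eq.comp hq (Primrec.const 0)) (Primrec.const true) ?_
    refine Primrec.ite (Primrec.eq.comp hp (Primrec.const 0)) ?_ ?_
    · exact Primrec.ite (Primrec.eq.comp hq (Primrec.const 1)) (Primrec.const false)
        (A.g1 hn hq hi hinf)
    · exact Primrec.ite (Primrec.eq.comp hq (Primrec.const 1)) (A.g2 hn hp hi hinf)
        (A.g3 hn hp hq hi hinf)
  refine hmain.of_eq ?_
  intro x
  unfold PFam.yN
  rcases finf x with _ | ⟨f, l, b⟩ <;> rfl

/-- letter of a number -/
def letOf (m : ℕ) (i : ℕ) : Option (Fin m) :=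
  if h : 1 ≤ i ∧ i ≤ m then some ⟨i - 1, by omega⟩ else none

theorem primrec_letOf (m : ℕ) : Primrec (letOf m) := by
  have h1 : Primrec (fun i : ℕ => ((List.finRange m).map some)[i - 1]?) :=
    Primrec.list_getElem?.comp (Primrec.const _)
      (Primrec.nat_sub.comp Primrec.id (Primrec.const 1))
  have h2 : Primrec (fun i : ℕ => if 1 ≤ i then
      (((List.finRange m).map some)[i - 1]?).bind id else (none : Option (Fin m))) := by
    refine Primrec.ite (Primrec.nat_le.comp (Primrec.const 1) Primrec.id) ?_ (Primrec.const none)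
    exact Primrec.option_bind h1 (Primrec.snd)
  refine h2.of_eq ?_
  intro i
  simp only [letOf]
  by_cases h : 1 ≤ i
  · by_cases h' : i ≤ m
    · rw [if_pos h, dif_pos ⟨h, h'⟩]
      rw [List.getElem?_eq_getElem (by simp; omega)]
      simp
    · rw [if_pos h, dif_neg (by omega)]
      rw [List.getElem?_eq_none (by simp; omega)]
      rfl
  · rw [if_neg h, dif_neg (by omega)]

theorem PFam.hopt (A : PFam m) {fn fs fi ft : α → ℕ} {fy : α → RS m}
    (hn : Primrec fn) (hs : Primrec fs) (hi : Primrec fi) (ht : Primrec ft) (hy : Primrec fy) :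
    Primrec (fun x : α => ((letOf m (fi x)).bind (fun i => (fy x).map (fun y =>
      (decide (y.1 = 0) && A.yN (fn x) (A.Q (fn x) + 2 - fs x) i (ft x) y.2)))).getD false) := by
  refine Primrec.option_getD.comp ?_ (Primrec.const false)
  refine Primrec.option_bind ((primrec_letOf m).comp hi) ?_
  refine Primrec.option_map (hy.comp Primrec.fst) ?_
  have h1 : Primrec (fun z : (α × Fin m) × (Fin (m + 1) × Inf m) => decide (z.2.1 = 0)) :=
    PrimrecPred.decide (Primrec.eq.comp (Primrec.fst.comp Primrec.snd) (Primrec.const 0))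
  have h2 : Primrec (fun z : (α × Fin m) × (Fin (m + 1) × Inf m) =>
      A.yN (fn z.1.1) (A.Q (fn z.1.1) + 2 - fs z.1.1) z.1.2 (ft z.1.1) z.2.2) := by
    have hf : Primrec (fun z : (α × Fin m) × (Fin (m + 1) × Inf m) => z.1.1) :=
      Primrec.fst.comp Primrec.fst
    refine A.yNc (hn.comp hf) ?_ (ht.comp hf) (Primrec.snd.comp Primrec.fst)
      (Primrec.snd.comp Primrec.snd)
    exact Primrec.nat_sub.comp (Primrec.nat_add.comp (A.Qp.comp (hn.comp hf)) (Primrec.const 2))
      (hs.comp hf)
  exact Primrec.and.comp h1 h2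

theorem PFam.accc (A : PFam m) {fn ff fs fi ft : α → ℕ} {fy : α → RS m}
    (hn : Primrec fn) (hf : Primrec ff) (hs : Primrec fs) (hi : Primrec fi) (ht : Primrec ft)
    (hy : Primrec fy) :
    Primrec (fun x : α => A.acc (fn x) (ff x, fs x, fi x, ft x) (fy x)) := by
  have hQ : Primrec (fun x => A.Q (fn x) + 2) :=
    Primrec.nat_add.comp (A.Qp.comp hn) (Primrec.const 2)
  have hmain : Primrec (fun x : α =>
      if ff x = 3 then true
      else if ff x = 1 ∧ 1 ≤ fs x ∧ fs x ≤ A.Q (fn x) + 2 ∧ ft x < A.Q (fn x) + 2 then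
        ((letOf m (fi x)).bind (fun i => (fy x).map (fun y =>
          (decide (y.1 = 0) && A.yN (fn x) (A.Q (fn x) + 2 - fs x) i (ft x) y.2)))).getD false
      else false) := by
    refine Primrec.ite (Primrec.eq.comp hf (Primrec.const 3)) (Primrec.const true) ?_
    refine Primrec.ite ?_ (A.hopt hn hs hi ht hy) (Primrec.const false)
    refine PrimrecPred.and (Primrec.eq.comp hf (Primrec.const 1)) ?_
    refine PrimrecPred.and (Primrec.nat_le.comp (Primrec.const 1) hs) ?_
    exact PrimrecPred.and (Primrec.nat_le.comp hs hQ) (Primrec.nat_lt.comp ht hQ)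
  refine hmain.of_eq ?_
  intro x
  simp only [PFam.acc, letOf]
  split_ifs with h1 h2 h3
  · rfl
  · rcases fy x with _ | ⟨k, inf⟩ <;> rfl
  · rfl
  · rfl

end gen

theorem PFam.primrec_yN {m : ℕ} (A : PFam m) :
    Primrec (fun x : (ℕ × ℕ) × (Fin m × ℕ) × Inf m =>
      A.yN x.1.1 x.1.2 x.2.1.1 x.2.1.2 x.2.2) := by
  exact A.yNc (Primrec.fst.comp Primrec.fst) (Primrec.snd.comp Primrec.fst)
    (Primrec.snd.comp (Primrec.fst.comp Primrec.snd))
    (Primrec.fst.comp (Primrec.fst.comp Primrec.snd)) (Primrec.snd.comp Primrec.snd)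

theorem PFam.primrec_acc {m : ℕ} (A : PFam m) :
    Primrec (fun x : ℕ × LS × RS m => A.acc x.1 x.2.1 x.2.2) := by
  have hx : Primrec (fun x : ℕ × LS × RS m => x.2.1) := Primrec.fst.comp Primrec.snd
  exact A.accc Primrec.fst (Primrec.fst.comp hx) (Primrec.fst.comp (Primrec.snd.comp hx))
    (Primrec.fst.comp (Primrec.snd.comp (Primrec.snd.comp hx)))
    (Primrec.snd.comp (Primrec.snd.comp (Primrec.snd.comp hx))) (Primrec.snd.comp Primrec.snd)


section gen2
variable {α : Type} [Primcodable α] {m : ℕ}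

theorem primrec_LSc {fN : α → ℕ} {fx : α → LS} (hN : Primrec fN) (hx : Primrec fx) :
    Primrec (fun z => (fx z).c (fN z)) := by
  have h1 : Primrec (fun z => (fx z).1) := Primrec.fst.comp hx
  have h2 : Primrec (fun z => (fx z).2.1) := Primrec.fst.comp (Primrec.snd.comp hx)
  have h3 : Primrec (fun z => (fx z).2.2.1) :=
    Primrec.fst.comp (Primrec.snd.comp (Primrec.snd.comp hx))
  have h4 : Primrec (fun z => (fx z).2.2.2) :=
    Primrec.snd.comp (Primrec.snd.comp (Primrec.snd.comp hx))
  have hN1 : Primrec (fun z => fN z + 1) := Primrec.succ.comp hN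
  unfold LS.c
  refine Primrec.ite (Primrec.eq.comp h1 (Primrec.const 0)) ?_ ?_
  · exact (Primrec.const 0).pair ((Primrec.nat_min.comp (Primrec.succ.comp h2) hN1).pair
      (Primrec.const (0, 0)))
  refine Primrec.ite (Primrec.eq.comp h1 (Primrec.const 1)) ?_ ?_
  · exact (Primrec.const 1).pair (h2.pair (h3.pair (Primrec.nat_min.comp (Primrec.succ.comp h4) hN1)))
  refine Primrec.ite (Primrec.eq.comp h1 (Primrec.const 2)) ?_ (Primrec.const _)
  exact (Primrec.const 2).pair ((Primrec.const 0).pair ((Primrec.const 0).pair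
    (Primrec.nat_min.comp (Primrec.succ.comp h4) hN1)))

theorem primrec_LSa {fN : α → ℕ} {fx : α → LS} (hN : Primrec fN) (hx : Primrec fx) :
    Primrec (fun z => (fx z).a m (fN z)) := by
  have h1 : Primrec (fun z => (fx z).1) := Primrec.fst.comp hx
  have h2 : Primrec (fun z => (fx z).2.1) := Primrec.fst.comp (Primrec.snd.comp hx)
  have h3 : Primrec (fun z => (fx z).2.2.1) :=
    Primrec.fst.comp (Primrec.snd.comp (Primrec.snd.comp hx))
  have h4 : Primrec (fun z => (fx z).2.2.2) :=
    Primrec.snd.comp (Primrec.snd.comp (Primrec.snd.comp hx))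
  unfold LS.a
  refine Primrec.ite (Primrec.eq.comp h1 (Primrec.const 0)) ?_ ?_
  · exact (Primrec.const 1).pair (h2.pair (Primrec.const (1, 0)))
  refine Primrec.ite (Primrec.eq.comp h1 (Primrec.const 1)) ?_ ?_
  · refine Primrec.ite (Primrec.eq.comp h4 (Primrec.const 0)) ?_ ?_
    · exact (Primrec.const 1).pair (h2.pair
        ((Primrec.nat_min.comp (Primrec.succ.comp h3) (Primrec.const (m + 1))).pair
          (Primrec.const 0)))
    · exact Primrec.ite (Primrec.eq.comp h4 hN) (Primrec.const _) (Primrec.const _)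
  refine Primrec.ite (Primrec.eq.comp h1 (Primrec.const 2)) ?_ (Primrec.const _)
  exact Primrec.ite (PrimrecPred.or (Primrec.eq.comp h4 (Primrec.const 0))
    (Primrec.eq.comp h4 hN)) (Primrec.const _) (Primrec.const _)

theorem primrec_LSstep {fN : α → ℕ} {fx : α → LS} (hN : Primrec fN) (hx : Primrec fx) (l : Bool) :
    Primrec (fun z => (fx z).step m (fN z) l) := by
  cases l
  · exact primrec_LSc hN hx
  · exact primrec_LSa hN hx

theorem primrec_RSstep {fy : α → RS m} (hy : Primrec fy) (l : Bool) :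
    Primrec (fun z => RS.step m (fy z) l) :=
  (Primrec.dom_finite (fun y : RS m => RS.step m y l)).comp hy

theorem primrec_cod {fx : α → LS} {fy : α → RS m} (hx : Primrec fx) (hy : Primrec fy) :
    Primrec (fun z => cod (fx z) (fy z)) :=
  Primrec.encode.comp (hx.pair hy)

theorem primrec_allLS {fN : α → ℕ} (hN : Primrec fN) :
    Primrec (fun z => allLS m (fN z)) := by
  unfold allLS
  refine Primrec.list_flatMap (Primrec.const (List.range 4)) ?_
  have hN2 : Primrec (fun z => List.range (fN z + 2)) :=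
    Primrec.list_range.comp (Primrec.nat_add.comp hN (Primrec.const 2))
  refine Primrec.list_flatMap (hN2.comp Primrec.fst) ?_
  refine Primrec.list_flatMap (Primrec.const (List.range (m + 2))) ?_
  refine Primrec.list_map (hN2.comp (Primrec.fst.comp (Primrec.fst.comp Primrec.fst))) ?_
  have e1 : Primrec (fun p : ((((α × ℕ) × ℕ) × ℕ) × ℕ) => p.1.1.1.2) :=
    Primrec.snd.comp (Primrec.fst.comp (Primrec.fst.comp Primrec.fst))
  have e2 : Primrec (fun p : ((((α × ℕ) × ℕ) × ℕ) × ℕ) => p.1.1.2) :=
    Primrec.snd.comp (Primrec.fst.comp Primrec.fst)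
  have e3 : Primrec (fun p : ((((α × ℕ) × ℕ) × ℕ) × ℕ) => p.1.2) :=
    Primrec.snd.comp Primrec.fst
  exact e1.pair (e2.pair (e3.pair Primrec.snd))

end gen2

theorem primrec_four {α σ : Type} [Primcodable α] [Primcodable σ] {f1 f2 f3 f4 : α → σ}
    (h1 : Primrec f1) (h2 : Primrec f2) (h3 : Primrec f3) (h4 : Primrec f4) :
    Primrec (fun x => [f1 x, f2 x, f3 x, f4 x]) :=
  Primrec.list_cons.comp h1 (Primrec.list_cons.comp h2 (Primrec.list_cons.comp h3
    (Primrec.list_cons.comp h4 (Primrec.const []))))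

theorem primrec_edge {α : Type} [Primcodable α] {r : ℕ} (l : Fin r) {f g : α → ℕ}
    (hf : Primrec f) (hg : Primrec g) : Primrec (fun x => (f x, l, g x)) :=
  hf.pair ((Primrec.const l).pair hg)

/-- the transitions out of one state -/
def PFam.row {m : ℕ} (A : PFam m) {r : ℕ} (a b c d : Fin r) (n : ℕ) (x : LS) (y : RS m) :
    List (ℕ × Fin r × ℕ) :=
  [(cod x y, a, cod (x.step m (A.Q n + 2) true) y),
   (cod x y, c, cod (x.step m (A.Q n + 2) false) y),
   (cod x y, b, cod x (RS.step m y true)),
   (cod x y, d, cod x (RS.step m y false))]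

theorem PFam.primrec_row {m : ℕ} (A : PFam m) {r : ℕ} (a b c d : Fin r) {α : Type}
    [Primcodable α] {fn : α → ℕ} {fx : α → LS} {fy : α → RS m} (hn : Primrec fn)
    (hx : Primrec fx) (hy : Primrec fy) :
    Primrec (fun z => A.row a b c d (fn z) (fx z) (fy z)) := by
  have hQ : Primrec (fun z => A.Q (fn z) + 2) :=
    Primrec.nat_add.comp (A.Qp.comp hn) (Primrec.const 2)
  exact primrec_four
    (primrec_edge a (primrec_cod hx hy) (primrec_cod (primrec_LSstep hQ hx true) hy))
    (primrec_edge c (primrec_cod hx hy) (primrec_cod (primrec_LSstep hQ hx false) hy))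
    (primrec_edge b (primrec_cod hx hy) (primrec_cod hx (primrec_RSstep hy true)))
    (primrec_edge d (primrec_cod hx hy) (primrec_cod hx (primrec_RSstep hy false)))

/-- the final state of one state, if it is one -/
def PFam.fin? {m : ℕ} (A : PFam m) (n : ℕ) (x : LS) (y : RS m) : Option ℕ :=
  bif A.acc n x y then some (cod x y) else none

theorem PFam.primrec_accd {m : ℕ} (A : PFam m) {α : Type}
    [Primcodable α] {fn : α → ℕ} {fx : α → LS} {fy : α → RS m} (hn : Primrec fn)
    (hx : Primrec fx) (hy : Primrec fy) :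
    Primrec (fun z => A.acc (fn z) (fx z) (fy z)) :=
  A.accc hn (Primrec.fst.comp hx) (Primrec.fst.comp (Primrec.snd.comp hx))
    (Primrec.fst.comp (Primrec.snd.comp (Primrec.snd.comp hx)))
    (Primrec.snd.comp (Primrec.snd.comp (Primrec.snd.comp hx))) hy

theorem PFam.primrec_fin? {m : ℕ} (A : PFam m) {α : Type}
    [Primcodable α] {fn : α → ℕ} {fx : α → LS} {fy : α → RS m} (hn : Primrec fn)
    (hx : Primrec fx) (hy : Primrec fy) :
    Primrec (fun z => A.fin? (fn z) (fx z) (fy z)) :=
  Primrec.cond (A.primrec_accd hn hx hy) (Primrec.option_some.comp (primrec_cod hx hy))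
    (Primrec.const none)

theorem PFam.fin?_eq {m : ℕ} (A : PFam m) (n : ℕ) (x : LS) (y : RS m) :
    A.fin? n x y = if A.acc n x y = true then some (cod x y) else none := by
  unfold PFam.fin?
  cases A.acc n x y <;> rfl

theorem PFam.computable_pres {m : ℕ} (A : PFam m) {r : ℕ} (a b c d : Fin r) :
    Computable (A.pres a b c d) := by
  have hQ : Primrec (fun n => A.Q n + 2) := Primrec.nat_add.comp A.Qp (Primrec.const 2)
  have hL : Primrec (fun n => allLS m (A.Q n + 2)) := primrec_allLS hQ
  have en : Primrec (fun p : ((ℕ × LS) × RS m) => p.1.1) := Primrec.fst.comp Primrec.fst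
  have ex : Primrec (fun p : ((ℕ × LS) × RS m) => p.1.2) := Primrec.snd.comp Primrec.fst
  have ey : Primrec (fun p : ((ℕ × LS) × RS m) => p.2) := Primrec.snd
  have hrow : Primrec₂ (fun (p : ℕ × LS) (y : RS m) => A.row a b c d p.1 p.2 y) :=
    A.primrec_row a b c d en ex ey
  have hrow2 : Primrec₂ (fun (n : ℕ) (x : LS) => (allRS m).flatMap fun y => A.row a b c d n x y) :=
    Primrec.list_flatMap (f := fun _ : ℕ × LS => allRS m) (Primrec.const (allRS m)) hrow
  have hT : Primrec (fun n => (allLS m (A.Q n + 2)).flatMap fun x => (allRS m).flatMap fun y =>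
      A.row a b c d n x y) := Primrec.list_flatMap hL hrow2
  have hfin : Primrec₂ (fun (p : ℕ × LS) (y : RS m) => A.fin? p.1 p.2 y) :=
    A.primrec_fin? en ex ey
  have hfin2 : Primrec₂ (fun (n : ℕ) (x : LS) => (allRS m).filterMap fun y => A.fin? n x y) :=
    Primrec.listFilterMap (f := fun _ : ℕ × LS => allRS m) (Primrec.const (allRS m)) hfin
  have hF : Primrec (fun n => (allLS m (A.Q n + 2)).flatMap fun x => (allRS m).filterMap fun y =>
      A.fin? n x y) := Primrec.list_flatMap hL hfin2
  have hmain := hT.pair ((Primrec.const (cod (0, 0, 0, 0) (some (0, none) : RS m))).pair hF)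
  refine (hmain.of_eq ?_).to_comp
  intro n
  simp only [PFam.fin?_eq]
  rfl

end Star60
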