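import Pool.Agent.Star60.PresDef
import Pool.Agent.Star60.AlgClosure

/-!
MP_1b5989_lc, module PRESLANG: the instance automaton is valid and presents the embedded language.
-/

namespace Star60

/-! ### the left automaton -/

/-- no factor `a c^k a` (`k ≥ 1`) in `c^i a^j c^l` -/
theorem not_infix_caca (k i j l : ℕ) (hk : 1 ≤ k) :
    ¬ (true :: (cw k ++ [true])) <:+: cw i ++ (aw j ++ cw l) := by
  intro h
  rcases infix_aw k _ hk _ (infix_cw k _ _ h) with h | h
  · exact true_notMem_cw l (h.subset List.mem_cons_self)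
  · exact true_notMem_cw l (h.subset (by simp))

theorem suffix_cw_inj (z : List Bool) (k t : ℕ) (h : true :: cw k <:+ z ++ true :: cw t) :
    k = t := by
  rw [← List.reverse_prefix] at h
  obtain ⟨s, hs⟩ := h
  have hr : ∀ n, (cw n).reverse = cw n := fun n => by simp [cw]
  rw [List.reverse_cons, List.reverse_append, List.reverse_cons, hr, hr, List.append_assoc,
    List.append_assoc] at hs
  exact (cw_true_inj _ _ _ _ hs).1

theorem infix_concat_true (w x : List Bool) (h : w ++ [true] <:+: x ++ [true]) :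
    w ++ [true] <:+: x ∨ w <:+ x := by
  rw [List.infix_concat_iff] at h
  rcases h with h | h
  · right
    rw [List.suffix_concat_iff] at h
    rcases h with h | ⟨t, h1, h2⟩
    · simp at h
    · rw [List.append_left_inj] at h1
      rwa [h1]
  · exact Or.inl h

theorem infix_concat_false (w x : List Bool) (h : w ++ [true] <:+: x ++ [false]) :
    w ++ [true] <:+: x := by
  rw [List.infix_concat_iff] at h
  rcases h with h | h
  · rw [List.suffix_concat_iff] at h
    rcases h with h | ⟨t, h1, h2⟩
    · simp at h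
    · exfalso
      have := congrArg List.getLast? h1
      simp at this
  · exact h

/-- invariant of the left automaton -/
def LInv (m N : ℕ) (x : List Bool) (st : LS) : Prop :=
  (∃ k, x = cw k ∧ st = (0, min k (N + 1), 0, 0)) ∨
  (∃ k i t, 1 ≤ i ∧ x = cw k ++ (aw i ++ cw t) ∧
    st = (1, min k (N + 1), min i (m + 1), min t (N + 1))) ∨
  (∃ z t, x = z ++ true :: cw t ∧ ¬ JJ N x ∧ (true :: (cw N ++ [true])) <:+: x ∧
    st = (2, 0, 0, min t (N + 1))) ∨
  (JJ N x ∧ st = (3, 0, 0, 0))

theorem LInv_run {m : ℕ} (N : ℕ) (hN : 1 ≤ N) (x : List Bool) :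
    LInv m N x (x.foldl (LS.step m N) (0, 0, 0, 0)) := by
  induction x using List.reverseRecOn with
  | nil => left; exact ⟨0, rfl, by simp⟩
  | append_singleton x l ih =>
    rw [List.foldl_append, List.foldl_cons, List.foldl_nil]
    rcases ih with ⟨k, h1, h2⟩ | ⟨k, i, t, hi, h1, h2⟩ | ⟨z, t, h1, hJ, hf, h2⟩ | ⟨hJ, h2⟩
    · rw [h2]
      cases l with
      | false =>
        left
        refine ⟨k + 1, ?_, ?_⟩
        · rw [h1, cw_add]; rfl
        · simp only [LS.step, LS.c, Bool.false_eq_true, if_false, if_true]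
          congr 2; omega
      | true =>
        right; left
        refine ⟨k, 1, 0, le_refl _, ?_, ?_⟩
        · rw [h1]; rfl
        · simp only [LS.step, LS.a, if_true]
          have h3 : min 1 (m + 1) = 1 := by omega
          have h4 : min 0 (N + 1) = 0 := by omega
          rw [h3, h4]
    · rw [h2]
      cases l with
      | false =>
        right; left
        refine ⟨k, i, t + 1, hi, ?_, ?_⟩
        · rw [h1, cw_add]; simp [cw]
        · simp only [LS.step, LS.c, Bool.false_eq_true, if_false, one_ne_zero, if_true]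
          have h3 : min (min t (N + 1) + 1) (N + 1) = min (t + 1) (N + 1) := by omega
          rw [h3]
      | true =>
        by_cases ht : t = 0
        · subst ht
          right; left
          refine ⟨k, i + 1, 0, by omega, ?_, ?_⟩
          · rw [h1, aw_succ']; simp [cw]
          · simp only [LS.step, LS.a, if_true, one_ne_zero, if_false, Nat.zero_min]
            have h3 : min (min i (m + 1) + 1) (m + 1) = min (i + 1) (m + 1) := by omega
            rw [h3]
        · have h0 : min t (N + 1) ≠ 0 := by omega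
          obtain ⟨j, rfl⟩ : ∃ j, i = j + 1 := ⟨i - 1, by omega⟩
          have hfac : (true :: (cw t ++ [true])) <:+: x ++ [true] := by
            refine ⟨cw k ++ aw j, [], ?_⟩
            rw [h1, aw_succ']
            simp
          by_cases htN : t = N
          · subst htN
            right; right; left
            refine ⟨x, 0, by simp [cw], ?_, hfac, ?_⟩
            · rintro ⟨k', hk', hkN, h⟩
              rw [← List.cons_append] at h
              rcases infix_concat_true _ _ h with h | h
              · rw [h1] at h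
                exact not_infix_caca k' _ _ _ hk' h
              · apply hkN
                rw [h1, aw_succ'] at h
                apply suffix_cw_inj (cw k ++ aw j) k' t
                simpa using h
            · have h3 : min t (t + 1) = t := by omega
              simp only [LS.step, LS.a, if_true, one_ne_zero, if_false, h3]
              rw [if_neg ht]
              simp
          · right; right; right
            refine ⟨⟨t, by omega, htN, hfac⟩, ?_⟩
            have h3 : min t (N + 1) ≠ N := by omega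
            simp only [LS.step, LS.a, if_true, one_ne_zero, if_false]
            rw [if_neg h0, if_neg h3]
    · rw [h2]
      cases l with
      | false =>
        right; right; left
        refine ⟨z, t + 1, ?_, ?_, ?_, ?_⟩
        · rw [h1, cw_add]; simp [cw]
        · rintro ⟨k', hk', hkN, h⟩
          apply hJ
          rw [← List.cons_append] at h
          exact ⟨k', hk', hkN, infix_concat_false _ _ h⟩
        · exact hf.trans (List.prefix_append _ _).isInfix
        · simp only [LS.step, LS.c, Bool.false_eq_true, if_false, if_true, OfNat.ofNat_ne_zero,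
            OfNat.ofNat_ne_one]
          have h3 : min (min t (N + 1) + 1) (N + 1) = min (t + 1) (N + 1) := by omega
          rw [h3]
      | true =>
        by_cases ht : t = 0 ∨ t = N
        · right; right; left
          refine ⟨x, 0, by simp [cw], ?_, hf.trans (List.prefix_append _ _).isInfix, ?_⟩
          · rintro ⟨k', hk', hkN, h⟩
            rw [← List.cons_append] at h
            rcases infix_concat_true _ _ h with h | h
            · exact hJ ⟨k', hk', hkN, h⟩
            · rw [h1] at h
              have := suffix_cw_inj _ _ _ h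
              omega
          · simp only [LS.step, LS.a, if_true, OfNat.ofNat_ne_zero, OfNat.ofNat_ne_one, if_false]
            rw [if_pos (by omega)]
            simp
        · right; right; right
          refine ⟨⟨t, by omega, by omega, ?_⟩, ?_⟩
          · refine ⟨z, [], ?_⟩
            rw [h1]; simp
          · simp only [LS.step, LS.a, if_true, OfNat.ofNat_ne_zero, OfNat.ofNat_ne_one, if_false]
            rw [if_neg (by omega)]
    · rw [h2]
      right; right; right
      refine ⟨hJ.append_right _, ?_⟩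
      cases l <;> simp [LS.step, LS.a, LS.c]

/-- the left automaton -/
theorem left_J {m : ℕ} (N : ℕ) (hN : 1 ≤ N) (x : List Bool) :
    (x.foldl (LS.step m N) (0, 0, 0, 0)).1 = 3 ↔ JJ N x := by
  rcases LInv_run (m := m) N hN x with ⟨k, h1, h2⟩ | ⟨k, i, t, hi, h1, h2⟩ | ⟨z, t, h1, hJ, hf, h2⟩ |
    ⟨hJ, h2⟩
  · rw [h2]
    refine ⟨fun h => by simp at h, ?_⟩
    rintro ⟨k', hk', hkN, h⟩
    rw [h1] at h
    exact absurd (h.subset List.mem_cons_self) (true_notMem_cw k)
  · rw [h2]
    refine ⟨fun h => by simp at h, ?_⟩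
    rintro ⟨k', hk', hkN, h⟩
    rw [h1] at h
    exact absurd h (not_infix_caca k' _ _ _ hk')
  · rw [h2]
    exact ⟨fun h => by simp at h, fun h => absurd h hJ⟩
  · rw [h2]
    exact ⟨fun _ => hJ, fun _ => rfl⟩

theorem left_one {m : ℕ} (N : ℕ) (hN : 1 ≤ N) (x : List Bool) (p q : ℕ) (i : Fin m) (hp : p < N)
    (hq : q < N) :
    x.foldl (LS.step m N) (0, 0, 0, 0) = (1, N - p, (i : ℕ) + 1, q) ↔ x = xw N p [i] q := by
  have hx : xw N p [i] q = cw (N - p) ++ (aw ((i : ℕ) + 1) ++ cw q) := by
    simp [xw, gam]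
  rw [hx]
  rcases LInv_run (m := m) N hN x with ⟨k, h1, h2⟩ | ⟨k, j, t, hi, h1, h2⟩ | ⟨z, t, h1, hJ, hf, h2⟩ |
    ⟨hJ, h2⟩
  · rw [h2]
    refine ⟨fun h => by simp at h, fun h => ?_⟩
    exfalso
    rw [h1] at h
    apply true_notMem_cw k
    rw [h, aw_succ]
    simp
  · rw [h2]
    constructor
    · intro h
      simp only [Prod.mk.injEq, true_and] at h
      obtain ⟨h3, h4, h5⟩ := h
      have hi' := i.2
      have e1 : k = N - p := by omega
      have e2 : j = (i : ℕ) + 1 := by omega
      have e3 : t = q := by omega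
      rw [h1, e1, e2, e3]
    · intro h
      rw [h1] at h
      obtain ⟨j', rfl⟩ : ∃ j', j = j' + 1 := ⟨j - 1, by omega⟩
      rw [aw_succ, aw_succ, List.cons_append, List.cons_append] at h
      obtain ⟨e1, e2⟩ := cw_true_inj _ _ _ _ h
      have hst : ∀ n, StC (cw n) := by
        intro n
        cases n with
        | zero => left; rfl
        | succ n => right; exact ⟨cw n, rfl⟩
      obtain ⟨e3, e4⟩ := aw_inj _ _ _ _ (hst t) (hst q) e2
      have e5 : t = q := by simpa [cw] using congrArg List.length e4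
      have hi' := i.2
      simp only [Prod.mk.injEq, true_and]
      refine ⟨by omega, by omega, by omega⟩
  · rw [h2]
    refine ⟨fun h => by simp at h, fun h => ?_⟩
    exfalso
    rw [h] at hf
    exact not_infix_caca N _ _ _ hN hf
  · rw [h2]
    refine ⟨fun h => by simp at h, fun h => ?_⟩
    exfalso
    obtain ⟨k', hk', hkN, h3⟩ := hJ
    rw [h] at h3
    exact not_infix_caca k' _ _ _ hk' h3


/-! ### the right automaton -/

theorem infOf_append_singleton {m : ℕ} (w : List (Fin m)) (j : Fin m) :
    infOf (w ++ [j]) = match infOf w with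
      | none => some (j, j, true)
      | some (f, _, _) => some (f, j, false) := by
  cases w with
  | nil => rfl
  | cons i w => simp [infOf]

theorem right_aw {m : ℕ} (inf : Inf m) : ∀ (l : ℕ) (k : Fin (m + 1)) (h : (k : ℕ) + l < m + 1),
    (aw l).foldl (RS.step m) (some (k, inf)) = some (⟨k + l, h⟩, inf)
  | 0, k, h => by simp [aw]
  | l + 1, k, h => by
      rw [aw_succ, List.foldl_cons]
      have h1 : RS.step m (some (k, inf)) true = some (⟨k + 1, by omega⟩, inf) := by
        simp only [RS.step, if_true]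
        rw [dif_pos (by omega)]
      rw [h1, right_aw inf l ⟨k + 1, by omega⟩ (by simp only; omega)]
      congr 2
      apply Fin.ext
      simp only
      omega

theorem right_run {m : ℕ} (v : List (Fin m)) :
    (enc v).foldl (RS.step m) (some (0, none)) = some (0, infOf v) := by
  induction v using List.reverseRecOn with
  | nil => rfl
  | append_singleton w j ih =>
    have h1 : enc (w ++ [j]) = enc w ++ (aw ((j : ℕ) + 1) ++ [false]) := by
      rw [enc_append]
      simp [enc, aw]
    rw [h1, List.foldl_append, ih, List.foldl_append,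
      right_aw _ _ _ (by simp only [Fin.val_zero]; omega), infOf_append_singleton]
    simp only [List.foldl_cons, List.foldl_nil, RS.step, Bool.false_eq_true, if_false]
    rw [dif_pos (by simp)]
    simp only [Fin.val_zero, Nat.zero_add, Nat.add_sub_cancel]
    rcases infOf w with _ | ⟨f, g, b⟩ <;> rfl

theorem right_some {m : ℕ} (y : List Bool) : ∀ (k : Fin (m + 1)) (inf : Inf m),
    y.foldl (RS.step m) (some (0, none)) = some (k, inf) →
      ∃ v : List (Fin m), y = enc v ++ aw k ∧ infOf v = inf := by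
  induction y using List.reverseRecOn with
  | nil =>
    intro k inf h
    simp only [List.foldl_nil, Option.some.injEq, Prod.mk.injEq] at h
    refine ⟨[], ?_, ?_⟩
    · rw [← h.1]; rfl
    · rw [← h.2]; rfl
  | append_singleton y l ih =>
    intro k inf h
    rw [List.foldl_append, List.foldl_cons, List.foldl_nil] at h
    rcases hst : y.foldl (RS.step m) (some (0, none)) with _ | ⟨k', inf'⟩
    · rw [hst] at h
      simp [RS.step] at h
    · obtain ⟨v, h1, h2⟩ := ih k' inf' hst
      rw [hst] at h
      cases l with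
      | true =>
        simp only [RS.step, if_true] at h
        by_cases hk : (k' : ℕ) < m
        · rw [dif_pos hk] at h
          simp only [Option.some.injEq, Prod.mk.injEq] at h
          refine ⟨v, ?_, ?_⟩
          · rw [← h.1, aw_succ', h1]; simp
          · rw [h2, h.2]
        · rw [dif_neg hk] at h
          simp at h
      | false =>
        simp only [RS.step, Bool.false_eq_true, if_false] at h
        by_cases hk : 0 < (k' : ℕ)
        · rw [dif_pos hk] at h
          simp only [Option.some.injEq, Prod.mk.injEq] at h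
          refine ⟨v ++ [⟨k' - 1, by omega⟩], ?_, ?_⟩
          · rw [← h.1, enc_append, h1]
            have e : (k' : ℕ) - 1 + 1 = k' := by omega
            simp [enc, aw, e]
          · rw [← h.2, infOf_append_singleton, h2]
            rcases inf' with _ | ⟨f, g, b⟩ <;> rfl
        · rw [dif_neg hk] at h
          simp at h

/-- the right automaton -/
theorem right_enc {m : ℕ} (y : List Bool) (inf : Inf m) :
    y.foldl (RS.step m) (some (0, none)) = some (0, inf) ↔
      ∃ v : List (Fin m), y = enc v ∧ infOf v = inf := by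
  constructor
  · intro h
    obtain ⟨v, h1, h2⟩ := right_some y 0 inf h
    exact ⟨v, by simpa [aw] using h1, h2⟩
  · rintro ⟨v, rfl, rfl⟩
    exact right_run v

theorem PFam.yN_iff {m : ℕ} (A : PFam m) (n : ℕ) (p q : TS (A.Q n)) (i : Fin m)
    (v : List (Fin m)) : A.yN n p.num i q.num (infOf v) = true ↔ (A.ea n).Y p i q v := by
  cases p with
  | s0 =>
    cases q with
    | s0 => simp [PFam.yN, EA.Y, TS.num]
    | f => simp [PFam.yN, EA.Y, TS.num]
    | mid q =>
      induction v using List.reverseRecOn with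
      | nil => simp [PFam.yN, EA.Y, TS.num, infOf]
      | append_singleton w j _ =>
        have h : ∃ f b, infOf (w ++ [j]) = some (f, j, b) := by
          rw [infOf_append_singleton]
          rcases infOf w with _ | ⟨f, g, b⟩
          · exact ⟨_, _, rfl⟩
          · exact ⟨_, _, rfl⟩
        obtain ⟨f, b, h⟩ := h
        rw [h]
        simp only [PFam.yN, EA.Y, TS.num, PFam.ea]
        rw [if_neg (by omega), if_neg (by omega), if_pos trivial, if_neg (by omega)]
        simp only [decide_eq_true_eq]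
        constructor
        · intro h
          exact ⟨w, j, rfl, Fin.ext (by simpa using h)⟩
        · rintro ⟨w', j', h1, h2⟩
          have h3 : j = j' := by
            have := congrArg List.getLast? h1
            simpa using this
          subst h3
          have := congrArg Fin.val h2
          simpa using this
  | f => simp [PFam.yN, EA.Y, TS.num]
  | mid p =>
    cases q with
    | s0 => simp [PFam.yN, EA.Y, TS.num]
    | f =>
      cases v with
      | nil => simp [PFam.yN, EA.Y, TS.num, infOf]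
      | cons j w =>
        simp only [PFam.yN, EA.Y, TS.num, PFam.ea, infOf]
        rw [if_neg (by omega), if_neg (by omega), if_neg (by omega), if_pos trivial]
        constructor
        · intro h
          exact ⟨j, w, rfl, by simpa using h⟩
        · rintro ⟨j', w', h1, h2⟩
          obtain ⟨rfl, rfl⟩ := List.cons.inj h1
          simpa using h2
    | mid q =>
      cases v with
      | nil => simp [PFam.yN, EA.Y, TS.num, infOf]
      | cons j w =>
        simp only [PFam.yN, EA.Y, TS.num, PFam.ea, infOf]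
        rw [if_neg (by omega), if_neg (by omega), if_neg (by omega), if_neg (by omega)]
        simp only [Bool.and_eq_true, List.isEmpty_iff, decide_eq_true_eq]
        constructor
        · rintro ⟨h1, h2⟩
          exact ⟨j, by rw [h1], Fin.ext (by simpa using h2)⟩
        · rintro ⟨j', h1, h2⟩
          obtain ⟨rfl, rfl⟩ := List.cons.inj h1
          have := congrArg Fin.val h2
          exact ⟨rfl, by simpa using this⟩

theorem exists_num {Q k : ℕ} (h : k < Q + 2) : ∃ p : TS Q, p.num = k := by
  match k, h with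
  | 0, _ => exact ⟨TS.s0, rfl⟩
  | 1, _ => exact ⟨TS.f, rfl⟩
  | k + 2, h => exact ⟨TS.mid ⟨k, by omega⟩, rfl⟩

/-- acceptance of the product automaton -/
theorem PFam.acc_iff {m : ℕ} (A : PFam m) (n : ℕ) (w : FreeMonoid Bool × FreeMonoid Bool) :
    A.acc n (w.1.toList.foldl (LS.step m (A.Q n + 2)) (0, 0, 0, 0))
      (w.2.toList.foldl (RS.step m) (some (0, none))) = true ↔ w ∈ (A.ea n).L := by
  have hN : 1 ≤ A.Q n + 2 := by omega
  constructor
  · intro h
    by_cases h3 : (w.1.toList.foldl (LS.step m (A.Q n + 2)) (0, 0, 0, 0)).1 = 3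
    · left
      exact (left_J _ hN _).1 h3
    · right
      rcases hx : w.1.toList.foldl (LS.step m (A.Q n + 2)) (0, 0, 0, 0) with ⟨fl, s, i, t⟩
      rw [hx] at h h3
      unfold PFam.acc at h
      rw [if_neg h3] at h
      simp only at h
      split_ifs at h with h4 h5
      obtain ⟨rfl, h6, h7, h8⟩ := h4
      obtain ⟨p, hp⟩ := exists_num (Q := A.Q n) (k := A.Q n + 2 - s) (by omega)
      obtain ⟨q, hq⟩ := exists_num (Q := A.Q n) (k := t) h8
      rcases hy : w.2.toList.foldl (RS.step m) (some (0, none)) with _ | ⟨k, inf⟩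
      · rw [hy] at h
        simp at h
      · rw [hy] at h
        simp only [Bool.and_eq_true, decide_eq_true_eq] at h
        obtain ⟨rfl, h⟩ := h
        obtain ⟨v, h9, h10⟩ := (right_enc _ inf).1 hy
        refine ⟨p, ⟨i - 1, by omega⟩, q, v, ?_, h9, ?_⟩
        · refine (left_one (m := m) (A.Q n + 2) hN _ p.num q.num ⟨i - 1, by omega⟩ ?_ ?_).1 ?_
          · rw [hp]; omega
          · rw [hq]; exact h8
          · rw [hx, hp, hq]
            congr 2
            · omega
            · congr 1
              simp only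
              omega
        · rw [← A.yN_iff, h10, hp, hq]
          exact h
  · rintro (h | ⟨p, i, q, v, h1, h2, h3⟩)
    · unfold PFam.acc
      rw [if_pos ((left_J (m := m) _ hN _).2 h)]
    · have h4 := (left_one (m := m) (A.Q n + 2) hN _ p.num q.num i (num_lt p) (num_lt q)).2 h1
      rw [h4, h2, right_run]
      have hp : p.num < A.Q n + 2 := num_lt p
      have hq : q.num < A.Q n + 2 := num_lt q
      have hi := i.2
      unfold PFam.acc
      rw [if_neg (by simp)]
      rw [if_pos ⟨rfl, by simp only; omega, by simp only; omega, by simp only; omega⟩]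
      rw [dif_pos ⟨by simp only; omega, by simp only; omega⟩]
      simp only [decide_true, Bool.true_and]
      have e1 : A.Q n + 2 - (A.Q n + 2 - p.num) = p.num := by omega
      have e2 : (⟨(i : ℕ) + 1 - 1, by omega⟩ : Fin m) = i := Fin.ext (by simp)
      rw [e1, e2]
      exact (A.yN_iff n p q i v).2 h3


/-! ### the presentation -/

theorem mem_allLS {m N : ℕ} (x : LS) :
    x ∈ allLS m N ↔ x.1 < 4 ∧ x.2.1 < N + 2 ∧ x.2.2.1 < m + 2 ∧ x.2.2.2 < N + 2 := by
  obtain ⟨fl, s, i, t⟩ := x
  simp only [allLS, List.mem_flatMap, List.mem_range, List.mem_map, Prod.mk.injEq]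
  constructor
  · rintro ⟨_, h1, _, h2, _, h3, _, h4, rfl, rfl, rfl, rfl⟩
    exact ⟨h1, h2, h3, h4⟩
  · rintro ⟨h1, h2, h3, h4⟩
    exact ⟨_, h1, _, h2, _, h3, _, h4, rfl, rfl, rfl, rfl⟩

theorem mem_allRS {m : ℕ} (y : RS m) : y ∈ allRS m := by
  rcases y with _ | ⟨k, inf⟩
  · simp [allRS]
  · simp only [allRS, List.mem_cons, List.mem_map, List.mem_flatMap, List.mem_finRange, true_and]
    right
    refine ⟨(k, inf), ⟨k, ?_⟩, rfl⟩
    rcases inf with _ | ⟨f, l, b⟩
    · left; rfl
    · right
      refine ⟨f, l, ?_⟩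
      cases b <;> simp

theorem step_mem_allLS {m N : ℕ} {x : LS} (h : x ∈ allLS m N) (l : Bool) :
    x.step m N l ∈ allLS m N := by
  rw [mem_allLS] at h ⊢
  obtain ⟨fl, s, i, t⟩ := x
  simp only at h
  cases l
  · simp only [LS.step, LS.c, Bool.false_eq_true, if_false]
    split_ifs <;> simp only <;> omega
  · simp only [LS.step, LS.a, if_true]
    split_ifs <;> simp only <;> omega

theorem cod_inj {m : ℕ} {x x' : LS} {y y' : RS m} (h : cod x y = cod x' y') :
    x = x' ∧ y = y' := by
  have := Encodable.encode_injective h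
  simpa using this

theorem PFam.mem_trans {m : ℕ} (A : PFam m) {r : ℕ} (a b c d : Fin r) (n p : ℕ) (l : Fin r)
    (q : ℕ) : (p, l, q) ∈ (A.pres a b c d n).1 ↔
      ∃ x ∈ allLS m (A.Q n + 2), ∃ y : RS m, p = cod x y ∧
        ((l = a ∧ q = cod (x.step m (A.Q n + 2) true) y) ∨
         (l = c ∧ q = cod (x.step m (A.Q n + 2) false) y) ∨
         (l = b ∧ q = cod x (RS.step m y true)) ∨
         (l = d ∧ q = cod x (RS.step m y false))) := by
  simp only [PFam.pres, List.mem_flatMap, List.mem_cons, Prod.mk.injEq, List.not_mem_nil, or_false]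
  constructor
  · rintro ⟨x, hx, y, hy, h⟩
    refine ⟨x, hx, y, ?_, ?_⟩
    · rcases h with h | h | h | h <;> exact h.1
    · rcases h with h | h | h | h
      · exact Or.inl h.2
      · exact Or.inr (Or.inl h.2)
      · exact Or.inr (Or.inr (Or.inl h.2))
      · exact Or.inr (Or.inr (Or.inr h.2))
  · rintro ⟨x, hx, y, hp, h⟩
    refine ⟨x, hx, y, mem_allRS y, ?_⟩
    rcases h with h | h | h | h
    · exact Or.inl ⟨hp, h⟩
    · exact Or.inr (Or.inl ⟨hp, h⟩)
    · exact Or.inr (Or.inr (Or.inl ⟨hp, h⟩))
    · exact Or.inr (Or.inr (Or.inr ⟨hp, h⟩))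

theorem PFam.mem_final {m : ℕ} (A : PFam m) {r : ℕ} (a b c d : Fin r) (n q : ℕ) :
    q ∈ (A.pres a b c d n).2.2 ↔
      ∃ x ∈ allLS m (A.Q n + 2), ∃ y : RS m, A.acc n x y = true ∧ q = cod x y := by
  simp only [PFam.pres, List.mem_flatMap, List.mem_filterMap]
  constructor
  · rintro ⟨x, hx, y, hy, h⟩
    refine ⟨x, hx, y, ?_⟩
    split_ifs at h with h1
    · exact ⟨h1, (Option.some.inj h).symm⟩
  · rintro ⟨x, hx, y, h1, h2⟩
    refine ⟨x, hx, y, mem_allRS y, ?_⟩
    rw [if_pos h1, h2]

theorem PFam.pres_valid {m : ℕ} (A : PFam m) {r : ℕ} (I : Fin r → Fin r → Prop)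
    (hirr : ∀ x, ¬ I x x) (hsymm : ∀ x y, I x y → I y x) (a b c d : Fin r)
    (hac : ¬ I a c) (hbd : ¬ I b d) (hab : a ≠ b) (had : a ≠ d) (hne : a ≠ c) (hcb : c ≠ b)
    (hcd : c ≠ d) (hne' : b ≠ d) (n : ℕ) : (A.pres a b c d n).Valid I := by
  have hab' := hab.symm
  have had' := had.symm
  have hne1 := hne.symm
  have hcb' := hcb.symm
  have hcd' := hcd.symm
  have hne2 := hne'.symm
  constructor
  · intro p l q q' h h'
    rw [A.mem_trans] at h h'
    obtain ⟨x, hx, y, h1, h2⟩ := h
    obtain ⟨x', hx', y', h1', h2'⟩ := h'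
    rw [h1] at h1'
    obtain ⟨rfl, rfl⟩ := cod_inj h1'
    rcases h2 with ⟨e, h2⟩ | ⟨e, h2⟩ | ⟨e, h2⟩ | ⟨e, h2⟩ <;>
      rcases h2' with ⟨e', h2'⟩ | ⟨e', h2'⟩ | ⟨e', h2'⟩ | ⟨e', h2'⟩ <;>
      first
        | exact h2.trans h2'.symm
        | exact absurd (e.symm.trans e') (by assumption)
  · intro p l l' q s hI h h'
    rw [A.mem_trans] at h h'
    obtain ⟨x, hx, y, h1, h2⟩ := h
    obtain ⟨x', hx', y', h1', h2'⟩ := h'
    simp only [A.mem_trans]
    rcases h2 with ⟨e, h2⟩ | ⟨e, h2⟩ | ⟨e, h2⟩ | ⟨e, h2⟩ <;>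
      rcases h2' with ⟨e', h2'⟩ | ⟨e', h2'⟩ | ⟨e', h2'⟩ | ⟨e', h2'⟩ <;>
      rw [e, e'] at hI <;>
      first
        | exact absurd hI (hirr _)
        | exact absurd hI hac
        | exact absurd hI hbd
        | exact absurd (hsymm _ _ hI) hac
        | exact absurd (hsymm _ _ hI) hbd
        | skip
    all_goals rw [h2] at h1'
    all_goals obtain ⟨rfl, rfl⟩ := cod_inj h1'
    · exact ⟨cod x (RS.step m y true), ⟨x, hx, y, h1, Or.inr (Or.inr (Or.inl ⟨e', rfl⟩))⟩,
        ⟨x, hx, _, rfl, Or.inl ⟨e, h2'⟩⟩⟩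
    · exact ⟨cod x (RS.step m y false), ⟨x, hx, y, h1, Or.inr (Or.inr (Or.inr ⟨e', rfl⟩))⟩,
        ⟨x, hx, _, rfl, Or.inl ⟨e, h2'⟩⟩⟩
    · exact ⟨cod x (RS.step m y true), ⟨x, hx, y, h1, Or.inr (Or.inr (Or.inl ⟨e', rfl⟩))⟩,
        ⟨x, hx, _, rfl, Or.inr (Or.inl ⟨e, h2'⟩)⟩⟩
    · exact ⟨cod x (RS.step m y false), ⟨x, hx, y, h1, Or.inr (Or.inr (Or.inr ⟨e', rfl⟩))⟩,
        ⟨x, hx, _, rfl, Or.inr (Or.inl ⟨e, h2'⟩)⟩⟩
    · exact ⟨cod (x.step m (A.Q n + 2) true) y, ⟨x, hx, y, h1, Or.inl ⟨e', rfl⟩⟩,
        ⟨_, step_mem_allLS hx true, y, rfl, Or.inr (Or.inr (Or.inl ⟨e, h2'⟩))⟩⟩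
    · exact ⟨cod (x.step m (A.Q n + 2) false) y, ⟨x, hx, y, h1, Or.inr (Or.inl ⟨e', rfl⟩)⟩,
        ⟨_, step_mem_allLS hx false, y, rfl, Or.inr (Or.inr (Or.inl ⟨e, h2'⟩))⟩⟩
    · exact ⟨cod (x.step m (A.Q n + 2) true) y, ⟨x, hx, y, h1, Or.inl ⟨e', rfl⟩⟩,
        ⟨_, step_mem_allLS hx true, y, rfl, Or.inr (Or.inr (Or.inr ⟨e, h2'⟩))⟩⟩
    · exact ⟨cod (x.step m (A.Q n + 2) false) y, ⟨x, hx, y, h1, Or.inr (Or.inl ⟨e', rfl⟩)⟩,
        ⟨_, step_mem_allLS hx false, y, rfl, Or.inr (Or.inr (Or.inr ⟨e, h2'⟩))⟩⟩

/-! ### traces -/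

theorem pl_tr_append {r : ℕ} (I : Fin r → Fin r → Prop) (u v : List (Fin r)) :
    tr I (u ++ v) = tr I u * tr I v := by
  simp only [tr, FreeMonoid.ofList_append]
  rfl

theorem pl_tr_comm_letter {r : ℕ} (I : Fin r → Fin r → Prop) {x y : Fin r} (h : I x y) :
    tr I [x] * tr I [y] = tr I [y] * tr I [x] := by
  rw [← pl_tr_append, ← pl_tr_append]
  exact (Con.eq _).2 (ConGen.Rel.of _ _ ⟨x, y, h, rfl, rfl⟩)

theorem pl_tr_comm {r : ℕ} (I : Fin r → Fin r → Prop) (x : Fin r) (u : List (Fin r))
    (h : ∀ y ∈ u, I x y) : tr I [x] * tr I u = tr I u * tr I [x] := by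
  induction u with
  | nil =>
    rw [← pl_tr_append, ← pl_tr_append]
    simp
  | cons y u ih =>
    have e : y :: u = [y] ++ u := rfl
    rw [e, pl_tr_append, ← mul_assoc, pl_tr_comm_letter I (h y List.mem_cons_self), mul_assoc,
      ih (fun z hz => h z (List.mem_cons_of_mem _ hz)), mul_assoc]

/-- the two tapes of a word -/
theorem exists_tapes {m N r : ℕ} (I : Fin r → Fin r → Prop)
    (hsymm : ∀ x y, I x y → I y x) (a b c d : Fin r) (hab : I a b)
    (hbc : I b c) (hcd : I c d) (hda : I d a) (T : List (ℕ × Fin r × ℕ))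
    (hT : ∀ p l q, (p, l, q) ∈ T → ∃ x ∈ allLS m N, ∃ y : RS m, p = cod x y ∧
        ((l = a ∧ q = cod (x.step m N true) y) ∨
         (l = c ∧ q = cod (x.step m N false) y) ∨
         (l = b ∧ q = cod x (RS.step m y true)) ∨
         (l = d ∧ q = cod x (RS.step m y false))))
    (w : List (Fin r)) : ∀ (x : LS) (y : RS m) (q : ℕ), RunL T (cod x y) w q →
      ∃ w1 w2 : List Bool, q = cod (w1.foldl (LS.step m N) x) (w2.foldl (RS.step m) y) ∧
        tr I w = tr I (w1.map (fun t => if t then a else c)) *
          tr I (w2.map (fun t => if t then b else d)) := by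
  have hL : ∀ (l : Fin r) (w1 : List Bool), (l = b ∨ l = d) →
      tr I [l] * tr I (w1.map (fun t => if t then a else c)) =
      tr I (w1.map (fun t => if t then a else c)) * tr I [l] := by
    intro l w1 hl
    apply pl_tr_comm
    intro y hy
    obtain ⟨t, _, ht⟩ := List.mem_map.1 hy
    rcases hl with rfl | rfl
    · cases t
      · simp only [Bool.false_eq_true, if_false] at ht
        rw [← ht]; exact hbc
      · simp only [if_true] at ht
        rw [← ht]; exact hsymm _ _ hab
    · cases t
      · simp only [Bool.false_eq_true, if_false] at ht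
        rw [← ht]; exact hsymm _ _ hcd
      · simp only [if_true] at ht
        rw [← ht]; exact hda
  induction w with
  | nil =>
    intro x y q h
    refine ⟨[], [], h.symm, ?_⟩
    rw [List.map_nil, List.map_nil, ← pl_tr_append]
    rfl
  | cons l w ih =>
    intro x y q h
    obtain ⟨p', h1, h2⟩ := h
    obtain ⟨x', hx', y', h3, h4⟩ := hT _ _ _ h1
    obtain ⟨rfl, rfl⟩ := cod_inj h3
    have e : l :: w = [l] ++ w := rfl
    rcases h4 with ⟨hl, h5⟩ | ⟨hl, h5⟩ | ⟨hl, h5⟩ | ⟨hl, h5⟩
    · rw [h5] at h2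
      obtain ⟨w1, w2, h6, h7⟩ := ih _ _ _ h2
      refine ⟨true :: w1, w2, h6, ?_⟩
      have e' : (true :: w1).map (fun t => if t then a else c) =
        [l] ++ w1.map (fun t => if t then a else c) := by simp [hl]
      rw [e, pl_tr_append, h7, e', pl_tr_append, mul_assoc]
    · rw [h5] at h2
      obtain ⟨w1, w2, h6, h7⟩ := ih _ _ _ h2
      refine ⟨false :: w1, w2, h6, ?_⟩
      have e' : (false :: w1).map (fun t => if t then a else c) =
        [l] ++ w1.map (fun t => if t then a else c) := by simp [hl]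
      rw [e, pl_tr_append, h7, e', pl_tr_append, mul_assoc]
    · rw [h5] at h2
      obtain ⟨w1, w2, h6, h7⟩ := ih _ _ _ h2
      refine ⟨w1, true :: w2, h6, ?_⟩
      have e' : (true :: w2).map (fun t => if t then b else d) =
        [l] ++ w2.map (fun t => if t then b else d) := by simp [hl]
      rw [e, pl_tr_append, h7, e', pl_tr_append, ← mul_assoc, ← mul_assoc, hL l w1 (Or.inl hl)]
    · rw [h5] at h2
      obtain ⟨w1, w2, h6, h7⟩ := ih _ _ _ h2
      refine ⟨w1, false :: w2, h6, ?_⟩
      have e' : (false :: w2).map (fun t => if t then b else d) =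
        [l] ++ w2.map (fun t => if t then b else d) := by simp [hl]
      rw [e, pl_tr_append, h7, e', pl_tr_append, ← mul_assoc, ← mul_assoc, hL l w1 (Or.inr hl)]

theorem RunL_append {r : ℕ} (T : List (ℕ × Fin r × ℕ)) (u v : List (Fin r)) :
    ∀ p q s, RunL T p u q → RunL T q v s → RunL T p (u ++ v) s := by
  induction u with
  | nil =>
    intro p q s h h'
    have : p = q := h
    rw [this]; exact h'
  | cons l u ih =>
    intro p q s h h'
    obtain ⟨p', h1, h2⟩ := h
    exact ⟨p', h1, ih _ _ _ h2 h'⟩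

theorem PFam.run_left {m : ℕ} (A : PFam m) {r : ℕ} (a b c d : Fin r) (n : ℕ) (w : List Bool) :
    ∀ (x : LS) (y : RS m), x ∈ allLS m (A.Q n + 2) →
      RunL (A.pres a b c d n).1 (cod x y) (w.map (fun t => if t then a else c))
        (cod (w.foldl (LS.step m (A.Q n + 2)) x) y) ∧
      w.foldl (LS.step m (A.Q n + 2)) x ∈ allLS m (A.Q n + 2) := by
  induction w with
  | nil => intro x y hx; exact ⟨rfl, hx⟩
  | cons l w ih =>
    intro x y hx
    obtain ⟨h1, h2⟩ := ih _ y (step_mem_allLS hx l)
    refine ⟨⟨_, ?_, h1⟩, h2⟩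
    rw [A.mem_trans]
    refine ⟨x, hx, y, rfl, ?_⟩
    cases l
    · right; left; exact ⟨rfl, rfl⟩
    · left; exact ⟨rfl, rfl⟩

theorem PFam.run_right {m : ℕ} (A : PFam m) {r : ℕ} (a b c d : Fin r) (n : ℕ) (w : List Bool) :
    ∀ (x : LS) (y : RS m), x ∈ allLS m (A.Q n + 2) →
      RunL (A.pres a b c d n).1 (cod x y) (w.map (fun t => if t then b else d))
        (cod x (w.foldl (RS.step m) y)) := by
  induction w with
  | nil => intro x y hx; exact rfl
  | cons l w ih =>
    intro x y hx
    refine ⟨_, ?_, ih x (RS.step m y l) hx⟩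
    rw [A.mem_trans]
    refine ⟨x, hx, y, rfl, ?_⟩
    cases l
    · right; right; right; exact ⟨rfl, rfl⟩
    · right; right; left; exact ⟨rfl, rfl⟩

theorem PFam.pres_lang {m : ℕ} (A : PFam m) {r : ℕ} (I : Fin r → Fin r → Prop)
    (hirr : ∀ x, ¬ I x x) (hsymm : ∀ x y, I x y → I y x) (a b c d : Fin r) (hab : I a b)
    (hbc : I b c) (hcd : I c d) (hda : I d a) (hne : a ≠ c) (hne' : b ≠ d) (n : ℕ) :
    (A.pres a b c d n).lang I = emb I a b c d '' (A.ea n).L := by
  ext t
  constructor
  · rintro ⟨w, q, hq, hw, rfl⟩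
    obtain ⟨w1, w2, h1, h2⟩ := exists_tapes (m := m) (N := A.Q n + 2) I hsymm a b c d hab hbc hcd hda
      (A.pres a b c d n).1 (fun p l q h => (A.mem_trans a b c d n p l q).1 h) w _ _ q hw
    obtain ⟨x, _, y, h3, h4⟩ := (A.mem_final a b c d n q).1 hq
    rw [h1] at h4
    obtain ⟨rfl, rfl⟩ := cod_inj h4
    refine ⟨(FreeMonoid.ofList w1, FreeMonoid.ofList w2), ?_, h2.symm⟩
    exact (A.acc_iff n _).1 h3
  · rintro ⟨w, hw, rfl⟩
    have h0 : ((0, 0, 0, 0) : LS) ∈ allLS m (A.Q n + 2) := by
      rw [mem_allLS]; simp only; omega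
    obtain ⟨h1, h2⟩ := A.run_left a b c d n w.1.toList (0, 0, 0, 0) (some (0, none)) h0
    have h3 := A.run_right a b c d n w.2.toList _ (some (0, none)) h2
    refine ⟨_, _, ?_, RunL_append _ _ _ _ _ _ h1 h3, ?_⟩
    · rw [A.mem_final]
      exact ⟨_, h2, _, (A.acc_iff n w).2 hw, rfl⟩
    · rw [pl_tr_append]
      rfl

end Star60
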