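import Pool.Agent.Star60.TrueDefs

/-!
MP_1b5989_lc, module TRUECTX: splitting pair words of the true word, the context lemma, the
structure of full cycles.  See blueprint 1 (CONTEXT LEMMA) and 1A.
-/

namespace Star60

variable {Γ : Type}

theorem pw_length (X : ℕ → ℕ → Γ) (a b l : ℕ) : (pw X a b l).length = l := by
  simp [pw]

theorem pw_getElem (X : ℕ → ℕ → Γ) (a b l t : ℕ) (ht : t < (pw X a b l).length) :
    (pw X a b l)[t] = (lam X (a + t), lam X (b + t)) := by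
  simp [pw]

/-- splitting a pair word at a letter -/
theorem pw_split (X : ℕ → ℕ → Γ) (a b l : ℕ) (y : List (Pr Γ)) (p : Pr Γ) (y' : List (Pr Γ))
    (h : pw X a b l = y ++ p :: y') :
    y = pw X a b y.length ∧ p = (lam X (a + y.length), lam X (b + y.length)) ∧
      y' = pw X (a + y.length + 1) (b + y.length + 1) y'.length ∧
      l = y.length + 1 + y'.length := by
  have hl : l = y.length + 1 + y'.length := by
    have := congrArg List.length h
    rw [pw_length] at this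
    simp at this
    omega
  have key : ∀ t (ht : t < (y ++ p :: y').length),
      (y ++ p :: y')[t] = (lam X (a + t), lam X (b + t)) := by
    intro t ht
    have h1 : t < (pw X a b l).length := by rw [h]; exact ht
    rw [← pw_getElem X a b l t h1]
    simp [h]
  refine ⟨?_, ?_, ?_, hl⟩
  · apply List.ext_getElem
    · rw [pw_length]
    · intro t h1 h2
      rw [pw_getElem]
      rw [← key t (by simp; omega)]
      rw [List.getElem_append_left h1]
  · have := key y.length (by simp)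
    simpa using this
  · apply List.ext_getElem
    · rw [pw_length]
    · intro t h1 h2
      rw [pw_getElem]
      have := key (y.length + 1 + t) (by simp; omega)
      rw [List.getElem_append_right (by omega)] at this
      have e : y.length + 1 + t - y.length = t + 1 := by omega
      simp only [e, List.getElem_cons_succ] at this
      rw [this]
      simp only [Nat.add_assoc]

/-- the pair word after a split -/
theorem pw_tail (X : ℕ → ℕ → Γ) (a b l : ℕ) (y : List (Pr Γ)) (p : Pr Γ) (y' : List (Pr Γ))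
    (h : pw X a b l = y ++ p :: y') :
    pw X (a + y.length) (b + y.length) (y'.length + 1) = p :: y' := by
  obtain ⟨-, h2, h3, -⟩ := pw_split X a b l y p y' h
  apply List.ext_getElem
  · rw [pw_length]; simp
  · intro t h4 h5
    rw [pw_getElem]
    rcases t with _ | t
    · simp [h2]
    · rw [List.getElem_cons_succ]
      have h6 : t < y'.length := by simpa using h5
      have h7 : y'[t] = (pw X (a + y.length + 1) (b + y.length + 1) y'.length)[t]'(by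
          rw [pw_length]; exact h6) := by
        congr 1
      rw [h7, pw_getElem]
      simp only [Nat.add_assoc, Nat.add_comm 1 t]

/-- inside a block the base letters only depend on the position in the block -/
theorem bet_block (K m m' t : ℕ) (ht : ¬ 4 ^ K ∣ t) :
    bet (4 ^ K * m + t) = bet (4 ^ K * m' + t) := by
  apply bet_eq_of_modEq K
  · exact ((Nat.modEq_zero_iff_dvd.2 (Dvd.intro m rfl)).trans
      (Nat.modEq_zero_iff_dvd.2 (Dvd.intro m' rfl)).symm).add_right t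
  · intro hd
    exact ht ((Nat.dvd_add_right (Dvd.intro m rfl)).1 hd)

/-- the first base-unequal position after the start -/
theorem first_nonBE (X : ℕ → ℕ → Γ) (a b l T : ℕ) (p1 : Pr Γ) (z1 : List (Pr Γ)) (p2 : Pr Γ)
    (z2 : List (Pr Γ)) (hz : pw X a b l = p1 :: (z1 ++ p2 :: z2)) (hz1 : AllBE z1)
    (h2 : ¬ BE p2) (hT : 0 < T) (hlt : ∀ t, 0 < t → t < T → bet (a + t) = bet (b + t))
    (hne : bet (a + T) ≠ bet (b + T)) :
    z1.length + 1 = T ∧ p2 = (lam X (a + T), lam X (b + T)) ∧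
      pw X (a + T) (b + T) (z2.length + 1) = p2 :: z2 := by
  have hz' : pw X a b l = (p1 :: z1) ++ p2 :: z2 := by rw [hz]; simp
  obtain ⟨e1, e2, -, -⟩ := pw_split X a b l (p1 :: z1) p2 z2 hz'
  have et := pw_tail X a b l (p1 :: z1) p2 z2 hz'
  simp only [List.length_cons] at e2 et
  have hs : z1.length + 1 = T := by
    rcases lt_trichotomy (z1.length + 1) T with hc | hc | hc
    · exfalso
      apply h2
      rw [e2]
      exact hlt _ (by omega) hc
    · exact hc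
    · exfalso
      apply hne
      have h3 : T - 1 < z1.length := by omega
      have h4 : BE z1[T - 1] := hz1 _ (List.getElem_mem h3)
      have h5 : (p1 :: z1)[T]'(by simp; omega) = (lam X (a + T), lam X (b + T)) := by
        have h6 : (p1 :: z1)[T]'(by simp; omega) =
            (pw X a b (p1 :: z1).length)[T]'(by rw [pw_length]; simp; omega) := by
          congr 1
        rw [h6, pw_getElem]
      have h7 : (p1 :: z1)[T]'(by simp; omega) = z1[T - 1] := by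
        rw [List.getElem_cons]
        simp [hT.ne']
      rw [h7] at h5
      rw [h5] at h4
      exact h4
  rw [hs] at e2 et
  exact ⟨hs, e2, et⟩

/-- base letters at block starts, offset digit 1 -/
theorem bet_start (K M u : ℕ) (hu : 1 ≤ u) (hu' : u ≤ 3) (hM : M % 4 = u) :
    bet (4 ^ K * M) = 3 * (K : ZMod 6) + u - 1 := by
  have h : M = 4 * (M / 4) + u := by omega
  rw [h]
  exact bet_form K u (M / 4) hu hu'

theorem z6_a : ∀ κ h : ZMod 6, (h = 0 ∨ h = 3) → 3 * κ + ((1 : ℕ) : ZMod 6) - 1 = h → h = 3 * κ := by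
  decide
theorem z6_b : ∀ κ h : ZMod 6, (h = 0 ∨ h = 3) → ¬ 3 * κ + ((2 : ℕ) : ZMod 6) - 1 = h := by
  decide
theorem z6_c : ∀ κ h : ZMod 6, (h = 0 ∨ h = 3) → ¬ 3 * κ + ((3 : ℕ) : ZMod 6) - 1 = h := by
  decide
theorem z6_d : ∀ κ h : ZMod 6, (h = 0 ∨ h = 3) → ¬ 3 * κ + ((1 : ℕ) : ZMod 6) - 1 = h + 1 := by
  decide
theorem z6_e : ∀ κ h : ZMod 6, (h = 0 ∨ h = 3) → 3 * κ + ((2 : ℕ) : ZMod 6) - 1 = h + 1 →
    h = 3 * κ := by
  decide
theorem z6_f : ∀ κ h : ZMod 6, (h = 0 ∨ h = 3) → ¬ 3 * κ + ((3 : ℕ) : ZMod 6) - 1 = h + 1 := by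
  decide
theorem z6_1 : ∀ h : ZMod 6, h + ((1 : ℕ) : ZMod 6) - 1 = h := by decide
theorem z6_2 : ∀ h : ZMod 6, h + ((2 : ℕ) : ZMod 6) - 1 = h + 1 := by decide
theorem z6_3 : ∀ h : ZMod 6, h + ((3 : ℕ) : ZMod 6) - 1 = h + 2 := by decide
theorem z6_ne1 : ∀ h : ZMod 6, h ≠ h + 1 := by decide
theorem z6_ne2 : ∀ h : ZMod 6, h ≠ h + 2 := by decide
theorem z6_ne12 : ∀ h : ZMod 6, h + 1 ≠ h + 2 := by decide

/-- normal form of coordinates with base letter `h` -/
theorem bet_eq_h (x : ℕ) (hx : 0 < x) (h : ZMod 6) (hh : h = 0 ∨ h = 3) (hb : bet x = h) :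
    ∃ K M : ℕ, x = 4 ^ K * M ∧ M % 4 = 1 ∧ h = 3 * (K : ZMod 6) := by
  obtain ⟨k, u, q, h1, h2, rfl⟩ := exists_form x hx
  rw [bet_form k u q h1 h2] at hb
  interval_cases u
  · exact ⟨k, 4 * q + 1, rfl, by omega, z6_a _ _ hh hb⟩
  · exact absurd hb (z6_b _ _ hh)
  · exact absurd hb (z6_c _ _ hh)

theorem bet_eq_h1 (x : ℕ) (hx : 0 < x) (h : ZMod 6) (hh : h = 0 ∨ h = 3) (hb : bet x = h + 1) :
    ∃ K M : ℕ, x = 4 ^ K * M ∧ M % 4 = 2 ∧ h = 3 * (K : ZMod 6) := by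
  obtain ⟨k, u, q, h1, h2, rfl⟩ := exists_form x hx
  rw [bet_form k u q h1 h2] at hb
  interval_cases u
  · exact absurd hb (z6_d _ _ hh)
  · exact ⟨k, 4 * q + 2, rfl, by omega, z6_e _ _ hh hb⟩
  · exact absurd hb (z6_f _ _ hh)

theorem bet_start1 (K M : ℕ) (hM : M % 4 = 1) : bet (4 ^ K * M) = 3 * (K : ZMod 6) := by
  rw [bet_start K M 1 le_rfl (by norm_num) hM, z6_1]

theorem bet_start2 (K M : ℕ) (hM : M % 4 = 2) : bet (4 ^ K * M) = 3 * (K : ZMod 6) + 1 := by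
  rw [bet_start K M 2 (by norm_num) (by norm_num) hM, z6_2]

theorem bet_start3 (K M : ℕ) (hM : M % 4 = 3) : bet (4 ^ K * M) = 3 * (K : ZMod 6) + 2 := by
  rw [bet_start K M 3 (by norm_num) le_rfl hM, z6_3]

theorem isE2_not_BE {h : ZMod 6} {p : Pr Γ} (hp : isE2 h p) : ¬ BE p := by
  intro hb
  unfold BE at hb
  rw [hp.1, hp.2] at hb
  exact z6_ne12 h hb

theorem isE1_not_BE {h : ZMod 6} {p : Pr Γ} (hp : isE1 h p) : ¬ BE p := by
  intro hb
  unfold BE at hb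
  rw [hp.1, hp.2] at hb
  exact z6_ne1 h hb

theorem isF1_not_BE {h : ZMod 6} {p : Pr Γ} (hp : isF1 h p) : ¬ BE p := by
  intro hb
  unfold BE at hb
  exact hp.2 (hb ▸ hp.1)

theorem isF2_not_BE {h : ZMod 6} {p : Pr Γ} (hp : isF2 h p) : ¬ BE p := by
  intro hb
  unfold BE at hb
  exact hp.1 (hb.trans hp.2)

theorem pw_head (X : ℕ → ℕ → Γ) (a b l : ℕ) (p : Pr Γ) (z : List (Pr Γ))
    (hz : pw X a b l = p :: z) : p = (lam X a, lam X b) := by
  have := (pw_split X a b l [] p z (by simpa using hz)).2.1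
  simpa using this

theorem not_dvd_of_lt {K t : ℕ} (h0 : 0 < t) (h1 : t < 4 ^ K) : ¬ 4 ^ K ∣ t := by
  intro hd
  exact absurd (Nat.le_of_dvd h0 hd) (by omega)

/-- CONTEXT LEMMA -/
theorem context (X : ℕ → ℕ → Γ) (a b l : ℕ) (ha : 0 < a) (hb : 0 < b) (h : ZMod 6)
    (hh : h = 0 ∨ h = 3) (p1 : Pr Γ) (z1 : List (Pr Γ)) (p2 : Pr Γ) (z2 : List (Pr Γ))
    (hz : pw X a b l = p1 :: (z1 ++ p2 :: z2)) (h1 : isE1 h p1) (h2 : isE2 h p2)
    (hz1 : AllBE z1) :
    ∃ K M M' : ℕ, h = 3 * (K : ZMod 6) ∧ M % 4 = 1 ∧ M' % 4 = 2 ∧ a = 4 ^ K * M ∧ b = 4 ^ K * M' ∧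
      z1.length = 4 ^ K - 1 := by
  have hp1 := pw_head X a b l p1 _ hz
  rw [hp1] at h1
  obtain ⟨hA, hB⟩ := h1
  simp only [lam] at hA hB
  obtain ⟨K, M, rfl, hM, hK⟩ := bet_eq_h a ha h hh hA
  obtain ⟨K', M', rfl, hM', hK'⟩ := bet_eq_h1 b hb h hh hB
  have hn2 : ¬ BE p2 := isE2_not_BE h2
  rcases lt_trichotomy K K' with hc | hc | hc
  · exfalso
    obtain ⟨e, rfl⟩ : ∃ e, K' = K + (e + 1) := ⟨K' - K - 1, by omega⟩
    have hb' : 4 ^ (K + (e + 1)) * M' = 4 ^ K * (4 * (4 ^ e * M')) := by ring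
    have hpos : 0 < 4 ^ K := by positivity
    obtain ⟨-, e2, -⟩ := first_nonBE X (4 ^ K * M) (4 ^ (K + (e + 1)) * M') l (4 ^ K) p1 z1 p2 z2 hz
      hz1 hn2 hpos (by
        intro t ht0 ht1
        rw [hb']
        exact bet_block K _ _ t (not_dvd_of_lt ht0 ht1)) (by
        have e1 : 4 ^ K * M + 4 ^ K = 4 ^ K * (M + 1) := by ring
        have e2 : 4 ^ (K + (e + 1)) * M' + 4 ^ K = 4 ^ K * (4 * (4 ^ e * M') + 1) := by
          rw [hb']; ring
        rw [e1, e2, bet_start2 K (M + 1) (by omega), bet_start1 K (4 * (4 ^ e * M') + 1) (by omega)]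
        exact (z6_ne1 _).symm)
    have e3 : 4 ^ (K + (e + 1)) * M' + 4 ^ K = 4 ^ K * (4 * (4 ^ e * M') + 1) := by
      rw [hb']; ring
    have h3 := h2.2
    rw [e2] at h3
    simp only [lam] at h3
    rw [e3, bet_start1 K (4 * (4 ^ e * M') + 1) (by omega), ← hK] at h3
    exact z6_ne2 h h3
  · subst hc
    have hpos : 0 < 4 ^ K := by positivity
    obtain ⟨e1, -, -⟩ := first_nonBE X (4 ^ K * M) (4 ^ K * M') l (4 ^ K) p1 z1 p2 z2 hz
      hz1 hn2 hpos (by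
        intro t ht0 ht1
        exact bet_block K _ _ t (not_dvd_of_lt ht0 ht1)) (by
        have e1 : 4 ^ K * M + 4 ^ K = 4 ^ K * (M + 1) := by ring
        have e2 : 4 ^ K * M' + 4 ^ K = 4 ^ K * (M' + 1) := by ring
        rw [e1, e2, bet_start2 K (M + 1) (by omega), bet_start3 K (M' + 1) (by omega)]
        exact z6_ne12 _)
    exact ⟨K, M, M', hK, hM, hM', rfl, rfl, by omega⟩
  · exfalso
    obtain ⟨e, rfl⟩ : ∃ e, K = K' + (e + 1) := ⟨K - K' - 1, by omega⟩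
    have ha' : 4 ^ (K' + (e + 1)) * M = 4 ^ K' * (4 * (4 ^ e * M)) := by ring
    have hpos : 0 < 4 ^ K' := by positivity
    obtain ⟨-, e2, -⟩ := first_nonBE X (4 ^ (K' + (e + 1)) * M) (4 ^ K' * M') l (4 ^ K') p1 z1 p2 z2
      hz hz1 hn2 hpos (by
        intro t ht0 ht1
        rw [ha']
        exact bet_block K' _ _ t (not_dvd_of_lt ht0 ht1)) (by
        have e1 : 4 ^ (K' + (e + 1)) * M + 4 ^ K' = 4 ^ K' * (4 * (4 ^ e * M) + 1) := by
          rw [ha']; ring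
        have e2 : 4 ^ K' * M' + 4 ^ K' = 4 ^ K' * (M' + 1) := by ring
        rw [e1, e2, bet_start1 K' (4 * (4 ^ e * M) + 1) (by omega), bet_start3 K' (M' + 1) (by omega)]
        exact z6_ne2 _)
    have e3 : 4 ^ (K' + (e + 1)) * M + 4 ^ K' = 4 ^ K' * (4 * (4 ^ e * M) + 1) := by
      rw [ha']; ring
    have h3 := h2.1
    rw [e2] at h3
    simp only [lam] at h3
    rw [e3, bet_start1 K' (4 * (4 ^ e * M) + 1) (by omega), ← hK'] at h3
    exact z6_ne1 h h3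

/-- the next block start is the next base-unequal position -/
theorem next1 (X : ℕ → ℕ → Γ) (K m m' l : ℕ) (p1 : Pr Γ) (z1 : List (Pr Γ)) (p2 : Pr Γ)
    (z2 : List (Pr Γ)) (hz : pw X (4 ^ K * m) (4 ^ K * m') l = p1 :: (z1 ++ p2 :: z2))
    (hz1 : AllBE z1) (h2 : ¬ BE p2) (hne : bet (4 ^ K * (m + 1)) ≠ bet (4 ^ K * (m' + 1))) :
    z1.length = 4 ^ K - 1 ∧ p2 = (lam X (4 ^ K * (m + 1)), lam X (4 ^ K * (m' + 1))) ∧
      pw X (4 ^ K * (m + 1)) (4 ^ K * (m' + 1)) (z2.length + 1) = p2 :: z2 := by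
  have hpos : 0 < 4 ^ K := by positivity
  have e1 : 4 ^ K * m + 4 ^ K = 4 ^ K * (m + 1) := by ring
  have e2 : 4 ^ K * m' + 4 ^ K = 4 ^ K * (m' + 1) := by ring
  obtain ⟨h3, h4, h5⟩ := first_nonBE X (4 ^ K * m) (4 ^ K * m') l (4 ^ K) p1 z1 p2 z2 hz
    hz1 h2 hpos (fun t ht0 ht1 => bet_block K _ _ t (not_dvd_of_lt ht0 ht1)) (by rw [e1, e2]; exact hne)
  rw [e1, e2] at h4 h5
  exact ⟨by omega, h4, h5⟩

theorem next2 (X : ℕ → ℕ → Γ) (K m m' l : ℕ) (p1 : Pr Γ) (z1 : List (Pr Γ)) (p2 : Pr Γ)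
    (z2 : List (Pr Γ)) (hz : pw X (4 ^ K * m) (4 ^ K * m') l = p1 :: (z1 ++ p2 :: z2))
    (hz1 : AllBE z1) (h2 : ¬ BE p2) (heq : bet (4 ^ K * (m + 1)) = bet (4 ^ K * (m' + 1)))
    (hne : bet (4 ^ K * (m + 2)) ≠ bet (4 ^ K * (m' + 2))) :
    p2 = (lam X (4 ^ K * (m + 2)), lam X (4 ^ K * (m' + 2))) ∧
      pw X (4 ^ K * (m + 2)) (4 ^ K * (m' + 2)) (z2.length + 1) = p2 :: z2 := by
  have hpos : 0 < 4 ^ K := by positivity
  have e1 : 4 ^ K * m + 4 ^ K * 2 = 4 ^ K * (m + 2) := by ring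
  have e2 : 4 ^ K * m' + 4 ^ K * 2 = 4 ^ K * (m' + 2) := by ring
  obtain ⟨h3, h4, h5⟩ := first_nonBE X (4 ^ K * m) (4 ^ K * m') l (4 ^ K * 2) p1 z1 p2 z2 hz
    hz1 h2 (by omega) (by
      intro t ht0 ht1
      by_cases hd : 4 ^ K ∣ t
      · obtain ⟨j, rfl⟩ := hd
        have hj : j < 2 := Nat.lt_of_mul_lt_mul_left ht1
        have hj0 : j ≠ 0 := by rintro rfl; simp at ht0
        obtain rfl : j = 1 := by omega
        have e3 : 4 ^ K * m + 4 ^ K * 1 = 4 ^ K * (m + 1) := by ring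
        have e4 : 4 ^ K * m' + 4 ^ K * 1 = 4 ^ K * (m' + 1) := by ring
        rw [e3, e4]; exact heq
      · exact bet_block K _ _ t hd) (by rw [e1, e2]; exact hne)
  rw [e1, e2] at h4 h5
  exact ⟨h4, h5⟩

theorem next3 (X : ℕ → ℕ → Γ) (K m m' l : ℕ) (p1 : Pr Γ) (z1 : List (Pr Γ)) (p2 : Pr Γ)
    (z2 : List (Pr Γ)) (hz : pw X (4 ^ K * m) (4 ^ K * m') l = p1 :: (z1 ++ p2 :: z2))
    (hz1 : AllBE z1) (h2 : ¬ BE p2) (heq : bet (4 ^ K * (m + 1)) = bet (4 ^ K * (m' + 1)))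
    (heq2 : bet (4 ^ K * (m + 2)) = bet (4 ^ K * (m' + 2)))
    (hne : bet (4 ^ K * (m + 3)) ≠ bet (4 ^ K * (m' + 3))) :
    p2 = (lam X (4 ^ K * (m + 3)), lam X (4 ^ K * (m' + 3))) ∧
      pw X (4 ^ K * (m + 3)) (4 ^ K * (m' + 3)) (z2.length + 1) = p2 :: z2 := by
  have hpos : 0 < 4 ^ K := by positivity
  have e1 : 4 ^ K * m + 4 ^ K * 3 = 4 ^ K * (m + 3) := by ring
  have e2 : 4 ^ K * m' + 4 ^ K * 3 = 4 ^ K * (m' + 3) := by ring
  obtain ⟨h3, h4, h5⟩ := first_nonBE X (4 ^ K * m) (4 ^ K * m') l (4 ^ K * 3) p1 z1 p2 z2 hz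
    hz1 h2 (by omega) (by
      intro t ht0 ht1
      by_cases hd : 4 ^ K ∣ t
      · obtain ⟨j, rfl⟩ := hd
        have hj : j < 3 := Nat.lt_of_mul_lt_mul_left ht1
        have hj0 : 1 ≤ j := by
          rcases Nat.eq_zero_or_pos j with rfl | h0
          · simp at ht0
          · exact h0
        have e3 : 4 ^ K * m + 4 ^ K * 1 = 4 ^ K * (m + 1) := by ring
        have e4 : 4 ^ K * m' + 4 ^ K * 1 = 4 ^ K * (m' + 1) := by ring
        have e5 : 4 ^ K * m + 4 ^ K * 2 = 4 ^ K * (m + 2) := by ring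
        have e6 : 4 ^ K * m' + 4 ^ K * 2 = 4 ^ K * (m' + 2) := by ring
        interval_cases j
        · rw [e3, e4]; exact heq
        · rw [e5, e6]; exact heq2
      · exact bet_block K _ _ t hd) (by rw [e1, e2]; exact hne)
  rw [e1, e2] at h4 h5
  exact ⟨h4, h5⟩

/-- the structure of a full cycle -/
theorem full_cyc (X : ℕ → ℕ → Γ) (a b l : ℕ) (ha : 0 < a) (hb : 0 < b) (h : ZMod 6)
    (hh : h = 0 ∨ h = 3) (p1 p2 p3 p4 p5 : Pr Γ) (z1 z2 z3 z4 z5 : List (Pr Γ))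
    (hz : pw X a b l = p1 :: (z1 ++ p2 :: (z2 ++ p3 :: (z3 ++ p4 :: (z4 ++ p5 :: z5)))))
    (hc : FullCyc h p1 p2 p3 p4 z1 z2 z3 z4) (h5 : isE1 h p5) :
    ∃ K M M' : ℕ, h = 3 * (K : ZMod 6) ∧ M % 4 = 1 ∧ M' % 4 = 2 ∧ a = 4 ^ K * M ∧ b = 4 ^ K * M' ∧
      z1.length = 4 ^ K - 1 ∧ z2.length = 4 ^ K - 1 ∧ z3.length = 4 ^ K - 1 ∧
      z4.length = 4 ^ K - 1 ∧ bet (4 ^ K * (M + 3)) ≠ h ∧ bet (4 ^ K * (M' + 2)) ≠ h + 2 := by
  obtain ⟨g1, g2, g3, g4, b1, b2, b3, b4⟩ := hc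
  obtain ⟨K, M, M', hK, hM, hM', rfl, rfl, hl1⟩ := context X a b l ha hb h hh p1 z1 p2 _ hz g1 g2 b1
  have m2 : bet (4 ^ K * (M + 1)) = h + 1 := by rw [bet_start2 K (M + 1) (by omega), hK]
  have m2' : bet (4 ^ K * (M' + 1)) = h + 2 := by rw [bet_start3 K (M' + 1) (by omega), hK]
  have m3 : bet (4 ^ K * (M + 2)) = h + 2 := by rw [bet_start3 K (M + 2) (by omega), hK]
  have m4' : bet (4 ^ K * (M' + 3)) = h := by rw [bet_start1 K (M' + 3) (by omega), hK]
  have m5 : bet (4 ^ K * (M + 4)) = h := by rw [bet_start1 K (M + 4) (by omega), hK]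
  have m5' : bet (4 ^ K * (M' + 4)) = h + 1 := by rw [bet_start2 K (M' + 4) (by omega), hK]
  -- after p1
  obtain ⟨-, -, t2⟩ := next1 X K M M' l p1 z1 p2 _ hz b1 (isE2_not_BE g2)
    (by rw [m2, m2']; exact z6_ne12 h)
  have n45 : bet (4 ^ K * (M + 4)) ≠ bet (4 ^ K * (M' + 4)) := by rw [m5, m5']; exact z6_ne1 h
  -- the value of V
  have hV : bet (4 ^ K * (M' + 2)) ≠ h + 2 := by
    intro hV
    by_cases hU : bet (4 ^ K * (M + 3)) = h
    · obtain ⟨r1, -⟩ := next3 X K (M + 1) (M' + 1) _ p2 z2 p3 _ t2 b2 (isF1_not_BE g3)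
        (by rw [show M + 1 + 1 = M + 2 from rfl, show M' + 1 + 1 = M' + 2 from rfl, m3, hV])
        (by rw [show M + 1 + 2 = M + 3 from rfl, show M' + 1 + 2 = M' + 3 from rfl, hU, m4'])
        n45
      have := g3.1
      rw [r1] at this
      simp only [lam] at this
      rw [show M + 1 + 3 = M + 4 from rfl, m5] at this
      exact z6_ne2 h this
    · obtain ⟨r1, t3⟩ := next2 X K (M + 1) (M' + 1) _ p2 z2 p3 _ t2 b2 (isF1_not_BE g3)
        (by rw [show M + 1 + 1 = M + 2 from rfl, show M' + 1 + 1 = M' + 2 from rfl, m3, hV])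
        (by rw [show M + 1 + 2 = M + 3 from rfl, show M' + 1 + 2 = M' + 3 from rfl, m4']; exact hU)
      obtain ⟨-, r2, -⟩ := next1 X K (M + 1 + 2) (M' + 1 + 2) _ p3 z3 p4 _ t3 b3 (isF2_not_BE g4)
        n45
      apply g4.1
      rw [r2]
      exact m5
  obtain ⟨hl2, -, t3⟩ := next1 X K (M + 1) (M' + 1) _ p2 z2 p3 _ t2 b2 (isF1_not_BE g3)
    (by rw [show M + 1 + 1 = M + 2 from rfl, show M' + 1 + 1 = M' + 2 from rfl, m3]; exact hV.symm)
  have hU : bet (4 ^ K * (M + 3)) ≠ h := by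
    intro hU
    obtain ⟨r1, -⟩ := next2 X K (M + 1 + 1) (M' + 1 + 1) _ p3 z3 p4 _ t3 b3 (isF2_not_BE g4)
      (by rw [show M + 1 + 1 + 1 = M + 3 from rfl, show M' + 1 + 1 + 1 = M' + 3 from rfl, hU, m4'])
      n45
    apply g4.1
    rw [r1]
    exact m5
  obtain ⟨hl3, -, t4⟩ := next1 X K (M + 1 + 1) (M' + 1 + 1) _ p3 z3 p4 _ t3 b3 (isF2_not_BE g4)
    (by rw [show M + 1 + 1 + 1 = M + 3 from rfl, show M' + 1 + 1 + 1 = M' + 3 from rfl, m4']; exact hU)
  obtain ⟨hl4, -, -⟩ := next1 X K (M + 1 + 1 + 1) (M' + 1 + 1 + 1) _ p4 z4 p5 _ t4 b4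
    (isE1_not_BE h5) n45
  exact ⟨K, M, M', hK, hM, hM', rfl, rfl, hl1, hl2, hl3, hl4, hU, hV⟩

/-- the positions of the `e1`s: after an `e1` and a cycle segment the next `e1` is four blocks
later, and the `U`-letter of the segment is the one at `4^K (M+3)` -/
theorem cyc_seg (X : ℕ → ℕ → Γ) (K M M' l : ℕ) (hM : M % 4 = 1) (hM' : M' % 4 = 2) (p p' : Pr Γ)
    (w w' : List (Pr Γ)) (hz : pw X (4 ^ K * M) (4 ^ K * M') l = p :: (w ++ p' :: w'))
    (hp' : isE1 (3 * (K : ZMod 6)) p') (hw : ∀ q ∈ w, ¬ isE1 (3 * (K : ZMod 6)) q) :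
    w.length = 4 ^ (K + 1) - 1 ∧
      ∀ a : ℕ, 1 ≤ a → a ≤ 3 → bet (4 ^ K * (M + 3)) = 3 * (K : ZMod 6) + 2 + a →
        HasU (3 * (K : ZMod 6)) a w := by
  have hpos : 0 < 4 ^ K := by positivity
  have m4' : bet (4 ^ K * (M' + 3)) = 3 * (K : ZMod 6) := bet_start1 K (M' + 3) (by omega)
  have hz' : pw X (4 ^ K * M) (4 ^ K * M') l = (p :: w) ++ p' :: w' := by rw [hz]; simp
  obtain ⟨e1, e2, -, -⟩ := pw_split X _ _ l (p :: w) p' w' hz'
  simp only [List.length_cons] at e2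
  have hget : ∀ t (ht : t < w.length), w[t] =
      (lam X (4 ^ K * M + (t + 1)), lam X (4 ^ K * M' + (t + 1))) := by
    intro t ht
    have h6 : (p :: w)[t + 1]'(by simp; omega) =
        (pw X (4 ^ K * M) (4 ^ K * M') (p :: w).length)[t + 1]'(by rw [pw_length]; simp; omega) := by
      congr 1
    rw [pw_getElem] at h6
    simpa using h6
  have e4 : 4 ^ (K + 1) = 4 ^ K * 4 := by ring
  have hlen : w.length + 1 = 4 ^ (K + 1) := by
    rcases lt_trichotomy (w.length + 1) (4 ^ (K + 1)) with hc | hc | hc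
    · exfalso
      rw [e2] at hp'
      obtain ⟨q1, q2⟩ := hp'
      simp only [lam] at q1 q2
      by_cases hd : 4 ^ K ∣ w.length + 1
      · obtain ⟨j, hj⟩ := hd
        rw [hj] at q1 q2 hc
        rw [e4] at hc
        have hj4 : j < 4 := Nat.lt_of_mul_lt_mul_left hc
        have hj0 : 1 ≤ j := by
          rcases Nat.eq_zero_or_pos j with rfl | h0
          · simp at hj
          · exact h0
        rw [← Nat.mul_add] at q1 q2
        interval_cases j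
        · rw [bet_start2 K (M + 1) (by omega)] at q1
          exact z6_ne1 _ q1.symm
        · rw [bet_start3 K (M + 2) (by omega)] at q1
          exact z6_ne2 _ q1.symm
        · rw [bet_start1 K (M' + 3) (by omega)] at q2
          exact z6_ne1 _ q2
      · rw [bet_block K M M' _ hd, q2] at q1
        exact z6_ne1 _ q1.symm
    · exact hc
    · exfalso
      have h3 : 4 ^ (K + 1) - 1 < w.length := by omega
      apply hw _ (List.getElem_mem h3)
      rw [hget _ h3]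
      have e5 : 4 ^ (K + 1) - 1 + 1 = 4 ^ K * 4 := by omega
      rw [e5, ← Nat.mul_add, ← Nat.mul_add]
      exact ⟨bet_start1 K (M + 4) (by omega), bet_start2 K (M' + 4) (by omega)⟩
  refine ⟨by omega, ?_⟩
  intro a ha ha' hU
  have h3 : 4 ^ K * 3 - 1 < w.length := by omega
  refine ⟨w[4 ^ K * 3 - 1], List.getElem_mem h3, ?_⟩
  rw [hget _ h3]
  have e5 : 4 ^ K * 3 - 1 + 1 = 4 ^ K * 3 := by omega
  rw [e5, ← Nat.mul_add, ← Nat.mul_add]
  exact ⟨hU, m4'⟩

end Star60
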