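import Pool.Agent.Star60.TrueBlock
import Pool.Agent.Star60.TrueCtx

/-!
MP_1b5989_lc, module TRUEMAIN: the true word is legitimate.  See blueprint 1A.
-/

namespace Star60

variable {Γ : Type} [DecidableEq Γ]

omit [DecidableEq Γ] in
theorem pw_add (X : ℕ → ℕ → Γ) (a b l l' : ℕ) :
    pw X a b (l + l') = pw X a b l ++ pw X (a + l) (b + l) l' := by
  simp only [pw, List.range_add, List.map_append, List.map_map]
  congr 1
  apply List.map_congr_left
  intro t _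
  simp [Function.comp_def, add_assoc]

omit [DecidableEq Γ] in
theorem pw_append (X : ℕ → ℕ → Γ) (a b l : ℕ) (y y' : List (Pr Γ))
    (h : pw X a b l = y ++ y') :
    y = pw X a b y.length ∧ y' = pw X (a + y.length) (b + y.length) y'.length := by
  have hl : l = y.length + y'.length := by
    have := congrArg List.length h
    rw [pw_length, List.length_append] at this
    exact this
  rw [hl, pw_add] at h
  have := List.append_inj h (by rw [pw_length])
  exact ⟨this.1.symm, this.2.symm⟩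

omit [DecidableEq Γ] in
theorem pw_cons (X : ℕ → ℕ → Γ) (a b l : ℕ) (p : Pr Γ) (y' : List (Pr Γ))
    (h : pw X a b l = p :: y') :
    p = (lam X a, lam X b) ∧ y' = pw X (a + 1) (b + 1) y'.length := by
  have h2 := pw_append X a b l [p] y' h
  refine ⟨?_, h2.2⟩
  have := h2.1
  simp [pw] at this
  exact this

/-- peel off one block -/
theorem pw_peel (X : ℕ → ℕ → Γ) (A B K l : ℕ) (p : Pr Γ) (z w : List (Pr Γ))
    (h : pw X A B l = p :: (z ++ w)) (hz : z.length = 4 ^ K - 1) :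
    p = (lam X A, lam X B) ∧ z = pw X (A + 1) (B + 1) (4 ^ K - 1) ∧
      w = pw X (A + 4 ^ K) (B + 4 ^ K) w.length := by
  obtain ⟨h1, h2⟩ := pw_cons X A B l p (z ++ w) h
  obtain ⟨h3, h4⟩ := pw_append X _ _ _ z w h2.symm
  have hp : 0 < 4 ^ K := by positivity
  have e : ∀ x : ℕ, x + 1 + (4 ^ K - 1) = x + 4 ^ K := by intro x; omega
  rw [hz] at h3 h4
  rw [e, e] at h4
  exact ⟨h1, h3, h4⟩

theorem zm_one_ne : ∀ h : ZMod 6, h ≠ h + 1 := by decide
theorem zm_one_ne' : ∀ h : ZMod 6, h + 1 ≠ h + 2 := by decide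
theorem zm_one_ne'' : ∀ h : ZMod 6, h + 1 ≠ h := by decide

omit [DecidableEq Γ] in
theorem true_RLoc (X : ℕ → ℕ → Γ) (a b l : ℕ) (ha : 0 < a) : ¬ RLoc (pw X a b l) := by
  rintro ⟨f, hf, hno⟩
  apply hno
  refine ⟨(a : ZMod 4), fun i hi => ?_⟩
  have hl : l = 4 := by
    have := congrArg List.length hf
    rw [pw_length, List.length_ofFn] at this
    exact this
  subst hl
  have h1 : (f i).1 = lam X (a + i) := by
    have h2 : (pw X a b 4)[(i : ℕ)]? = (List.ofFn f)[(i : ℕ)]? := by rw [hf]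
    rw [List.getElem?_ofFn] at h2
    simp [pw] at h2
    rw [← h2]
  rw [h1]
  have h3 : (((i : ℕ) : ZMod 4) + (a : ZMod 4)).val = (a + i) % 4 := by
    rw [← Nat.cast_add, ZMod.val_natCast, add_comm]
  rw [h3]
  have h4 : (a + i) % 4 ≠ 0 := by
    intro h0
    apply hi
    rw [← Nat.cast_add, ZMod.natCast_eq_zero_iff, add_comm]
    omega
  have h5 := bet_form 0 ((a + i) % 4) ((a + i) / 4) (by omega) (by omega)
  have h6 : 4 ^ 0 * (4 * ((a + i) / 4) + (a + i) % 4) = a + i := by omega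
  rw [h6] at h5
  show bet (a + i) = _
  rw [h5]
  simp

omit [DecidableEq Γ] in
/-- one step through a cycle segment -/
theorem true_seg (X : ℕ → ℕ → Γ) (K M M' l : ℕ) (hM : M % 4 = 1) (hM' : M' % 4 = 2)
    (p p' : Pr Γ) (w w' : List (Pr Γ))
    (hz : pw X (4 ^ K * M) (4 ^ K * M') l = p :: (w ++ p' :: w'))
    (hp' : isE1 (3 * (K : ZMod 6)) p') (hw : CycSeg (3 * (K : ZMod 6)) w) :
    p' :: w' = pw X (4 ^ K * (M + 4)) (4 ^ K * (M' + 4)) (p' :: w').length ∧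
      ∀ a : ℕ, 1 ≤ a → a ≤ 3 → bet (4 ^ K * (M + 3)) = 3 * (K : ZMod 6) + 2 + a →
        HasU (3 * (K : ZMod 6)) a w := by
  have hno : ∀ q ∈ w, ¬ isE1 (3 * (K : ZMod 6)) q := by
    obtain ⟨y, q, y', rfl, hy, hq, hy'⟩ := hw
    intro r hr
    rw [List.mem_append, List.mem_cons] at hr
    rcases hr with hr | rfl | hr
    · rintro ⟨h1, h2⟩
      have := hy r hr
      rw [BE, h1, h2] at this
      exact zm_one_ne _ this
    · rintro ⟨h1, _⟩
      rw [hq.1] at h1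
      exact zm_one_ne'' _ h1
    · exact hy' r hr
  obtain ⟨hl, hU⟩ := cyc_seg X K M M' l hM hM' p p' w w' hz hp' hno
  refine ⟨?_, hU⟩
  have h1 := (pw_append X _ _ _ (p :: w) (p' :: w') hz).2
  have h2 : (p :: w).length = 4 ^ (K + 1) := by
    rw [List.length_cons, hl]
    have : 0 < 4 ^ (K + 1) := by positivity
    omega
  rw [h2] at h1
  have e : ∀ x : ℕ, 4 ^ K * x + 4 ^ (K + 1) = 4 ^ K * (x + 4) := by intro x; ring
  rw [e, e] at h1
  exact h1

/-- the base letter at a multiple of four blocks -/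
theorem bet_four (K m u : ℕ) (hu : 1 ≤ u) (hu' : u ≤ 3) (hm : m % 4 = u) :
    bet (4 ^ K * (4 * m)) = 3 * (K : ZMod 6) + 2 + u := by
  have h1 : 4 ^ K * (4 * m) = 4 ^ (K + 1) * m := by ring
  rw [h1, bet_start (K + 1) m u hu hu' hm]
  push_cast
  ring

omit [DecidableEq Γ] in
theorem true_RU (X : ℕ → ℕ → Γ) (a b l : ℕ) (ha : 0 < a) (hb : 0 < b) : ¬ RU (pw X a b l) := by
  rintro ⟨h, hh, p, w, hz, hp, hw, hno⟩
  obtain ⟨y, q, y', hw0, hy, hq, -⟩ := hw 0
  have hz' := hz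
  rw [hw0, List.append_assoc, List.cons_append] at hz'
  obtain ⟨K, M, M', hK, hM, hM', rfl, rfl, -⟩ :=
    context X a b l ha hb h hh (p 0) y q _ hz' (hp 0) hq hy
  subst hK
  obtain ⟨e0, u0⟩ := true_seg X K M M' l hM hM' _ _ _ _ hz (hp 1) (hw 0)
  obtain ⟨e1, u1⟩ := true_seg X K (M + 4) (M' + 4) _ (by omega) (by omega) _ _ _ _ e0.symm (hp 2)
    (hw 1)
  obtain ⟨e2, u2⟩ := true_seg X K (M + 4 + 4) (M' + 4 + 4) _ (by omega) (by omega) _ _ _ _ e1.symm
    (hp 3) (hw 2)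
  obtain ⟨e3, u3⟩ := true_seg X K (M + 4 + 4 + 4) (M' + 4 + 4 + 4) _ (by omega) (by omega) _ _ _ _
    e2.symm (hp 4) (hw 3)
  apply hno
  refine ⟨((M / 4 + 1 : ℕ) : ZMod 4), fun i hi => ?_⟩
  have h3 : (((i : ℕ) : ZMod 4) + ((M / 4 + 1 : ℕ) : ZMod 4)).val = (M / 4 + 1 + i) % 4 := by
    rw [← Nat.cast_add, ZMod.val_natCast, add_comm]
  have h4 : (M / 4 + 1 + i) % 4 ≠ 0 := by
    intro h0
    apply hi
    rw [← Nat.cast_add, ZMod.natCast_eq_zero_iff, add_comm]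
    omega
  have h5 := bet_four K (M / 4 + 1 + i) ((M / 4 + 1 + i) % 4) (by omega) (by omega) rfl
  rw [h3]
  have hlt : (M / 4 + 1 + i) % 4 ≤ 3 := by omega
  have hgt : 1 ≤ (M / 4 + 1 + i) % 4 := by omega
  generalize (M / 4 + 1 + (i : ℕ)) % 4 = u at *
  fin_cases i
  · refine u0 u hgt hlt ?_
    rw [← h5]; congr 2; simp; omega
  · refine u1 u hgt hlt ?_
    rw [← h5]; congr 2; simp; omega
  · refine u2 u hgt hlt ?_
    rw [← h5]; congr 2; simp; omega
  · refine u3 u hgt hlt ?_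
    rw [← h5]; congr 2; simp; omega

/-- the blocks of a full cycle of a true pair word -/
theorem true_cyc (X : ℕ → ℕ → Γ) (a b l : ℕ) (ha : 0 < a) (hb : 0 < b) (h : ZMod 6)
    (hh : h = 0 ∨ h = 3) (p1 p2 p3 p4 p5 : Pr Γ) (z1 z2 z3 z4 z5 : List (Pr Γ))
    (hz : pw X a b l = p1 :: (z1 ++ p2 :: (z2 ++ p3 :: (z3 ++ p4 :: (z4 ++ p5 :: z5)))))
    (hc : FullCyc h p1 p2 p3 p4 z1 z2 z3 z4) (h5 : isE1 h p5) :
    ∃ K M M' : ℕ, h = 3 * (K : ZMod 6) ∧ M % 4 = 1 ∧ M' % 4 = 2 ∧ a = 4 ^ K * M ∧ b = 4 ^ K * M' ∧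
      p1 = (lam X (4 ^ K * M), lam X (4 ^ K * M')) ∧
      z1 = pw X (4 ^ K * M + 1) (4 ^ K * M' + 1) (4 ^ K - 1) ∧
      p2 = (lam X (4 ^ K * (M + 1)), lam X (4 ^ K * (M' + 1))) ∧
      z2 = pw X (4 ^ K * (M + 1) + 1) (4 ^ K * (M' + 1) + 1) (4 ^ K - 1) ∧
      p3 = (lam X (4 ^ K * (M + 2)), lam X (4 ^ K * (M' + 2))) ∧
      z3 = pw X (4 ^ K * (M + 2) + 1) (4 ^ K * (M' + 2) + 1) (4 ^ K - 1) ∧
      p4 = (lam X (4 ^ K * (M + 3)), lam X (4 ^ K * (M' + 3))) ∧
      z4 = pw X (4 ^ K * (M + 3) + 1) (4 ^ K * (M' + 3) + 1) (4 ^ K - 1) ∧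
      p5 :: z5 = pw X (4 ^ K * (M + 4)) (4 ^ K * (M' + 4)) (p5 :: z5).length := by
  obtain ⟨K, M, M', hK, hM, hM', rfl, rfl, l1, l2, l3, l4, -, -⟩ :=
    full_cyc X a b l ha hb h hh p1 p2 p3 p4 p5 z1 z2 z3 z4 z5 hz hc h5
  obtain ⟨e1, f1, g1⟩ := pw_peel X _ _ K _ _ _ _ hz l1
  obtain ⟨e2, f2, g2⟩ := pw_peel X _ _ K _ _ _ _ g1.symm l2
  obtain ⟨e3, f3, g3⟩ := pw_peel X _ _ K _ _ _ _ g2.symm l3
  obtain ⟨e4, f4, g4⟩ := pw_peel X _ _ K _ _ _ _ g3.symm l4
  have i1 : ∀ x : ℕ, 4 ^ K * x + 4 ^ K = 4 ^ K * (x + 1) := by intro x; ring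
  simp only [i1, add_assoc, Nat.reduceAdd] at e1 e2 e3 e4 f1 f2 f3 f4 g4
  refine ⟨K, M, M', hK, hM, hM', rfl, rfl, e1, f1, e2, f2, e3, f3, e4, f4, g4⟩

theorem true_RT (X : ℕ → ℕ → Γ) (a b l : ℕ) (ha : 0 < a) (hb : 0 < b) : ¬ RT (pw X a b l) := by
  rintro ⟨h, hh, p1, z1, p2, z2, p3, z3, p4, z4, p5, hz, hc, h5, hno⟩
  obtain ⟨K, M, M', hK, hM, hM', rfl, rfl, e1, f1, e2, f2, e3, f3, e4, f4, -⟩ :=
    true_cyc X a b l ha hb h hh p1 p2 p3 p4 p5 z1 z2 z3 z4 [] hz hc h5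
  apply hno
  obtain ⟨c1, c2, c3, c4, -⟩ := hc
  subst hK
  refine ⟨?_, ?_, ?_, ?_⟩
  · rw [e1, f1]
    apply block_ok X K M M' (by omega) (by omega)
    rw [e1] at c1
    obtain ⟨x1, x2⟩ := c1
    simp only [lam] at x1 x2
    rw [x1, x2]
    exact zm_one_ne _
  · rw [e2, f2]
    apply block_ok X K (M + 1) (M' + 1) (by omega) (by omega)
    rw [e2] at c2
    obtain ⟨x1, x2⟩ := c2
    simp only [lam] at x1 x2
    rw [x1, x2]
    exact zm_one_ne' _
  · rw [e3, f3]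
    apply block_ok X K (M + 2) (M' + 2) (by omega) (by omega)
    rw [e3] at c3
    obtain ⟨x1, x2⟩ := c3
    simp only [lam] at x1 x2
    rw [x1]
    exact x2.symm
  · rw [e4, f4]
    apply block_ok X K (M + 3) (M' + 3) (by omega) (by omega)
    rw [e4] at c4
    obtain ⟨x1, x2⟩ := c4
    simp only [lam] at x1 x2
    rw [x2]
    exact x1

theorem bet_eq_zero {m : ℕ} (hm : 0 < m) (h : bet m = 0) (h' : bet (m + 1) = 1) :
    lev m = 0 := by
  obtain ⟨k, u, q, hu, hu', hq⟩ := exists_form m hm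
  rcases Nat.eq_zero_or_pos k with rfl | hk
  · rw [hq]; exact lev_form 0 u q hu hu'
  · exfalso
    obtain ⟨k, rfl⟩ : ∃ j, k = j + 1 := ⟨k - 1, by omega⟩
    have h1 : (m + 1) % 4 = 1 := by
      rw [hq, pow_succ]
      have : 4 ^ k * 4 * (4 * q + u) + 1 = 4 * (4 ^ k * (4 * q + u)) + 1 := by ring
      rw [this]; omega
    have h2 := bet_start 0 (m + 1) 1 (by norm_num) (by norm_num) h1
    rw [pow_zero, one_mul, h'] at h2
    revert h2
    push_cast
    decide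

theorem true_RC {S : Language (Γ × Γ)} (h0 : [] ∈ S) (X : ℕ → ℕ → Γ)
    (hX : ∀ K, 1 ≤ K → (List.range K).map (fun k => (X (K + 1) k, X K k)) ∈ S)
    (a b l : ℕ) (ha : 0 < a) (hb : 0 < b) : ¬ RC S (pw X a b l) := by
  rintro ⟨h, hh, p1, z1, p2, z2, p3, z3, p4, z4, p5, z5, p6, z6, p7, z7, p8, z8, p9, hz, hc, hc',
    h9, h4, h8, hS⟩
  obtain ⟨K, M, M', hK, hM, hM', rfl, rfl, e1, f1, e2, f2, e3, f3, e4, f4, g4⟩ :=
    true_cyc X a b l ha hb h hh p1 p2 p3 p4 p5 z1 z2 z3 z4 _ hz hc hc'.1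
  obtain ⟨K', N, N', hK', hN, hN', hKN, -, e5, f5, e6, f6, e7, f7, e8, f8, -⟩ :=
    true_cyc X _ _ _ (by positivity) (by positivity) h hh p5 p6 p7 p8 p9 z5 z6 z7 z8 [] g4.symm
      hc' h9
  -- the two cycles have the same level
  have hKK : K = K' := by
    have h1 := lev_form K 1 (M / 4 + 1) (by norm_num) (by norm_num)
    have h2 := lev_form K' 1 (N / 4) (by norm_num) (by norm_num)
    have e1 : 4 * (M / 4 + 1) + 1 = M + 4 := by omega
    have e2 : 4 * (N / 4) + 1 = N := by omega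
    rw [e1] at h1
    rw [e2] at h2
    rw [← h1, ← h2, hKN]
  subst hKK
  have hN2 : N = M + 4 := by
    have hp : 0 < 4 ^ K := by positivity
    exact (Nat.eq_of_mul_eq_mul_left hp hKN).symm
  subst hN2
  subst hK
  have m4 : 4 * ((M + 3) / 4) = M + 3 := by omega
  have m8 : 4 * ((M + 3) / 4 + 1) = M + 4 + 3 := by omega
  have hm : 0 < (M + 3) / 4 := by omega
  rw [e4] at h4
  rw [e8] at h8
  simp only [lam] at h4 h8
  have i4 : 4 ^ K * (M + 3) = 4 ^ (K + 1) * ((M + 3) / 4) := by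
    conv_lhs => rw [← m4]
    ring
  have i8 : 4 ^ K * (M + 4 + 3) = 4 ^ (K + 1) * ((M + 3) / 4 + 1) := by
    rw [← m8]
    ring
  have b4 : bet ((M + 3) / 4) = 0 := by
    have h1 := h4
    rw [i4, bet_mul_pow _ _ hm] at h1
    push_cast at h1
    have h2 : bet ((M + 3) / 4) = 3 * ((K : ZMod 6) + 1) + bet ((M + 3) / 4) - (3 * (K : ZMod 6) + 3) := by
      ring
    rw [h2, h1]; ring
  have b8 : bet ((M + 3) / 4 + 1) = 1 := by
    have h1 := h8
    rw [i8, bet_mul_pow _ _ (by omega)] at h1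
    push_cast at h1
    have h2 : bet ((M + 3) / 4 + 1) =
        3 * ((K : ZMod 6) + 1) + bet ((M + 3) / 4 + 1) - (3 * (K : ZMod 6) + 3) := by
      ring
    rw [h2, h1]; ring
  have hl : lev ((M + 3) / 4) = 0 := bet_eq_zero hm b4 b8
  have hl1 : lev (M + 3) = 1 := by
    have h1 := lev_mul_pow 1 ((M + 3) / 4) hm
    rw [hl, pow_one, m4] at h1
    exact h1
  have hl2 : lev (M' + 3) = 0 := by
    have h1 := lev_form 0 1 ((M' + 3) / 4) (by norm_num) (by norm_num)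
    have h2 : 4 ^ 0 * (4 * ((M' + 3) / 4) + 1) = M' + 3 := by omega
    rw [h2] at h1
    exact h1
  apply hS
  have hne : bet (4 ^ K * (M + 3)) ≠ bet (4 ^ K * (M' + 3)) := by
    have h1 := hc.2.2.2.1
    rw [e4] at h1
    obtain ⟨x1, x2⟩ := h1
    simp only [lam] at x1 x2
    rw [x2]
    exact x1
  rw [f4, block_contents X K (M + 3) (M' + 3) (by omega) (by omega) hne, hl1, hl2]
  rcases Nat.eq_zero_or_pos K with rfl | hK0
  · simpa using h0
  · exact hX K hK0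

theorem true_RI {isL : Γ → Bool} {n : ℕ} (hn : 1 ≤ n) (X : ℕ → ℕ → Γ) (h1 : isL (X n 0) = true)
    (h2 : isL (X (n + 1) 0) = false) (a b l : ℕ) (ha : 0 < a) (hb : 0 < b) :
    ¬ RI isL n (pw X a b l) := by
  rintro ⟨h, hh, p1, z1, p2, hz, c1, c2, hbe, hno⟩
  obtain ⟨K, M, M', hK, hM, hM', rfl, rfl, hl⟩ :=
    context X a b l ha hb h hh p1 z1 p2 [] hz c1 c2 hbe
  obtain ⟨e1, f1, -⟩ := pw_peel X _ _ K _ _ _ _ hz hl
  have hne : bet (4 ^ K * M) ≠ bet (4 ^ K * M') := by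
    rw [e1] at c1
    obtain ⟨x1, x2⟩ := c1
    simp only [lam] at x1 x2
    rw [x1, x2]
    exact zm_one_ne _
  have hmis : mis z1 = 3 * K := by
    rw [f1]; exact block_mis X K M M' (by omega) (by omega) hne
  have hl0 : lev M = 0 := by
    have h1 := lev_form 0 1 (M / 4) (by norm_num) (by norm_num)
    have h2 : 4 ^ 0 * (4 * (M / 4) + 1) = M := by omega
    rw [h2] at h1
    exact h1
  rcases hno with ⟨hm, hnl⟩ | ⟨hm, hnl⟩
  · have hKn : K = n := by omega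
    subst hKn
    apply hnl
    rw [f1, block_firstL isL X K M M' hn (by omega) (by omega) hne, hl0]
    exact h1
  · have hKn : K = n + 1 := by omega
    subst hKn
    rw [f1, block_firstL isL X (n + 1) M M' (by omega) (by omega) (by omega) hne, hl0, add_zero,
      h2] at hnl
    exact absurd hnl (by decide)

omit [DecidableEq Γ] in
theorem swapL_pw (X : ℕ → ℕ → Γ) (a b l : ℕ) : swapL (pw X a b l) = pw X b a l := by
  simp [swapL, pw, Function.comp_def]

omit [DecidableEq Γ] in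
theorem infix_true (X : ℕ → ℕ → Γ) (m : ℕ) (x : List (Lt Γ))
    (hx : x <:+: (List.range m).map (fun t => lam X (1 + t))) :
    ∃ a, 0 < a ∧ x = (List.range x.length).map (fun t => lam X (a + t)) := by
  obtain ⟨s, t, hst⟩ := hx
  refine ⟨1 + s.length, by omega, ?_⟩
  apply List.ext_getElem
  · simp
  · intro i h1 h2
    have hlen : m = s.length + x.length + t.length := by
      have := congrArg List.length hst
      simp at this
      omega
    have h3 : (s ++ x ++ t)[s.length + i]? = ((List.range m).map (fun t => lam X (1 + t)))[s.length + i]? := by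
      rw [hst]
    rw [List.append_assoc, List.getElem?_append_right (by omega), Nat.add_sub_cancel_left,
      List.getElem?_append_left h1] at h3
    rw [List.getElem?_map, List.getElem?_range (by omega), List.getElem?_eq_getElem h1] at h3
    simp only [Option.map_some, Option.some.injEq] at h3
    rw [h3]
    simp [add_assoc]

theorem exists_long_legit {S : Language (Γ × Γ)} {isL : Γ → Bool} {n : ℕ} (hn : 1 ≤ n)
    (h0 : [] ∈ S) (X : ℕ → ℕ → Γ) (hX : RunX S isL n X) (m : ℕ) :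
    ∃ u : List (Lt Γ), m ≤ u.length ∧ Legit S isL n u u := by
  refine ⟨(List.range m).map (fun t => lam X (1 + t)), by simp, ?_⟩
  intro x y hx hy hxy
  obtain ⟨a, ha, hxa⟩ := infix_true X m x hx
  obtain ⟨b, hb, hyb⟩ := infix_true X m y hy
  have hz : x.zip y = pw X a b x.length := by
    rw [← hxy] at hyb
    generalize x.length = l at hxa hyb ⊢
    rw [hxa, hyb]
    simp only [pw]
    rw [List.zip_map']
  rw [hz]
  have hfix : ∀ a b l, 0 < a → 0 < b → ¬ RFix S (pw X a b l) := by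
    intro a b l ha hb h
    rcases h with h | h | h | h
    · exact true_RLoc X a b l ha h
    · exact true_RU X a b l ha hb h
    · exact true_RT X a b l ha hb h
    · exact true_RC h0 X hX.1 a b l ha hb h
  rintro (h | h | h | h)
  · exact hfix _ _ _ ha hb h
  · rw [swapL_pw] at h
    exact hfix _ _ _ hb ha h
  · exact true_RI hn X hX.2.1 hX.2.2 _ _ _ ha hb h
  · rw [swapL_pw] at h
    exact true_RI hn X hX.2.1 hX.2.2 _ _ _ hb ha h

end Star60
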