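import Pool.Agent.Star60.Compact
import Pool.Agent.Star60.Base
import Pool.Agent.Star60.Parent
import Pool.Agent.Star60.Chain
import Pool.Agent.Star60.Periodic
import Pool.Agent.Star60.TrueMain
import Pool.Agent.Star60.AlgPump
import Pool.Agent.Star60.AlgMortal
import Pool.Agent.Star60.PresComp
import Pool.Agent.Star60.PresLang
import Pool.Agent.Star60.BadFam
import Pool.Agent.Star60.Cols
import Pool.Agent.Star60.Faith
import Pool.Agent.Star60.MonLang
import Pool.Agent.Star60.MonComp

/-!
MP_1b5989_lc: assembly.
-/

namespace Star60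

/-- no computable function decides, for valid presentations `P` of recognizable trace languages,
whether the submonoid generated by the language is recognizable -/
def StarUndecidable {r : ℕ} (I : Fin r → Fin r → Prop) : Prop :=
  ¬ ∃ f : Pres r → Bool, Computable f ∧ ∀ P : Pres r, P.Valid I →
    (f P = true ↔ Recognizable (Submonoid.closure (P.lang I) : Set (Trace I)))

/-- existence of a run of columns versus arbitrarily long legitimate pairs -/
theorem runX_iff {Γ : Type} [Fintype Γ] [DecidableEq Γ] (S : Language (Γ × Γ)) (h0 : [] ∈ S)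
    (isL : Γ → Bool) (n : ℕ) (hn : 1 ≤ n) :
    (∃ X, RunX S isL n X) ↔
      ∀ m : ℕ, ∃ u v : List (Lt Γ), m ≤ u.length ∧ m ≤ v.length ∧ Legit S isL n u v := by
  constructor
  · rintro ⟨X, hX⟩ m
    obtain ⟨u, hu, hl⟩ := exists_long_legit hn h0 X hX m
    exact ⟨u, u, hu, hu, hl⟩
  · intro H
    obtain ⟨ξ, η, h⟩ := exists_legitZ S isL n H
    obtain ⟨r, hr⟩ := exists_coord h
    obtain ⟨r', hr'⟩ := exists_coord h.symm
    exact exists_runX hn h hr hr' (parentOK h hr hr') (parentOK h.symm hr' hr)

theorem recognizable_iff_not_runX {Γ : Type} [Fintype Γ] [DecidableEq Γ] (S : Language (Γ × Γ))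
    (h0 : [] ∈ S) (isL : Γ → Bool) (n m : ℕ) (hn : 1 ≤ n) (e : Lt Γ ≃ Fin m) (E : EA m)
    (hE : ∀ u v : List (Lt Γ), E.Ill (u.map e) (v.map e) ↔ ¬ Legit S isL n u v) :
    Recognizable (Submonoid.closure E.L : Set (FreeMonoid Bool × FreeMonoid Bool)) ↔
      ¬ ∃ X, RunX S isL n X := by
  have key : ∀ u : List (Fin m), (u.map e.symm).map e = u := by
    intro u; simp [List.map_map]
  rw [runX_iff S h0 isL n hn]
  constructor
  · intro hrec H
    refine E.not_recognizable ?_ ?_ hrec
    · intro k
      obtain ⟨u, v, hu, hv, hl⟩ := H k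
      refine ⟨u.map e, v.map e, by simpa using hu, by simpa using hv, ?_⟩
      rw [hE]
      exact not_not.2 hl
    · intro x y hx hy
      have h1 := not_periodic (S := S) (isL := isL) (n := n) (x.map e.symm) (y.map e.symm)
        (by simpa using hx) (by simpa using hy)
      rw [not_forall] at h1
      obtain ⟨k, hk⟩ := h1
      refine ⟨k, ?_⟩
      rw [← hE] at hk
      have h2 : ∀ z : List (Fin m), (powL (z.map e.symm) k).map e = powL z k := by
        intro z
        simp [powL, List.map_flatten, List.map_map]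
      rwa [h2, h2] at hk
  · intro H
    push Not at H
    obtain ⟨k, hk⟩ := H
    refine E.recognizable k ?_
    intro u v hu hv
    have := hk (u.map e.symm) (v.map e.symm) (by simpa using hu) (by simpa using hv)
    rw [← hE, key, key] at this
    exact this

theorem starUndecidable {r : ℕ} (I : Fin r → Fin r → Prop) (hirr : ∀ x, ¬ I x x)
    (hsymm : ∀ x y, I x y → I y x) (a b c d : Fin r) (hab : I a b) (hbc : I b c) (hcd : I c d)
    (hda : I d a) (hac : ¬ I a c) (hbd : ¬ I b d) (hne : a ≠ c) (hne' : b ≠ d) :
    StarUndecidable I := by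
  obtain ⟨M, hM⟩ := exists_SM
  obtain ⟨Γ, _, _, S, isL, hS, h0, hcol⟩ := exists_cols M
  obtain ⟨m, e, A, hA⟩ := exists_fam S hS isL
  have nab : a ≠ b := by rintro rfl; exact hirr _ hab
  have nad : a ≠ d := by rintro rfl; exact hirr _ hda
  have ncb : c ≠ b := by rintro rfl; exact hirr _ hbc
  have ncd : c ≠ d := by rintro rfl; exact hirr _ hcd
  have key : ∀ n, Recognizable (Submonoid.closure ((A.pres a b c d n).lang I) : Set (Trace I)) ↔
      ¬ M.Forever n := by
    intro n
    rw [A.pres_lang I hirr hsymm a b c d hab hbc hcd hda hne hne' n,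
      recognizable_closure_emb I hirr hsymm a b c d hab hbc hcd hda hac hbd hne hne',
      recognizable_iff_not_runX S h0 isL (n + 1) m (by omega) e (A.ea n) (hA n), hcol]
  rintro ⟨f, hf, hP⟩
  apply hM
  have hg : Computable (A.pres a b c d) := A.computable_pres a b c d
  have h1 : ∀ n, f (A.pres a b c d n) = true ↔ ¬ M.Forever n := by
    intro n
    rw [hP _ (A.pres_valid I hirr hsymm a b c d hac hbd nab nad hne ncb ncd hne' n), key]
  rw [ComputablePred.computable_iff]
  refine ⟨fun n => !(f (A.pres a b c d n)), ?_, ?_⟩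
  · exact (Primrec.not.to_comp.comp (hf.comp hg))
  · funext n
    have := h1 n
    by_cases hF : M.Forever n
    · simp [hF] at this ⊢
      exact this
    · simp [hF] at this ⊢
      exact this

end Star60
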