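import Pool.Agent.Star60.Trace

/-!
MP_1b5989_lc, module MONDEF (definitions): presentations `(S, h, h(L))` by a finite monoid, and the
computable translation of automaton presentations.
-/

namespace Star60

namespace MConv

/-- the states of an automaton (with repetitions) -/
def states {r : ℕ} (P : Pres r) : List ℕ :=
  P.2.1 :: (P.1.map (fun e => e.1) ++ P.1.map (fun e => e.2.2))

/-- value of the partial function with value list `f` (along `Q`) at `q` -/
def val (Q : List ℕ) (f : List (Option ℕ)) (q : ℕ) : Option ℕ :=
  ((Q.zip f).find? (fun e => decide (e.1 = q))).bind (fun e => e.2)

/-- composition: first `f`, then `g` -/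
def comp (Q : List ℕ) (f g : List (Option ℕ)) : List (Option ℕ) :=
  f.map (fun o => o.bind (fun q => val Q g q))

/-- the partial function of a letter -/
def img {r : ℕ} (P : Pres r) (a : Fin r) : List (Option ℕ) :=
  (states P).map (fun q => (P.1.find? (fun e => decide (e.1 = q) && decide (e.2.1 = a))).map
    (fun e => e.2.2))

/-- the partial functions of all words of length at most `k` (with repetitions) -/
def elems {r : ℕ} (P : Pres r) : ℕ → List (List (Option ℕ))
  | 0 => [(states P).map some]
  | k + 1 => elems P k ++ (elems P k).flatMap
      (fun f => (List.finRange r).map (fun a => comp (states P) f (img P a)))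

/-- all elements of the transition monoid -/
def allE {r : ℕ} (P : Pres r) : List (List (Option ℕ)) :=
  elems P (((states P).length + 1) ^ (states P).length)

/-- the translation -/
def conv {r : ℕ} (P : Pres r) : MPres r :=
  ((allE P).flatMap (fun f => (allE P).map (fun g =>
      (Encodable.encode f, Encodable.encode g, Encodable.encode (comp (states P) f g)))),
   (List.finRange r).map (fun a => (a, Encodable.encode (img P a))),
   ((allE P).filter (fun f =>
      match val (states P) f P.2.1 with
      | none => false
      | some q => P.2.2.elem q)).map Encodable.encode)

end MConv

end Star60
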