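import Pool.Agent.Star60.PFam

/-!
MP_1b5989_lc, module PRESDEF (definitions): the automaton of the instance.
Left state `(flag, s, i, t)`:
 flag 0: only c's so far, `s` of them (capped at N+1);
 flag 1: exactly one block of a's so far: `s` c's before it, `i` a's in it (capped at m+1),
   `t` c's after it (capped at N+1);
 flag 2: several blocks of a's, `t` c's since the last a (capped at N+1), no bad gap;
 flag 3: a factor `a c^k a` with `k ≥ 1`, `k ≠ N` was read.
Right state: `none` = not a prefix of an `enc v`; `some (k, inf)`: `k` b's since the last d,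
`inf` = none (v empty) or some (first letter, last letter, length is 1).
-/

namespace Star60

abbrev LS : Type := ℕ × ℕ × ℕ × ℕ

/-- read a `c` -/
def LS.c (N : ℕ) (x : LS) : LS :=
  if x.1 = 0 then (0, min (x.2.1 + 1) (N + 1), 0, 0)
  else if x.1 = 1 then (1, x.2.1, x.2.2.1, min (x.2.2.2 + 1) (N + 1))
  else if x.1 = 2 then (2, 0, 0, min (x.2.2.2 + 1) (N + 1))
  else (3, 0, 0, 0)

/-- read an `a` -/
def LS.a (m N : ℕ) (x : LS) : LS :=
  if x.1 = 0 then (1, x.2.1, 1, 0)
  else if x.1 = 1 then
    (if x.2.2.2 = 0 then (1, x.2.1, min (x.2.2.1 + 1) (m + 1), 0)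
      else if x.2.2.2 = N then (2, 0, 0, 0) else (3, 0, 0, 0))
  else if x.1 = 2 then
    (if x.2.2.2 = 0 ∨ x.2.2.2 = N then (2, 0, 0, 0) else (3, 0, 0, 0))
  else (3, 0, 0, 0)

/-- step on the left tape -/
def LS.step (m N : ℕ) (x : LS) (l : Bool) : LS := if l then x.a m N else x.c N

/-- information on `v`: none = empty, else (first letter, last letter, length is 1) -/
abbrev Inf (m : ℕ) : Type := Option (Fin m × Fin m × Bool)

abbrev RS (m : ℕ) : Type := Option (Fin (m + 1) × Inf m)

/-- step on the right tape -/
def RS.step (m : ℕ) (x : RS m) (l : Bool) : RS m :=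
  match x with
  | none => none
  | some (k, inf) =>
    if l then (if h : (k : ℕ) < m then some (⟨k + 1, by omega⟩, inf) else none)
    else if h : 0 < (k : ℕ) then
      some (0, match inf with
        | none => some (⟨k - 1, by omega⟩, ⟨k - 1, by omega⟩, true)
        | some (f, _, _) => some (f, ⟨k - 1, by omega⟩, false))
    else none

/-- information of a word -/
def infOf {m : ℕ} (v : List (Fin m)) : Inf m :=
  match v with
  | [] => none
  | j :: w => some (j, (j :: w).getLast (by simp), w.isEmpty)

/-- the step relation of the transducer on the level of natural numbers -/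
def PFam.yN {m : ℕ} (A : PFam m) (n p : ℕ) (i : Fin m) (q : ℕ) (inf : Inf m) : Bool :=
  if p = 1 then true
  else if q = 0 then true
  else if p = 0 then
    (if q = 1 then false
      else match inf with
        | none => false
        | some (_, l, _) => decide (A.δ n (A.s n) i l = q - 2))
  else
    (if q = 1 then
      match inf with
        | none => false
        | some (f, _, _) => A.F n (A.δ n (p - 2) i f)
     else match inf with
        | none => false
        | some (f, _, b) => b && decide (A.δ n (p - 2) i f = q - 2))

/-- acceptance -/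
def PFam.acc {m : ℕ} (A : PFam m) (n : ℕ) (x : LS) (y : RS m) : Bool :=
  if x.1 = 3 then true
  else if x.1 = 1 ∧ 1 ≤ x.2.1 ∧ x.2.1 ≤ A.Q n + 2 ∧ x.2.2.2 < A.Q n + 2 then
    (if h : 1 ≤ x.2.2.1 ∧ x.2.2.1 ≤ m then
      match y with
      | none => false
      | some (k, inf) => decide (k = 0) &&
          A.yN n (A.Q n + 2 - x.2.1) ⟨x.2.2.1 - 1, by omega⟩ x.2.2.2 inf
     else false)
  else false

/-- all left states -/
def allLS (m N : ℕ) : List LS :=
  (List.range 4).flatMap fun fl => (List.range (N + 2)).flatMap fun s =>
    (List.range (m + 2)).flatMap fun i => (List.range (N + 2)).map fun t => (fl, s, i, t)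

/-- all right states -/
def allRS (m : ℕ) : List (RS m) :=
  none :: ((List.finRange (m + 1)).flatMap fun k => (k, none) ::
    ((List.finRange m).flatMap fun f => (List.finRange m).flatMap fun l =>
      [(k, some (f, l, true)), (k, some (f, l, false))])).map some

/-- code of a state -/
def cod {m : ℕ} (x : LS) (y : RS m) : ℕ := Encodable.encode (x, y)

/-- the presentation of the instance; letters `a b c d` of the trace alphabet `Fin r` -/
def PFam.pres {m : ℕ} (A : PFam m) {r : ℕ} (a b c d : Fin r) (n : ℕ) : Pres r :=
  (((allLS m (A.Q n + 2)).flatMap fun x => (allRS m).flatMap fun y =>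
      [(cod x y, a, cod (x.step m (A.Q n + 2) true) y),
       (cod x y, c, cod (x.step m (A.Q n + 2) false) y),
       (cod x y, b, cod x (RS.step m y true)),
       (cod x y, d, cod x (RS.step m y false))]),
   cod (0, 0, 0, 0) (some (0, none) : RS m),
   ((allLS m (A.Q n + 2)).flatMap fun x => (allRS m).filterMap fun y =>
      if A.acc n x y = true then some (cod x y) else none))

end Star60
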