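import Pool.Agent.Star60.StarDefs
import Pool.Agent.Star60.RegTools

/-!
MP_1b5989_lc, module REC: recognizable subsets of monoids.
-/

namespace Star60

theorem recognizable_iff {M : Type} [Monoid M] {L : Set M} :
    Recognizable L ↔ ∃ (S : Type) (_ : Monoid S) (_ : Finite S) (h : M →* S) (X : Set S),
      L = h ⁻¹' X := by
  constructor
  · rintro ⟨S, i, fS, h, e⟩
    exact ⟨S, i, fS, h, h '' L, e⟩
  · rintro ⟨S, i, fS, h, X, e⟩
    refine ⟨S, i, fS, h, ?_⟩
    ext x
    constructor
    · intro hx; exact ⟨x, hx, rfl⟩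
    · rintro ⟨y, hy, hyx⟩
      rw [e] at hy ⊢
      simp only [Set.mem_preimage] at hy ⊢
      rw [← hyx]; exact hy

theorem Recognizable.comap {M N : Type} [Monoid M] [Monoid N] (f : M →* N) {L : Set N}
    (h : Recognizable L) : Recognizable (f ⁻¹' L) := by
  rw [recognizable_iff] at h ⊢
  obtain ⟨S, i, fS, h, X, e⟩ := h
  exact ⟨S, i, fS, h.comp f, X, by rw [e]; rfl⟩

theorem Recognizable.inter {M : Type} [Monoid M] {L L' : Set M}
    (h : Recognizable L) (h' : Recognizable L') : Recognizable (L ∩ L') := by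
  rw [recognizable_iff] at h h' ⊢
  obtain ⟨S, i, fS, h, X, e⟩ := h
  obtain ⟨S', i', fS', h', X', e'⟩ := h'
  exact ⟨S × S', inferInstance, inferInstance, h.prod h', X ×ˢ X', by rw [e, e']; rfl⟩

theorem Recognizable.union {M : Type} [Monoid M] {L L' : Set M}
    (h : Recognizable L) (h' : Recognizable L') : Recognizable (L ∪ L') := by
  rw [recognizable_iff] at h h' ⊢
  obtain ⟨S, i, fS, h, X, e⟩ := h
  obtain ⟨S', i', fS', h', X', e'⟩ := h'
  exact ⟨S × S', inferInstance, inferInstance, h.prod h', {p | p.1 ∈ X ∨ p.2 ∈ X'}, by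
    rw [e, e']; rfl⟩

theorem Recognizable.iUnion {M ι : Type} [Monoid M] [Finite ι] {L : ι → Set M}
    (h : ∀ i, Recognizable (L i)) : Recognizable (⋃ i, L i) := by
  have h2 : ∀ i, ∃ (S : Type) (_ : Monoid S) (_ : Finite S) (h : M →* S) (X : Set S),
      L i = h ⁻¹' X := fun i => recognizable_iff.1 (h i)
  choose S iS fS φ X e using h2
  rw [recognizable_iff]
  refine ⟨∀ i, S i, inferInstance, inferInstance, MonoidHom.pi φ, {p | ∃ i, p i ∈ X i}, ?_⟩
  ext x
  simp only [Set.mem_iUnion, Set.mem_preimage, Set.mem_ofPred_eq]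
  refine exists_congr fun i => ?_
  rw [e i]; rfl

/-- regular languages are recognizable subsets of the free monoid -/
theorem Recognizable.of_isRegular {α : Type} {T : Language α} (h : T.IsRegular) :
    Recognizable {w : FreeMonoid α | w.toList ∈ T} := by
  obtain ⟨σ, fσ, A, rfl⟩ := h
  rw [recognizable_iff]
  let φ : FreeMonoid α →* (Function.End σ)ᵐᵒᵖ :=
    FreeMonoid.lift (fun a => MulOpposite.op (fun s => A.step s a))
  have hφ : ∀ (w : List α) (s : σ), (φ (FreeMonoid.ofList w)).unop s = A.evalFrom s w := by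
    intro w
    induction w with
    | nil => intro s; simp [φ]; rfl
    | cons a w ih =>
      intro s
      rw [FreeMonoid.ofList_cons, map_mul, MulOpposite.unop_mul]
      have : (FreeMonoid.of a).toList = [a] := rfl
      show (φ (FreeMonoid.ofList w)).unop ((φ (FreeMonoid.of a)).unop s) = _
      rw [ih]
      rfl
  refine ⟨(Function.End σ)ᵐᵒᵖ, inferInstance, ?_, φ, {g | g.unop A.start ∈ A.accept}, ?_⟩
  · have h1 : Finite (σ → σ) := inferInstance
    have h2 : Finite (Function.End σ) := h1
    exact Finite.of_equiv _ MulOpposite.opEquiv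
  · ext w
    simp only [Set.mem_ofPred_eq, Set.mem_preimage]
    have := hφ w.toList A.start
    rw [FreeMonoid.ofList_toList] at this
    rw [this]
    rfl

/-- regular rectangles -/
theorem Recognizable.rectangle {α β : Type} {T : Language α} {U : Language β} (hT : T.IsRegular)
    (hU : U.IsRegular) :
    Recognizable {w : FreeMonoid α × FreeMonoid β | w.1.toList ∈ T ∧ w.2.toList ∈ U} := by
  have h1 := Recognizable.comap (MonoidHom.fst (FreeMonoid α) (FreeMonoid β))
    (Recognizable.of_isRegular hT)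
  have h2 := Recognizable.comap (MonoidHom.snd (FreeMonoid α) (FreeMonoid β))
    (Recognizable.of_isRegular hU)
  exact h1.inter h2

end Star60
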