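import Pool.Agent.Star60.Words
import Pool.Agent.Star60.RegTools

/-!
MP_1b5989_lc, module REGBAD: the fixed part of the bad patterns is regular.
-/

namespace Star60

namespace RB

variable {α : Type}

theorem congr {T U : Language α} (h : T.IsRegular) (e : ∀ w, w ∈ U ↔ w ∈ T) : U.IsRegular := by
  have : U = T := Set.ext e
  rw [this]
  exact h

theorem top : Language.IsRegular ({_w | True} : Language α) := by
  have := isRegular_forall (fun _ : α => True)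
  simpa using this

theorem bot : Language.IsRegular ({_w | False} : Language α) := by
  have := isRegular_finite ({_w | False} : Language α) (by
    have : ({_w | False} : Set (List α)) = ∅ := by ext; simp
    exact this ▸ Set.finite_empty)
  exact this

theorem or {T U : Language α} (hT : T.IsRegular) (hU : U.IsRegular) :
    Language.IsRegular ({w | w ∈ T ∨ w ∈ U} : Language α) := by
  exact hT.add hU

theorem and {T U : Language α} (hT : T.IsRegular) (hU : U.IsRegular) :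
    Language.IsRegular ({w | w ∈ T ∧ w ∈ U} : Language α) := by
  exact hT.inf hU

theorem not {T : Language α} (hT : T.IsRegular) :
    Language.IsRegular ({w | ¬ w ∈ T} : Language α) := by
  exact hT.compl

theorem const (P : Prop) : Language.IsRegular ({_w | P} : Language α) := by
  by_cases h : P
  · simpa [h] using top (α := α)
  · simpa [h] using bot (α := α)

theorem concat {T U : Language α} (hT : T.IsRegular) (hU : U.IsRegular) :
    Language.IsRegular ({w | ∃ x y, w = x ++ y ∧ x ∈ T ∧ y ∈ U} : Language α) := by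
  have h := isRegular_mul hT hU
  refine congr h (fun w => ?_)
  rw [Language.mem_mul]
  constructor
  · rintro ⟨x, y, rfl, h1, h2⟩
    exact ⟨x, h1, y, h2, rfl⟩
  · rintro ⟨x, h1, y, h2, rfl⟩
    exact ⟨x, y, rfl, h1, h2⟩

theorem cons (p : α) {T : Language α} (hT : T.IsRegular) :
    Language.IsRegular ({w | ∃ y, w = p :: y ∧ y ∈ T} : Language α) := by
  have h1 : Language.IsRegular ({w | w = [p]} : Language α) := by
    apply isRegular_finite
    exact Set.finite_singleton [p]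
  refine congr (concat h1 hT) (fun w => ?_)
  constructor
  · rintro ⟨y, h, hy⟩
    exact ⟨[p], y, h, rfl, hy⟩
  · rintro ⟨x, y, h, hx, hy⟩
    change x = [p] at hx
    exact ⟨y, by rw [h, hx]; rfl, hy⟩

theorem single (p : α) : Language.IsRegular ({w | w = [p]} : Language α) := by
  apply isRegular_finite
  exact Set.finite_singleton [p]

theorem ex {ι : Type} [Finite ι] {P : ι → List α → Prop}
    (h : ∀ i, Language.IsRegular ({w | P i w} : Language α)) :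
    Language.IsRegular ({w | ∃ i, P i w} : Language α) :=
  isRegular_iUnion (fun i => ({w | P i w} : Language α)) h

theorem all {ι : Type} [Finite ι] {P : ι → List α → Prop}
    (h : ∀ i, Language.IsRegular ({w | P i w} : Language α)) :
    Language.IsRegular ({w | ∀ i, P i w} : Language α) := by
  refine congr (not (ex (fun i => not (h i)))) (fun w => ?_)
  constructor
  · rintro h1 ⟨i, h2⟩
    exact h2 (h1 i)
  · intro h1 i
    by_contra h2
    exact h1 ⟨i, h2⟩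

/-- `p :: (z ++ t)` with `z ∈ T`, `t ∈ U` -/
theorem step (p : α) {T U : Language α} (hT : T.IsRegular) (hU : U.IsRegular) :
    Language.IsRegular ({w | ∃ z t, w = p :: (z ++ t) ∧ z ∈ T ∧ t ∈ U} : Language α) := by
  refine congr (cons p (concat hT hU)) (fun w => ?_)
  constructor
  · rintro ⟨z, t, h, h1, h2⟩
    exact ⟨z ++ t, h, z, t, rfl, h1, h2⟩
  · rintro ⟨y, h, z, t, h', h1, h2⟩
    exact ⟨z, t, by rw [h, h'], h1, h2⟩

end RB

variable {Γ : Type}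

theorem regular_allBE : Language.IsRegular ({z | AllBE z} : Language (Pr Γ)) :=
  isRegular_forall _

theorem regular_RLoc [Fintype Γ] : Language.IsRegular ({z | RLoc z} : Language (Pr Γ)) := by
  apply isRegular_finite
  apply (List.finite_length_eq (Pr Γ) 4).subset
  rintro z ⟨f, hz, _⟩
  show z.length = 4
  rw [hz, List.length_ofFn]

theorem regular_CycSeg (h : ZMod 6) : Language.IsRegular ({w | CycSeg h w} : Language (Pr Γ)) := by
  refine RB.congr (RB.concat (regular_allBE (Γ := Γ)) (RB.concat (isRegular_single (isE2 h))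
    (isRegular_forall (fun p => ¬ isE1 h p)))) (fun w => ?_)
  constructor
  · rintro ⟨y, q, y', h1, h2, h3, h4⟩
    exact ⟨y, q :: y', h1, h2, [q], y', rfl, ⟨q, h3, rfl⟩, h4⟩
  · rintro ⟨y, t, h1, h2, x, y', h3, ⟨q, h4, h5⟩, h6⟩
    exact ⟨y, q, y', by rw [h1, h3, h5]; rfl, h2, h4, h6⟩

theorem regular_HasU (h : ZMod 6) (a : ℕ) :
    Language.IsRegular ({w | HasU h a w} : Language (Pr Γ)) := by
  refine RB.congr (RB.not (isRegular_forall
    (fun p : Pr Γ => ¬ (p.1.1 = h + 2 + a ∧ p.2.1 = h)))) (fun w => ?_)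
  constructor
  · rintro ⟨p, hp, h1⟩ h2
    exact h2 p hp h1
  · intro h1
    by_contra h2
    exact h1 (fun p hp h3 => h2 ⟨p, hp, h3⟩)

theorem regular_RU [Fintype Γ] : Language.IsRegular ({z | RU z} : Language (Pr Γ)) := by
  -- the segments
  have hW : ∀ (h : ZMod 6) (ι : ZMod 4 → Fin 4) (i : Fin 4), Language.IsRegular
      ({w | CycSeg h w ∧ ∀ a : ZMod 4, ι a = i →
        ¬ HasU h ((((i : ℕ) : ZMod 4) + a).val) w} : Language (Pr Γ)) := by
    intro h ι i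
    refine RB.and (regular_CycSeg h) (RB.all (fun a => ?_))
    by_cases hi : ι a = i
    · refine RB.congr (RB.not (regular_HasU h ((((i : ℕ) : ZMod 4) + a).val))) (fun w => ?_)
      constructor
      · intro h1; exact h1 hi
      · intro h1 _; exact h1
    · refine RB.congr RB.top (fun w => ?_)
      constructor
      · intro _; trivial
      · intro _ h2; exact absurd h2 hi
  have key : Language.IsRegular ({z | ∃ h : ZMod 6, ∃ ι : ZMod 4 → Fin 4, ∃ p : Fin 5 → Pr Γ,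
      ((h = 0 ∨ h = 3) ∧ (∀ a, ((ι a : ℕ) : ZMod 4) + a ≠ 0) ∧ ∀ i, isE1 h (p i)) ∧
      z ∈ ({w | ∃ z0 t0, w = p 0 :: (z0 ++ t0) ∧ z0 ∈
        ({w | CycSeg h w ∧ ∀ a : ZMod 4, ι a = 0 →
          ¬ HasU h (((((0 : Fin 4) : ℕ) : ZMod 4) + a).val) w} : Language (Pr Γ)) ∧ t0 ∈
        ({w | ∃ z1 t1, w = p 1 :: (z1 ++ t1) ∧ z1 ∈
          ({w | CycSeg h w ∧ ∀ a : ZMod 4, ι a = 1 →
            ¬ HasU h (((((1 : Fin 4) : ℕ) : ZMod 4) + a).val) w} : Language (Pr Γ)) ∧ t1 ∈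
          ({w | ∃ z2 t2, w = p 2 :: (z2 ++ t2) ∧ z2 ∈
            ({w | CycSeg h w ∧ ∀ a : ZMod 4, ι a = 2 →
              ¬ HasU h (((((2 : Fin 4) : ℕ) : ZMod 4) + a).val) w} : Language (Pr Γ)) ∧ t2 ∈
            ({w | ∃ z3 t3, w = p 3 :: (z3 ++ t3) ∧ z3 ∈
              ({w | CycSeg h w ∧ ∀ a : ZMod 4, ι a = 3 →
                ¬ HasU h (((((3 : Fin 4) : ℕ) : ZMod 4) + a).val) w} : Language (Pr Γ)) ∧ t3 ∈
              ({w | w = [p 4]} : Language (Pr Γ))} : Language (Pr Γ))} : Language (Pr Γ))} :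
          Language (Pr Γ))} : Language (Pr Γ))} : Language (Pr Γ)) := by
    refine RB.ex (fun h => RB.ex (fun ι => RB.ex (fun p => ?_)))
    exact RB.and (RB.const _) (RB.step _ (hW h ι 0) (RB.step _ (hW h ι 1)
      (RB.step _ (hW h ι 2) (RB.step _ (hW h ι 3) (RB.single _)))))
  refine RB.congr key (fun z => ?_)
  constructor
  · rintro ⟨h, hh, p, w, hz, h1, h2, h3⟩
    push Not at h3
    choose ι h4 h5 using h3
    exact ⟨h, ι, p, ⟨hh, h4, h1⟩, w 0, _, hz, ⟨h2 0, fun a ha => by rw [← ha]; exact h5 a⟩,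
      w 1, _, rfl, ⟨h2 1, fun a ha => by rw [← ha]; exact h5 a⟩,
      w 2, _, rfl, ⟨h2 2, fun a ha => by rw [← ha]; exact h5 a⟩,
      w 3, _, rfl, ⟨h2 3, fun a ha => by rw [← ha]; exact h5 a⟩, rfl⟩
  · rintro ⟨h, ι, p, ⟨hh, h4, h1⟩, z0, t0, e0, ⟨c0, u0⟩, z1, t1, e1, ⟨c1, u1⟩,
      z2, t2, e2, ⟨c2, u2⟩, z3, t3, e3, ⟨c3, u3⟩, e4⟩
    change t3 = [p 4] at e4
    refine ⟨h, hh, p, ![z0, z1, z2, z3], ?_, h1, ?_, ?_⟩
    · rw [e0, e1, e2, e3, e4]; rfl
    · intro i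
      fin_cases i
      · exact c0
      · exact c1
      · exact c2
      · exact c3
    · rintro ⟨a, ha⟩
      have h5 := ha (ι a) (h4 a)
      generalize hi : ι a = i at h5
      fin_cases i
      · exact u0 a hi h5
      · exact u1 a hi h5
      · exact u2 a hi h5
      · exact u3 a hi h5

variable [DecidableEq Γ]

theorem regular_OkBlock (s : Pr Γ) (h : ZMod 6) :
    Language.IsRegular ({z | OkBlock s h z} : Language (Pr Γ)) :=
  RB.and (isRegular_forall _) (isRegular_countP_mod (fun p : Pr Γ => decide (p.1 ≠ p.2)) 6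
    (by norm_num) h)

theorem regular_RT [Fintype Γ] : Language.IsRegular ({z | RT z} : Language (Pr Γ)) := by
  have hW : ∀ (h : ZMod 6) (j i : Fin 4) (s : Pr Γ), Language.IsRegular
      ({w | AllBE w ∧ (j = i → ¬ OkBlock s h w)} : Language (Pr Γ)) := by
    intro h j i s
    by_cases hi : j = i
    · refine RB.congr (RB.and regular_allBE (RB.not (regular_OkBlock s h))) (fun w => ?_)
      constructor
      · rintro ⟨h1, h2⟩; exact ⟨h1, h2 hi⟩
      · rintro ⟨h1, h2⟩; exact ⟨h1, fun _ => h2⟩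
    · refine RB.congr regular_allBE (fun w => ?_)
      constructor
      · rintro ⟨h1, _⟩; exact h1
      · intro h1; exact ⟨h1, fun h2 => absurd h2 hi⟩
  have key : Language.IsRegular ({z | ∃ h : ZMod 6, ∃ j : Fin 4, ∃ p1 p2 p3 p4 p5 : Pr Γ,
      ((h = 0 ∨ h = 3) ∧ isE1 h p1 ∧ isE2 h p2 ∧ isF1 h p3 ∧ isF2 h p4 ∧ isE1 h p5) ∧
      z ∈ ({w | ∃ z1 t1, w = p1 :: (z1 ++ t1) ∧
          z1 ∈ ({w | AllBE w ∧ (j = 0 → ¬ OkBlock p1 h w)} : Language (Pr Γ)) ∧ t1 ∈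
        ({w | ∃ z2 t2, w = p2 :: (z2 ++ t2) ∧
          z2 ∈ ({w | AllBE w ∧ (j = 1 → ¬ OkBlock p2 h w)} : Language (Pr Γ)) ∧ t2 ∈
          ({w | ∃ z3 t3, w = p3 :: (z3 ++ t3) ∧
            z3 ∈ ({w | AllBE w ∧ (j = 2 → ¬ OkBlock p3 h w)} : Language (Pr Γ)) ∧ t3 ∈
            ({w | ∃ z4 t4, w = p4 :: (z4 ++ t4) ∧
              z4 ∈ ({w | AllBE w ∧ (j = 3 → ¬ OkBlock p4 h w)} : Language (Pr Γ)) ∧ t4 ∈
              ({w | w = [p5]} : Language (Pr Γ))} : Language (Pr Γ))} : Language (Pr Γ))} :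
          Language (Pr Γ))} : Language (Pr Γ))} : Language (Pr Γ)) := by
    refine RB.ex (fun h => RB.ex (fun j => RB.ex (fun p1 => RB.ex (fun p2 => RB.ex (fun p3 =>
      RB.ex (fun p4 => RB.ex (fun p5 => ?_)))))))
    exact RB.and (RB.const _) (RB.step _ (hW h j 0 p1) (RB.step _ (hW h j 1 p2)
      (RB.step _ (hW h j 2 p3) (RB.step _ (hW h j 3 p4) (RB.single _)))))
  refine RB.congr key (fun z => ?_)
  constructor
  · rintro ⟨h, hh, p1, z1, p2, z2, p3, z3, p4, z4, p5, hz, ⟨a1, a2, a3, a4, b1, b2, b3, b4⟩, a5, hn⟩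
    have hj : ∃ j : Fin 4, (j = 0 → ¬ OkBlock p1 h z1) ∧ (j = 1 → ¬ OkBlock p2 h z2) ∧
        (j = 2 → ¬ OkBlock p3 h z3) ∧ (j = 3 → ¬ OkBlock p4 h z4) := by
      by_cases c1 : OkBlock p1 h z1
      · by_cases c2 : OkBlock p2 h z2
        · by_cases c3 : OkBlock p3 h z3
          · have c4 : ¬ OkBlock p4 h z4 := fun c4 => hn ⟨c1, c2, c3, c4⟩
            exact ⟨3, by simp, by simp, by simp, fun _ => c4⟩
          · exact ⟨2, by simp, by simp, fun _ => c3, by simp⟩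
        · exact ⟨1, by simp, fun _ => c2, by simp, by simp⟩
      · exact ⟨0, fun _ => c1, by simp, by simp, by simp⟩
    obtain ⟨j, j1, j2, j3, j4⟩ := hj
    exact ⟨h, j, p1, p2, p3, p4, p5, ⟨hh, a1, a2, a3, a4, a5⟩, z1, _, hz, ⟨b1, j1⟩,
      z2, _, rfl, ⟨b2, j2⟩, z3, _, rfl, ⟨b3, j3⟩, z4, _, rfl, ⟨b4, j4⟩, rfl⟩
  · rintro ⟨h, j, p1, p2, p3, p4, p5, ⟨hh, a1, a2, a3, a4, a5⟩, z1, t1, e1, ⟨b1, j1⟩,
      z2, t2, e2, ⟨b2, j2⟩, z3, t3, e3, ⟨b3, j3⟩, z4, t4, e4, ⟨b4, j4⟩, e5⟩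
    change t4 = [p5] at e5
    refine ⟨h, hh, p1, z1, p2, z2, p3, z3, p4, z4, p5, by rw [e1, e2, e3, e4, e5],
      ⟨a1, a2, a3, a4, b1, b2, b3, b4⟩, a5, ?_⟩
    rintro ⟨c1, c2, c3, c4⟩
    fin_cases j
    · exact j1 rfl c1
    · exact j2 rfl c2
    · exact j3 rfl c3
    · exact j4 rfl c4

theorem regular_RC [Fintype Γ] (S : Language (Γ × Γ)) (hS : S.IsRegular) :
    Language.IsRegular ({z | RC S z} : Language (Pr Γ)) := by
  have hc : Language.IsRegular ({w | AllBE w ∧ ¬ contents w ∈ S} : Language (Pr Γ)) :=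
    RB.and regular_allBE (RB.not (isRegular_comap_filterMap _ hS))
  have hb := regular_allBE (Γ := Γ)
  have key : Language.IsRegular ({z | ∃ h : ZMod 6, ∃ p1 p2 p3 p4 p5 p6 p7 p8 p9 : Pr Γ,
      ((h = 0 ∨ h = 3) ∧ (isE1 h p1 ∧ isE2 h p2 ∧ isF1 h p3 ∧ isF2 h p4) ∧
        (isE1 h p5 ∧ isE2 h p6 ∧ isF1 h p7 ∧ isF2 h p8) ∧ isE1 h p9 ∧ p4.1.1 = h + 3 ∧
        p8.1.1 = h + 4) ∧
      z ∈ ({w | ∃ z1 t1, w = p1 :: (z1 ++ t1) ∧ z1 ∈ ({w | AllBE w} : Language (Pr Γ)) ∧ t1 ∈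
       ({w | ∃ z2 t2, w = p2 :: (z2 ++ t2) ∧ z2 ∈ ({w | AllBE w} : Language (Pr Γ)) ∧ t2 ∈
        ({w | ∃ z3 t3, w = p3 :: (z3 ++ t3) ∧ z3 ∈ ({w | AllBE w} : Language (Pr Γ)) ∧ t3 ∈
         ({w | ∃ z4 t4, w = p4 :: (z4 ++ t4) ∧
           z4 ∈ ({w | AllBE w ∧ ¬ contents w ∈ S} : Language (Pr Γ)) ∧ t4 ∈
          ({w | ∃ z5 t5, w = p5 :: (z5 ++ t5) ∧ z5 ∈ ({w | AllBE w} : Language (Pr Γ)) ∧ t5 ∈
           ({w | ∃ z6 t6, w = p6 :: (z6 ++ t6) ∧ z6 ∈ ({w | AllBE w} : Language (Pr Γ)) ∧ t6 ∈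
            ({w | ∃ z7 t7, w = p7 :: (z7 ++ t7) ∧ z7 ∈ ({w | AllBE w} : Language (Pr Γ)) ∧ t7 ∈
             ({w | ∃ z8 t8, w = p8 :: (z8 ++ t8) ∧ z8 ∈ ({w | AllBE w} : Language (Pr Γ)) ∧ t8 ∈
              ({w | w = [p9]} : Language (Pr Γ))} : Language (Pr Γ))} : Language (Pr Γ))} :
                Language (Pr Γ))} : Language (Pr Γ))} : Language (Pr Γ))} : Language (Pr Γ))} :
                Language (Pr Γ))} : Language (Pr Γ))} : Language (Pr Γ)) := by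
    refine RB.ex (fun h => RB.ex (fun p1 => RB.ex (fun p2 => RB.ex (fun p3 =>
      RB.ex (fun p4 => RB.ex (fun p5 => RB.ex (fun p6 => RB.ex (fun p7 => RB.ex (fun p8 =>
      RB.ex (fun p9 => ?_))))))))))
    exact RB.and (RB.const _) (RB.step _ hb (RB.step _ hb (RB.step _ hb (RB.step _ hc
      (RB.step _ hb (RB.step _ hb (RB.step _ hb (RB.step _ hb (RB.single _)))))))))
  refine RB.congr key (fun z => ?_)
  constructor
  · rintro ⟨h, hh, p1, z1, p2, z2, p3, z3, p4, z4, p5, z5, p6, z6, p7, z7, p8, z8, p9, hz,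
      ⟨a1, a2, a3, a4, b1, b2, b3, b4⟩, ⟨a5, a6, a7, a8, b5, b6, b7, b8⟩, a9, q1, q2, q3⟩
    exact ⟨h, p1, p2, p3, p4, p5, p6, p7, p8, p9,
      ⟨hh, ⟨a1, a2, a3, a4⟩, ⟨a5, a6, a7, a8⟩, a9, q1, q2⟩,
      z1, _, hz, b1, z2, _, rfl, b2, z3, _, rfl, b3, z4, _, rfl, ⟨b4, q3⟩,
      z5, _, rfl, b5, z6, _, rfl, b6, z7, _, rfl, b7, z8, _, rfl, b8, rfl⟩
  · rintro ⟨h, p1, p2, p3, p4, p5, p6, p7, p8, p9,
      ⟨hh, ⟨a1, a2, a3, a4⟩, ⟨a5, a6, a7, a8⟩, a9, q1, q2⟩,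
      z1, t1, e1, b1, z2, t2, e2, b2, z3, t3, e3, b3, z4, t4, e4, ⟨b4, q3⟩,
      z5, t5, e5, b5, z6, t6, e6, b6, z7, t7, e7, b7, z8, t8, e8, b8, e9⟩
    change t8 = [p9] at e9
    exact ⟨h, hh, p1, z1, p2, z2, p3, z3, p4, z4, p5, z5, p6, z6, p7, z7, p8, z8, p9,
      by rw [e1, e2, e3, e4, e5, e6, e7, e8, e9],
      ⟨a1, a2, a3, a4, b1, b2, b3, b4⟩, ⟨a5, a6, a7, a8, b5, b6, b7, b8⟩, a9, q1, q2, q3⟩

theorem isRegular_RFix {Γ : Type} [Fintype Γ] [DecidableEq Γ] (S : Language (Γ × Γ))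
    (hS : S.IsRegular) :
    Language.IsRegular ({z | RFix S z ∨ RFix S (swapL z)} : Language (Pr Γ)) := by
  have h : Language.IsRegular ({z | RFix S z} : Language (Pr Γ)) :=
    RB.or regular_RLoc (RB.or regular_RU (RB.or regular_RT (regular_RC S hS)))
  exact RB.or h (isRegular_comap_map Prod.swap h)

end Star60
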