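import Mathlib

/-!
MP_1b5989_lc: the definitions used in the statement of the final result.
-/

namespace Star60

/-- `L` is recognizable: there are a finite monoid `S` and a homomorphism `h : M → S` with
`L = h⁻¹(h(L))` -/
def Recognizable {M : Type} [Monoid M] (L : Set M) : Prop :=
  ∃ (S : Type) (_ : Monoid S) (_ : Finite S) (h : M →* S), L = h ⁻¹' (h '' L)

/-- the trace congruence `∼_I`: generated by `ab = ba` for `a I b` -/
def traceCon {r : ℕ} (I : Fin r → Fin r → Prop) : Con (FreeMonoid (Fin r)) :=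
  conGen (fun u v => ∃ a b, I a b ∧ u = FreeMonoid.of a * FreeMonoid.of b ∧
    v = FreeMonoid.of b * FreeMonoid.of a)

/-- the trace monoid `M(Σ,I)` for `Σ = Fin r` -/
abbrev Trace {r : ℕ} (I : Fin r → Fin r → Prop) : Type := (traceCon I).Quotient

/-- the trace of a word -/
def tr {r : ℕ} (I : Fin r → Fin r → Prop) (w : List (Fin r)) : Trace I :=
  ((FreeMonoid.ofList w : FreeMonoid (Fin r)) : (traceCon I).Quotient)

/-- finite automaton over the alphabet `Fin r`: list of transitions, initial state, final states;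
states are natural numbers -/
abbrev Pres (r : ℕ) : Type := List (ℕ × Fin r × ℕ) × ℕ × List ℕ

/-- there is a path with label `w` from `p` to `q` -/
def RunL {r : ℕ} (T : List (ℕ × Fin r × ℕ)) : ℕ → List (Fin r) → ℕ → Prop
  | p, [], q => p = q
  | p, a :: w, q => ∃ p', (p, a, p') ∈ T ∧ RunL T p' w q

/-- the trace language presented by an automaton: the traces of the accepted words -/
def Pres.lang {r : ℕ} (I : Fin r → Fin r → Prop) (P : Pres r) : Set (Trace I) :=
  {t | ∃ (w : List (Fin r)) (q : ℕ), q ∈ P.2.2 ∧ RunL P.1 P.2.1 w q ∧ t = tr I w}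

/-- valid presentations: deterministic automata with the `I`-diamond property -/
structure Pres.Valid {r : ℕ} (I : Fin r → Fin r → Prop) (P : Pres r) : Prop where
  det : ∀ p a q q', (p, a, q) ∈ P.1 → (p, a, q') ∈ P.1 → q = q'
  diamond : ∀ p a b q s, I a b → (p, a, q) ∈ P.1 → (q, b, s) ∈ P.1 →
    ∃ q', (p, b, q') ∈ P.1 ∧ (q', a, s) ∈ P.1

/-- monoid presentation: multiplication table (triples `(x, y, xy)`), images of the letters,
the finite set `h(L)`; the elements of the monoid are named by natural numbers -/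
abbrev MPres (r : ℕ) : Type := List (ℕ × ℕ × ℕ) × List (Fin r × ℕ) × List ℕ

/-- `P` is `(S, h, h(L))` for a finite monoid `S` (elements named by `ν`) and a homomorphism
`h : M(Σ,I) → S` with `L = h⁻¹(h(L))` -/
def MPres.Presents {r : ℕ} (I : Fin r → Fin r → Prop) (P : MPres r) (L : Set (Trace I)) : Prop :=
  ∃ (S : Type) (_ : Monoid S) (_ : Finite S) (h : Trace I →* S) (ν : S → ℕ),
    Function.Injective ν ∧
    (∀ x y z, (x, y, z) ∈ P.1 ↔ ∃ s t : S, x = ν s ∧ y = ν t ∧ z = ν (s * t)) ∧
    (∀ a x, (a, x) ∈ P.2.1 ↔ x = ν (h (tr I [a]))) ∧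
    (∀ x, x ∈ P.2.2 ↔ ∃ t ∈ L, x = ν (h t)) ∧
    L = h ⁻¹' (h '' L)

end Star60
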