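import Pool.Agent.Star60.TrueDefs

/-!
MP_1b5989_lc, module TRUEBLOCK: one block of a pair of true words whose starts are base-unequal.
-/

namespace Star60

variable {Γ : Type} [DecidableEq Γ]

/-- the positions (minus one) of the digits in a block -/
theorem tb_filter_step (n : ℕ) (hn : 0 < n) :
    (List.range (3 * n)).filter (fun r => decide (n ∣ r)) = [0, n, 2 * n] := by
  apply List.Perm.eq_of_pairwise (le := (· < ·))
  · intro a b _ _ h1 h2
    omega
  · exact (List.pairwise_lt_range).filter _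
  · simp
    omega
  · rw [List.perm_ext_iff_of_nodup ((List.nodup_range).filter _) (by simp; omega)]
    intro a
    simp only [List.mem_filter, List.mem_range, decide_eq_true_eq, List.mem_cons,
      List.not_mem_nil, or_false]
    constructor
    · rintro ⟨h1, c, rfl⟩
      have : c < 3 := by
        by_contra hc
        have : n * 3 ≤ n * c := Nat.mul_le_mul_left _ (by omega)
        omega
      interval_cases c
      · left; simp
      · right; left; simp
      · right; right; ring
    · rintro (rfl | rfl | rfl)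
      · exact ⟨by omega, Nat.dvd_zero _⟩
      · exact ⟨by omega, dvd_refl _⟩
      · exact ⟨by omega, Dvd.intro_left _ rfl⟩

/-- is `s` a single digit times a power below `4^K` -/
def tbDig (K s : ℕ) : Prop := ∃ k u, k < K ∧ 1 ≤ u ∧ u ≤ 3 ∧ s = u * 4 ^ k

theorem tb_dig_step (K r : ℕ) (hr : r < 3 * 4 ^ K) :
    tbDig (K + 1) (4 ^ K + r) ↔ 4 ^ K ∣ r := by
  constructor
  · rintro ⟨k, u, hk, h1, h2, h3⟩
    have hkK : k = K := by
      by_contra hne
      have h4 : 4 ^ (k + 1) ≤ 4 ^ K := Nat.pow_le_pow_right (by norm_num) (by omega)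
      have h5 : u * 4 ^ k ≤ 3 * 4 ^ k := Nat.mul_le_mul_right _ h2
      have h6 : 4 ^ (k + 1) = 4 * 4 ^ k := by ring
      have h7 : 0 < 4 ^ k := by positivity
      omega
    subst hkK
    have : 4 ^ k ∣ 4 ^ k + r := by rw [h3]; exact Dvd.intro_left _ rfl
    exact (Nat.dvd_add_right (dvd_refl _)).1 this
  · rintro ⟨c, rfl⟩
    have hp : 0 < 4 ^ K := by positivity
    have : c < 3 := by
      by_contra hc
      have : 4 ^ K * 3 ≤ 4 ^ K * c := Nat.mul_le_mul_left _ (by omega)
      omega
    exact ⟨K, c + 1, by omega, by omega, by omega, by ring⟩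

theorem tb_dig_mono (K s : ℕ) (hs : s < 4 ^ K) : tbDig (K + 1) s ↔ tbDig K s := by
  constructor
  · rintro ⟨k, u, hk, h1, h2, h3⟩
    refine ⟨k, u, ?_, h1, h2, h3⟩
    by_contra hne
    have : k = K := by omega
    subst this
    have : 1 * 4 ^ k ≤ u * 4 ^ k := Nat.mul_le_mul_right _ h1
    omega
  · rintro ⟨k, u, hk, h1, h2, h3⟩
    exact ⟨k, u, by omega, h1, h2, h3⟩

open Classical in
theorem tb_list (K : ℕ) :
    (List.range (4 ^ K - 1)).filter (fun t => decide (tbDig K (t + 1))) =
      (List.range K).flatMap (fun k => [4 ^ k - 1, 2 * 4 ^ k - 1, 3 * 4 ^ k - 1]) := by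
  induction K with
  | zero => simp
  | succ K ih =>
    have hp : 0 < 4 ^ K := by positivity
    have e : 4 ^ (K + 1) - 1 = (4 ^ K - 1) + 3 * 4 ^ K := by
      have : 4 ^ (K + 1) = 4 * 4 ^ K := by ring
      omega
    rw [e, List.range_add, List.filter_append, List.range_succ, List.flatMap_append, ← ih]
    congr 1
    · apply List.filter_congr
      intro t ht
      rw [List.mem_range] at ht
      simp only [decide_eq_decide]
      exact tb_dig_mono K (t + 1) (by omega)
    · rw [List.filter_map]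
      have : (List.range (3 * 4 ^ K)).filter
          ((fun t => decide (tbDig (K + 1) (t + 1))) ∘ fun x => 4 ^ K - 1 + x) =
          (List.range (3 * 4 ^ K)).filter (fun r => decide (4 ^ K ∣ r)) := by
        apply List.filter_congr
        intro r hr
        rw [List.mem_range] at hr
        simp only [Function.comp, decide_eq_decide]
        rw [← tb_dig_step K r hr]
        have : 4 ^ K - 1 + r + 1 = 4 ^ K + r := by omega
        rw [this]
      rw [this, tb_filter_step _ hp]
      simp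
      omega

omit [DecidableEq Γ] in
/-- a digit position is a mismatch, the others are not -/
theorem tb_mismatch (X : ℕ → ℕ → Γ) (K M M' s : ℕ) (hM : 0 < M) (hM' : 0 < M')
    (h : bet (4 ^ K * M) ≠ bet (4 ^ K * M')) (hs : 0 < s) (hs' : s < 4 ^ K) :
    lam X (4 ^ K * M + s) ≠ lam X (4 ^ K * M' + s) ↔ tbDig K s := by
  constructor
  · intro h1
    by_contra h2
    apply h1
    apply lam_other X K M M' s hs hs'
    intro k u hk hu hu' he
    exact h2 ⟨k, u, hk, hu, hu', he⟩
  · rintro ⟨k, u, hk, h1, h2, rfl⟩ he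
    rw [lam_child X K M k u hM hk h1 h2, lam_child X K M' k u hM' hk h1 h2] at he
    apply h
    have := congrArg (fun p => p.2.1) he
    simpa using this

/-- the mismatches of a block -/
def tbM (X : ℕ → ℕ → Γ) (K M M' k u : ℕ) : Pr Γ :=
  ((3 * (k : ZMod 6) + u - 1, bet (4 ^ K * M), X (K + lev M) k),
    (3 * (k : ZMod 6) + u - 1, bet (4 ^ K * M'), X (K + lev M') k))

theorem tb_filter (X : ℕ → ℕ → Γ) (K M M' : ℕ) (hM : 0 < M) (hM' : 0 < M')
    (h : bet (4 ^ K * M) ≠ bet (4 ^ K * M')) :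
    (pw X (4 ^ K * M + 1) (4 ^ K * M' + 1) (4 ^ K - 1)).filter (fun p => decide (p.1 ≠ p.2)) =
      (List.range K).flatMap (fun k => [tbM X K M M' k 1, tbM X K M M' k 2, tbM X K M M' k 3]) := by
  classical
  unfold pw
  rw [List.filter_map]
  have e1 : (List.range (4 ^ K - 1)).filter
      ((fun p : Pr Γ => decide (p.1 ≠ p.2)) ∘
        fun t => (lam X (4 ^ K * M + 1 + t), lam X (4 ^ K * M' + 1 + t))) =
      (List.range (4 ^ K - 1)).filter (fun t => decide (tbDig K (t + 1))) := by
    apply List.filter_congr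
    intro t ht
    rw [List.mem_range] at ht
    simp only [Function.comp, decide_eq_decide]
    rw [← tb_mismatch X K M M' (t + 1) hM hM' h (by omega) (by omega)]
    have a1 : 4 ^ K * M + 1 + t = 4 ^ K * M + (t + 1) := by ring
    have a2 : 4 ^ K * M' + 1 + t = 4 ^ K * M' + (t + 1) := by ring
    rw [a1, a2]
  rw [e1, tb_list, List.map_flatMap]
  apply List.flatMap_congr
  intro k hk
  rw [List.mem_range] at hk
  have hp : 0 < 4 ^ k := by positivity
  have b : ∀ M u, 1 ≤ u → 4 ^ K * M + 1 + (u * 4 ^ k - 1) = 4 ^ K * M + u * 4 ^ k := by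
    intro M u hu
    have : 1 * 4 ^ k ≤ u * 4 ^ k := Nat.mul_le_mul_right _ hu
    omega
  have b1 : ∀ M, 4 ^ K * M + 1 + (4 ^ k - 1) = 4 ^ K * M + 1 * 4 ^ k := by
    intro M
    omega
  simp only [List.map_cons, List.map_nil, b1, b _ 2 (by norm_num), b _ 3 (by norm_num)]
  rw [lam_child X K M k 1 hM hk (by norm_num) (by norm_num),
    lam_child X K M' k 1 hM' hk (by norm_num) (by norm_num),
    lam_child X K M k 2 hM hk (by norm_num) (by norm_num),
    lam_child X K M' k 2 hM' hk (by norm_num) (by norm_num),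
    lam_child X K M k 3 hM hk (by norm_num) (by norm_num),
    lam_child X K M' k 3 hM' hk (by norm_num) (by norm_num)]
  rfl

omit [DecidableEq Γ] in
theorem block_allBE (X : ℕ → ℕ → Γ) (K M M' : ℕ) :
    AllBE (pw X (4 ^ K * M + 1) (4 ^ K * M' + 1) (4 ^ K - 1)) := by
  intro p hp
  unfold pw at hp
  rw [List.mem_map] at hp
  obtain ⟨t, ht, rfl⟩ := hp
  rw [List.mem_range] at ht
  have hpos : 0 < 4 ^ K := by positivity
  show bet (4 ^ K * M + 1 + t) = bet (4 ^ K * M' + 1 + t)
  obtain ⟨k, u, q, hk, h1, h2, h3, h4⟩ := form_block K (t + 1) (by omega) (by omega)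
  have a1 : 4 ^ K * M + 1 + t = 4 ^ K * M + (t + 1) := by ring
  have a2 : 4 ^ K * M' + 1 + t = 4 ^ K * M' + (t + 1) := by ring
  rw [a1, a2, h4, h4, bet_form _ _ _ h1 h2, bet_form _ _ _ h1 h2]

theorem block_mis (X : ℕ → ℕ → Γ) (K M M' : ℕ) (hM : 0 < M) (hM' : 0 < M')
    (h : bet (4 ^ K * M) ≠ bet (4 ^ K * M')) :
    mis (pw X (4 ^ K * M + 1) (4 ^ K * M' + 1) (4 ^ K - 1)) = 3 * K := by
  unfold mis
  rw [List.countP_eq_length_filter, tb_filter X K M M' hM hM' h, List.length_flatMap]
  simp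
  ring

theorem block_ok (X : ℕ → ℕ → Γ) (K M M' : ℕ) (hM : 0 < M) (hM' : 0 < M')
    (h : bet (4 ^ K * M) ≠ bet (4 ^ K * M')) :
    OkBlock (lam X (4 ^ K * M), lam X (4 ^ K * M')) (3 * K)
      (pw X (4 ^ K * M + 1) (4 ^ K * M' + 1) (4 ^ K - 1)) := by
  constructor
  · intro p hp hne
    have hp' : p ∈ (pw X (4 ^ K * M + 1) (4 ^ K * M' + 1) (4 ^ K - 1)).filter
        (fun p => decide (p.1 ≠ p.2)) := by
      rw [List.mem_filter]
      exact ⟨hp, by simpa using hne⟩
    rw [tb_filter X K M M' hM hM' h, List.mem_flatMap] at hp'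
    obtain ⟨k, _, hk⟩ := hp'
    simp only [List.mem_cons, List.not_mem_nil, or_false] at hk
    rcases hk with rfl | rfl | rfl <;> exact ⟨rfl, rfl⟩
  · rw [block_mis X K M M' hM hM' h]
    push_cast
    rfl

theorem block_contents (X : ℕ → ℕ → Γ) (K M M' : ℕ) (hM : 0 < M) (hM' : 0 < M')
    (h : bet (4 ^ K * M) ≠ bet (4 ^ K * M')) :
    contents (pw X (4 ^ K * M + 1) (4 ^ K * M' + 1) (4 ^ K - 1)) =
      (List.range K).map (fun k => (X (K + lev M) k, X (K + lev M') k)) := by
  have e : ∀ z : List (Pr Γ), contents z =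
      (z.filter (fun p => decide (p.1 ≠ p.2))).filterMap
        (fun p => if (p.1.1 = 0 ∨ p.1.1 = 3) then some (p.1.2.2, p.2.2.2) else none) := by
    intro z
    unfold contents
    induction z with
    | nil => rfl
    | cons a z ih =>
      rw [List.filterMap_cons, List.filter_cons, ih]
      by_cases h1 : a.1 = a.2
      · simp [h1]
      · simp [h1, List.filterMap_cons]
  rw [e, tb_filter X K M M' hM hM' h, List.filterMap_flatMap, List.map_eq_flatMap]
  apply List.flatMap_congr
  intro k _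
  have c1 : ∀ c : ZMod 6, (3 * c + ((1 : ℕ) : ZMod 6) - 1 = 0 ∨ 3 * c + ((1 : ℕ) : ZMod 6) - 1 = 3) := by
    decide
  have c2 : ∀ c : ZMod 6,
      ¬ (3 * c + ((2 : ℕ) : ZMod 6) - 1 = 0 ∨ 3 * c + ((2 : ℕ) : ZMod 6) - 1 = 3) := by
    decide
  have c3 : ∀ c : ZMod 6,
      ¬ (3 * c + ((3 : ℕ) : ZMod 6) - 1 = 0 ∨ 3 * c + ((3 : ℕ) : ZMod 6) - 1 = 3) := by
    decide
  simp only [List.filterMap_cons, List.filterMap_nil, tbM, if_pos (c1 _), if_neg (c2 _),
    if_neg (c3 _)]

theorem block_firstL (isL : Γ → Bool) (X : ℕ → ℕ → Γ) (K M M' : ℕ) (hK : 1 ≤ K) (hM : 0 < M)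
    (hM' : 0 < M') (h : bet (4 ^ K * M) ≠ bet (4 ^ K * M')) :
    firstL isL (pw X (4 ^ K * M + 1) (4 ^ K * M' + 1) (4 ^ K - 1)) ↔
      isL (X (K + lev M) 0) = true := by
  obtain ⟨l, hl⟩ : ∃ l, 4 ^ K - 1 = l + 1 := by
    have : 4 ^ 1 ≤ 4 ^ K := Nat.pow_le_pow_right (by norm_num) hK
    exact ⟨4 ^ K - 2, by omega⟩
  have hz : pw X (4 ^ K * M + 1) (4 ^ K * M' + 1) (4 ^ K - 1) =
      tbM X K M M' 0 1 :: pw X (4 ^ K * M + 2) (4 ^ K * M' + 2) l := by
    unfold pw
    rw [hl, List.range_succ_eq_map, List.map_cons, List.map_map]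
    congr 1
    · have c1 := lam_child X K M 0 1 hM hK (by norm_num) (by norm_num)
      have c2 := lam_child X K M' 0 1 hM' hK (by norm_num) (by norm_num)
      simp only [one_mul, pow_zero] at c1 c2
      rw [add_zero, add_zero, c1, c2]
      rfl
    · apply List.map_congr_left
      intro t _
      simp only [Function.comp, Nat.succ_eq_add_one]
      have a1 : 4 ^ K * M + 1 + (t + 1) = 4 ^ K * M + 2 + t := by ring
      have a2 : 4 ^ K * M' + 1 + (t + 1) = 4 ^ K * M' + 2 + t := by ring
      rw [a1, a2]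
  have hne : (tbM X K M M' 0 1).1 ≠ (tbM X K M M' 0 1).2 := by
    intro he
    apply h
    have := congrArg (fun p => p.2.1) he
    simpa [tbM] using this
  rw [hz]
  constructor
  · rintro ⟨y, q, y', h1, h2, h3, h4⟩
    cases y with
    | nil =>
      simp only [List.nil_append, List.cons.injEq] at h1
      rw [← h1.1] at h4
      exact h4
    | cons a y =>
      simp only [List.cons_append, List.cons.injEq] at h1
      exfalso
      apply hne
      have := h2 a (by simp)
      rw [← h1.1] at this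
      exact this
  · intro h1
    exact ⟨[], _, _, rfl, by simp, hne, h1⟩

end Star60
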