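import Pool.Agent.Star60.Words

/-!
MP_1b5989_lc, module TRUEDEFS: the true (hierarchical) word, base 4, and the arithmetic of its
letters.  See blueprint 1 and 1A.
-/

namespace Star60

/-- number of trailing zeros in base 4 -/
def lev (x : ℕ) : ℕ := Nat.findGreatest (fun k => 4 ^ k ∣ x) x
/-- last nonzero digit in base 4 -/
def dig (x : ℕ) : ℕ := x / 4 ^ lev x % 4
/-- delete the last nonzero digit -/
def par (x : ℕ) : ℕ := x - dig x * 4 ^ lev x
/-- base letter -/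
def bet (x : ℕ) : ZMod 6 := 3 * (lev x : ZMod 6) + (dig x : ZMod 6) - 1
/-- the letter at coordinate `x` -/
def lam {Γ : Type} (X : ℕ → ℕ → Γ) (x : ℕ) : Lt Γ := (bet x, bet (par x), X (lev (par x)) (lev x))
/-- pair words of the true word -/
def pw {Γ : Type} (X : ℕ → ℕ → Γ) (a b l : ℕ) : List (Pr Γ) :=
  (List.range l).map (fun t : ℕ => (lam X (a + t), lam X (b + t)))

theorem exists_form (x : ℕ) (hx : 0 < x) : ∃ k u q, 1 ≤ u ∧ u ≤ 3 ∧ x = 4 ^ k * (4 * q + u) := by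
  induction x using Nat.strong_induction_on with
  | _ x ih =>
    by_cases h : 4 ∣ x
    · obtain ⟨y, rfl⟩ := h
      obtain ⟨k, u, q, h1, h2, h3⟩ := ih y (by omega) (by omega)
      exact ⟨k + 1, u, q, h1, h2, by rw [h3]; ring⟩
    · exact ⟨0, x % 4, x / 4, by omega, by omega, by omega⟩

theorem lev_form (k u q : ℕ) (hu : 1 ≤ u) (hu' : u ≤ 3) : lev (4 ^ k * (4 * q + u)) = k := by
  unfold lev
  rw [Nat.findGreatest_eq_iff]
  refine ⟨?_, fun _ => Dvd.intro _ rfl, ?_⟩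
  · have h1 : k < 4 ^ k := Nat.lt_pow_self (by norm_num)
    have h2 : 4 ^ k * 1 ≤ 4 ^ k * (4 * q + u) := Nat.mul_le_mul_left _ (by omega)
    omega
  · intro n hn _ hd
    have h1 : 4 ^ (k + 1) ∣ 4 ^ k * (4 * q + u) := (pow_dvd_pow 4 hn).trans hd
    rw [pow_succ] at h1
    have h2 : 4 ∣ 4 * q + u := Nat.dvd_of_mul_dvd_mul_left (by positivity) h1
    omega

theorem dig_form (k u q : ℕ) (hu : 1 ≤ u) (hu' : u ≤ 3) : dig (4 ^ k * (4 * q + u)) = u := by
  unfold dig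
  rw [lev_form k u q hu hu', Nat.mul_div_cancel_left _ (by positivity)]
  omega

theorem par_form (k u q : ℕ) (hu : 1 ≤ u) (hu' : u ≤ 3) :
    par (4 ^ k * (4 * q + u)) = 4 ^ (k + 1) * q := by
  unfold par
  rw [lev_form k u q hu hu', dig_form k u q hu hu']
  have : 4 ^ k * (4 * q + u) = 4 ^ (k + 1) * q + u * 4 ^ k := by ring
  omega

theorem bet_form (k u q : ℕ) (hu : 1 ≤ u) (hu' : u ≤ 3) :
    bet (4 ^ k * (4 * q + u)) = 3 * (k : ZMod 6) + u - 1 := by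
  unfold bet
  rw [lev_form k u q hu hu', dig_form k u q hu hu']

theorem lev_mul_pow (K M : ℕ) (hM : 0 < M) : lev (4 ^ K * M) = K + lev M := by
  obtain ⟨k, u, q, h1, h2, rfl⟩ := exists_form M hM
  have : 4 ^ K * (4 ^ k * (4 * q + u)) = 4 ^ (K + k) * (4 * q + u) := by ring
  rw [this, lev_form _ _ _ h1 h2, lev_form _ _ _ h1 h2]

theorem bet_mul_pow (K M : ℕ) (hM : 0 < M) : bet (4 ^ K * M) = 3 * (K : ZMod 6) + bet M := by
  obtain ⟨k, u, q, h1, h2, rfl⟩ := exists_form M hM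
  have : 4 ^ K * (4 ^ k * (4 * q + u)) = 4 ^ (K + k) * (4 * q + u) := by ring
  rw [this, bet_form _ _ _ h1 h2, bet_form _ _ _ h1 h2]
  push_cast
  ring

/-- the form of a nonzero position inside a block -/
theorem form_block (K s : ℕ) (hs : 0 < s) (hs' : s < 4 ^ K) :
    ∃ k u q, k < K ∧ 1 ≤ u ∧ u ≤ 3 ∧ s = 4 ^ k * (4 * q + u) ∧
      ∀ M, 4 ^ K * M + s = 4 ^ k * (4 * (4 ^ (K - k - 1) * M + q) + u) := by
  obtain ⟨k, u, q, h1, h2, h3⟩ := exists_form s hs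
  have hk : k < K := by
    by_contra hc
    have h4 : 4 ^ K ≤ 4 ^ k := Nat.pow_le_pow_right (by norm_num) (by omega)
    have h5 : 4 ^ k * 1 ≤ 4 ^ k * (4 * q + u) := Nat.mul_le_mul_left _ (by omega)
    omega
  refine ⟨k, u, q, hk, h1, h2, h3, fun M => ?_⟩
  have h6 : 4 ^ K = 4 ^ k * (4 * 4 ^ (K - k - 1)) := by
    rw [← pow_succ', ← pow_add]
    congr 1
    omega
  rw [h3, h6]
  ring

/-- levels below `K` only depend on the residue mod `4^K` -/
theorem bet_eq_of_modEq (K x x' : ℕ) (h : x ≡ x' [MOD 4 ^ K]) (hx : ¬ 4 ^ K ∣ x) :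
    bet x = bet x' := by
  have hpos : 0 < 4 ^ K := by positivity
  have hs : 0 < x % 4 ^ K := Nat.pos_of_ne_zero (fun h0 => hx (Nat.dvd_of_mod_eq_zero h0))
  obtain ⟨k, u, q, hk, h1, h2, h3, h4⟩ := form_block K (x % 4 ^ K) hs (Nat.mod_lt _ hpos)
  have e1 : x = 4 ^ K * (x / 4 ^ K) + x % 4 ^ K := (Nat.div_add_mod _ _).symm
  have e2 : x' = 4 ^ K * (x' / 4 ^ K) + x % 4 ^ K := by
    rw [h]
    exact (Nat.div_add_mod _ _).symm
  rw [h4] at e1 e2
  rw [e1, e2, bet_form _ _ _ h1 h2, bet_form _ _ _ h1 h2]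

/-- letters at `s = u 4^k` in the block of `4^K M` -/
theorem lam_child {Γ : Type} (X : ℕ → ℕ → Γ) (K M k u : ℕ) (hM : 0 < M) (hk : k < K) (hu : 1 ≤ u)
    (hu' : u ≤ 3) : lam X (4 ^ K * M + u * 4 ^ k) =
      (3 * (k : ZMod 6) + u - 1, bet (4 ^ K * M), X (K + lev M) k) := by
  have h6 : 4 ^ K = 4 ^ k * (4 * 4 ^ (K - k - 1)) := by
    rw [← pow_succ', ← pow_add]
    congr 1
    omega
  have h7 : 4 ^ K * M + u * 4 ^ k = 4 ^ k * (4 * (4 ^ (K - k - 1) * M) + u) := by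
    rw [h6]; ring
  have h8 : par (4 ^ K * M + u * 4 ^ k) = 4 ^ K * M := by
    rw [h7, par_form _ _ _ hu hu', h6]
    ring
  unfold lam
  rw [h8, lev_mul_pow K M hM]
  rw [h7, bet_form _ _ _ hu hu', lev_form _ _ _ hu hu']

/-- letters in the block of `4^K M` at `s` with at least two nonzero digits do not depend on `M` -/
theorem lam_other {Γ : Type} (X : ℕ → ℕ → Γ) (K M M' s : ℕ) (hs : 0 < s) (hs' : s < 4 ^ K)
    (h : ∀ k u, k < K → 1 ≤ u → u ≤ 3 → s ≠ u * 4 ^ k) :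
    lam X (4 ^ K * M + s) = lam X (4 ^ K * M' + s) := by
  obtain ⟨k, u, q, hk, h1, h2, h3, h4⟩ := form_block K s hs hs'
  have hq : 0 < q := by
    rcases Nat.eq_zero_or_pos q with rfl | hq
    · exact absurd (by rw [h3]; ring) (h k u hk h1 h2)
    · exact hq
  have hs2 : 4 ^ (k + 1) * q < 4 ^ K := by
    have : 4 ^ k * (4 * q + u) = 4 ^ (k + 1) * q + u * 4 ^ k := by ring
    omega
  obtain ⟨k', u', q', hk', h1', h2', h3', h4'⟩ := form_block K (4 ^ (k + 1) * q)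
    (by positivity) hs2
  have hp : ∀ M, par (4 ^ K * M + s) = 4 ^ K * M + 4 ^ (k + 1) * q := by
    intro M
    have h6 : 4 ^ K = 4 ^ (k + 1) * 4 ^ (K - k - 1) := by
      rw [← pow_add]
      congr 1
      omega
    rw [h4, par_form _ _ _ h1 h2]
    conv_rhs => rw [h6]
    ring
  have key : ∀ M, lam X (4 ^ K * M + s) =
      (3 * (k : ZMod 6) + u - 1, 3 * (k' : ZMod 6) + u' - 1, X k' k) := by
    intro M
    unfold lam
    rw [hp, h4', bet_form _ _ _ h1' h2', lev_form _ _ _ h1' h2', h4, bet_form _ _ _ h1 h2,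
      lev_form _ _ _ h1 h2]
  rw [key, key]

end Star60
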